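import Pool.Agent.H35.RF.Words

/-! # W2: the algebra of the types of tuples -/

namespace H35.RS.RF
open H35.RS H35.RS.Up

/-- class pattern P1 of a tuple of types -/
def P1t (t : Fin 13 → Ty) (c : Bool) : Prop := (t 0).1 = c ∧ ∀ j : Fin 12, (t j.succ).1 = cls j

/-- class pattern P2 of a tuple of types -/
def P2t (t : Fin 13 → Ty) (c : Bool) : Prop :=
  (∀ j : Fin 12, (t j.castSucc).1 = cls j) ∧ (t 12).1 = c

/-! ### Types -/

theorem mem_St {t : Ty} {a : Lt} : a ∈ St t ↔ a.1 = t.1 ∧ (t.2 = none ∨ a.2 ≠ t.2) := Iff.rfl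

theorem alg_other : ∀ d : Col, ∃ d' : Col, d' ≠ d := by
  decide

theorem St_inj {τ τ' : Ty} (h : St τ = St τ') : τ = τ' := by
  obtain ⟨c, o⟩ := τ
  obtain ⟨c', o'⟩ := τ'
  have hc : c = c' := by
    have h1 : ((c, none) : Lt) ∈ St (c, o) := by
      refine ⟨rfl, ?_⟩
      cases o with
      | none => exact Or.inl rfl
      | some d => exact Or.inr (by simp)
    rw [h] at h1
    exact h1.1
  subst hc
  rw [Prod.mk.injEq]
  refine ⟨rfl, ?_⟩
  cases o with
  | none =>
    cases o' with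
    | none => rfl
    | some d' =>
      have h1 : ((c, some d') : Lt) ∈ St (c, none) := ⟨rfl, Or.inl rfl⟩
      rw [h] at h1
      rcases h1.2 with h2 | h2
      · simp at h2
      · exact absurd rfl h2
  | some d =>
    cases o' with
    | none =>
      have h1 : ((c, some d) : Lt) ∈ St (c, none) := ⟨rfl, Or.inl rfl⟩
      rw [← h] at h1
      rcases h1.2 with h2 | h2
      · simp at h2
      · exact absurd rfl h2
    | some d' =>
      by_contra hne
      have h1 : ((c, some d) : Lt) ∈ St (c, some d') := ⟨rfl, Or.inr hne⟩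
      rw [← h] at h1
      rcases h1.2 with h2 | h2
      · simp at h2
      · exact absurd rfl h2

theorem star_mem_St (c : Bool) (o : Option Col) : ((c, none) : Lt) ∈ St (c, o) := by
  refine ⟨rfl, ?_⟩
  cases o with
  | none => exact Or.inl rfl
  | some d => exact Or.inr (by simp)

theorem St_ne {τ : Ty} : St τ ≠ ∅ := by
  intro h
  have := star_mem_St τ.1 τ.2
  rw [Prod.mk.eta, h] at this
  exact this

/-! ### The sets which occur -/

/-- the letters of class `c` which are allowed by `v` or by some `u d` -/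
def alS (c : Bool) (v : Prop) (u : Col → Prop) : Set Lt :=
  {a | a.1 = c ∧ (v ∨ ∃ d : Col, a.2 ≠ some d ∧ u d)}

theorem alS_v {c : Bool} {v : Prop} {u : Col → Prop} (h : v) : alS c v u = St (c, none) := by
  ext a
  simp only [alS, Set.mem_setOf_eq, mem_St]
  simp [h]

theorem alS_empty {c : Bool} {v : Prop} {u : Col → Prop} (h : ¬ v) (h1 : ∀ d, ¬ u d) :
    alS c v u = ∅ := by
  ext a
  simp only [alS, Set.mem_setOf_eq, Set.mem_empty_iff_false, iff_false]
  rintro ⟨-, h2 | ⟨d, -, h2⟩⟩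
  · exact h h2
  · exact h1 d h2

theorem alS_one {c : Bool} {v : Prop} {u : Col → Prop} (h : ¬ v) {d : Col} (hd : u d)
    (h1 : ∀ d', d' ≠ d → ¬ u d') : alS c v u = St (c, some d) := by
  ext a
  simp only [alS, Set.mem_setOf_eq, mem_St]
  refine and_congr_right fun _ => ?_
  constructor
  · rintro (h2 | ⟨d', h3, h2⟩)
    · exact absurd h2 h
    · by_cases hdd : d' = d
      · subst hdd
        exact Or.inr h3
      · exact absurd h2 (h1 d' hdd)
  · rintro (h2 | h2)
    · simp at h2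
    · exact Or.inr ⟨d, h2, hd⟩

theorem alS_two {c : Bool} {v : Prop} {u : Col → Prop} {d d' : Col} (hd : u d) (hd' : u d')
    (hne : d ≠ d') : alS c v u = St (c, none) := by
  ext a
  simp only [alS, Set.mem_setOf_eq, mem_St]
  refine and_congr_right fun _ => ⟨fun _ => Or.inl trivial, fun _ => Or.inr ?_⟩
  by_cases h : a.2 = some d
  · refine ⟨d', ?_, hd'⟩
    rw [h]
    intro h2
    exact hne (Option.some.inj h2)
  · exact ⟨d, h, hd⟩

theorem alS_cases (c : Bool) (v : Prop) (u : Col → Prop) : alS c v u = ∅ ∨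
    ∃ o : Option Col, alS c v u = St (c, o) := by
  by_cases h : v
  · exact Or.inr ⟨none, alS_v h⟩
  · by_cases h1 : ∃ d, u d
    · obtain ⟨d, hd⟩ := h1
      by_cases h2 : ∃ d', d' ≠ d ∧ u d'
      · obtain ⟨d', hne, hd'⟩ := h2
        exact Or.inr ⟨none, alS_two hd' hd hne⟩
      · push Not at h2
        exact Or.inr ⟨some d, alS_one h hd h2⟩
    · push Not at h1
      exact Or.inl (alS_empty h h1)

theorem alS_eq_some {c c' : Bool} {v : Prop} {u : Col → Prop} {d : Col}
    (h : alS c v u = St (c', some d)) : c = c' ∧ ¬ v ∧ u d ∧ ∀ d', d' ≠ d → ¬ u d' := by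
  by_cases hv : v
  · rw [alS_v hv] at h
    have := St_inj h
    simp at this
  by_cases h1 : ∃ d, u d
  · obtain ⟨e, he⟩ := h1
    by_cases h2 : ∃ d', d' ≠ e ∧ u d'
    · obtain ⟨d', hne, hd'⟩ := h2
      rw [alS_two hd' he hne] at h
      have := St_inj h
      simp at this
    · push Not at h2
      rw [alS_one hv he h2] at h
      have := St_inj h
      simp only [Prod.mk.injEq, Option.some.injEq] at this
      obtain ⟨rfl, rfl⟩ := this
      exact ⟨rfl, hv, he, h2⟩
  · push Not at h1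
    rw [alS_empty hv h1] at h
    exact absurd h.symm St_ne

/-! ### Acceptance -/

/-- the letter (not `x`) or star is allowed by the type `τ` -/
def ok (x τ : Option Col) : Prop := τ = none ∨ x ≠ τ

theorem ok_none (τ : Option Col) : ok none τ := by
  cases τ with
  | none => exact Or.inl rfl
  | some d => exact Or.inr (by simp)

/-- the word with the parameters `k, c, xd, l` is accepted by the types `τ₀`, `τ` -/
def acc (k : Fin 3) (c : Bool) (xd : Col) (l : Option (Fin 12)) (τ₀ : Option Col)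
    (τ : Fin 12 → Option Col) : Prop := ok (xl k c xd l) τ₀ ∧ ∀ j, ok (md k c xd l j) (τ j)

theorem acc_pat1 {k : Fin 3} (hk : k ≠ 2) {c c' : Bool} {xd : Col} {l : Option (Fin 12)}
    {t : Fin 13 → Ty} (ht : P1t t c) :
    (∀ o, W k c' xd l o ∈ St (t o)) ↔ c' = c ∧ acc k c' xd l (t 0).2 (fun j => (t j.succ).2) := by
  unfold W pat1 acc ok
  rw [if_neg hk, Fin.forall_fin_succ]
  simp only [Fin.cons_zero, Fin.cons_succ, mem_St, ht.1, ht.2, true_and]
  constructor
  · rintro ⟨⟨h1, h2⟩, h3⟩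
    exact ⟨h1, h2, h3⟩
  · rintro ⟨h1, h2, h3⟩
    exact ⟨⟨h1, h2⟩, h3⟩

theorem acc_pat2 {c c' : Bool} {xd : Col} {l : Option (Fin 12)}
    {t : Fin 13 → Ty} (ht : P2t t c) :
    (∀ o, W 2 c' xd l o ∈ St (t o)) ↔
      c' = c ∧ acc 2 c' xd l (t 12).2 (fun j => (t j.castSucc).2) := by
  unfold W pat2 acc ok
  have h12 : (Fin.last 12 : Fin 13) = 12 := rfl
  rw [if_pos rfl, Fin.forall_fin_succ']
  simp only [Fin.snoc_castSucc, mem_St, ht.1, true_and, h12, ht.2]
  constructor
  · rintro ⟨h3, h1, h2⟩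
    exact ⟨h1, h2, h3⟩
  · rintro ⟨h1, h2, h3⟩
    exact ⟨h3, h1, h2⟩

/-- class pattern of accepted words -/
theorem acc_class1 {k : Fin 3} (hk : k ≠ 2) {c' : Bool} {xd : Col} {l : Option (Fin 12)}
    {t : Fin 13 → Ty} (h : ∀ o, W k c' xd l o ∈ St (t o)) : P1t t c' := by
  unfold W pat1 at h
  rw [if_neg hk, Fin.forall_fin_succ] at h
  simp only [Fin.cons_zero, Fin.cons_succ, mem_St] at h
  exact ⟨h.1.1.symm, fun j => (h.2 j).1.symm⟩

theorem acc_class2 {c' : Bool} {xd : Col} {l : Option (Fin 12)}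
    {t : Fin 13 → Ty} (h : ∀ o, W 2 c' xd l o ∈ St (t o)) : P2t t c' := by
  unfold W pat2 at h
  have h12 : (Fin.last 12 : Fin 13) = 12 := rfl
  rw [if_pos rfl, Fin.forall_fin_succ'] at h
  simp only [Fin.snoc_castSucc, Fin.snoc_last, mem_St, h12] at h
  exact ⟨fun j => (h.1 j).1.symm, h.2.1.symm⟩

theorem P_excl {t : Fin 13 → Ty} {c c' : Bool} (h : P1t t c) (h' : P2t t c') : False := by
  have h1 := h.2 5
  have h2 := h'.1 6
  have e : (Fin.succ (5 : Fin 12) : Fin 13) = Fin.castSucc (6 : Fin 12) := rfl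
  rw [e, h2] at h1
  revert h1
  decide

/-! ### The sets `Th t` -/

/-- accepted by a word of `V` of pattern P1 -/
def v1 (c : Bool) (t : Fin 13 → Ty) : Prop := ∃ l : Fin 12,
  acc 0 c 0 (some l) (t 0).2 (fun j => (t j.succ).2) ∨
  acc 0 c 1 (some l) (t 0).2 (fun j => (t j.succ).2) ∨
  acc 1 c 2 (some l) (t 0).2 (fun j => (t j.succ).2) ∨
  acc 1 c 3 (some l) (t 0).2 (fun j => (t j.succ).2)

/-- accepted by a word of `U_d` of pattern P1 -/
def u1 (c : Bool) (t : Fin 13 → Ty) (d : Col) : Prop :=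
  (d = 0 ∧ acc 0 c 1 none (t 0).2 (fun j => (t j.succ).2)) ∨
  (d = 1 ∧ acc 0 c 0 none (t 0).2 (fun j => (t j.succ).2)) ∨
  (d = 2 ∧ acc 1 c 3 none (t 0).2 (fun j => (t j.succ).2)) ∨
  (d = 3 ∧ acc 1 c 2 none (t 0).2 (fun j => (t j.succ).2))

/-- accepted by a word of `V` of pattern P2 -/
def v2 (c : Bool) (t : Fin 13 → Ty) : Prop := ∃ l : Fin 12, l ≠ 1 ∧
  (acc 2 c 0 (some l) (t 12).2 (fun j => (t j.castSucc).2) ∨
  acc 2 c 1 (some l) (t 12).2 (fun j => (t j.castSucc).2))

/-- accepted by a word of `U_d` of pattern P2 -/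
def u2 (c : Bool) (t : Fin 13 → Ty) (d : Col) : Prop :=
  (d = 2 ∧ acc 2 c 1 none (t 12).2 (fun j => (t j.castSucc).2)) ∨
  (d = 3 ∧ acc 2 c 0 none (t 12).2 (fun j => (t j.castSucc).2))

theorem Th_P1 {t : Fin 13 → Ty} {c : Bool} (ht : P1t t c) : Th t = alS c (v1 c t) (u1 c t) := by
  have hA : ∀ {k : Fin 3} (hk : k ≠ 2) {c' : Bool} {xd : Col} {l : Option (Fin 12)},
      (∀ o, W k c' xd l o ∈ St (t o)) ↔ c' = c ∧ acc k c' xd l (t 0).2 (fun j => (t j.succ).2) :=
    fun hk => acc_pat1 hk ht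
  have hB : ∀ {c' : Bool} {xd : Col} {l : Option (Fin 12)}, ¬ ∀ o, W 2 c' xd l o ∈ St (t o) :=
    fun h => P_excl ht (acc_class2 h)
  ext a
  simp only [Th, Set.mem_setOf_eq, alS]
  constructor
  · rintro ⟨w, hw, h⟩
    rcases mem_ths.1 hw with h1 | ⟨d, hd, h1⟩
    · rcases mem_Vs.1 h1 with ⟨l, rfl⟩ | ⟨l, rfl⟩ | ⟨l, rfl⟩ | ⟨l, rfl⟩ | ⟨l, hl, rfl⟩ | ⟨l, hl, rfl⟩
      · obtain ⟨h2, h3⟩ := (hA (by decide)).1 h
        rw [h2] at h3
        exact ⟨h2, Or.inl ⟨l, Or.inl h3⟩⟩
      · obtain ⟨h2, h3⟩ := (hA (by decide)).1 h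
        rw [h2] at h3
        exact ⟨h2, Or.inl ⟨l, Or.inr (Or.inl h3)⟩⟩
      · obtain ⟨h2, h3⟩ := (hA (by decide)).1 h
        rw [h2] at h3
        exact ⟨h2, Or.inl ⟨l, Or.inr (Or.inr (Or.inl h3))⟩⟩
      · obtain ⟨h2, h3⟩ := (hA (by decide)).1 h
        rw [h2] at h3
        exact ⟨h2, Or.inl ⟨l, Or.inr (Or.inr (Or.inr h3))⟩⟩
      · exact absurd h hB
      · exact absurd h hB
    · rcases mem_Us.1 h1 with ⟨rfl, rfl⟩ | ⟨rfl, rfl⟩ | ⟨rfl, rfl | rfl⟩ | ⟨rfl, rfl | rfl⟩
      · obtain ⟨h2, h3⟩ := (hA (by decide)).1 h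
        rw [h2] at h3
        exact ⟨h2, Or.inr ⟨0, hd, Or.inl ⟨rfl, h3⟩⟩⟩
      · obtain ⟨h2, h3⟩ := (hA (by decide)).1 h
        rw [h2] at h3
        exact ⟨h2, Or.inr ⟨1, hd, Or.inr (Or.inl ⟨rfl, h3⟩)⟩⟩
      · obtain ⟨h2, h3⟩ := (hA (by decide)).1 h
        rw [h2] at h3
        exact ⟨h2, Or.inr ⟨2, hd, Or.inr (Or.inr (Or.inl ⟨rfl, h3⟩))⟩⟩
      · exact absurd h hB
      · obtain ⟨h2, h3⟩ := (hA (by decide)).1 h
        rw [h2] at h3
        exact ⟨h2, Or.inr ⟨3, hd, Or.inr (Or.inr (Or.inr ⟨rfl, h3⟩))⟩⟩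
      · exact absurd h hB
  · rintro ⟨hc, h | ⟨d, hd, h⟩⟩
    · obtain ⟨l, h | h | h | h⟩ := h
      · exact ⟨W 0 a.1 0 (some l), mem_ths.2 (Or.inl (mem_Vs.2 (Or.inl ⟨l, rfl⟩))),
          (hA (by decide)).2 ⟨hc, by rw [hc]; exact h⟩⟩
      · exact ⟨W 0 a.1 1 (some l), mem_ths.2 (Or.inl (mem_Vs.2 (Or.inr (Or.inl ⟨l, rfl⟩)))),
          (hA (by decide)).2 ⟨hc, by rw [hc]; exact h⟩⟩
      · exact ⟨W 1 a.1 2 (some l), mem_ths.2 (Or.inl (mem_Vs.2 (Or.inr (Or.inr (Or.inl ⟨l, rfl⟩))))),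
          (hA (by decide)).2 ⟨hc, by rw [hc]; exact h⟩⟩
      · exact ⟨W 1 a.1 3 (some l),
          mem_ths.2 (Or.inl (mem_Vs.2 (Or.inr (Or.inr (Or.inr (Or.inl ⟨l, rfl⟩)))))),
          (hA (by decide)).2 ⟨hc, by rw [hc]; exact h⟩⟩
    · rcases h with ⟨rfl, h⟩ | ⟨rfl, h⟩ | ⟨rfl, h⟩ | ⟨rfl, h⟩
      · exact ⟨W 0 a.1 1 none, mem_ths.2 (Or.inr ⟨0, hd, mem_Us.2 (Or.inl ⟨rfl, rfl⟩)⟩),
          (hA (by decide)).2 ⟨hc, by rw [hc]; exact h⟩⟩
      · exact ⟨W 0 a.1 0 none, mem_ths.2 (Or.inr ⟨1, hd, mem_Us.2 (Or.inr (Or.inl ⟨rfl, rfl⟩))⟩),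
          (hA (by decide)).2 ⟨hc, by rw [hc]; exact h⟩⟩
      · exact ⟨W 1 a.1 3 none,
          mem_ths.2 (Or.inr ⟨2, hd, mem_Us.2 (Or.inr (Or.inr (Or.inl ⟨rfl, Or.inl rfl⟩)))⟩),
          (hA (by decide)).2 ⟨hc, by rw [hc]; exact h⟩⟩
      · exact ⟨W 1 a.1 2 none,
          mem_ths.2 (Or.inr ⟨3, hd, mem_Us.2 (Or.inr (Or.inr (Or.inr ⟨rfl, Or.inl rfl⟩)))⟩),
          (hA (by decide)).2 ⟨hc, by rw [hc]; exact h⟩⟩

theorem Th_P2 {t : Fin 13 → Ty} {c : Bool} (ht : P2t t c) : Th t = alS c (v2 c t) (u2 c t) := by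
  have hA : ∀ {c' : Bool} {xd : Col} {l : Option (Fin 12)},
      (∀ o, W 2 c' xd l o ∈ St (t o)) ↔
        c' = c ∧ acc 2 c' xd l (t 12).2 (fun j => (t j.castSucc).2) := acc_pat2 ht
  have hB : ∀ {k : Fin 3} (hk : k ≠ 2) {c' : Bool} {xd : Col} {l : Option (Fin 12)},
      ¬ ∀ o, W k c' xd l o ∈ St (t o) :=
    fun hk _ _ _ h => P_excl (acc_class1 hk h) ht
  ext a
  simp only [Th, Set.mem_setOf_eq, alS]
  constructor
  · rintro ⟨w, hw, h⟩
    rcases mem_ths.1 hw with h1 | ⟨d, hd, h1⟩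
    · rcases mem_Vs.1 h1 with ⟨l, rfl⟩ | ⟨l, rfl⟩ | ⟨l, rfl⟩ | ⟨l, rfl⟩ | ⟨l, hl, rfl⟩ | ⟨l, hl, rfl⟩
      · exact absurd h (hB (by decide))
      · exact absurd h (hB (by decide))
      · exact absurd h (hB (by decide))
      · exact absurd h (hB (by decide))
      · obtain ⟨h2, h3⟩ := hA.1 h
        rw [h2] at h3
        exact ⟨h2, Or.inl ⟨l, hl, Or.inl h3⟩⟩
      · obtain ⟨h2, h3⟩ := hA.1 h
        rw [h2] at h3
        exact ⟨h2, Or.inl ⟨l, hl, Or.inr h3⟩⟩
    · rcases mem_Us.1 h1 with ⟨rfl, rfl⟩ | ⟨rfl, rfl⟩ | ⟨rfl, rfl | rfl⟩ | ⟨rfl, rfl | rfl⟩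
      · exact absurd h (hB (by decide))
      · exact absurd h (hB (by decide))
      · exact absurd h (hB (by decide))
      · obtain ⟨h2, h3⟩ := hA.1 h
        rw [h2] at h3
        exact ⟨h2, Or.inr ⟨2, hd, Or.inl ⟨rfl, h3⟩⟩⟩
      · exact absurd h (hB (by decide))
      · obtain ⟨h2, h3⟩ := hA.1 h
        rw [h2] at h3
        exact ⟨h2, Or.inr ⟨3, hd, Or.inr ⟨rfl, h3⟩⟩⟩
  · rintro ⟨hc, h | ⟨d, hd, h⟩⟩
    · obtain ⟨l, hl, h | h⟩ := h
      · exact ⟨W 2 a.1 0 (some l),
          mem_ths.2 (Or.inl (mem_Vs.2 (Or.inr (Or.inr (Or.inr (Or.inr (Or.inl ⟨l, hl, rfl⟩))))))),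
          hA.2 ⟨hc, by rw [hc]; exact h⟩⟩
      · exact ⟨W 2 a.1 1 (some l),
          mem_ths.2 (Or.inl (mem_Vs.2 (Or.inr (Or.inr (Or.inr (Or.inr (Or.inr ⟨l, hl, rfl⟩))))))),
          hA.2 ⟨hc, by rw [hc]; exact h⟩⟩
    · rcases h with ⟨rfl, h⟩ | ⟨rfl, h⟩
      · exact ⟨W 2 a.1 1 none,
          mem_ths.2 (Or.inr ⟨2, hd, mem_Us.2 (Or.inr (Or.inr (Or.inl ⟨rfl, Or.inr rfl⟩)))⟩),
          hA.2 ⟨hc, by rw [hc]; exact h⟩⟩
      · exact ⟨W 2 a.1 0 none,
          mem_ths.2 (Or.inr ⟨3, hd, mem_Us.2 (Or.inr (Or.inr (Or.inr ⟨rfl, Or.inr rfl⟩)))⟩),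
          hA.2 ⟨hc, by rw [hc]; exact h⟩⟩

theorem Th_ne_class {t : Fin 13 → Ty} (h : Th t ≠ ∅) : ∃ c, P1t t c ∨ P2t t c := by
  obtain ⟨a, w, hw, h⟩ := Set.nonempty_iff_ne_empty.2 h
  refine ⟨a.1, ?_⟩
  rcases mem_ths.1 hw with h1 | ⟨d, hd, h1⟩
  · rcases mem_Vs.1 h1 with ⟨l, rfl⟩ | ⟨l, rfl⟩ | ⟨l, rfl⟩ | ⟨l, rfl⟩ | ⟨l, hl, rfl⟩ | ⟨l, hl, rfl⟩
    · exact Or.inl (acc_class1 (by decide) h)
    · exact Or.inl (acc_class1 (by decide) h)
    · exact Or.inl (acc_class1 (by decide) h)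
    · exact Or.inl (acc_class1 (by decide) h)
    · exact Or.inr (acc_class2 h)
    · exact Or.inr (acc_class2 h)
  · rcases mem_Us.1 h1 with ⟨rfl, rfl⟩ | ⟨rfl, rfl⟩ | ⟨rfl, rfl | rfl⟩ | ⟨rfl, rfl | rfl⟩
    · exact Or.inl (acc_class1 (by decide) h)
    · exact Or.inl (acc_class1 (by decide) h)
    · exact Or.inl (acc_class1 (by decide) h)
    · exact Or.inr (acc_class2 h)
    · exact Or.inl (acc_class1 (by decide) h)
    · exact Or.inr (acc_class2 h)

theorem Th_cases (t : Fin 13 → Ty) : Th t = ∅ ∨ ∃ τ : Ty, Th t = St τ := by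
  by_cases h : Th t = ∅
  · exact Or.inl h
  · obtain ⟨c, h1 | h1⟩ := Th_ne_class h
    · rcases alS_cases c (v1 c t) (u1 c t) with h2 | ⟨o, h2⟩
      · exact Or.inl (by rw [Th_P1 h1, h2])
      · exact Or.inr ⟨(c, o), by rw [Th_P1 h1, h2]⟩
    · rcases alS_cases c (v2 c t) (u2 c t) with h2 | ⟨o, h2⟩
      · exact Or.inl (by rw [Th_P2 h1, h2])
      · exact Or.inr ⟨(c, o), by rw [Th_P2 h1, h2]⟩

theorem alS_class {c : Bool} {v : Prop} {u : Col → Prop} {τ : Ty} (h : alS c v u = St τ) :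
    τ.1 = c := by
  rcases alS_cases c v u with h1 | ⟨o, h1⟩
  · rw [h1] at h
    exact absurd h.symm St_ne
  · rw [h1] at h
    rw [← St_inj h]

theorem Th_pat {t : Fin 13 → Ty} {τ : Ty} (h : Th t = St τ) : P1t t τ.1 ∨ P2t t τ.1 := by
  have hne : Th t ≠ ∅ := by
    rw [h]
    exact St_ne
  obtain ⟨c, h1 | h1⟩ := Th_ne_class hne
  · rw [Th_P1 h1] at h
    rw [alS_class h]
    exact Or.inl h1
  · rw [Th_P2 h1] at h
    rw [alS_class h]
    exact Or.inr h1

theorem Th_mono {t t' : Fin 13 → Ty} (h : ∀ o, St (t o) ⊆ St (t' o)) : Th t ⊆ Th t' := by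
  rintro a ⟨w, hw, hw'⟩
  exact ⟨w, hw, fun o => h o (hw' o)⟩

/-! ### Finite facts -/

/-- the admissible parameters -/
def vk (k : Fin 3) (xd : Col) : Prop := (k ≠ 1 ∧ xd < 2) ∨ (k = 1 ∧ 2 ≤ xd)

instance (k : Fin 3) (xd : Col) : Decidable (vk k xd) := by
  unfold vk
  infer_instance

/-- the alternative place of the letter (not `d`) in the class of `l` -/
def alt (k : Fin 3) (l : Fin 12) (d : Col) : Fin 12 :=
  ⟨(if cls l then 6 else 0) + apos k (cls l) d % 6, by split <;> omega⟩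

theorem fa : ∀ (k : Fin 3) (c : Bool) (xd : Col) (l : Fin 12), md k c xd (some l) l = some (tg k l) := by
  intro k c xd l
  simp [md]

theorem fx (k : Fin 3) (c : Bool) (xd : Col) (l : Fin 12) :
    xl k c xd (some l) = none ∨ xl k c xd (some l) = some xd := by
  unfold xl
  by_cases h : cls l = c ∧ tg k l = xd
  · left; simp [h]
  · right; simp only [h, if_false]

theorem fb : ∀ (k : Fin 3) (c : Bool) (xd : Col) (l : Fin 12), vk k xd → bs k c xd l = none →
    ∀ j : Fin 12, j ≠ l → md k c xd (some l) j = none ∨ md k c xd (some l) j = bs k c xd j := by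
  decide +kernel

theorem fc : ∀ (k : Fin 3) (c : Bool) (xd : Col) (l : Fin 12) (d : Col), vk k xd →
    (k = 2 → l ≠ 1) → bs k c xd l = some d →
    alt k l d ≠ l ∧ bs k c xd (alt k l d) = none ∧ tg k (alt k l d) ≠ d ∧
    (k = 2 → alt k l d ≠ 1) ∧ md k c xd (some l) (alt k l d) = some d ∧
    ∀ j : Fin 12, j ≠ l → j ≠ alt k l d →
      md k c xd (some l) j = none ∨ md k c xd (some l) j = bs k c xd j := by
  decide +kernel

/-- words of pattern P1 and kind 0 or 1 which detect: detectors for both modes -/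
theorem fd : ∀ (k : Fin 3) (c : Bool) (xd : Col) (l : Fin 12), k ≠ 2 → vk k xd →
    (∃ j, md k c xd (some l) j = some (ut j)) ∧ ∃ j, md k c xd (some l) j = some (up (ut j)) := by
  decide +kernel

theorem fe : ∀ (c : Bool) (xd : Col), xd < 2 → (∃ j, md 0 c xd none j = some (up (ut j))) ∧
    ∀ j, md 0 c xd none j ≠ some (ut j) := by
  decide +kernel

theorem ff : ∀ (c : Bool) (xd : Col), 2 ≤ xd → (∃ j, md 1 c xd none j = some (ut j)) ∧
    ∀ j, md 1 c xd none j ≠ some (up (ut j)) := by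
  decide +kernel

theorem fg : ∀ (c : Bool) (xd : Col) (l : Fin 12), xd < 2 → l ≠ 1 →
    (∃ j, j ≠ 1 ∧ md 2 c xd (some l) j = some (ut j)) ∧ md 2 c xd (some l) 1 = some 2 := by
  decide +kernel

theorem fh : ∀ (c : Bool) (xd : Col), xd < 2 → md 2 c xd none 1 = some 2 ∧
    ∀ j, j ≠ 1 → md 2 c xd none j ≠ some (ut j) := by
  decide +kernel

/-! ### Detection -/

theorem ok_of {k : Fin 3} {c : Bool} {xd : Col} {l : Fin 12} {τ₀ : Option Col}
    (h : ok (some xd) τ₀) : ok (xl k c xd (some l)) τ₀ := by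
  rcases fx k c xd l with h1 | h1
  · rw [h1]
    exact ok_none _
  · rw [h1]
    exact h

/-- a deviation at a free place is detected -/
theorem detect_free {k : Fin 3} {c : Bool} {xd : Col} (hk : vk k xd) {l : Fin 12}
    {τ₀ : Option Col} {τ : Fin 12 → Option Col} (h : acc k c xd none τ₀ τ)
    (hl : bs k c xd l = none) (hd : τ l ≠ some (tg k l)) : acc k c xd (some l) τ₀ τ := by
  refine ⟨ok_of h.1, fun j => ?_⟩
  by_cases hj : j = l
  · subst hj
    rw [fa]
    exact Or.inr (fun h => hd h.symm)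
  · rcases fb k c xd l hk hl j hj with h1 | h1
    · rw [h1]
      exact ok_none _
    · rw [h1]
      exact h.2 j

theorem detect {k : Fin 3} {c : Bool} {xd : Col} (hk : vk k xd) {l : Fin 12}
    {τ₀ : Option Col} {τ : Fin 12 → Option Col} (h : acc k c xd none τ₀ τ)
    (hl : k = 2 → l ≠ 1) (hd : τ l ≠ some (tg k l)) :
    ∃ l', (k = 2 → l' ≠ 1) ∧ acc k c xd (some l') τ₀ τ := by
  rcases hb : bs k c xd l with _ | d
  · exact ⟨l, hl, detect_free hk h hb hd⟩
  · obtain ⟨h1, h2, h3, h4, h5, h6⟩ := fc k c xd l d hk hl hb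
    by_cases ha : τ (alt k l d) = some d
    · refine ⟨alt k l d, h4, detect_free hk h h2 ?_⟩
      rw [ha]
      intro h7
      exact h3 (Option.some.inj h7).symm
    · refine ⟨l, hl, ok_of h.1, fun j => ?_⟩
      by_cases hj : j = l
      · subst hj
        rw [fa]
        exact Or.inr (fun h => hd h.symm)
      · by_cases hj' : j = alt k l d
        · rw [hj', h5]
          exact Or.inr (fun h => ha h.symm)
        · rcases h6 j hj hj' with h7 | h7
          · rw [h7]
            exact ok_none _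
          · rw [h7]
            exact h.2 j

theorem not_ok {d : Col} {τ : Option Col} (h : ¬ ok (some d) τ) : τ = some d := by
  unfold ok at h
  push Not at h
  exact h.2.symm

theorem col01 {a : Col} (ha : a < 2) : a = 0 ∨ a = 1 := by
  revert a
  decide

theorem col23 {a : Col} (ha : 2 ≤ a) : a = 2 ∨ a = 3 := by
  revert a
  decide

/-- kind 0: accepted by the default word but by no word of `V`: the background -/
theorem only0 {c : Bool} {xd : Col} (hk : xd < 2) {t : Fin 13 → Ty} (hv : ¬ v1 c t)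
    (h : acc 0 c xd none (t 0).2 (fun j => (t j.succ).2)) (j : Fin 12) :
    (t j.succ).2 = some (ut j) := by
  by_contra hne
  obtain ⟨l', -, h'⟩ := detect (k := 0) (Or.inl ⟨by decide, hk⟩) h (fun h => absurd h (by decide)) (l := j) hne
  apply hv
  refine ⟨l', ?_⟩
  have hx : xd = 0 ∨ xd = 1 := col01 hk
  rcases hx with rfl | rfl
  · exact Or.inl h'
  · exact Or.inr (Or.inl h')

theorem only1 {c : Bool} {xd : Col} (hk : 2 ≤ xd) {t : Fin 13 → Ty} (hv : ¬ v1 c t)
    (h : acc 1 c xd none (t 0).2 (fun j => (t j.succ).2)) (j : Fin 12) :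
    (t j.succ).2 = some (up (ut j)) := by
  by_contra hne
  obtain ⟨l', -, h'⟩ := detect (k := 1) (Or.inr ⟨rfl, hk⟩) h (fun h => absurd h (by decide)) (l := j) hne
  apply hv
  refine ⟨l', ?_⟩
  have hx : xd = 2 ∨ xd = 3 := col23 hk
  rcases hx with rfl | rfl
  · exact Or.inr (Or.inr (Or.inl h'))
  · exact Or.inr (Or.inr (Or.inr h'))

theorem only2 {c : Bool} {xd : Col} (hk : xd < 2) {t : Fin 13 → Ty} (hv : ¬ v2 c t)
    (h : acc 2 c xd none (t 12).2 (fun j => (t j.castSucc).2)) (j : Fin 12) (hj : j ≠ 1) :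
    (t j.castSucc).2 = some (ut j) := by
  by_contra hne
  obtain ⟨l', hl', h'⟩ := detect (k := 2) (Or.inl ⟨by decide, hk⟩) h (fun _ => hj) (l := j) hne
  apply hv
  refine ⟨l', hl' rfl, ?_⟩
  have hx : xd = 0 ∨ xd = 1 := col01 hk
  rcases hx with rfl | rfl
  · exact Or.inl h'
  · exact Or.inr h'

/-- the default words on their backgrounds -/
theorem def0 {c : Bool} {xd : Col} (hk : xd < 2) {τ₀ : Option Col} {τ : Fin 12 → Option Col}
    (hτ : ∀ j, τ j = some (ut j)) : acc 0 c xd none τ₀ τ ↔ ok (some xd) τ₀ := by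
  refine ⟨fun h => h.1, fun h => ⟨h, fun j => Or.inr ?_⟩⟩
  rw [hτ j]
  exact (fe c xd hk).2 j

theorem def1 {c : Bool} {xd : Col} (hk : 2 ≤ xd) {τ₀ : Option Col} {τ : Fin 12 → Option Col}
    (hτ : ∀ j, τ j = some (up (ut j))) : acc 1 c xd none τ₀ τ ↔ ok (some xd) τ₀ := by
  refine ⟨fun h => h.1, fun h => ⟨h, fun j => Or.inr ?_⟩⟩
  rw [hτ j]
  exact (ff c xd hk).2 j

theorem def2 {c : Bool} {xd : Col} (hk : xd < 2) {τ₀ : Option Col} {τ : Fin 12 → Option Col}
    (hτ : ∀ j, j ≠ 1 → τ j = some (ut j)) (h1 : τ 1 ≠ some 2) :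
    acc 2 c xd none τ₀ τ ↔ ok (some xd) τ₀ := by
  refine ⟨fun h => h.1, fun h => ⟨h, fun j => Or.inr ?_⟩⟩
  by_cases hj : j = 1
  · subst hj
    rw [(fh c xd hk).1]
    exact fun h => h1 h.symm
  · rw [hτ j hj]
    exact (fh c xd hk).2 j hj

theorem bad_of {k : Fin 3} {c : Bool} {xd : Col} {l : Option (Fin 12)} {τ₀ : Option Col}
    {τ : Fin 12 → Option Col} {j : Fin 12} {d : Col} (h : md k c xd l j = some d)
    (h1 : τ j = some d) : ¬ acc k c xd l τ₀ τ := by
  intro h2
  rcases h2.2 j with h3 | h3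
  · rw [h1] at h3
    simp at h3
  · rw [h, h1] at h3
    exact h3 rfl

theorem v1_A {c : Bool} {t : Fin 13 → Ty} (ht : ∀ j : Fin 12, (t j.succ).2 = some (ut j)) :
    ¬ v1 c t := by
  rintro ⟨l, h | h | h | h⟩
  · obtain ⟨j, hj⟩ := (fd 0 c 0 l (by decide) (by decide)).1
    exact bad_of hj (ht j) h
  · obtain ⟨j, hj⟩ := (fd 0 c 1 l (by decide) (by decide)).1
    exact bad_of hj (ht j) h
  · obtain ⟨j, hj⟩ := (fd 1 c 2 l (by decide) (by decide)).1
    exact bad_of hj (ht j) h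
  · obtain ⟨j, hj⟩ := (fd 1 c 3 l (by decide) (by decide)).1
    exact bad_of hj (ht j) h

theorem v1_B {c : Bool} {t : Fin 13 → Ty} (ht : ∀ j : Fin 12, (t j.succ).2 = some (up (ut j))) :
    ¬ v1 c t := by
  rintro ⟨l, h | h | h | h⟩
  · obtain ⟨j, hj⟩ := (fd 0 c 0 l (by decide) (by decide)).2
    exact bad_of hj (ht j) h
  · obtain ⟨j, hj⟩ := (fd 0 c 1 l (by decide) (by decide)).2
    exact bad_of hj (ht j) h
  · obtain ⟨j, hj⟩ := (fd 1 c 2 l (by decide) (by decide)).2
    exact bad_of hj (ht j) h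
  · obtain ⟨j, hj⟩ := (fd 1 c 3 l (by decide) (by decide)).2
    exact bad_of hj (ht j) h

theorem v2_A {c : Bool} {t : Fin 13 → Ty}
    (ht : ∀ j : Fin 12, j ≠ 1 → (t j.castSucc).2 = some (ut j)) : ¬ v2 c t := by
  rintro ⟨l, hl, h | h⟩
  · obtain ⟨j, hj1, hj⟩ := (fg c 0 l (by decide) hl).1
    exact bad_of hj (ht j hj1) h
  · obtain ⟨j, hj1, hj⟩ := (fg c 1 l (by decide) hl).1
    exact bad_of hj (ht j hj1) h

theorem not1_A {c : Bool} {xd : Col} (hx : 2 ≤ xd) {t : Fin 13 → Ty}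
    (ht : ∀ j : Fin 12, (t j.succ).2 = some (ut j)) :
    ¬ acc 1 c xd none (t 0).2 (fun j => (t j.succ).2) := by
  obtain ⟨j, hj⟩ := (ff c xd hx).1
  exact bad_of hj (ht j)

theorem not0_B {c : Bool} {xd : Col} (hx : xd < 2) {t : Fin 13 → Ty}
    (ht : ∀ j : Fin 12, (t j.succ).2 = some (up (ut j))) :
    ¬ acc 0 c xd none (t 0).2 (fun j => (t j.succ).2) := by
  obtain ⟨j, hj⟩ := (fe c xd hx).1
  exact bad_of hj (ht j)

theorem col_cases {a : Col} (ha : a < 2) : a = 0 ∨ a = 1 := by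
  revert a
  decide

theorem ok_ne {d d' : Col} (h : d ≠ d') : ok (some d) (some d') :=
  Or.inr (fun h1 => h (Option.some.inj h1))

theorem not_ok_self (d : Col) : ¬ ok (some d) (some d) := by
  rintro (h | h)
  · simp at h
  · exact h rfl

theorem Th_A {t : Fin 13 → Ty} {c : Bool} {a : Col} (ha : a < 2) :
    Th t = St (c, some a) ↔ t 0 = (c, some a) ∧ ∀ j : Fin 12, t j.succ = (cls j, some (ut j)) := by
  constructor
  · intro h
    have hp := Th_pat h
    simp only at hp
    rcases hp with hp | hp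
    · rw [Th_P1 hp] at h
      obtain ⟨-, hv, hu, hnu⟩ := alS_eq_some h
      rcases col_cases ha with rfl | rfl
      · have h1 : acc 0 c 1 none (t 0).2 (fun j => (t j.succ).2) := by
          rcases hu with ⟨-, h1⟩ | ⟨h1, -⟩ | ⟨h1, -⟩ | ⟨h1, -⟩
          · exact h1
          · exact absurd h1 (by decide)
          · exact absurd h1 (by decide)
          · exact absurd h1 (by decide)
        have h2 := only0 (by decide) hv h1
        have h3 : (t 0).2 = some 0 := by
          apply not_ok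
          intro h3
          exact hnu 1 (by decide) (Or.inr (Or.inl ⟨rfl, (def0 (by decide) h2).2 h3⟩))
        exact ⟨Prod.ext hp.1 h3, fun j => Prod.ext (hp.2 j) (h2 j)⟩
      · have h1 : acc 0 c 0 none (t 0).2 (fun j => (t j.succ).2) := by
          rcases hu with ⟨h1, -⟩ | ⟨-, h1⟩ | ⟨h1, -⟩ | ⟨h1, -⟩
          · exact absurd h1 (by decide)
          · exact h1
          · exact absurd h1 (by decide)
          · exact absurd h1 (by decide)
        have h2 := only0 (by decide) hv h1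
        have h3 : (t 0).2 = some 1 := by
          apply not_ok
          intro h3
          exact hnu 0 (by decide) (Or.inl ⟨rfl, (def0 (by decide) h2).2 h3⟩)
        exact ⟨Prod.ext hp.1 h3, fun j => Prod.ext (hp.2 j) (h2 j)⟩
    · rw [Th_P2 hp] at h
      obtain ⟨-, -, hu, -⟩ := alS_eq_some h
      rcases hu with ⟨rfl, -⟩ | ⟨rfl, -⟩
      · exact absurd ha (by decide)
      · exact absurd ha (by decide)
  · rintro ⟨h0, h1⟩
    have hp : P1t t c := ⟨by rw [h0], fun j => by rw [h1 j]⟩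
    have h2 : ∀ j : Fin 12, (t j.succ).2 = some (ut j) := fun j => by rw [h1 j]
    have h3 : (t 0).2 = some a := by rw [h0]
    rw [Th_P1 hp]
    have hn2 : ∀ d : Col, 2 ≤ d → ¬ u1 c t d := by
      rintro d hd (⟨rfl, h⟩ | ⟨rfl, h⟩ | ⟨rfl, h⟩ | ⟨rfl, h⟩)
      · exact absurd hd (by decide)
      · exact absurd hd (by decide)
      · exact not1_A (by decide) h2 h
      · exact not1_A (by decide) h2 h
    rcases col_cases ha with rfl | rfl
    · apply alS_one (v1_A h2)
      · exact Or.inl ⟨rfl, (def0 (by decide) h2).2 (by rw [h3]; exact ok_ne (by decide))⟩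
      · intro d' hd'
        by_cases hd2 : 2 ≤ d'
        · exact hn2 d' hd2
        · have : d' = 1 := by
            revert hd' hd2
            revert d'
            decide
          subst this
          rintro (⟨h, -⟩ | ⟨-, h⟩ | ⟨h, -⟩ | ⟨h, -⟩)
          · exact absurd h (by decide)
          · have h4 := (def0 (by decide) h2).1 h
            rw [h3] at h4
            exact not_ok_self _ h4
          · exact absurd h (by decide)
          · exact absurd h (by decide)
    · apply alS_one (v1_A h2)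
      · exact Or.inr (Or.inl ⟨rfl, (def0 (by decide) h2).2 (by rw [h3]; exact ok_ne (by decide))⟩)
      · intro d' hd'
        by_cases hd2 : 2 ≤ d'
        · exact hn2 d' hd2
        · have : d' = 0 := by
            revert hd' hd2
            revert d'
            decide
          subst this
          rintro (⟨-, h⟩ | ⟨h, -⟩ | ⟨h, -⟩ | ⟨h, -⟩)
          · have h4 := (def0 (by decide) h2).1 h
            rw [h3] at h4
            exact not_ok_self _ h4
          · exact absurd h (by decide)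
          · exact absurd h (by decide)
          · exact absurd h (by decide)

theorem Th_B {t : Fin 13 → Ty} {c : Bool} {a : Col} (ha : a < 2) :
    Th t = St (c, some (up a)) ↔
      (t 0 = (c, some (up a)) ∧ ∀ j : Fin 12, t j.succ = (cls j, some (up (ut j)))) ∨
      ((∀ j : Fin 12, j ≠ 1 → t j.castSucc = (cls j, some (ut j))) ∧ (t 1).1 = false ∧
        (t 1).2 ≠ some 2 ∧ t 12 = (c, some a)) := by
  constructor
  · intro h
    have hp := Th_pat h
    simp only at hp
    rcases hp with hp | hp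
    · left
      rw [Th_P1 hp] at h
      obtain ⟨-, hv, hu, hnu⟩ := alS_eq_some h
      rcases col_cases ha with rfl | rfl
      · have h1 : acc 1 c 3 none (t 0).2 (fun j => (t j.succ).2) := by
          rcases hu with ⟨h1, -⟩ | ⟨h1, -⟩ | ⟨-, h1⟩ | ⟨h1, -⟩
          · exact absurd h1 (by decide)
          · exact absurd h1 (by decide)
          · exact h1
          · exact absurd h1 (by decide)
        have h2 := only1 (by decide) hv h1
        have h3 : (t 0).2 = some 2 := by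
          apply not_ok
          intro h3
          exact hnu 3 (by decide) (Or.inr (Or.inr (Or.inr ⟨rfl, (def1 (by decide) h2).2 h3⟩)))
        exact ⟨Prod.ext hp.1 h3, fun j => Prod.ext (hp.2 j) (h2 j)⟩
      · have h1 : acc 1 c 2 none (t 0).2 (fun j => (t j.succ).2) := by
          rcases hu with ⟨h1, -⟩ | ⟨h1, -⟩ | ⟨h1, -⟩ | ⟨-, h1⟩
          · exact absurd h1 (by decide)
          · exact absurd h1 (by decide)
          · exact absurd h1 (by decide)
          · exact h1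
        have h2 := only1 (by decide) hv h1
        have h3 : (t 0).2 = some 3 := by
          apply not_ok
          intro h3
          exact hnu 2 (by decide) (Or.inr (Or.inr (Or.inl ⟨rfl, (def1 (by decide) h2).2 h3⟩)))
        exact ⟨Prod.ext hp.1 h3, fun j => Prod.ext (hp.2 j) (h2 j)⟩
    · right
      rw [Th_P2 hp] at h
      obtain ⟨-, hv, hu, hnu⟩ := alS_eq_some h
      have e1 : (t (Fin.castSucc (1 : Fin 12))) = t 1 := rfl
      have h5 : (t 1).1 = false := by
        rw [← e1]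
        exact hp.1 1
      rcases col_cases ha with rfl | rfl
      · have h1 : acc 2 c 1 none (t 12).2 (fun j => (t j.castSucc).2) := by
          rcases hu with ⟨-, h1⟩ | ⟨h1, -⟩
          · exact h1
          · exact absurd h1 (by decide)
        have h2 := only2 (by decide) hv h1
        have h4 : (t 1).2 ≠ some 2 := by
          intro h4
          exact bad_of (fh c 1 (by decide)).1 (by rw [e1]; exact h4) h1
        have h3 : (t 12).2 = some 0 := by
          apply not_ok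
          intro h3
          exact hnu 3 (by decide) (Or.inr ⟨rfl, (def2 (by decide) h2 (by rw [e1]; exact h4)).2 h3⟩)
        exact ⟨fun j hj => Prod.ext (hp.1 j) (h2 j hj), h5, h4, Prod.ext hp.2 h3⟩
      · have h1 : acc 2 c 0 none (t 12).2 (fun j => (t j.castSucc).2) := by
          rcases hu with ⟨h1, -⟩ | ⟨-, h1⟩
          · exact absurd h1 (by decide)
          · exact h1
        have h2 := only2 (by decide) hv h1
        have h4 : (t 1).2 ≠ some 2 := by
          intro h4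
          exact bad_of (fh c 0 (by decide)).1 (by rw [e1]; exact h4) h1
        have h3 : (t 12).2 = some 1 := by
          apply not_ok
          intro h3
          exact hnu 2 (by decide) (Or.inl ⟨rfl, (def2 (by decide) h2 (by rw [e1]; exact h4)).2 h3⟩)
        exact ⟨fun j hj => Prod.ext (hp.1 j) (h2 j hj), h5, h4, Prod.ext hp.2 h3⟩
  · rintro (⟨h0, h1⟩ | ⟨h1, h5, h4, h0⟩)
    · have hp : P1t t c := ⟨by rw [h0], fun j => by rw [h1 j]⟩
      have h2 : ∀ j : Fin 12, (t j.succ).2 = some (up (ut j)) := fun j => by rw [h1 j]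
      have h3 : (t 0).2 = some (up a) := by rw [h0]
      rw [Th_P1 hp]
      have hn2 : ∀ d : Col, d < 2 → ¬ u1 c t d := by
        rintro d hd (⟨rfl, h⟩ | ⟨rfl, h⟩ | ⟨rfl, h⟩ | ⟨rfl, h⟩)
        · exact not0_B (by decide) h2 h
        · exact not0_B (by decide) h2 h
        · exact absurd hd (by decide)
        · exact absurd hd (by decide)
      rcases col_cases ha with rfl | rfl
      · apply alS_one (v1_B h2)
        · exact Or.inr (Or.inr (Or.inl ⟨rfl, (def1 (by decide) h2).2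
            (by rw [h3]; exact ok_ne (by decide))⟩))
        · intro d' hd'
          by_cases hd2 : d' < 2
          · exact hn2 d' hd2
          · have : d' = 3 := by
              revert hd' hd2
              revert d'
              decide
            subst this
            rintro (⟨h, -⟩ | ⟨h, -⟩ | ⟨h, -⟩ | ⟨-, h⟩)
            · exact absurd h (by decide)
            · exact absurd h (by decide)
            · exact absurd h (by decide)
            · have h4 := (def1 (by decide) h2).1 h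
              rw [h3] at h4
              exact not_ok_self _ h4
      · apply alS_one (v1_B h2)
        · exact Or.inr (Or.inr (Or.inr ⟨rfl, (def1 (by decide) h2).2
            (by rw [h3]; exact ok_ne (by decide))⟩))
        · intro d' hd'
          by_cases hd2 : d' < 2
          · exact hn2 d' hd2
          · have : d' = 2 := by
              revert hd' hd2
              revert d'
              decide
            subst this
            rintro (⟨h, -⟩ | ⟨h, -⟩ | ⟨-, h⟩ | ⟨h, -⟩)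
            · exact absurd h (by decide)
            · exact absurd h (by decide)
            · have h4 := (def1 (by decide) h2).1 h
              rw [h3] at h4
              exact not_ok_self _ h4
            · exact absurd h (by decide)
    · have e1 : (t (Fin.castSucc (1 : Fin 12))) = t 1 := rfl
      have hp : P2t t c := by
        refine ⟨fun j => ?_, by rw [h0]⟩
        by_cases hj : j = 1
        · subst hj
          rw [e1, h5]
          decide
        · rw [h1 j hj]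
      have h2 : ∀ j : Fin 12, j ≠ 1 → (t j.castSucc).2 = some (ut j) := fun j hj => by rw [h1 j hj]
      have h3 : (t 12).2 = some a := by rw [h0]
      have h4' : (t (Fin.castSucc (1 : Fin 12))).2 ≠ some 2 := by rw [e1]; exact h4
      rw [Th_P2 hp]
      rcases col_cases ha with rfl | rfl
      · apply alS_one (v2_A h2)
        · exact Or.inl ⟨rfl, (def2 (by decide) h2 h4').2 (by rw [h3]; exact ok_ne (by decide))⟩
        · intro d' hd'
          rintro (⟨h, -⟩ | ⟨-, h⟩)
          · exact hd' h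
          · have h6 := (def2 (by decide) h2 h4').1 h
            rw [h3] at h6
            exact not_ok_self _ h6
      · apply alS_one (v2_A h2)
        · exact Or.inr ⟨rfl, (def2 (by decide) h2 h4').2 (by rw [h3]; exact ok_ne (by decide))⟩
        · intro d' hd'
          rintro (⟨-, h⟩ | ⟨h, -⟩)
          · have h6 := (def2 (by decide) h2 h4').1 h
            rw [h3] at h6
            exact not_ok_self _ h6
          · exact hd' h

theorem Th_R {t : Fin 13 → Ty} {c : Bool} (h : P2t t c) (h1 : t 1 = (false, some 2)) :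
    Th t = ∅ := by
  have e1 : (t (Fin.castSucc (1 : Fin 12))) = t 1 := rfl
  have e2 : (t (Fin.castSucc (1 : Fin 12))).2 = some 2 := by rw [e1, h1]
  rw [Th_P2 h]
  apply alS_empty
  · rintro ⟨l, hl, h | h⟩
    · exact bad_of (fg c 0 l (by decide) hl).2 e2 h
    · exact bad_of (fg c 1 l (by decide) hl).2 e2 h
  · rintro d (⟨-, h⟩ | ⟨-, h⟩)
    · exact bad_of (fh c 1 (by decide)).1 e2 h
    · exact bad_of (fh c 0 (by decide)).1 e2 h

theorem Th_V {t : Fin 13 → Ty} {c : Bool} {w : Fin 13 → Lt} (hw : w ∈ Vs c)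
    (h : ∀ o, w o ∈ St (t o)) : Th t = St (c, none) := by
  have hm : ∀ S : Option Col, ((c, S) : Lt) ∈ Th t :=
    fun S => ⟨w, mem_ths.2 (Or.inl hw), h⟩
  rcases Th_cases t with h1 | ⟨τ, h1⟩
  · exact absurd (hm none) (by rw [h1]; simp)
  · rw [h1] at hm ⊢
    obtain ⟨c', o⟩ := τ
    have h2 : c = c' := (hm none).1
    subst h2
    congr 2
    cases o with
    | none => rfl
    | some d =>
      rcases (hm (some d)).2 with h3 | h3
      · exact absurd h3 (by simp)
      · exact absurd rfl h3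

theorem Th_F {t : Fin 13 → Ty} {c : Bool} (h : P1t t c ∨ P2t t c) (h1 : ∀ o, (t o).2 = none) :
    Th t = St (c, none) := by
  rcases h with h | h
  · rw [Th_P1 h]
    apply alS_v
    exact ⟨0, Or.inl ⟨Or.inl (h1 0), fun j => Or.inl (h1 _)⟩⟩
  · rw [Th_P2 h]
    apply alS_v
    exact ⟨0, by decide, Or.inl ⟨Or.inl (h1 12), fun j => Or.inl (h1 _)⟩⟩

end H35.RS.RF
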