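import Pool.Agent.H35.RF.Pl

/-! # W10: aperiodicity -/

namespace H35.RS.RF
open H35.RS H35.RS.Up

/-- a period shifts the valid phases -/
theorem aper_V {x : ℤ → Lt} {p : ℤ} (hp : sh p x = x) {k : ℕ} {c : ℤ} (h : V k x c) :
    V k x (c + p) := by
  have h1 := (V_sh (n := k) (x := x) p c).1
  rw [hp] at h1
  exact h1 h

theorem aper_dvd {x : ℤ → Lt} (hx : x ∈ X) {p : ℤ} (hp : sh p x = x) (k : ℕ) :
    (13 : ℤ) ^ (k + 1) ∣ p := by
  induction k with
  | zero =>
    obtain ⟨c, hc⟩ := V_exists hx (n := 1) le_rfl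
    have h1 := V_one hc (aper_V hp hc)
    have e : c + p - c = p := by ring
    rw [e] at h1
    simpa using h1
  | succ k ih =>
    by_contra hne
    obtain ⟨c, hc⟩ := V_exists hx (n := k + 1 + 1) (by omega)
    have hc1 := aper_V hp hc
    have hc2 := aper_V hp hc1
    have e1 : c + p - c = p := by ring
    have e2 : c + p + p - (c + p) = p := by ring
    have hd : (13 : ℤ) ^ (k + 1 + 1) = 13 ^ (k + 1) * 13 := pow_succ _ _
    have hpos : (0 : ℤ) < 13 ^ (k + 1) := by positivity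
    have key : ¬ ((13 : ℤ) ^ (k + 1 + 1) ∣ p - 13 ^ (k + 1) ∧
        (13 : ℤ) ^ (k + 1 + 1) ∣ - p - 13 ^ (k + 1)) := by
      rintro ⟨h1, h2⟩
      have h3 := dvd_add h1 h2
      have e3 : p - 13 ^ (k + 1) + (-p - 13 ^ (k + 1)) = -(2 * 13 ^ (k + 1)) := by ring
      rw [e3, dvd_neg, hd, mul_comm (2 : ℤ)] at h3
      have h4 := Int.dvd_of_mul_dvd_mul_left hpos.ne' h3
      omega
    have e4 : c - (c + p) - 13 ^ (k + 1) = - p - 13 ^ (k + 1) := by ring
    have e5 : c + p - (c + p + p) - 13 ^ (k + 1) = - p - 13 ^ (k + 1) := by ring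
    have H1 := two_phases (n := k + 1) (by omega) (x := x) (c := c) (c' := c + p)
      (by rw [e1]; exact ih) (fun i => V_ty hc i (by omega)) (fun i => V_ty hc1 i (by omega))
      (by rw [e1]; exact hne)
    have H2 := two_phases (n := k + 1) (by omega) (x := x) (c := c + p) (c' := c + p + p)
      (by rw [e2]; exact ih) (fun i => V_ty hc1 i (by omega)) (fun i => V_ty hc2 i (by omega))
      (by rw [e2]; exact hne)
    rw [e1, e4] at H1
    rw [e2, e5] at H2
    rcases H1 with ⟨ha, -, hb⟩ | ⟨ha, hb, -⟩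
    · rcases H2 with ⟨-, hd, -⟩ | ⟨hc', -, -⟩
      · obtain ⟨κ, h5⟩ := hd 0
        obtain ⟨κ', h6⟩ := hb 0
        exact Q_excl h5 h6
      · exact key ⟨ha, hc'⟩
    · rcases H2 with ⟨hc', -, -⟩ | ⟨-, -, hd⟩
      · exact key ⟨hc', ha⟩
      · obtain ⟨κ, h5⟩ := hb 0
        obtain ⟨κ', h6⟩ := hd 0
        exact Q_excl h5 h6

theorem X_aperiodic : Aperiodic X := by
  intro x hx n hn h
  have h1 := aper_dvd hx h n
  have h2 : (13 : ℤ) ^ (n + 1) ≤ n := Int.le_of_dvd (by exact_mod_cast hn) h1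
  have h3 : n < 13 ^ n := Nat.lt_pow_self (by norm_num)
  have h4 : (n : ℤ) < 13 ^ n := by exact_mod_cast h3
  have h5 : (13 : ℤ) ^ n ≤ 13 ^ (n + 1) := pow_le_pow_right₀ (by norm_num) (by omega)
  omega

end H35.RS.RF
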