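import Pool.Agent.H35.RS.Defs

/-! # W13: a criterion for residual finiteness -/

namespace H35.RS.RF
open H35.RS

theorem Crit_mem_sh {A : Type} {X : Set (ℤ → A)} (hX : ShiftInv X) (k : ℤ) (x : ℤ → A) :
    sh k x ∈ X ↔ x ∈ X := by
  have hn : ∀ (n : ℕ) (x : ℤ → A), sh (n : ℤ) x ∈ X ↔ x ∈ X := by
    intro n
    induction n with
    | zero => intro x; simp [sh_zero]
    | succ n ih =>
      intro x
      have h1 : sh ((n + 1 : ℕ) : ℤ) x = sh 1 (sh (n : ℤ) x) := by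
        rw [sh_sh]; congr 1; push_cast; ring
      rw [h1, hX, ih]
  obtain ⟨n, rfl | rfl⟩ := k.eq_nat_or_neg
  · exact hn n x
  · have := hn n (sh (-(n : ℤ)) x)
    rw [sh_sh, add_neg_cancel, sh_zero] at this
    exact this.symm

theorem Crit_comm {A : Type} [TopologicalSpace A] {X : Set (ℤ → A)} {hX : ShiftInv X}
    (g : autGroup X hX) (k : ℤ) (x : X) :
    (g.1 ⟨sh k x.1, (Crit_mem_sh hX k x.1).2 x.2⟩ : X).1 = sh k (g.1 x).1 := by
  have hn : ∀ (n : ℕ) (x : X), (g.1 ⟨sh (n : ℤ) x.1, (Crit_mem_sh hX n x.1).2 x.2⟩ : X).1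
      = sh (n : ℤ) (g.1 x).1 := by
    intro n
    induction n with
    | zero =>
      intro x
      have : (⟨sh ((0 : ℕ) : ℤ) x.1, (Crit_mem_sh hX _ x.1).2 x.2⟩ : X) = x := by
        apply Subtype.ext; simp [sh_zero]
      rw [this]; simp [sh_zero]
    | succ n ih =>
      intro x
      have h1 : (⟨sh ((n + 1 : ℕ) : ℤ) x.1, (Crit_mem_sh hX _ x.1).2 x.2⟩ : X) =
          ⟨sh 1 (⟨sh (n : ℤ) x.1, (Crit_mem_sh hX n x.1).2 x.2⟩ : X).1,
            (hX _).2 (⟨sh (n : ℤ) x.1, (Crit_mem_sh hX n x.1).2 x.2⟩ : X).2⟩ := by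
        apply Subtype.ext
        simp only
        rw [sh_sh]; congr 1; push_cast; ring
      rw [h1, g.2 ⟨sh (n : ℤ) x.1, (Crit_mem_sh hX n x.1).2 x.2⟩, ih, sh_sh]
      congr 1; push_cast; ring
  obtain ⟨n, rfl | rfl⟩ := k.eq_nat_or_neg
  · exact hn n x
  · have h2 := hn n ⟨sh (-(n : ℤ)) x.1, (Crit_mem_sh hX _ x.1).2 x.2⟩
    have h3 : (⟨sh (n : ℤ) (⟨sh (-(n : ℤ)) x.1, (Crit_mem_sh hX _ x.1).2 x.2⟩ : X).1,
        (Crit_mem_sh hX n _).2 (⟨sh (-(n : ℤ)) x.1, (Crit_mem_sh hX _ x.1).2 x.2⟩ : X).2⟩ : X)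
        = x := by
      apply Subtype.ext
      simp only
      rw [sh_sh, add_neg_cancel, sh_zero]
    rw [h3] at h2
    rw [h2, sh_sh, neg_add_cancel, sh_zero]

theorem Crit_aper {A : Type} {X : Set (ℤ → A)} (hap : Aperiodic X) {x : ℤ → A} (hx : x ∈ X)
    {k l : ℤ} (h : sh k x = sh l x) : k = l := by
  have key : ∀ (k l : ℤ), k < l → sh k x = sh l x → False := by
    intro k l hkl h
    have h1 : sh ((l - k).toNat : ℤ) x = x := by
      have h2 : ((l - k).toNat : ℤ) = -k + l := by omega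
      rw [h2, ← sh_sh, ← h, sh_sh, neg_add_cancel, sh_zero]
    exact hap x hx (l - k).toNat (by omega) h1
  rcases lt_trichotomy k l with h1 | h1 | h1
  · exact (key k l h1 h).elim
  · exact h1
  · exact (key l k h1 h.symm).elim

theorem rf_of_finite_orbits {A : Type} [Finite A] [TopologicalSpace A] [DiscreteTopology A]
    (X : Set (ℤ → A)) (hX : ShiftInv X) (hap : Aperiodic X)
    (hd : ∀ x ∈ X, ∀ N : ℕ, ∃ e : X, (∀ i : ℤ, |i| ≤ N → e.1 i = x i) ∧
      ∃ F : Set X, F.Finite ∧ ∀ g : autGroup X hX, ∃ f ∈ F, ∃ k : ℤ, (g.1 e).1 = sh k f.1) :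
    Group.ResiduallyFinite (autGroup X hX) := by
  rw [Group.residuallyFinite_iff_exists_finiteIndex]
  intro g hg
  -- a point which is moved
  obtain ⟨x, hx⟩ : ∃ x : X, g.1 x ≠ x := by
    by_contra hcon
    push Not at hcon
    apply hg
    apply Subtype.ext
    ext x
    rw [hcon x]
    rfl
  obtain ⟨i, hi⟩ : ∃ i : ℤ, (g.1 x).1 i ≠ x.1 i := by
    by_contra hcon
    push Not at hcon
    exact hx (Subtype.ext (funext hcon))
  -- continuity
  obtain ⟨N, hN⟩ : ∃ N : ℕ, ∀ e : X, (∀ j : ℤ, |j| ≤ N → e.1 j = x.1 j) → (g.1 e).1 i ≠ e.1 i := by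
    have hcont : Continuous (fun e : X => (g.1 e).1 i) :=
      (continuous_apply i).comp (continuous_subtype_val.comp g.1.continuous)
    have hopen : IsOpen {e : X | (g.1 e).1 i = (g.1 x).1 i} :=
      (isOpen_discrete ({(g.1 x).1 i} : Set A)).preimage hcont
    rw [isOpen_induced_iff] at hopen
    obtain ⟨U, hU, hUe⟩ := hopen
    have hxU : x.1 ∈ U := by
      have : x ∈ Subtype.val ⁻¹' U := by rw [hUe]; rfl
      exact this
    rw [isOpen_pi_iff] at hU
    obtain ⟨I, u, hu, hIu⟩ := hU x.1 hxU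
    obtain ⟨N₀, hN₀⟩ : ∃ N₀ : ℕ, ∀ j ∈ I, |j| ≤ (N₀ : ℤ) := by
      refine ⟨I.sup (fun j => j.natAbs), fun j hj => ?_⟩
      have h0 : j.natAbs ≤ I.sup (fun j => j.natAbs) :=
        Finset.le_sup (f := fun j : ℤ => j.natAbs) hj
      rw [Int.abs_eq_natAbs]
      exact_mod_cast h0
    refine ⟨max N₀ i.natAbs, fun e he => ?_⟩
    have h1 : e.1 ∈ U := by
      apply hIu
      intro j hj
      rw [he j ((hN₀ j hj).trans (by push_cast; exact le_max_left _ _))]
      exact (hu j hj).2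
    have h2 : e ∈ Subtype.val ⁻¹' U := h1
    rw [hUe] at h2
    have h3 : (g.1 e).1 i = (g.1 x).1 i := h2
    rw [h3, he i (by push_cast; exact le_trans (by omega) (le_max_right _ _))]
    exact hi
  obtain ⟨e, he, F, hF, hFe⟩ := hd x.1 x.2 N
  have hge : (g.1 e).1 ≠ e.1 := fun h => hN e he (congrFun h i)
  -- the modulus
  obtain ⟨m, hm, hmg⟩ : ∃ m : ℕ, 1 ≤ m ∧ ∀ k : ℤ, (g.1 e).1 ≠ sh (k * m) e.1 := by
    by_cases hj : ∃ j : ℤ, (g.1 e).1 = sh j e.1
    · obtain ⟨j, hj⟩ := hj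
      have hj0 : j ≠ 0 := by
        rintro rfl
        exact hge (by rw [hj, sh_zero])
      refine ⟨j.natAbs + 1, by omega, fun k hk => ?_⟩
      rw [hj] at hk
      have h4 := Crit_aper hap e.2 hk
      have h5 : j.natAbs = k.natAbs * (j.natAbs + 1) := by
        conv_lhs => rw [h4]
        rw [Int.natAbs_mul, Int.natAbs_natCast]
      rcases Nat.eq_zero_or_pos k.natAbs with h6 | h6
      · rw [h6] at h5; omega
      · have : 1 * (j.natAbs + 1) ≤ k.natAbs * (j.natAbs + 1) := Nat.mul_le_mul_right _ h6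
        omega
    · push Not at hj
      exact ⟨1, le_rfl, fun k => hj _⟩
  -- the subgroup
  let H : Subgroup (autGroup X hX) :=
    { carrier := {h | ∃ k : ℤ, (h.1 e).1 = sh (k * m) e.1}
      mul_mem' := by
        rintro a b ⟨k, hk⟩ ⟨l, hl⟩
        refine ⟨l + k, ?_⟩
        have h1 : b.1 e = ⟨sh (l * m) e.1, (Crit_mem_sh hX _ e.1).2 e.2⟩ := Subtype.ext hl
        have h2 : ((a * b).1 e) = a.1 (b.1 e) := rfl
        rw [h2, h1, Crit_comm, hk, sh_sh]
        congr 1; ring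
      one_mem' := ⟨0, by simp [sh_zero]⟩
      inv_mem' := by
        rintro a ⟨k, hk⟩
        refine ⟨-k, ?_⟩
        have h1 : a.1 e = ⟨sh (k * m) e.1, (Crit_mem_sh hX _ e.1).2 e.2⟩ := Subtype.ext hk
        have h2 : a⁻¹.1 (a.1 e) = e := by
          have : a⁻¹.1 (a.1 e) = (a⁻¹ * a).1 e := rfl
          rw [this]; simp
        rw [h1] at h2
        have h3 := congrArg Subtype.val h2
        rw [Crit_comm] at h3
        rw [← h3, sh_sh, show -k * (m : ℤ) + k * m = 0 by ring, sh_zero] }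
  have hgH : g ∉ H := by
    rintro ⟨k, hk⟩
    exact hmg k hk
  refine ⟨H, ?_, hgH⟩
  have : NeZero m := ⟨by omega⟩
  have : Finite F := hF
  choose f hf k hk using hFe
  have : Finite (autGroup X hX ⧸ H) := by
    refine Finite.of_injective (fun q : autGroup X hX ⧸ H =>
      ((⟨f q.out, hf q.out⟩ : F), ((k q.out : ℤ) : ZMod m))) ?_
    intro q q' hqq
    simp only [Prod.mk.injEq, Subtype.mk.injEq] at hqq
    obtain ⟨h1, h2⟩ := hqq
    rw [← q.out_eq', ← q'.out_eq']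
    symm
    refine QuotientGroup.eq.2 ?_
    generalize q.out = h at h1 h2 ⊢
    generalize q'.out = h' at h1 h2 ⊢
    rw [ZMod.intCast_eq_intCast_iff_dvd_sub] at h2
    obtain ⟨c, hc⟩ := h2
    refine ⟨-c, ?_⟩
    have h3 : (h.1 e).1 = sh (-c * m) (h'.1 e).1 := by
      rw [hk h, hk h', sh_sh, h1]
      congr 1
      rw [show -c * (m : ℤ) = -(m * c) by ring, ← hc]; ring
    have h4 : h.1 e = ⟨sh (-c * m) (h'.1 e).1, (Crit_mem_sh hX _ _).2 (h'.1 e).2⟩ :=
      Subtype.ext h3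
    have h5 : ((h'⁻¹ * h).1 e) = h'⁻¹.1 (h.1 e) := rfl
    rw [h5, h4, Crit_comm]
    have h6 : h'⁻¹.1 (h'.1 e) = e := by
      have : h'⁻¹.1 (h'.1 e) = (h'⁻¹ * h').1 e := rfl
      rw [this]; simp
    rw [h6]
  exact Subgroup.finiteIndex_of_finite_quotient

end H35.RS.RF
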