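import Pool.Agent.H35.RF.Exch
import Pool.Agent.H35.RF.Crit

/-! # W12: automorphisms preserve the exchange order -/

namespace H35.RS.RF
open H35.RS H35.RS.Up

variable [TopologicalSpace Lt] [DiscreteTopology Lt]

/-- the image of a point -/
def im (g : autRS th) (x : ℤ → Lt) (hx : x ∈ X) : ℤ → Lt := (g.1 ⟨x, hx⟩ : X).1

omit [DiscreteTopology Lt] in
theorem im_mem (g : autRS th) {x : ℤ → Lt} (hx : x ∈ X) : im g x hx ∈ X :=
  (g.1 ⟨x, hx⟩ : X).2

omit [DiscreteTopology Lt] in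
theorem im_sh (g : autRS th) (k : ℤ) {x : ℤ → Lt} (hx : x ∈ X) :
    im g (sh k x) ((X_sh k).2 hx) = sh k (im g x hx) :=
  Crit_comm g k ⟨x, hx⟩

omit [DiscreteTopology Lt] in
theorem im_inv (g : autRS th) {x : ℤ → Lt} (hx : x ∈ X) : im g⁻¹ (im g x hx) (im_mem g hx) = x := by
  have h : (g.1⁻¹ : X ≃ₜ X) (g.1 ⟨x, hx⟩) = ⟨x, hx⟩ := by simp
  exact congrArg Subtype.val h

omit [DiscreteTopology Lt] in
theorem im_mul (g h : autRS th) {x : ℤ → Lt} (hx : x ∈ X) :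
    im (g * h) x hx = im g (im h x hx) (im_mem h hx) := rfl

omit [DiscreteTopology Lt] in
theorem aut_im_congr (g : autRS th) {x x' : ℤ → Lt} (hx : x ∈ X) (hx' : x' ∈ X) (h : x = x') :
    im g x hx = im g x' hx' := by
  subst h
  rfl

omit [DiscreteTopology Lt] in
theorem aut_im_inv' (g : autRS th) {x : ℤ → Lt} (hx : x ∈ X) :
    im g (im g⁻¹ x hx) (im_mem g⁻¹ hx) = x := by
  have h : (g.1 : X ≃ₜ X) (g.1⁻¹ ⟨x, hx⟩) = ⟨x, hx⟩ := by simp
  exact congrArg Subtype.val h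

/-- a cylinder is open -/
theorem aut_cyl_open (x : ℤ → Lt) (N : ℕ) : IsOpen {y : ℤ → Lt | ∀ i : ℤ, |i| ≤ N → y i = x i} := by
  have e : {y : ℤ → Lt | ∀ i : ℤ, |i| ≤ N → y i = x i} =
      ⋂ i ∈ {i : ℤ | |i| ≤ N}, (fun y : ℤ → Lt => y i) ⁻¹' {x i} := by
    ext y
    simp
  rw [e]
  have hf : Set.Finite {i : ℤ | |i| ≤ N} := by
    refine (Set.finite_Icc (-(N : ℤ)) N).subset fun i hi => ?_
    exact abs_le.1 hi
  exact hf.isOpen_biInter fun i _ => (isOpen_discrete _).preimage (continuous_apply i)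

theorem aut_X_closed : IsClosed (X : Set (ℤ → Lt)) := by
  rw [← isOpen_compl_iff, isOpen_iff_forall_mem_open]
  intro x hx
  have : ∃ N : ℕ, ∀ y ∈ X, ¬ ∀ i : ℤ, |i| ≤ N → y i = x i := by
    by_contra hcon
    push Not at hcon
    exact hx (X_closed hcon)
  obtain ⟨N, hN⟩ := this
  exact ⟨_, fun y hy hyX => hN y hyX hy, aut_cyl_open x N, fun i _ => rfl⟩

theorem aut_compact : CompactSpace X :=
  isCompact_iff_compactSpace.1 (aut_X_closed.isCompact)

theorem aut_radius0 (g : autRS th) : ∃ r : ℕ, ∀ (x x' : ℤ → Lt) (hx : x ∈ X) (hx' : x' ∈ X),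
    (∀ i : ℤ, |i| ≤ r → x i = x' i) → im g x hx 0 = im g x' hx' 0 := by
  have := aut_compact
  have hcont : Continuous (fun x : X => (g.1 x : ℤ → Lt) 0) :=
    (continuous_apply 0).comp (continuous_subtype_val.comp g.1.continuous)
  have h1 : ∀ x : X, ∃ N : ℕ, ∀ x' : X, (∀ i : ℤ, |i| ≤ N → x'.1 i = x.1 i) →
      (g.1 x' : ℤ → Lt) 0 = (g.1 x : ℤ → Lt) 0 := by
    intro x
    have hopen : IsOpen ((fun x : X => (g.1 x : ℤ → Lt) 0) ⁻¹' {(g.1 x : ℤ → Lt) 0}) :=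
      (isOpen_discrete _).preimage hcont
    obtain ⟨U, hU, hUe⟩ := isOpen_induced_iff.1 hopen
    have hxU : x.1 ∈ U := by
      have : x ∈ Subtype.val ⁻¹' U := by rw [hUe]; rfl
      exact this
    obtain ⟨I, u, hu, hsub⟩ := isOpen_pi_iff.1 hU x.1 hxU
    refine ⟨I.sup Int.natAbs, fun x' hx' => ?_⟩
    have : x' ∈ Subtype.val ⁻¹' U := by
      refine hsub fun i hi => ?_
      have hi' : i ∈ I := hi
      have h2 : i.natAbs ≤ I.sup Int.natAbs := Finset.le_sup hi'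
      have h3 : |i| ≤ ((I.sup Int.natAbs : ℕ) : ℤ) := by
        rw [Int.abs_eq_natAbs]
        exact_mod_cast h2
      rw [hx' i h3]
      exact (hu i hi').2
    rw [hUe] at this
    exact this
  choose N hN using h1
  obtain ⟨t, ht⟩ := isCompact_univ.elim_nhds_subcover
    (fun x : X => (Subtype.val ⁻¹' {y : ℤ → Lt | ∀ i : ℤ, |i| ≤ N x → y i = x.1 i} : Set X))
    (fun x _ => IsOpen.mem_nhds ((aut_cyl_open x.1 (N x)).preimage continuous_subtype_val)
      (fun i _ => rfl))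
  refine ⟨t.sup N, fun x x' hx hx' h => ?_⟩
  have hxt := ht.2 (Set.mem_univ (⟨x, hx⟩ : X))
  simp only [Set.mem_iUnion] at hxt
  obtain ⟨y, hy, hxy⟩ := hxt
  have hxy' : ∀ i : ℤ, |i| ≤ N y → x i = y.1 i := hxy
  have hle : N y ≤ t.sup N := Finset.le_sup hy
  have e1 : im g x hx 0 = (g.1 y : ℤ → Lt) 0 := hN y ⟨x, hx⟩ hxy'
  have e2 : im g x' hx' 0 = (g.1 y : ℤ → Lt) 0 := by
    refine hN y ⟨x', hx'⟩ fun i hi => ?_
    rw [← hxy' i hi]
    refine (h i (hi.trans ?_)).symm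
    exact_mod_cast hle
  rw [e1, e2]

theorem aut_radius (g : autRS th) : ∃ r : ℕ, ∀ (x x' : ℤ → Lt) (hx : x ∈ X) (hx' : x' ∈ X)
    (j j' : ℤ), (∀ i : ℤ, |i| ≤ r → x (i + j) = x' (i + j')) → im g x hx j = im g x' hx' j' := by
  obtain ⟨r, hr⟩ := aut_radius0 g
  refine ⟨r, fun x x' hx hx' j j' h => ?_⟩
  have := hr (sh j x) (sh j' x') ((X_sh j).2 hx) ((X_sh j').2 hx') (fun i hi => h i hi)
  rw [im_sh, im_sh] at this
  simpa [sh_apply] using this

theorem exists_radius (g : autRS th) : ∃ r : ℕ, ∀ (x x' : ℤ → Lt) (hx : x ∈ X) (hx' : x' ∈ X)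
    (j : ℤ), (∀ i : ℤ, |i - j| ≤ r → x i = x' i) → im g x hx j = im g x' hx' j := by
  obtain ⟨r, hr⟩ := aut_radius g
  refine ⟨r, fun x x' hx hx' j h => hr x x' hx hx' j j fun i hi => h _ ?_⟩
  rwa [add_sub_cancel_right]

theorem im_FD (g : autRS th) {x x' : ℤ → Lt} (hx : x ∈ X) (hx' : x' ∈ X) (h : FD x x') :
    FD (im g x hx) (im g x' hx') := by
  obtain ⟨r, hr⟩ := exists_radius g
  obtain ⟨R, hR⟩ := h
  refine ⟨R + r, fun j hj => hr x x' hx hx' j fun i hi => hR i ?_⟩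
  push_cast at hj
  simp only [Int.abs_eq_natAbs] at *
  omega

theorem im_Le (g : autRS th) {x x' : ℤ → Lt} (hx : x ∈ X) (hx' : x' ∈ X) (h : Le x x') :
    Le (im g x hx) (im g x' hx') := by
  refine ⟨im_FD g hx hx' h.1, ?_⟩
  obtain ⟨r, hr⟩ := exists_radius g
  obtain ⟨r', hr'⟩ := exists_radius g⁻¹
  obtain ⟨⟨R, hR⟩, N, hN⟩ := h
  refine ⟨N + R + 2 * r + r', fun w hw hwy => ?_⟩
  have hz : im g⁻¹ w hw ∈ X := im_mem g⁻¹ hw
  have hzx : ∀ i : ℤ, |i| ≤ N + R + 2 * r → im g⁻¹ w hw i = x i := by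
    intro i hi
    have e : im g⁻¹ w hw i = im g⁻¹ (im g x hx) (im_mem g hx) i := by
      refine hr' _ _ _ _ i fun j hj => hwy j ?_
      push_cast
      simp only [Int.abs_eq_natAbs] at *
      omega
    rw [e, im_inv]
  have hs : sp (im g⁻¹ w hw) x x' ∈ X := hN _ hz fun i hi => hzx i (by simp only [Int.abs_eq_natAbs] at *; omega)
  have e : im g (sp (im g⁻¹ w hw) x x') hs = sp w (im g x hx) (im g x' hx') := by
    funext j
    by_cases hj : |j| ≤ R + r
    · rw [exch_sp_of_eq (hwy j (by push_cast; simp only [Int.abs_eq_natAbs] at *; omega))]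
      refine hr _ _ _ _ j fun i hi => ?_
      exact exch_sp_of_eq (hzx i (by simp only [Int.abs_eq_natAbs] at *; omega))
    · have h1 : ∀ i : ℤ, |i - j| ≤ r → x i = x' i := fun i hi => hR i (by simp only [Int.abs_eq_natAbs] at *; omega)
      rw [exch_sp_of_eq' (hr x x' hx hx' j h1)]
      have h2 : im g (sp (im g⁻¹ w hw) x x') hs j = im g (im g⁻¹ w hw) hz j := by
        refine hr _ _ _ _ j fun i hi => ?_
        exact exch_sp_of_eq' (h1 i hi)
      rw [h2, aut_im_inv']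
  rw [← e]
  exact im_mem g hs

theorem im_Rec (g : autRS th) {x : ℤ → Lt} (hx : x ∈ X) (h : Rec x) : Rec (im g x hx) := by
  obtain ⟨r, hr⟩ := aut_radius g
  intro M N B
  obtain ⟨k, hk, hkx⟩ := h M (N + r) B
  refine ⟨k, hk, fun i hi => hr x x hx hx _ _ fun j hj => ?_⟩
  have := hkx (j + i) (by push_cast; simp only [Int.abs_eq_natAbs] at *; omega)
  rw [← this]
  congr 1
  ring

/-- `x` lies in the closure of the orbit of `y` -/
def OC (x y : ℤ → Lt) : Prop := ∀ N : ℕ, ∃ k : ℤ, ∀ i : ℤ, |i| ≤ N → y (i + k) = x i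

theorem im_OC (g : autRS th) {x y : ℤ → Lt} (hx : x ∈ X) (hy : y ∈ X) (h : OC x y) :
    OC (im g x hx) (im g y hy) := by
  obtain ⟨r, hr⟩ := aut_radius g
  intro N
  obtain ⟨k, hk⟩ := h (N + r)
  refine ⟨k, fun i hi => hr y x hy hx _ _ fun j hj => ?_⟩
  have := hk (j + i) (by push_cast; simp only [Int.abs_eq_natAbs] at *; omega)
  rw [← this]
  congr 1
  ring

theorem im_eq_of_OC (g h : autRS th) (k : ℤ) {x y : ℤ → Lt} (hx : x ∈ X) (hy : y ∈ X) (ho : OC x y)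
    (he : im g y hy = sh k (im h y hy)) : im g x hx = sh k (im h x hx) := by
  obtain ⟨r, hr⟩ := aut_radius g
  obtain ⟨r', hr'⟩ := aut_radius h
  funext j
  obtain ⟨k', hk'⟩ := ho (j.natAbs + k.natAbs + r + r')
  have e1 : im g y hy (j + k') = im g x hx j := by
    refine hr y x hy hx _ _ fun i hi => ?_
    have := hk' (i + j) (by push_cast; simp only [Int.abs_eq_natAbs] at *; omega)
    rw [← this]
    congr 1
    ring
  have e2 : im h y hy (j + k + k') = im h x hx (j + k) := by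
    refine hr' y x hy hx _ _ fun i hi => ?_
    have := hk' (i + (j + k)) (by push_cast; simp only [Int.abs_eq_natAbs] at *; omega)
    rw [← this]
    congr 1
    ring
  rw [← e1, he, sh_apply, sh_apply, ← e2]
  congr 1
  ring

end H35.RS.RF
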