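import Pool.Agent.H35.RF.Val

/-! # W14: the background point -/

namespace H35.RS.RF
open H35.RS H35.RS.Up

theorem b0_zero (i : ℤ) : b0 (13 * i - 2) = b0 i := by
  rw [b0]
  rw [dif_pos (by omega)]
  congr 1
  omega

theorem b0_succ (i : ℤ) (j : Fin 12) : b0 (13 * i - 2 + (j.1 + 1)) = (cls j, ut j) := by
  have hj := j.2
  rw [b0]
  rw [dif_neg (by omega)]
  have e : (⟨((13 * i - 2 + ((j.1 : ℤ) + 1) + 2) % 13).toNat - 1, by omega⟩ : Fin 12) = j := by
    apply Fin.ext
    simp only
    omega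
  rw [e]

theorem bg_ut_lt (j : Fin 12) : ut j < 2 := by
  unfold ut
  split_ifs <;> decide

theorem b0_lt (i : ℤ) : (b0 i).2 < 2 := by
  rw [b0]
  split_ifs with h
  · exact b0_lt _
  · exact bg_ut_lt _
termination_by i.natAbs
decreasing_by omega

theorem b0_mul (i : ℤ) : b0 (13 * i) = (false, 0) := by
  have h := b0_succ i 1
  have e : 13 * i - 2 + ((((1 : Fin 12).1 : ℕ) : ℤ) + 1) = 13 * i := by
    have : (((1 : Fin 12).1 : ℕ) : ℤ) = 1 := rfl
    rw [this]
    ring
  rw [e] at h
  rw [h]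
  decide

theorem og_eq (n : ℕ) : 6 * og n = 1 - 13 ^ n := by
  induction n with
  | zero => simp [og]
  | succ n ih =>
    rw [og, pow_succ]
    linarith

theorem bg_og_dvd (n k : ℕ) : (13 : ℤ) ^ n ∣ og (n + k) - og n := by
  induction k with
  | zero => simp
  | succ k ih =>
    have e : og (n + (k + 1)) = og (n + k) - 2 * 13 ^ (n + k) := rfl
    rw [e]
    have h2 : (13 : ℤ) ^ n ∣ 2 * 13 ^ (n + k) := Dvd.dvd.mul_left (pow_dvd_pow _ (by omega)) _
    have := dvd_sub ih h2
    have e2 : og (n + k) - og n - 2 * 13 ^ (n + k) = og (n + k) - 2 * 13 ^ (n + k) - og n := by ring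
    rwa [e2] at this

theorem ty_x0 {n : ℕ} (hn : 1 ≤ n) (i : ℤ) :
    ty n x0 (og n + i * 13 ^ n) = some ((b0 i).1, some (b0 i).2) := by
  induction n, hn using Nat.le_induction generalizing i with
  | base =>
    refine ty_one_rw1 (b0_lt i) fun o => ?_
    have ho := o.2
    have e : og 1 + i * 13 ^ 1 + ((o.1 : ℕ) : ℤ) = 13 * i - 2 + o.1 := by
      have : og 1 = -2 := by simp [og]
      rw [this]
      ring
    rw [e]
    unfold x0
    have e1 : (13 * i - 2 + (o.1 : ℤ) + 2) / 13 = i := by omega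
    have e2 : (⟨((13 * i - 2 + (o.1 : ℤ) + 2) % 13).toNat, by omega⟩ : Fin 13) = o := by
      apply Fin.ext
      simp only
      omega
    rw [e1, e2]
  | succ n hn ih =>
    refine (ty_A hn (b0_lt i)).2 ⟨?_, fun j => ?_⟩
    · have e : og (n + 1) + i * 13 ^ (n + 1) = og n + (13 * i - 2) * 13 ^ n := by
        rw [og, pow_succ]
        ring
      rw [e, ih, b0_zero]
    · have e : og (n + 1) + i * 13 ^ (n + 1) + ((j.1 : ℤ) + 1) * 13 ^ n =
          og n + (13 * i - 2 + (j.1 + 1)) * 13 ^ n := by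
        rw [og, pow_succ]
        ring
      rw [e, ih, b0_succ]

theorem bg_pow (k : ℕ) : 1 + 12 * (k : ℤ) ≤ 13 ^ k := by
  have := one_add_mul_le_pow (a := (12 : ℤ)) (by norm_num) k
  norm_num at this
  linarith

theorem V_x0 {n : ℕ} (hn : 1 ≤ n) : V n x0 (og n) := by
  refine V_exhaust hn fun k => ⟨n + (k + 1), og (n + (k + 1)), by omega, bg_og_dvd _ _, ?_, ?_, ?_⟩
  · have h1 := og_eq n
    have h2 := og_eq (n + (k + 1))
    have h3 := bg_pow (k + 1)
    have h4 : (0 : ℤ) < 13 ^ n := by positivity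
    rw [pow_add] at h2
    push_cast at h3
    nlinarith
  · have h1 := og_eq n
    have h2 := og_eq (n + (k + 1))
    have h3 := bg_pow (k + 1)
    have h4 : (0 : ℤ) < 13 ^ n := by positivity
    rw [pow_add] at h2 ⊢
    push_cast at h3
    nlinarith
  · have := ty_x0 (n := n + (k + 1)) (by omega) 0
    rw [zero_mul, add_zero] at this
    rw [this]
    simp

theorem x0_mem : x0 ∈ X := V_mem le_rfl (V_x0 le_rfl)

theorem Rec_x0 : Rec x0 := by
  intro M N B
  set n := M + N + 1 with hn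
  refine ⟨13 * (B : ℤ) * 13 ^ (N + 1), ?_, fun i hi => ?_⟩
  · have h1 : (1 : ℤ) ≤ 13 ^ (N + 1) := one_le_pow₀ (by norm_num)
    have h2 : (0 : ℤ) ≤ (B : ℤ) := Int.natCast_nonneg _
    nlinarith
  · have e1 : ty n x0 (og n + 0 * 13 ^ n) = some (false, some 0) := by
      rw [ty_x0 (by omega)]
      have := b0_mul 0
      rw [mul_zero] at this
      rw [this]
    have e2 : ty n x0 (og n + (13 * (B : ℤ)) * 13 ^ n) = some (false, some 0) := by
      rw [ty_x0 (by omega), b0_mul]
    have h1 := og_eq n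
    have h3 := bg_pow n
    have h5 : (N : ℤ) ≤ (n : ℤ) := by rw [hn]; push_cast; omega
    have hi' := abs_le.1 hi
    have key := ty_A_uniq (by omega : 1 ≤ n) (by decide : (0 : Col) < 2) e2 e1 (i - og n)
      (by linarith) (by linarith)
    have e3 : og n + 13 * (B : ℤ) * 13 ^ n + (i - og n) = i + 13 * (B : ℤ) * 13 ^ (N + 1) * 13 ^ M := by
      rw [hn, show M + N + 1 = (N + 1) + M by ring, pow_add]
      ring
    have e4 : og n + 0 * 13 ^ n + (i - og n) = i := by ring
    rw [e3, e4] at key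
    exact key

/-- far away invalid phases: a point which differs from a recurrent point in finitely many places
has no more valid phases -/
theorem V_rec {z z' : ℤ → Lt} (hz : Rec z) (h : FD z z') {M : ℕ} {c : ℤ} (hc : V M z' c) :
    V M z c := by
  obtain ⟨R, hR⟩ := h
  refine V_closed fun N => ?_
  obtain ⟨k, hk, hk'⟩ := hz M N (N + R + 1)
  refine ⟨sh (k * 13 ^ M) z', fun i hi => ?_, ?_⟩
  · show z' (i + k * 13 ^ M) = z i
    rw [← hk' i hi]
    refine (hR _ ?_).symm
    have h1 : (1 : ℤ) ≤ 13 ^ M := one_le_pow₀ (by norm_num)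
    push_cast at hk
    have h2 : k ≤ k * 13 ^ M := by nlinarith
    have h3 := (abs_le.1 hi).1
    rw [abs_of_pos (by linarith)]
    linarith
  · rw [V_sh]
    refine (V_mod ?_).1 hc
    have e : c + k * 13 ^ M - c = k * 13 ^ M := by ring
    rw [e]
    exact Dvd.intro_left k rfl

end H35.RS.RF
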