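import Pool.Agent.H35.RF.Ty

/-! # W16: forgetting and bumps -/

namespace H35.RS.RF
open H35.RS H35.RS.Up

theorem forget_col (d : Col) : d < 2 ∨ ∃ a : Col, a < 2 ∧ d = up a := by
  revert d
  decide

theorem forget_ut (j : Fin 12) : ut j < 2 := by
  revert j
  decide

theorem forget_up (a b : Col) (ha : a < 2) (hb : b < 2) : up a ≠ b := by
  revert a b
  decide

/-- a block cannot show the classes of both patterns -/
theorem forget_excl {n : ℕ} {x : ℤ → Lt} {s : ℤ} {τ τ' : Option Col}
    (h : ty n x (s + ((5 : Fin 12).1 + 1) * 13 ^ n) = some (cls 5, τ))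
    (h' : ty n x (s + (6 : Fin 12).1 * 13 ^ n) = some (cls 6, τ')) : False := by
  have e : s + (((5 : Fin 12).1 : ℤ) + 1) * 13 ^ n = s + (((6 : Fin 12).1 : ℕ) : ℤ) * 13 ^ n := by
    norm_num
  rw [e, h'] at h
  have h2 : cls 6 = cls 5 := by
    have := Option.some.inj h
    exact congrArg Prod.fst this
  revert h2
  decide

/-- in a block of pattern P2 the coordinate 2 (index 1) is forgotten: replacing it by `F` does not
change the type -/
theorem forget_F {n : ℕ} (hn : 1 ≤ n) {x x' : ℤ → Lt} {s : ℤ} {c : Bool} {τ : Option Col}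
    (hQ : Q2 n x s c) (hne : ty (n + 1) x s ≠ none)
    (h : ∀ o : Fin 13, o ≠ 1 → ty n x' (s + o.1 * 13 ^ n) = ty n x (s + o.1 * 13 ^ n))
    (h1 : ty n x (s + 13 ^ n) = some (false, τ)) (h1' : ty n x' (s + 13 ^ n) = some (false, none)) :
    ty (n + 1) x' s = ty (n + 1) x s := by
  obtain ⟨t, ht⟩ := Option.ne_none_iff_exists'.1 hne
  obtain ⟨κ, d⟩ := t
  obtain ⟨τ5, h6⟩ := hQ.1 6
  -- the class
  have hκ : κ = c := by
    rcases ty_pat hn ht with hp | hp
    · obtain ⟨τ', h5⟩ := hp.2 5
      exact (forget_excl h5 h6).elim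
    · obtain ⟨τ', h5⟩ := hp.2
      obtain ⟨τ'', h5'⟩ := hQ.2
      rw [h5'] at h5
      exact (congrArg Prod.fst (Option.some.inj h5)).symm
  subst hκ
  have hm : tle (ty (n + 1) x s) (ty (n + 1) x' s) := by
    apply ty_mono hn
    intro o
    by_cases ho : o = 1
    · subst ho
      have e : s + (((1 : Fin 13).1 : ℕ) : ℤ) * 13 ^ n = s + 13 ^ n := by norm_num
      rw [e, h1, h1']
      right; right
      exact ⟨false, τ, rfl, rfl⟩
    · rw [h o ho]
      exact tle_refl _
  cases d with
  | none =>
    rw [ht] at hm ⊢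
    rcases hm with hm | hm | ⟨κ', τ', hm, hm'⟩
    · exact absurd hm (by simp)
    · exact hm.symm
    · rw [hm']
      have := congrArg Prod.fst (Option.some.inj hm)
      simp only at this
      rw [this]
  | some d =>
    rcases forget_col d with hd | ⟨a, ha, rfl⟩
    · have h2 := ((ty_A hn hd).1 ht).2 5
      exact (forget_excl h2 h6).elim
    · rcases (ty_B hn ha).1 ht with h2 | h2
      · exact (forget_excl (h2.2 5) h6).elim
      · rw [ht]
        apply (ty_B hn ha).2
        right
        refine ⟨?_, ⟨none, by simp, h1'⟩, ?_⟩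
        · intro j hj
          have h3 := h j.castSucc (by
            intro h4
            apply hj
            rw [Fin.ext_iff] at h4 ⊢
            simpa using h4)
          simp only [Fin.val_castSucc] at h3
          rw [h3]
          exact h2.1 j hj
        · have h3 := h 12 (by decide)
          have e : s + (((12 : Fin 13).1 : ℕ) : ℤ) * 13 ^ n = s + 12 * 13 ^ n := by norm_num
          rw [e] at h3
          rw [h3]
          exact h2.2.2

/-- the same for rigid backgrounds, with arbitrary types at the coordinate 2 -/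
theorem forget_B {n : ℕ} (hn : 1 ≤ n) {x : ℤ → Lt} {s : ℤ} {c : Bool} {a : Col} {τ : Option Col}
    (ha : a < 2)
    (h : ∀ j : Fin 12, j ≠ 1 → ty n x (s + j.1 * 13 ^ n) = some (cls j, some (ut j)))
    (h1 : ty n x (s + 13 ^ n) = some (false, τ)) (hτ : τ ≠ some 2)
    (h2 : ty n x (s + 12 * 13 ^ n) = some (c, some a)) :
    ty (n + 1) x s = some (c, some (up a)) :=
  (ty_B hn ha).2 (Or.inr ⟨h, ⟨τ, hτ, h1⟩, h2⟩)

/-- an `F` at the coordinate 2 (index 2 of the pattern P1) of a rigid block gives `F` -/
theorem bump {n : ℕ} (hn : 1 ≤ n) {x x' : ℤ → Lt} {s : ℤ} {c : Bool} {a : Col} (ha : a < 2)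
    (hx : ty (n + 1) x s = some (c, some a))
    (h : ∀ o : Fin 13, o ≠ 2 → ty n x' (s + o.1 * 13 ^ n) = ty n x (s + o.1 * 13 ^ n))
    (h1 : ty n x' (s + 2 * 13 ^ n) = some (false, none)) :
    ty (n + 1) x' s = some (c, none) := by
  have hA := (ty_A hn ha).1 hx
  have h2 : ty n x (s + 2 * 13 ^ n) = some (false, some 0) := by
    have h3 := hA.2 1
    have e : s + ((((1 : Fin 12).1 : ℕ) : ℤ) + 1) * 13 ^ n = s + 2 * 13 ^ n := by norm_num
    rw [e] at h3
    rw [h3]
    decide
  have hm : tle (ty (n + 1) x s) (ty (n + 1) x' s) := by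
    apply ty_mono hn
    intro o
    by_cases ho : o = 2
    · subst ho
      have e : s + (((2 : Fin 13).1 : ℕ) : ℤ) * 13 ^ n = s + 2 * 13 ^ n := by norm_num
      rw [e, h1, h2]
      right; right
      exact ⟨false, some 0, rfl, rfl⟩
    · rw [h o ho]
      exact tle_refl _
  rw [hx] at hm
  rcases hm with hm | hm | ⟨κ', τ', hm, hm'⟩
  · exact absurd hm (by simp)
  · exfalso
    have h3 := ((ty_A hn ha).1 hm.symm).2 1
    have e : s + ((((1 : Fin 12).1 : ℕ) : ℤ) + 1) * 13 ^ n = s + 2 * 13 ^ n := by norm_num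
    rw [e, h1] at h3
    simp at h3
  · rw [hm']
    have := congrArg Prod.fst (Option.some.inj hm)
    simp only at this
    rw [this]

/-- a block of pattern P1 with rigid sub-blocks is rigid or of type `F` -/
theorem rigid_or_F {n : ℕ} (hn : 1 ≤ n) {x : ℤ → Lt} {s : ℤ} {c : Bool} (hQ : Q1 n x s c)
    (hne : ty (n + 1) x s ≠ none)
    (hr : ∀ o : Fin 13, ∃ (κ : Bool) (a : Col), a < 2 ∧ ty n x (s + o.1 * 13 ^ n) = some (κ, some a)) :
    (∃ a : Col, a < 2 ∧ ty (n + 1) x s = some (c, some a)) ∨ ty (n + 1) x s = some (c, none) := by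
  obtain ⟨t, ht⟩ := Option.ne_none_iff_exists'.1 hne
  obtain ⟨κ, d⟩ := t
  obtain ⟨τ5, h5⟩ := hQ.2 5
  have hκ : κ = c := by
    rcases ty_pat hn ht with hp | hp
    · obtain ⟨τ', h6⟩ := hp.1
      obtain ⟨τ'', h6'⟩ := hQ.1
      rw [h6'] at h6
      exact (congrArg Prod.fst (Option.some.inj h6)).symm
    · obtain ⟨τ', h6⟩ := hp.1 6
      exact (forget_excl h5 h6).elim
  subst hκ
  cases d with
  | none => exact Or.inr ht
  | some d =>
    left
    rcases forget_col d with hd | ⟨a, ha, rfl⟩
    · exact ⟨d, hd, ht⟩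
    · exfalso
      rcases (ty_B hn ha).1 ht with h2 | h2
      · obtain ⟨κ', b, hb, h3⟩ := hr 0
        have e : s + (((0 : Fin 13).1 : ℕ) : ℤ) * 13 ^ n = s := by norm_num
        rw [e, h2.1] at h3
        have h4 := congrArg Prod.snd (Option.some.inj h3)
        simp only [Option.some.injEq] at h4
        exact forget_up a b ha hb h4
      · exact forget_excl h5 (h2.1 6 (by decide))

/-- the chain of central sub-blocks of a rigid block `[s, s + 13^n)` of class `false`: its member of
level `i` starts at `s - og n + og i` -/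
theorem chain_rigid {n : ℕ} {x : ℤ → Lt} {s : ℤ} {a : Col} (ha : a < 2)
    (h : ty n x s = some (false, some a)) :
    ∀ i : ℕ, 1 ≤ i → i ≤ n → ∃ b : Col, b < 2 ∧ ty i x (s - og n + og i) = some (false, some b) := by
  induction n generalizing s a with
  | zero =>
    intro i h1 h2
    omega
  | succ n ih =>
    intro i h1 h2
    rcases Nat.lt_or_ge n i with h3 | h3
    · have h4 : i = n + 1 := by omega
      subst h4
      refine ⟨a, ha, ?_⟩
      rw [sub_add_cancel]
      exact h
    · have hn : 1 ≤ n := by omega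
      have h5 := ((ty_A hn ha).1 h).2 1
      have e : s + ((((1 : Fin 12).1 : ℕ) : ℤ) + 1) * 13 ^ n = s + 2 * 13 ^ n := by norm_num
      rw [e] at h5
      have e2 : ty n x (s + 2 * 13 ^ n) = some (false, some 0) := by
        rw [h5]
        decide
      obtain ⟨b, hb, h6⟩ := ih (by decide) e2 i h1 h3
      refine ⟨b, hb, ?_⟩
      rw [← h6]
      congr 1
      simp only [og]
      ring

theorem forget_og (i : ℕ) (hi : 1 ≤ i) : og i ≤ og 1 ∧ og 1 + 13 ≤ og i + 13 ^ i := by
  induction i with
  | zero => omega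
  | succ i ih =>
    rcases Nat.eq_zero_or_pos i with rfl | h
    · simp [og]
    · have := ih h
      have h13 : (0 : ℤ) < 13 ^ i := by positivity
      have e : og (i + 1) = og i - 2 * 13 ^ i := rfl
      have e2 : (13 : ℤ) ^ (i + 1) = 13 * 13 ^ i := by ring
      rw [e, e2]
      constructor <;> linarith [this.1, this.2]

/-- changing the member of level 1 of the chain to an `F`-word makes all members of type `F` -/
theorem chain_bump {n : ℕ} {x x' : ℤ → Lt} {s : ℤ} {a : Col} (ha : a < 2)
    (h : ty n x s = some (false, some a)) (hn : 1 ≤ n)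
    (hx : ∀ p : ℤ, p < s - og n + og 1 ∨ s - og n + og 1 + 13 ≤ p → x' p = x p)
    (h1 : ty 1 x' (s - og n + og 1) = some (false, none)) :
    ∀ i : ℕ, 1 ≤ i → i ≤ n → ty i x' (s - og n + og i) = some (false, none) := by
  intro i hi
  induction i with
  | zero => omega
  | succ i ih =>
    intro hin
    rcases Nat.eq_zero_or_pos i with rfl | hi0
    · exact h1
    · obtain ⟨b, hb, hr⟩ := chain_rigid ha h (i + 1) hi hin
      have ih' := ih hi0 (by omega)
      have e : og (i + 1) = og i - 2 * 13 ^ i := rfl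
      refine bump hi0 hb hr ?_ ?_
      · intro o ho
        apply ty_congr
        intro k hk hk'
        apply hx
        have h13 : (0 : ℤ) < 13 ^ i := by positivity
        obtain ⟨g1, g2⟩ := forget_og i hi0
        have ho' : o.1 < 2 ∨ 2 < o.1 := by
          rcases Nat.lt_trichotomy o.1 2 with h5 | h5 | h5
          · exact Or.inl h5
          · exact absurd (Fin.ext h5) ho
          · exact Or.inr h5
        rcases ho' with h5 | h5
        · left
          have h6 : ((o.1 : ℤ) + 1) * 13 ^ i ≤ 2 * 13 ^ i :=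
            mul_le_mul_of_nonneg_right (by exact_mod_cast h5) h13.le
          rw [e]
          linarith
        · right
          have h6 : (3 : ℤ) * 13 ^ i ≤ (o.1 : ℤ) * 13 ^ i :=
            mul_le_mul_of_nonneg_right (by exact_mod_cast h5) h13.le
          rw [e]
          linarith
      · rw [← ih']
        congr 1
        rw [e]
        ring

end H35.RS.RF
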