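import Pool.Agent.H35.RF.Ph
import Pool.Agent.H35.RF.Forget

/-! # W17: sensitivity in the phase `dl j` -/

namespace H35.RS.RF
open H35.RS H35.RS.Up

theorem og_dvd {n M : ℕ} (h : n ≤ M) : (13 : ℤ) ^ n ∣ og M - og n := by
  induction M, h using Nat.le_induction with
  | base => simp
  | succ M hM ih =>
    have h1 : og (M + 1) - og n = (og M - og n) - 2 * 13 ^ M := by
      simp only [og]
      ring
    rw [h1]
    exact dvd_sub ih (Dvd.dvd.mul_left (pow_dvd_pow 13 hM) 2)

theorem dl_eq (j : ℕ) : dl j = -12 * 13 ^ j := by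
  unfold dl
  rw [pow_succ]
  ring

theorem dl_dvd {n j : ℕ} (h : n ≤ j) : (13 : ℤ) ^ n ∣ dl j := by
  rw [dl_eq]
  exact Dvd.dvd.mul_left (pow_dvd_pow 13 h) _

theorem dl_not_dvd {n j : ℕ} (h : j < n) : ¬ (13 : ℤ) ^ n ∣ dl j := by
  intro h1
  have h2 : (13 : ℤ) ^ (j + 1) ∣ dl j := (pow_dvd_pow 13 h).trans h1
  rw [dl_eq] at h2
  obtain ⟨k, hk⟩ := h2
  have h3 : (0 : ℤ) < 13 ^ j := by positivity
  have h4 : (-12 : ℤ) = 13 * k := by
    have : (-12 : ℤ) * 13 ^ j = (13 * k) * 13 ^ j := by rw [hk, pow_succ]; ring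
    exact mul_right_cancel₀ h3.ne' this
  omega

/-- two phases: the phase `dl j` of level `j + 1` consists of blocks of pattern P2 -/
theorem sens_Q2 {x : ℤ → Lt} {j : ℕ} (hj : 1 ≤ j)
    (h0 : ∀ i : ℤ, ty (j + 1) x (og (j + 1) + i * 13 ^ (j + 1)) ≠ none)
    (h1 : ∀ i : ℤ, ty (j + 1) x (og (j + 1) + dl j + i * 13 ^ (j + 1)) ≠ none) (i : ℤ) :
    ∃ κ, Q2 j x (og (j + 1) + dl j + i * 13 ^ (j + 1)) κ := by
  have e1 : og (j + 1) + dl j - og (j + 1) = dl j := by ring
  rcases two_phases hj (c := og (j + 1)) (c' := og (j + 1) + dl j)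
    (by rw [e1]; exact dl_dvd le_rfl) h0 h1 (by rw [e1]; exact dl_not_dvd (Nat.lt_succ_self j)) with
    ⟨-, -, h⟩ | ⟨h, -, -⟩
  · exact h i
  · exfalso
    have e2 : og (j + 1) - (og (j + 1) + dl j) - 13 ^ j = 11 * 13 ^ j := by
      rw [dl_eq]
      ring
    rw [e2] at h
    obtain ⟨k, hk⟩ := h
    have h3 : (0 : ℤ) < 13 ^ j := by positivity
    have h4 : (11 : ℤ) = 13 * k := by
      have : (11 : ℤ) * 13 ^ j = (13 * k) * 13 ^ j := by rw [hk, pow_succ]; ring
      exact mul_right_cancel₀ h3.ne' this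
    omega

/-- no rigid types in the phase `dl j` above the level `j` -/
theorem sens_noA {x : ℤ → Lt} {j : ℕ} (hj : 1 ≤ j)
    (h : ∀ i : ℤ, ∃ κ, Q2 j x (og (j + 1) + dl j + i * 13 ^ (j + 1)) κ) :
    ∀ M : ℕ, j + 1 ≤ M → ∀ (i : ℤ) (κ : Bool) (a : Col), a < 2 →
      ty M x (og M + dl j + i * 13 ^ M) ≠ some (κ, some a) := by
  intro M hM
  induction M, hM using Nat.le_induction with
  | base =>
    intro i κ a ha h1
    rw [ty_A hj ha] at h1
    obtain ⟨κ', hQ⟩ := h i
    exact Q_excl (n := j) ⟨⟨_, h1.1⟩, fun j' => ⟨_, h1.2 j'⟩⟩ hQ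
  | succ M hM ih =>
    intro i κ a ha h1
    rw [ty_A (by omega) ha] at h1
    refine ih (13 * i - 2) κ a ha ?_
    have e : og M + dl j + (13 * i - 2) * 13 ^ M = og (M + 1) + dl j + i * 13 ^ (M + 1) := by
      simp only [og]
      ring
    rw [e]
    exact h1.1

/-- if the central block of `x` in the phase `dl j` has the type of the background, then `x` agrees
with the background outside the central sub-blocks of level `j` -/
theorem sens {x : ℤ → Lt} {j M : ℕ} (hj : 1 ≤ j) (hM : j + 1 ≤ M)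
    (hfd : ∀ i : ℤ, (i < og M + dl j ∨ og M + dl j + 13 ^ M ≤ i) → x i = x0 i)
    (h0 : ∀ i : ℤ, ty (j + 1) x (og (j + 1) + i * 13 ^ (j + 1)) ≠ none)
    (h1 : ty M x (og M + dl j) = some (false, some 2)) :
    (∀ i : ℤ, ¬ (13 : ℤ) ∣ i → ∀ k : ℤ, 0 ≤ k → k < 13 ^ j →
      x (og j + i * 13 ^ j + k) = x0 (og j + i * 13 ^ j + k)) ∧
    ∀ i : ℤ, ∃ τ, τ ≠ some 2 ∧ ty j x (og j + (13 * i) * 13 ^ j) = some (false, τ) := by
  have hb0 : b0 0 = (false, 0) := by
    have := b0_mul 0
    rwa [mul_zero] at this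
  -- the level `M`
  have hMt : ∀ i : ℤ, ty M x (og M + dl j + i * 13 ^ M) = some ((b0 i).1, some (up (b0 i).2)) := by
    intro i
    by_cases hi : i = 0
    · subst hi
      rw [zero_mul, add_zero, h1, hb0]
      rfl
    · rw [← ty_x0_dl (M := M) hj (by omega) i]
      apply ty_congr
      intro k hk hk'
      apply hfd
      have h3 : (0 : ℤ) < 13 ^ M := by positivity
      rcases lt_or_gt_of_ne hi with h | h
      · left
        nlinarith
      · right
        nlinarith
  have hne : ∀ i : ℤ, ty (j + 1) x (og (j + 1) + dl j + i * 13 ^ (j + 1)) ≠ none := by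
    intro i
    refine ty_down_ne (by omega) hM (c' := og M + dl j) ?_ (fun i => ?_) i
    · have e : og M + dl j - (og (j + 1) + dl j) = og M - og (j + 1) := by ring
      rw [e]
      exact og_dvd hM
    · rw [hMt i]
      simp
  have hQ := sens_Q2 hj h0 hne
  have hnoA := sens_noA hj hQ
  -- descent
  have hall : ∀ d : ℕ, ∀ M', j + 1 ≤ M' → M' + d = M → ∀ i : ℤ,
      ty M' x (og M' + dl j + i * 13 ^ M') = some ((b0 i).1, some (up (b0 i).2)) := by
    intro d
    induction d with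
    | zero =>
      intro M' _ h2
      have : M' = M := by omega
      subst this
      exact hMt
    | succ d ih =>
      intro M' h1' h2 m
      have h3 := ih (M' + 1) (by omega) (by omega) ((m + 2) / 13)
      have hb := b0_lt ((m + 2) / 13)
      rw [ty_B (by omega) hb] at h3
      obtain ⟨q, hq⟩ : ∃ q, q = (m + 2) / 13 := ⟨_, rfl⟩
      have e : og (M' + 1) + dl j + q * 13 ^ (M' + 1) = og M' + dl j + (13 * q - 2) * 13 ^ M' := by
        simp only [og]
        ring
      rw [← hq, e] at h3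
      rcases h3 with ⟨h4, h5⟩ | ⟨h4, -, -⟩
      · have hr0 : 0 ≤ (m + 2) % 13 := Int.emod_nonneg _ (by norm_num)
        have hr1 : (m + 2) % 13 < 13 := Int.emod_lt_of_pos _ (by norm_num)
        have hm : m = 13 * q - 2 + (m + 2) % 13 := by omega
        by_cases hr : (m + 2) % 13 = 0
        · rw [hr, add_zero] at hm
          rw [hm, h4, b0_zero]
        · obtain ⟨o, ho⟩ : ∃ o : Fin 12, (m + 2) % 13 = (o.1 : ℤ) + 1 :=
            ⟨⟨((m + 2) % 13).toNat - 1, by omega⟩, by simp only; omega⟩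
          rw [ho] at hm
          have h6 := h5 o
          have e2 : og M' + dl j + (13 * q - 2) * 13 ^ M' + ((o.1 : ℤ) + 1) * 13 ^ M' =
              og M' + dl j + m * 13 ^ M' := by
            rw [hm]
            ring
          rw [e2] at h6
          rw [h6, hm, b0_succ]
      · exfalso
        have h6 := h4 0 (by decide)
        have e2 : og M' + dl j + (13 * q - 2) * 13 ^ M' + ((0 : Fin 12).1 : ℤ) * 13 ^ M' =
              og M' + dl j + (13 * q - 2) * 13 ^ M' := by
          simp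
        rw [e2] at h6
        exact hnoA M' h1' (13 * q - 2) _ _ (by decide) h6
  have hlow := hall (M - (j + 1)) (j + 1) le_rfl (by omega)
  -- the level `j`
  have key : ∀ q : ℤ,
      (∀ j' : Fin 12, j' ≠ 1 → ty j x (og j + (13 * (q - 1) - 1) * 13 ^ j + j'.1 * 13 ^ j) =
        some (cls j', some (ut j'))) ∧
      (∃ τ, τ ≠ some 2 ∧ ty j x (og j + (13 * (q - 1) - 1) * 13 ^ j + 13 ^ j) = some (false, τ)) ∧
      ty j x (og j + (13 * (q - 1) - 1) * 13 ^ j + 12 * 13 ^ j) =
        some ((b0 q).1, some (b0 q).2) := by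
    intro q
    have h3 := hlow q
    rw [ty_B hj (b0_lt q)] at h3
    obtain ⟨κ', hQ'⟩ := hQ q
    have e : og (j + 1) + dl j + q * 13 ^ (j + 1) = og j + (13 * (q - 1) - 1) * 13 ^ j := by
      simp only [og, dl]
      ring
    rw [e] at h3 hQ'
    rcases h3 with ⟨h4, h5⟩ | h4
    · exact absurd hQ' (fun hQ' => Q_excl (n := j) ⟨⟨_, h4⟩, fun j' => ⟨_, h5 j'⟩⟩ hQ')
    · exact h4
  constructor
  · intro m hm k hk hk'
    obtain ⟨q, hq⟩ : ∃ q, q = (m + 1) / 13 + 1 := ⟨_, rfl⟩
    obtain ⟨h4, -, h6⟩ := key q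
    have hr0 : 0 ≤ (m + 1) % 13 := Int.emod_nonneg _ (by norm_num)
    have hr1 : (m + 1) % 13 < 13 := Int.emod_lt_of_pos _ (by norm_num)
    have hm2 : m = 13 * (q - 1) - 1 + (m + 1) % 13 := by omega
    have ht : ty j x (og j + m * 13 ^ j) = some ((b0 m).1, some (b0 m).2) := by
      by_cases hr : (m + 1) % 13 = 12
      · have e2 : og j + (13 * (q - 1) - 1) * 13 ^ j + 12 * 13 ^ j = og j + m * 13 ^ j := by
          rw [hm2, hr]
          ring
        rw [e2] at h6
        have e3 : m = 13 * q - 2 := by omega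
        rw [h6, e3, b0_zero]
      · obtain ⟨o, ho⟩ : ∃ o : Fin 12, (m + 1) % 13 = (o.1 : ℤ) :=
          ⟨⟨((m + 1) % 13).toNat, by omega⟩, by simp only; omega⟩
        have ho1 : o ≠ 1 := by
          rintro rfl
          apply hm
          have : ((1 : Fin 12).1 : ℤ) = 1 := rfl
          rw [this] at ho
          omega
        have h7 := h4 o ho1
        have e2 : og j + (13 * (q - 1) - 1) * 13 ^ j + (o.1 : ℤ) * 13 ^ j = og j + m * 13 ^ j := by
          rw [hm2, ho]
          ring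
        rw [e2] at h7
        have e3 : m = 13 * (q - 1) - 2 + ((o.1 : ℤ) + 1) := by omega
        rw [h7, e3, b0_succ]
    exact ty_A_uniq hj (b0_lt m) ht (ty_x0 hj m) k hk hk'
  · intro i
    obtain ⟨-, ⟨τ, hτ, h5⟩, -⟩ := key (i + 1)
    refine ⟨τ, hτ, ?_⟩
    have e : og j + (13 * (i + 1 - 1) - 1) * 13 ^ j + 13 ^ j = og j + (13 * i) * 13 ^ j := by ring
    rwa [e] at h5

/-- if this holds for all `j ≥ m` then `x` agrees with the background outside `C_m` -/
theorem sens_all {x : ℤ → Lt} {m : ℕ}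
    (h : ∀ j : ℕ, m ≤ j → ∀ i : ℤ, ¬ (13 : ℤ) ∣ i → ∀ k : ℤ, 0 ≤ k → k < 13 ^ j →
      x (og j + i * 13 ^ j + k) = x0 (og j + i * 13 ^ j + k)) :
    ∀ p : ℤ, (p < og m ∨ og m + 13 ^ m ≤ p) → x p = x0 p := by
  intro p hp
  by_contra hne
  obtain ⟨I, hI⟩ : ∃ I : ℕ → ℤ, I = fun j => (p - og j) / 13 ^ j := ⟨_, rfl⟩
  have hIj : ∀ j, I j = (p - og j) / 13 ^ j := fun j => by rw [hI]
  have hpos : ∀ j : ℕ, (0 : ℤ) < 13 ^ j := fun j => by positivity
  have hdec : ∀ j, og j + I j * 13 ^ j + (p - og j) % 13 ^ j = p := by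
    intro j
    have := Int.emod_add_mul_ediv (p - og j) ((13 : ℤ) ^ j)
    rw [hIj]
    linarith
  have hdiv : ∀ j, m ≤ j → (13 : ℤ) ∣ I j := by
    intro j hj
    by_contra hnd
    apply hne
    have := h j hj (I j) hnd ((p - og j) % 13 ^ j) (Int.emod_nonneg _ (hpos j).ne')
      (Int.emod_lt_of_pos _ (hpos j))
    rwa [hdec j] at this
  have hstep : ∀ j, m ≤ j → I j = 13 * I (j + 1) := by
    intro j hj
    obtain ⟨q, hq⟩ := hdiv j hj
    have h1 : I (j + 1) = q := by
      rw [hIj]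
      have h2 := hdec j
      rw [hq] at h2
      have e : p - og (j + 1) = (2 * 13 ^ j + (p - og j) % 13 ^ j) + q * 13 ^ (j + 1) := by
        simp only [og]
        rw [pow_succ]
        linarith
      rw [e, Int.add_mul_ediv_right _ _ (hpos (j + 1)).ne']
      have h3 : (2 * 13 ^ j + (p - og j) % 13 ^ j) / (13 : ℤ) ^ (j + 1) = 0 := by
        apply Int.ediv_eq_zero_of_lt
        · have := Int.emod_nonneg (p - og j) (hpos j).ne'
          have := hpos j
          linarith
        · have := Int.emod_lt_of_pos (p - og j) (hpos j)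
          rw [pow_succ]
          linarith [hpos j]
      rw [h3, zero_add]
    rw [h1, hq]
  have hpow : ∀ k : ℕ, I m = 13 ^ k * I (m + k) := by
    intro k
    induction k with
    | zero => simp
    | succ k ih =>
      rw [ih, hstep (m + k) (by omega), pow_succ]
      ring_nf
  have hz : I m = 0 := by
    by_contra hnz
    have h1 := hpow (I m).natAbs
    have h2 : (13 : ℤ) ^ (I m).natAbs ∣ I m := ⟨_, h1⟩
    have h3 := Int.le_of_dvd (Int.natAbs_pos.2 hnz |> fun h => by exact_mod_cast h)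
      ((Int.dvd_natAbs).2 h2)
    have h4 : (I m).natAbs < 13 ^ (I m).natAbs := Nat.lt_pow_self (by norm_num)
    have h5 : (((I m).natAbs : ℕ) : ℤ) < 13 ^ (I m).natAbs := by exact_mod_cast h4
    linarith
  have h1 := hdec m
  rw [hz, zero_mul, add_zero] at h1
  have h2 := Int.emod_nonneg (p - og m) (hpos m).ne'
  have h3 := Int.emod_lt_of_pos (p - og m) (hpos m)
  rcases hp with hp | hp
  · linarith
  · linarith

end H35.RS.RF
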