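import Pool.Agent.H35.RF.Good
import Pool.Agent.H35.RF.Sens

/-! # W19: the order on the good points, part 1 -/

namespace H35.RS.RF
open H35.RS H35.RS.Up

theorem Chain1_b0 : b0 0 = (false, 0) := by
  have h := b0_mul 0
  rwa [mul_zero] at h

theorem Chain1_og_dvd {n M : ℕ} (h : n ≤ M) : (13 : ℤ) ^ n ∣ og M - og n := by
  induction M, h using Nat.le_induction with
  | base => simp
  | succ M hM ih =>
    have e : og (M + 1) - og n = og M - og n - 2 * 13 ^ M := by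
      show og M - 2 * 13 ^ M - og n = _
      ring
    rw [e]
    exact dvd_sub ih (Dvd.dvd.mul_left (pow_dvd_pow _ hM) _)

/-- large powers -/
theorem Chain1_pow {R k : ℕ} (h : R + 1 ≤ k) : (13 : ℤ) * (R + 1) ≤ 13 ^ k := by
  have h1 : R + 1 ≤ 13 ^ R := Nat.lt_pow_self (by norm_num)
  have h2 : 13 ^ (R + 1) ≤ 13 ^ k := Nat.pow_le_pow_right (by norm_num) h
  have h3 : 13 * (R + 1) ≤ 13 ^ k := by
    rw [pow_succ] at h2
    omega
  exact_mod_cast h3

/-- the central window is contained in one block of level `M`, in every phase of the background -/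
theorem Chain1_win {R M : ℕ} (hM : R + 2 ≤ M) :
    (og M ≤ -(R : ℤ) ∧ (R : ℤ) < og M + 13 ^ M) ∧ ∀ j : ℕ, 1 ≤ j → j < M → ∃ i : ℤ,
      og M + dl j + i * 13 ^ M ≤ -(R : ℤ) ∧ (R : ℤ) < og M + dl j + i * 13 ^ M + 13 ^ M := by
  obtain ⟨k, rfl⟩ : ∃ k, M = k + 1 := ⟨M - 1, by omega⟩
  have hP := Chain1_pow (show R + 1 ≤ k by omega)
  have ho := og_eq (k + 1)
  have hR : (0 : ℤ) ≤ R := Nat.cast_nonneg R
  rw [pow_succ] at ho ⊢
  obtain ⟨P, hPP⟩ : ∃ P : ℤ, (13 : ℤ) ^ k = P := ⟨_, rfl⟩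
  rw [hPP] at hP ho ⊢
  refine ⟨⟨by linarith, by linarith⟩, fun j hj hjM => ?_⟩
  unfold dl
  rw [pow_succ]
  rcases Nat.lt_or_ge j k with h | h
  · have h1 : (13 : ℤ) ^ j * 13 ≤ P := by
      rw [← pow_succ, ← hPP]
      exact pow_le_pow_right₀ (by norm_num) h
    have h2 : (0 : ℤ) < 13 ^ j := by positivity
    exact ⟨0, by linarith, by linarith⟩
  · have h1 : j = k := by omega
    rw [h1, hPP]
    exact ⟨1, by linarith, by linarith⟩

theorem Chain1_win' {R j M : ℕ} (hM : R + j + 2 ≤ M) :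
    og M + dl j ≤ -(R : ℤ) ∧ (R : ℤ) < og M + dl j + 13 ^ M := by
  obtain ⟨k, rfl⟩ : ∃ k, M = k + 1 := ⟨M - 1, by omega⟩
  have hP := Chain1_pow (show R + 1 ≤ k by omega)
  have ho := og_eq (k + 1)
  have hR : (0 : ℤ) ≤ R := Nat.cast_nonneg R
  rw [pow_succ] at ho ⊢
  have h1 : (13 : ℤ) ^ j * 13 ≤ 13 ^ k := by
    rw [← pow_succ]
    exact pow_le_pow_right₀ (by norm_num) (by omega)
  have h2 : (0 : ℤ) < 13 ^ j := by positivity
  unfold dl
  rw [pow_succ]
  exact ⟨by linarith, by linarith⟩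

/-- comparison of the types of the central block gives the comparison of all types -/
theorem Chain1_all {x x' : ℤ → Lt} {R M : ℕ} {s c : ℤ}
    (hfd : ∀ i : ℤ, (R : ℤ) < |i| → x i = x' i) (h1 : s ≤ -(R : ℤ)) (h2 : (R : ℤ) < s + 13 ^ M)
    (ht : tle (ty M x s) (ty M x' s)) (hc : (13 : ℤ) ^ M ∣ c - s) (i : ℤ) :
    tle (ty M x (c + i * 13 ^ M)) (ty M x' (c + i * 13 ^ M)) := by
  obtain ⟨d, hd⟩ := hc
  have hpos : (0 : ℤ) < 13 ^ M := by positivity
  have e : c + i * 13 ^ M = s + (d + i) * 13 ^ M := by linarith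
  rw [e]
  rcases lt_trichotomy (d + i) 0 with h | h | h
  · have e2 : ty M x (s + (d + i) * 13 ^ M) = ty M x' (s + (d + i) * 13 ^ M) := by
      apply ty_congr
      intro k hk hk'
      apply hfd
      have h3 : (d + i) * 13 ^ M ≤ (-1) * 13 ^ M := mul_le_mul_of_nonneg_right (by omega) hpos.le
      rw [lt_abs]
      right
      linarith
    rw [e2]
    exact tle_refl _
  · rw [h, zero_mul, add_zero]
    exact ht
  · have e2 : ty M x (s + (d + i) * 13 ^ M) = ty M x' (s + (d + i) * 13 ^ M) := by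
      apply ty_congr
      intro k hk hk'
      apply hfd
      have h3 : 1 * 13 ^ M ≤ (d + i) * 13 ^ M := mul_le_mul_of_nonneg_right (by omega) hpos.le
      rw [lt_abs]
      left
      linarith
    rw [e2]
    exact tle_refl _

/-- points which agree with the background near the central block are equal to it if the type of
the central block is rigid -/
theorem Chain1_eq {x : ℤ → Lt} {R M : ℕ} (hM : 1 ≤ M)
    (hfd : ∀ i : ℤ, (R : ℤ) < |i| → x0 i = x i) (h1 : og M ≤ -(R : ℤ))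
    (h2 : (R : ℤ) < og M + 13 ^ M) (ht : ty M x (og M) = ty M x0 (og M)) : x = x0 := by
  have hx := ty_x0 hM 0
  rw [zero_mul, add_zero] at hx
  funext p
  by_cases hp : (R : ℤ) < |p|
  · exact (hfd p hp).symm
  · have hp' := abs_le.1 (not_lt.1 hp)
    have h3 := ty_A_uniq hM (b0_lt 0) (ht.trans hx) hx (p - og M) (by linarith [hp'.1])
      (by linarith [hp'.2])
    rwa [add_sub_cancel] at h3

/-- the exchange class of the background point is trivial -/
theorem x0_trivial {x : ℤ → Lt} (h : Le x0 x) (h' : Le x x0) : x = x0 := by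
  have hx := Le_mem x0_mem h
  obtain ⟨N₁, hf₁, h₁⟩ := ty_of_Le x0_mem h
  obtain ⟨N₂, -, h₂⟩ := ty_of_Le hx h'
  obtain ⟨⟨w1, w2⟩, -⟩ := Chain1_win (R := N₁ + N₂) (M := N₁ + N₂ + 2) le_rfl
  push_cast at w1 w2
  have hM : 1 ≤ N₁ + N₂ + 2 := by omega
  have c1 : (0 : ℤ) ≤ N₁ := Nat.cast_nonneg _
  have c2 : (0 : ℤ) ≤ N₂ := Nat.cast_nonneg _
  obtain ⟨t1, v1⟩ := h₁ (N₁ + N₂ + 2) hM (og (N₁ + N₂ + 2)) (V_x0 hM) (by linarith) (by linarith)
  obtain ⟨t2, -⟩ := h₂ (N₁ + N₂ + 2) hM (og (N₁ + N₂ + 2)) v1 (by linarith) (by linarith)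
  exact Chain1_eq hM hf₁ (by linarith) (by linarith) (tle_antisymm t2 t1)

theorem Chain1_fin (a b : ℤ) (f : ℤ → Lt) :
    {x : ℤ → Lt | ∀ p : ℤ, (p < a ∨ b ≤ p) → x p = f p}.Finite := by
  rw [← Set.finite_coe_iff]
  refine Finite.of_injective
    (fun (x : {x : ℤ → Lt | ∀ p : ℤ, (p < a ∨ b ≤ p) → x p = f p}) =>
      (fun (p : Finset.Ico a b) => x.1 p.1)) ?_
  rintro ⟨x, hx⟩ ⟨y, hy⟩ he
  apply Subtype.ext
  funext p
  by_cases hp : p < a ∨ b ≤ p
  · exact (hx p hp).trans (hy p hp).symm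
  · have h1 : p ∈ Finset.Ico a b := by
      rw [Finset.mem_Ico]
      push Not at hp
      exact hp
    exact congrFun he ⟨p, h1⟩

/-- the exchange class of a good point is finite -/
theorem good_finite {m : ℕ} (hm : 1 ≤ m) {e : ℤ → Lt} (he : Good m e) :
    {x : ℤ → Lt | Le e x ∧ Le x e}.Finite := by
  refine (Chain1_fin (og m) (og m + 13 ^ m) x0).subset ?_
  rintro x ⟨h, h'⟩
  have heX := he.mem hm
  have hx := Le_mem heX h
  obtain ⟨N₀, hf₀⟩ := he.FD
  obtain ⟨N₁, hf₁, h₁⟩ := ty_of_Le heX h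
  obtain ⟨N₂, -, h₂⟩ := ty_of_Le hx h'
  apply sens_all
  intro j hj
  have hj1 : 1 ≤ j := by omega
  obtain ⟨R, hR⟩ : ∃ R, R = N₀ + N₁ + N₂ := ⟨_, rfl⟩
  obtain ⟨M, hMR⟩ : ∃ M, M = R + j + 2 := ⟨_, rfl⟩
  have hM1 : 1 ≤ M := by omega
  obtain ⟨⟨w1, w2⟩, -⟩ := Chain1_win (R := R) (M := M) (by omega)
  obtain ⟨w3, w4⟩ := Chain1_win' (R := R) (j := j) (M := M) (by omega)
  have r0 : (N₀ : ℤ) ≤ R := by omega
  have r1 : (N₁ : ℤ) ≤ R := by omega
  have r2 : (N₂ : ℤ) ≤ R := by omega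
  have hV : V M e (og M + dl j) := he.V_dl hm hj (by omega)
  obtain ⟨t1, v1⟩ := h₁ M hM1 _ hV (by linarith) (by linarith)
  obtain ⟨t2, -⟩ := h₂ M hM1 _ v1 (by linarith) (by linarith)
  obtain ⟨-, v2⟩ := h₁ M hM1 _ (he.V hm (by omega : m ≤ M)) (by linarith) (by linarith)
  have ht : ty M x (og M + dl j) = some (false, some 2) := by
    have h3 := he.forget hm hj (by omega : j < M) 0
    rw [zero_mul, add_zero, Chain1_b0] at h3
    rw [tle_antisymm t2 t1, h3]
    rfl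
  have hv3 : V (j + 1) x (og (j + 1)) := by
    have h4 := V_down (by omega : 1 ≤ j + 1) (by omega : j + 1 ≤ M) v2
    refine (V_mod ?_).1 h4
    rw [← dvd_neg, neg_sub]
    exact Chain1_og_dvd (by omega)
  refine (sens hj1 (by omega : j + 1 ≤ M) ?_ (fun i => V_ty hv3 i (by omega)) ht).1
  intro i hi
  have hi' : (R : ℤ) < |i| := by
    rw [lt_abs]
    rcases hi with h | h
    · right; linarith
    · left; linarith
  rw [← hf₁ i (by linarith), hf₀ i (by linarith)]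

theorem x0_le_good {e : ℤ → Lt} (he : Good 1 e) : Le x0 e := by
  refine Le_of_ty (M := 1) le_rfl he.FD ?_
  intro c hc i
  rcases phases_x0 le_rfl hc with ⟨d, hd⟩ | ⟨j, h1, h2, -⟩
  · have e1 : c + i * 13 ^ 1 = og 1 + (d + i) * 13 ^ 1 := by linarith
    rw [e1]
    exact he.tle le_rfl _
  · omega

/-- the good points of level 1 are the least elements above `x0` -/
theorem good_least {e y : ℤ → Lt} (he : Good 1 e) (hy : y ≠ x0) (h : Le x0 y) : Le e y := by
  obtain ⟨N₀, hf₀⟩ := he.FD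
  obtain ⟨N₁, hf₁, h₁⟩ := ty_of_Le x0_mem h
  obtain ⟨R, hR⟩ : ∃ R, R = N₀ + N₁ := ⟨_, rfl⟩
  obtain ⟨M, hMR⟩ : ∃ M, M = R + 2 := ⟨_, rfl⟩
  have hM1 : 1 ≤ M := by omega
  have r0 : (N₀ : ℤ) ≤ R := by omega
  have r1 : (N₁ : ℤ) ≤ R := by omega
  obtain ⟨⟨w1, w2⟩, hw⟩ := Chain1_win (R := R) (M := M) (by omega)
  have hfd : ∀ i : ℤ, (R : ℤ) < |i| → e i = y i := by
    intro i hi
    rw [← hf₀ i (by linarith), hf₁ i (by linarith)]
  refine Le_of_ty hM1 ⟨R, hfd⟩ ?_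
  intro c hc i
  rcases he.phases le_rfl hM1 hc with hd | ⟨j, hj1, hj2, hd⟩
  · refine Chain1_all hfd w1 w2 ?_ hd i
    obtain ⟨t1, -⟩ := h₁ M hM1 _ (V_x0 hM1) (by linarith) (by linarith)
    have hx := ty_x0 hM1 0
    rw [zero_mul, add_zero, Chain1_b0] at hx
    have hce := he.center le_rfl hM1
    rw [hce]
    rcases t1 with h3 | h3 | ⟨κ, τ, h3, h4⟩
    · rw [hx] at h3
      exact absurd h3 (by simp)
    · exact absurd (Chain1_eq hM1 (fun i hi => hf₁ i (by linarith)) w1 w2 h3.symm) hy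
    · rw [hx] at h3
      have h5 : κ = false := by
        have := congrArg Prod.fst (Option.some.inj h3)
        exact this.symm
      rw [h4, h5]
      exact tle_refl _
  · obtain ⟨i0, u1, u2⟩ := hw j hj1 hj2
    refine Chain1_all hfd u1 u2 ?_ ?_ i
    · obtain ⟨t1, -⟩ := h₁ M hM1 (og M + dl j + i0 * 13 ^ M)
        ((V_mod ⟨i0, by ring⟩).1 (V_x0_dl hj1 hj2)) (by linarith) (by linarith)
      rw [he.forget le_rfl hj1 hj2 i0, ← ty_x0_dl hj1 hj2 i0]
      exact t1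
    · have e1 : c - (og M + dl j + i0 * 13 ^ M) = c - og M - dl j - i0 * 13 ^ M := by ring
      rw [e1]
      exact dvd_sub hd (Dvd.intro_left _ rfl)

theorem good_succ_le {m : ℕ} (hm : 1 ≤ m) {e e' : ℤ → Lt} (he : Good m e) (he' : Good (m + 1) e') :
    Le e' e := by
  refine Le_of_ty (M := m + 1) (by omega) (FD_trans (FD_symm he'.FD) he.FD) ?_
  intro c hc i
  rcases he'.phases (by omega) le_rfl hc with ⟨d, hd⟩ | ⟨j, h1, h2, -⟩
  · have e1 : c + i * 13 ^ (m + 1) = og (m + 1) + (d + i) * 13 ^ (m + 1) := by linarith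
    rw [e1]
    have hpos : (0 : ℤ) < 13 ^ (m + 1) := by positivity
    have hog : og (m + 1) = og m - 2 * 13 ^ m := rfl
    have hp : (0 : ℤ) < 13 ^ m := by positivity
    have hps : (13 : ℤ) ^ (m + 1) = 13 * 13 ^ m := by rw [pow_succ]; ring
    rcases eq_or_ne (d + i) 0 with h | h
    · rw [h, zero_mul, add_zero, he'.center (by omega) le_rfl, he.center hm (by omega)]
      exact tle_refl _
    · have e2 : ty (m + 1) e' (og (m + 1) + (d + i) * 13 ^ (m + 1)) =
          ty (m + 1) e (og (m + 1) + (d + i) * 13 ^ (m + 1)) := by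
        apply ty_congr
        intro k hk hk'
        have h3 : og (m + 1) + (d + i) * 13 ^ (m + 1) + k < og (m + 1) ∨
            og (m + 1) + 13 ^ (m + 1) ≤ og (m + 1) + (d + i) * 13 ^ (m + 1) + k := by
          rcases lt_or_gt_of_ne h with h4 | h4
          · left
            have : (d + i) * 13 ^ (m + 1) ≤ (-1) * 13 ^ (m + 1) :=
              mul_le_mul_of_nonneg_right (by omega) hpos.le
            linarith
          · right
            have : 1 * 13 ^ (m + 1) ≤ (d + i) * 13 ^ (m + 1) :=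
              mul_le_mul_of_nonneg_right (by omega) hpos.le
            linarith
        rw [he'.1 _ h3, he.1 _ ?_]
        rcases h3 with h3 | h3
        · left; linarith
        · right; linarith
      rw [e2]
      exact tle_refl _
  · omega

theorem Chain1_ndvd {m M : ℕ} (hM : m < M) {t : ℤ} (ht : ¬ (13 : ℤ) ∣ t) :
    ¬ (13 : ℤ) ^ M ∣ 13 ^ m * t := by
  intro h
  have h1 : (13 : ℤ) ^ (m + 1) ∣ 13 ^ m * t := (pow_dvd_pow _ hM).trans h
  rw [pow_succ] at h1
  exact ht (Int.dvd_of_mul_dvd_mul_left (by positivity) h1)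

theorem good_not_le {m : ℕ} (hm : 1 ≤ m) {e e' : ℤ → Lt} (he : Good m e) (he' : Good (m + 1) e') :
    ¬ Le e e' := by
  intro h
  obtain ⟨N₁, -, h₁⟩ := ty_of_Le (he.mem hm) h
  obtain ⟨M, hMR⟩ : ∃ M, M = N₁ + m + 2 := ⟨_, rfl⟩
  obtain ⟨w3, w4⟩ := Chain1_win' (R := N₁) (j := m) (M := M) (by omega)
  obtain ⟨-, v1⟩ := h₁ M (by omega) _ (he.V_dl hm le_rfl (by omega : m < M)) w3 w4
  rcases he'.phases (by omega) (by omega : m + 1 ≤ M) v1 with hd | ⟨j, hj1, hj2, hd⟩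
  · have e1 : og M + dl m - og M = 13 ^ m * (-12) := by
      unfold dl
      rw [pow_succ]
      ring
    rw [e1] at hd
    exact Chain1_ndvd (by omega) (by norm_num) hd
  · obtain ⟨k, rfl⟩ : ∃ k, j = m + (k + 1) := ⟨j - m - 1, by omega⟩
    have e1 : og M + dl m - og M - dl (m + (k + 1)) = 13 ^ m * (-12 + 13 * (12 * 13 ^ k)) := by
      unfold dl
      rw [pow_succ, pow_succ, pow_add, pow_succ]
      ring
    rw [e1] at hd
    refine Chain1_ndvd (by omega) ?_ hd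
    rintro ⟨t, ht⟩
    omega

end H35.RS.RF
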