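import Pool.Agent.H35.RF.Val

/-! # W8: the exchange order: basic facts, comparison of types implies `≤` -/

namespace H35.RS.RF
open H35.RS H35.RS.Up

theorem FD_refl (x : ℤ → Lt) : FD x x := ⟨0, fun _ _ => rfl⟩

theorem FD_symm {x x' : ℤ → Lt} (h : FD x x') : FD x' x := by
  obtain ⟨R, hR⟩ := h
  exact ⟨R, fun i hi => (hR i hi).symm⟩

theorem FD_trans {x x' x'' : ℤ → Lt} (h : FD x x') (h' : FD x' x'') : FD x x'' := by
  obtain ⟨R, hR⟩ := h
  obtain ⟨R', hR'⟩ := h'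
  refine ⟨max R R', fun i hi => ?_⟩
  have e1 : (R : ℤ) ≤ ((max R R' : ℕ) : ℤ) := by exact_mod_cast le_max_left R R'
  have e2 : (R' : ℤ) ≤ ((max R R' : ℕ) : ℤ) := by exact_mod_cast le_max_right R R'
  rw [hR i (by omega), hR' i (by omega)]

theorem exch_sp_self (z x : ℤ → Lt) : sp z x x = z := by
  funext i
  simp [sp]

theorem exch_sp_of_eq {z x x' : ℤ → Lt} {i : ℤ} (h : z i = x i) : sp z x x' i = x' i := by
  unfold sp
  split_ifs with h1
  · rw [h, h1]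
  · rfl

theorem exch_sp_of_eq' {z x x' : ℤ → Lt} {i : ℤ} (h : x i = x' i) : sp z x x' i = z i := by
  unfold sp
  rw [if_pos h]

theorem Le_refl (x : ℤ → Lt) : Le x x := by
  refine ⟨FD_refl x, 0, fun z hz _ => ?_⟩
  rw [exch_sp_self]
  exact hz

theorem Le_trans {x x' x'' : ℤ → Lt} (h : Le x x') (h' : Le x' x'') : Le x x'' := by
  obtain ⟨hf, N1, h1⟩ := h
  obtain ⟨hf', N2, h2⟩ := h'
  refine ⟨FD_trans hf hf', ?_⟩
  obtain ⟨R1, hR1⟩ := hf
  obtain ⟨R2, hR2⟩ := hf'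
  refine ⟨N1 + N2 + R1 + R2, fun z hz hzx => ?_⟩
  have hz1 : sp z x x' ∈ X := h1 z hz fun i hi => hzx i (by push_cast; omega)
  have hz2 : sp (sp z x x') x' x'' ∈ X := h2 _ hz1 fun i hi =>
    exch_sp_of_eq (hzx i (by push_cast; omega))
  have e : sp z x x'' = sp (sp z x x') x' x'' := by
    funext i
    by_cases hi : |i| ≤ ((N1 + N2 + R1 + R2 : ℕ) : ℤ)
    · rw [exch_sp_of_eq (hzx i hi), exch_sp_of_eq (exch_sp_of_eq (hzx i hi))]
    · push Not at hi
      push_cast at hi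
      have a1 : x i = x' i := hR1 i (by omega)
      have a2 : x' i = x'' i := hR2 i (by omega)
      rw [exch_sp_of_eq' (a1.trans a2), exch_sp_of_eq' a2, exch_sp_of_eq' a1]
  rw [e]
  exact hz2

theorem Le_mem {x x' : ℤ → Lt} (hx : x ∈ X) (h : Le x x') : x' ∈ X := by
  obtain ⟨_, N, h1⟩ := h
  have := h1 x hx fun _ _ => rfl
  have e : sp x x x' = x' := by
    funext i
    exact exch_sp_of_eq rfl
  rwa [e] at this

/-- comparison of the types in all valid phases of one level -/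
theorem Le_of_ty {x x' : ℤ → Lt} {M : ℕ} (hM : 1 ≤ M) (hfd : FD x x')
    (h : ∀ c, V M x c → ∀ i : ℤ, tle (ty M x (c + i * 13 ^ M)) (ty M x' (c + i * 13 ^ M))) :
    Le x x' := by
  refine ⟨hfd, ?_⟩
  obtain ⟨R, hR⟩ := hfd
  -- radii of the invalid phases
  have hr : ∀ c : ℕ, ∃ N : ℕ, ¬ V M x c → ∀ z : ℤ → Lt, (∀ i : ℤ, |i| ≤ N → z i = x i) →
      ¬ V M z c := by
    intro c
    by_cases hc : V M x c
    · exact ⟨0, fun h => absurd hc h⟩
    · obtain ⟨N, hN⟩ := V_invalid hc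
      exact ⟨N, fun _ => hN⟩
  choose r hr using hr
  have hpos : (0 : ℤ) < 13 ^ M := by positivity
  refine ⟨(Finset.range (13 ^ M)).sup r + R + 13 ^ M, fun z hz hzx => ?_⟩
  obtain ⟨c, hc⟩ := V_exists hz hM
  -- a representative of the phase
  have hc0 : V M z (((c % 13 ^ M).toNat : ℕ) : ℤ) := by
    refine (V_mod ?_).1 hc
    rw [Int.toNat_of_nonneg (Int.emod_nonneg _ hpos.ne')]
    refine ⟨-(c / 13 ^ M), ?_⟩
    have := Int.emod_add_mul_ediv c (13 ^ M)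
    linarith
  have hlt : (c % 13 ^ M).toNat < 13 ^ M := by
    have h1 := Int.emod_lt_of_pos c hpos
    have h2 := Int.emod_nonneg c hpos.ne'
    zify
    rw [Int.toNat_of_nonneg h2]
    exact h1
  set c0 := (c % 13 ^ M).toNat with hc0d
  have hsup : r c0 ≤ (Finset.range (13 ^ M)).sup r := Finset.le_sup (Finset.mem_range.2 hlt)
  have hxc : V M x (c0 : ℤ) := by
    by_contra hcon
    refine hr c0 hcon z (fun i hi => hzx i ?_) hc0
    push_cast
    have : ((r c0 : ℕ) : ℤ) ≤ (((Finset.range (13 ^ M)).sup r : ℕ) : ℤ) := by exact_mod_cast hsup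
    omega
  refine V_mem hM (c := (c0 : ℤ)) (V_mono hM hc0 fun i => ?_)
  by_cases hblk : ∀ k : ℤ, 0 ≤ k → k < 13 ^ M → (R : ℤ) < |(c0 : ℤ) + i * 13 ^ M + k|
  · rw [ty_congr (x' := z) (s' := (c0 : ℤ) + i * 13 ^ M)
      (x := sp z x x') (s := (c0 : ℤ) + i * 13 ^ M)
      (fun k hk hk' => exch_sp_of_eq' (hR _ (hblk k hk hk')))]
    exact tle_refl _
  · push Not at hblk
    obtain ⟨k, hk, hk', hkR⟩ := hblk
    have hin : ∀ k' : ℤ, 0 ≤ k' → k' < 13 ^ M → z ((c0 : ℤ) + i * 13 ^ M + k') =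
        x ((c0 : ℤ) + i * 13 ^ M + k') := by
      intro k' h1 h2
      refine hzx _ ?_
      push_cast
      have h3 : |(c0 : ℤ) + i * 13 ^ M + k'| ≤ |(c0 : ℤ) + i * 13 ^ M + k| + |k' - k| := by
        have := abs_add_le ((c0 : ℤ) + i * 13 ^ M + k) (k' - k)
        have e : (c0 : ℤ) + i * 13 ^ M + k + (k' - k) = (c0 : ℤ) + i * 13 ^ M + k' := by ring
        rwa [e] at this
      have h4 : |k' - k| ≤ 13 ^ M := by
        rw [abs_le]
        constructor <;> linarith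
      have h5 : (0 : ℤ) ≤ (((Finset.range (13 ^ M)).sup r : ℕ) : ℤ) := Int.natCast_nonneg _
      linarith
    rw [ty_congr (x' := x) (s' := (c0 : ℤ) + i * 13 ^ M) hin,
      ty_congr (x := sp z x x') (x' := x') (s := (c0 : ℤ) + i * 13 ^ M)
        (s' := (c0 : ℤ) + i * 13 ^ M) (fun k' h1 h2 => exch_sp_of_eq (hin k' h1 h2))]
    exact h _ hxc i

end H35.RS.RF
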