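import Pool.Agent.H35.RF.Ph
import Pool.Agent.H35.RF.Forget
import Pool.Agent.H35.RF.Exch

/-! # W20: if the phase `0` is not valid then the exchange class is infinite -/

namespace H35.RS.RF
open H35.RS H35.RS.Up

/-- replace the word of `y` at `P` by `w` -/
def Inv_bp (y : ℤ → Lt) (P : ℤ) (w : Fin 13 → Lt) (p : ℤ) : Lt :=
  if h : P ≤ p ∧ p < P + 13 then w ⟨(p - P).toNat, by omega⟩ else y p

theorem Inv_bp_in (y : ℤ → Lt) (P : ℤ) (w : Fin 13 → Lt) (o : Fin 13) :
    Inv_bp y P w (P + o.1) = w o := by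
  unfold Inv_bp
  have ho := o.2
  rw [dif_pos ⟨by omega, by omega⟩]
  congr 1
  apply Fin.ext
  simp

theorem Inv_bp_out (y : ℤ → Lt) (P : ℤ) (w : Fin 13 → Lt) (p : ℤ) (h : p < P ∨ P + 13 ≤ p) :
    Inv_bp y P w p = y p := by
  unfold Inv_bp
  rw [dif_neg (by omega)]

theorem Inv_og_dvd (n d : ℕ) : (13 : ℤ) ^ n ∣ og (n + d) - og n := by
  induction d with
  | zero => simp
  | succ d ih =>
    have e : og (n + (d + 1)) - og n = (og (n + d) - og n) - 2 * 13 ^ (n + d) := by
      have : og (n + (d + 1)) = og (n + d) - 2 * 13 ^ (n + d) := rfl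
      rw [this]
      ring
    rw [e]
    apply dvd_sub ih
    apply Dvd.dvd.mul_left
    exact pow_dvd_pow _ (by omega)

theorem Inv_og_bd (n : ℕ) : -(13 : ℤ) ^ n ≤ og n ∧ og n ≤ 0 := by
  have h := og_eq n
  have h1 : (1 : ℤ) ≤ 13 ^ n := one_le_pow₀ (by norm_num)
  constructor <;> omega

/-- the change is forgotten in the phases `dl j` -/
theorem Inv_eq {y y' : ℤ → Lt} {R : ℤ} (hR : ∀ p : ℤ, R < p → y p = x0 p) {N : ℕ} (hN : 1 ≤ N)
    {k : ℤ} (hk : R + 3 ≤ 13 * k) (hk0 : 3 ≤ 13 * k)
    (hy' : ∀ p : ℤ, p < og 1 + 13 * k * 13 ^ N ∨ og 1 + 13 * k * 13 ^ N + 13 ≤ p → y' p = y p)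
    (h1 : ty 1 y' (og 1 + 13 * k * 13 ^ N) = some (false, none)) {j : ℕ} (hj : 1 ≤ j) (hjN : j < N)
    {c : ℤ} (hc : (13 : ℤ) ^ N ∣ c - og N - dl j) (i : ℤ) :
    ty N y (c + i * 13 ^ N) = ty N y' (c + i * 13 ^ N) := by
  obtain ⟨d, rfl⟩ : ∃ d, N = j + 1 + d := ⟨N - (j + 1), by omega⟩
  have hB : (0 : ℤ) < 13 ^ j := by positivity
  have hBd : (1 : ℤ) ≤ 13 ^ d := one_le_pow₀ (by norm_num)
  have hB1 : (1 : ℤ) ≤ 13 ^ j := one_le_pow₀ (by norm_num)
  have eN : (13 : ℤ) ^ (j + 1 + d) = 13 * 13 ^ d * 13 ^ j := by ring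
  obtain ⟨ogl, ogu⟩ := Inv_og_bd j
  -- position of the changed chain
  obtain ⟨L, hL⟩ : ∃ L : ℤ, L = 13 * k * 13 ^ (j + 1 + d) := ⟨_, rfl⟩
  have hL2 : L = 13 * (13 * k * 13 ^ d) * 13 ^ j := by rw [hL, eN]; ring
  have hLR : R + 2 * 13 ^ j < L := by
    have h2 : (13 * k) * (13 * 13 ^ j) ≤ L := by
      rw [hL2]
      nlinarith [mul_pos (by linarith : (0 : ℤ) < 13 * k) hB]
    have h3 : (R + 3) * (13 * 13 ^ j) ≤ (13 * k) * (13 * 13 ^ j) :=
      mul_le_mul_of_nonneg_right hk (by positivity)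
    have h4 : 3 * (13 * 13 ^ j) ≤ (13 * k) * (13 * 13 ^ j) :=
      mul_le_mul_of_nonneg_right hk0 (by positivity)
    rcases Int.lt_or_le R 0 with h5 | h5
    · linarith
    · nlinarith
  -- types of y away from the origin
  have tyy : ∀ (n : ℕ) (s : ℤ), R < s → ty n y s = ty n x0 s := by
    intro n s hs
    apply ty_congr
    intro q hq _
    exact hR _ (by linarith)
  have hch := chain_bump (n := j + 1 + d) (x := y) (x' := y') (s := og (j + 1 + d) + L) (a := 0)
    (by decide) (by
      obtain ⟨ol, ou⟩ := Inv_og_bd (j + 1 + d)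
      have hBN : (1 : ℤ) ≤ 13 ^ (j + 1 + d) := one_le_pow₀ (by norm_num)
      have h2 : R < og (j + 1 + d) + L := by
        have h3 : (R + 3) * 13 ^ (j + 1 + d) ≤ L := by
          rw [hL]
          exact mul_le_mul_of_nonneg_right hk (by positivity)
        have h4 : 3 * 13 ^ (j + 1 + d) ≤ L := by
          rw [hL]
          exact mul_le_mul_of_nonneg_right hk0 (by positivity)
        rcases Int.lt_or_le R 0 with h5 | h5
        · linarith
        · nlinarith
      rw [tyy _ _ h2, hL, ty_x0 hN, b0_mul]) hN (by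
      intro p hp
      apply hy'
      rw [← hL]
      have e : og (j + 1 + d) + L - og (j + 1 + d) + og 1 = og 1 + L := by ring
      rw [e] at hp
      exact hp) (by
      have e : og (j + 1 + d) + L - og (j + 1 + d) + og 1 = og 1 + L := by ring
      rw [e, hL]
      exact h1) j hj (by omega)
  have e0 : og (j + 1 + d) + L - og (j + 1 + d) + og j = og j + L := by ring
  rw [e0] at hch
  -- the background type of the chain
  have hbg : ty j y (og j + L) = some (false, some 0) := by
    rw [tyy _ _ (by linarith), hL2, ty_x0 hj, b0_mul]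
  -- level j + 1
  have key : ∀ i : ℤ, ty (j + 1) y (og j - 13 ^ j + i * 13 ^ (j + 1)) =
      ty (j + 1) y' (og j - 13 ^ j + i * 13 ^ (j + 1)) := by
    intro i
    by_cases hi : i = 13 * k * 13 ^ d
    · obtain ⟨s, hs⟩ : ∃ s, s = og j - 13 ^ j + i * 13 ^ (j + 1) := ⟨_, rfl⟩
      rw [← hs]
      have hs2 : s = og j - 13 ^ j + L := by
        rw [hs, hi, hL2]
        ring
      symm
      have hsR : R < s := by linarith
      have tyj : ∀ m : ℤ, 0 ≤ m → ty j y (s + m * 13 ^ j) =
          some ((b0 (13 * i - 1 + m)).1, some (b0 (13 * i - 1 + m)).2) := by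
        intro m hm
        have hm' : 0 ≤ m * 13 ^ j := by positivity
        rw [tyy _ _ (by linarith)]
        have e : s + m * 13 ^ j = og j + (13 * i - 1 + m) * 13 ^ j := by
          rw [hs]
          ring
        rw [e, ty_x0 hj]
      refine forget_F hj (c := (b0 (i + 1)).1) (τ := some 0) ⟨?_, ?_⟩ ?_ ?_ ?_ ?_
      · intro l
        have h2 := tyj l.1 (by positivity)
        have e : 13 * i - 1 + (l.1 : ℤ) = 13 * i - 2 + ((l.1 : ℤ) + 1) := by ring
        rw [e, b0_succ] at h2
        exact ⟨_, h2⟩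
      · have h2 := tyj 12 (by norm_num)
        have e : 13 * i - 1 + 12 = 13 * (i + 1) - 2 := by ring
        rw [e, b0_zero] at h2
        exact ⟨_, h2⟩
      · rw [tyy _ _ hsR]
        have h2 := ty_x0_dl (M := j + 1) hj (by omega) (i + 1)
        have e : og (j + 1) + dl j + (i + 1) * 13 ^ (j + 1) = s := by
          have e1 : og (j + 1) = og j - 2 * 13 ^ j := rfl
          rw [hs, e1]
          unfold dl
          ring
        rw [e] at h2
        rw [h2]
        simp
      · intro o ho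
        apply ty_congr
        intro q hq hq'
        apply hy'
        rw [← hL]
        obtain ⟨g1, g2⟩ := forget_og j hj
        have ho' : o.1 < 1 ∨ 1 < o.1 := by
          rcases Nat.lt_trichotomy o.1 1 with h5 | h5 | h5
          · exact Or.inl h5
          · exact absurd (Fin.ext h5) ho
          · exact Or.inr h5
        rcases ho' with h5 | h5
        · left
          have h6 : ((o.1 : ℤ) + 1) * 13 ^ j ≤ 1 * 13 ^ j :=
            mul_le_mul_of_nonneg_right (by exact_mod_cast h5) hB.le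
          rw [hs2]
          linarith
        · right
          have h6 : (2 : ℤ) * 13 ^ j ≤ (o.1 : ℤ) * 13 ^ j :=
            mul_le_mul_of_nonneg_right (by exact_mod_cast h5) hB.le
          rw [hs2]
          linarith
      · rw [← hbg, hs2]
        congr 1
        ring
      · rw [← hch, hs2]
        congr 1
        ring
    · apply ty_congr
      intro q hq hq'
      symm
      apply hy'
      rw [← hL, hL2]
      obtain ⟨g1, g2⟩ := forget_og j hj
      have e : (13 : ℤ) ^ (j + 1) = 13 * 13 ^ j := by ring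
      rw [e] at hq' ⊢
      rcases lt_or_gt_of_ne hi with h5 | h5
      · left
        have h6 : (i + 1) * (13 * 13 ^ j) ≤ (13 * k * 13 ^ d) * (13 * 13 ^ j) :=
          mul_le_mul_of_nonneg_right h5 (by positivity)
        linarith
      · right
        have h6 : (13 * k * 13 ^ d + 1) * (13 * 13 ^ j) ≤ i * (13 * 13 ^ j) :=
          mul_le_mul_of_nonneg_right h5 (by positivity)
        linarith
  refine ty_up_eq (by omega) (by omega) ?_ key i
  -- divisibility
  have h2 := Inv_og_dvd (j + 1) d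
  have h3 : (13 : ℤ) ^ (j + 1) ∣ c - og (j + 1 + d) - dl j :=
    dvd_trans (pow_dvd_pow _ (by omega)) hc
  have e : c - (og j - 13 ^ j) = (c - og (j + 1 + d) - dl j) + (og (j + 1 + d) - og (j + 1)) -
      13 ^ (j + 1) := by
    have e1 : og (j + 1) = og j - 2 * 13 ^ j := rfl
    rw [e1]
    unfold dl
    ring
  rw [e]
  exact dvd_sub (dvd_add h3 h2) (dvd_refl _)

theorem infinite_class {y : ℤ → Lt} (hy : y ∈ X) (hfd : FD x0 y) {N : ℕ} (hN : 1 ≤ N)
    (hv : ¬ V N y (og N)) : {x : ℤ → Lt | Le y x ∧ Le x y}.Infinite := by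
  obtain ⟨R, hR⟩ := hfd
  obtain ⟨N', hN'⟩ := V_invalid hv
  obtain ⟨w, hw⟩ := ty_one_word (false, none)
  have hB1 : (1 : ℤ) ≤ 13 ^ N := one_le_pow₀ (by norm_num)
  -- the points
  obtain ⟨K, hK⟩ : ∃ K : ℕ → ℤ, ∀ n, K n = n + R + N' + 3 := ⟨fun n => n + R + N' + 3, fun _ => rfl⟩
  obtain ⟨P, hP⟩ : ∃ P : ℕ → ℤ, ∀ n, P n = og 1 + 13 * K n * 13 ^ N := ⟨_, fun _ => rfl⟩
  obtain ⟨f, hf⟩ : ∃ f : ℕ → ℤ → Lt, ∀ n, f n = Inv_bp y (P n) w := ⟨_, fun _ => rfl⟩
  have og1 : og 1 = -2 := by simp [og]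
  have hPb : ∀ n, (R : ℤ) + N' + 3 < P n := by
    intro n
    rw [hP, og1, hK]
    have h1 : ((n : ℤ) + R + N' + 3) * 1 ≤ ((n : ℤ) + R + N' + 3) * 13 ^ N :=
      mul_le_mul_of_nonneg_left hB1 (by positivity)
    have h2 : (0 : ℤ) ≤ n := by positivity
    have h3 : (0 : ℤ) ≤ R := by positivity
    have h4 : (0 : ℤ) ≤ N' := by positivity
    nlinarith
  have fout : ∀ n p, p < P n ∨ P n + 13 ≤ p → f n p = y p := by
    intro n p hp
    rw [hf]
    exact Inv_bp_out y (P n) w p hp
  have fin : ∀ n, ty 1 (f n) (P n) = some (false, none) := by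
    intro n
    apply hw
    intro o
    rw [hf]
    exact Inv_bp_in y (P n) w o
  have hyx : ∀ p : ℤ, (R : ℤ) < p → y p = x0 p := by
    intro p hp
    refine (hR p ?_).symm
    exact lt_of_lt_of_le hp (le_abs_self p)
  have ybg : ∀ n, ty 1 y (P n) = some (false, some 0) := by
    intro n
    have h1 : ty 1 y (P n) = ty 1 x0 (P n) := by
      apply ty_congr
      intro q hq _
      apply hyx
      have := hPb n
      have h4 : (0 : ℤ) ≤ N' := by positivity
      linarith
    rw [h1, hP]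
    obtain ⟨M, rfl⟩ : ∃ M, N = M + 1 := ⟨N - 1, by omega⟩
    have e : og 1 + 13 * K n * 13 ^ (M + 1) = og 1 + (13 * (K n * 13 ^ M)) * 13 ^ 1 := by ring
    rw [e, ty_x0 le_rfl, b0_mul]
  refine Set.infinite_of_injective_forall_mem (f := f) ?_ ?_
  · -- injectivity
    intro n n' h
    by_contra hne
    have h1 : ty 1 (f n) (P n) = ty 1 y (P n) := by
      rw [h]
      apply ty_congr
      intro q hq hq'
      apply fout
      rw [hP, hP, hK, hK]
      rcases Nat.lt_or_gt_of_ne hne with h2 | h2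
      · left
        have h3 : (n : ℤ) + 1 ≤ n' := by exact_mod_cast h2
        have h4 := mul_le_mul_of_nonneg_right (show (13 : ℤ) * (n + R + N' + 3) + 13 ≤ 13 * (n' + R + N' + 3) by linarith) (show (0 : ℤ) ≤ 13 ^ N by positivity)
        linarith
      · right
        have h3 : (n' : ℤ) + 1 ≤ n := by exact_mod_cast h2
        have h4 := mul_le_mul_of_nonneg_right (show (13 : ℤ) * (n' + R + N' + 3) + 13 ≤ 13 * (n + R + N' + 3) by linarith) (show (0 : ℤ) ≤ 13 ^ N by positivity)
        linarith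
    rw [fin, ybg] at h1
    simp at h1
  · intro n
    have fdn : FD x0 (f n) := by
      refine ⟨(P n + 13).toNat, ?_⟩
      intro i hi
      have hb := hPb n
      have h4 : (0 : ℤ) ≤ N' := by positivity
      have h3 : (0 : ℤ) ≤ R := by positivity
      have h5 : ((P n + 13).toNat : ℤ) = P n + 13 := Int.toNat_of_nonneg (by linarith)
      rw [h5] at hi
      rw [fout n i, ← hR i (by linarith)]
      rcases abs_cases i with ⟨h6, h7⟩ | ⟨h6, h7⟩
      · right
        linarith
      · left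
        linarith
    have fdy : FD y (f n) := FD_trans (FD_symm ⟨R, hR⟩) fdn
    have hvn : ¬ V N (f n) (og N) := by
      apply hN'
      intro i hi
      apply fout
      left
      have hb := hPb n
      have h3 : (0 : ℤ) ≤ R := by positivity
      linarith [le_abs_self i]
    have key : ∀ c : ℤ, (¬ (13 : ℤ) ^ N ∣ c - og N) → ((13 : ℤ) ^ N ∣ c - og N ∨
        ∃ j : ℕ, 1 ≤ j ∧ j < N ∧ (13 : ℤ) ^ N ∣ c - og N - dl j) → ∀ i : ℤ,
        ty N y (c + i * 13 ^ N) = ty N (f n) (c + i * 13 ^ N) := by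
      intro c hc h
      rcases h with h | ⟨j, hj, hjN, h⟩
      · exact absurd h hc
      · have h3 : (0 : ℤ) ≤ R := by positivity
        have h4 : (0 : ℤ) ≤ N' := by positivity
        have h5 : (0 : ℤ) ≤ n := by positivity
        refine Inv_eq hyx hN (k := K n) ?_ ?_ ?_ ?_ hj hjN h
        · rw [hK]
          linarith
        · rw [hK]
          linarith
        · rw [← hP]
          exact fout n
        · rw [← hP]
          exact fin n
    constructor
    · apply Le_of_ty hN fdy
      intro c hc i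
      rw [key c ?_ (phases_FD ⟨R, hR⟩ hN hc) i]
      · exact tle_refl _
      · intro hd
        exact hv ((V_mod hd).2 hc)
    · apply Le_of_ty hN (FD_symm fdy)
      intro c hc i
      rw [key c ?_ (phases_FD fdn hN hc) i]
      · exact tle_refl _
      · intro hd
        exact hvn ((V_mod hd).2 hc)

end H35.RS.RF
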