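import Pool.Agent.H35.RF.Chain1
import Pool.Agent.H35.RF.Inv

/-! # W21: the order on the good points, part 2 -/

namespace H35.RS.RF
open H35.RS H35.RS.Up

theorem Ch2_og {M N : ℕ} (hN : 12 * ((N : ℤ) + 1) ≤ 13 ^ M) :
    og M ≤ -(N : ℤ) ∧ (N : ℤ) < og M + 13 ^ M := by
  have h := og_eq M
  have h0 : (0 : ℤ) ≤ N := Nat.cast_nonneg N
  constructor <;> linarith

theorem Ch2_dl {m M N : ℕ} (hM : m + 2 ≤ M) (hN : 12 * ((N : ℤ) + 1) ≤ 13 ^ M) :
    og M + dl m ≤ -(N : ℤ) ∧ (N : ℤ) < og M + dl m + 13 ^ M := by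
  have h := og_eq M
  have h0 : (0 : ℤ) ≤ N := Nat.cast_nonneg N
  have h1 : (13 : ℤ) ^ (m + 2) ≤ 13 ^ M := pow_le_pow_right₀ (by norm_num) hM
  have h2 : (13 : ℤ) ^ (m + 2) = 169 * 13 ^ m := by ring
  have h3 : dl m = -(12 * 13 ^ m) := by
    unfold dl
    ring
  have h4 : (0 : ℤ) < 13 ^ m := by positivity
  rw [h3]
  constructor <;> linarith

theorem Ch2_last {k N : ℕ} (hN : 12 * ((N : ℤ) + 1) ≤ 13 ^ (k + 1)) :
    og (k + 1) + dl k + 13 ^ (k + 1) ≤ -(N : ℤ) ∧
      (N : ℤ) < og (k + 1) + dl k + 13 ^ (k + 1) + 13 ^ (k + 1) := by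
  have h := og_eq (k + 1)
  have h0 : (0 : ℤ) ≤ N := Nat.cast_nonneg N
  have h3 : dl k = -(12 * 13 ^ k) := by
    unfold dl
    ring
  have h4 : (0 : ℤ) < 13 ^ k := by positivity
  rw [h3]
  rw [pow_succ] at h hN ⊢
  constructor <;> linarith

/-- the central block of a phase of the background -/
theorem Ch2_place {M N : ℕ} (hN : 12 * ((N : ℤ) + 1) ≤ 13 ^ M) {c : ℤ}
    (h : (13 : ℤ) ^ M ∣ c - og M ∨ ∃ j : ℕ, 1 ≤ j ∧ j < M ∧ (13 : ℤ) ^ M ∣ c - og M - dl j) :
    ∃ i₀ : ℤ, c + i₀ * 13 ^ M ≤ -(N : ℤ) ∧ (N : ℤ) < c + i₀ * 13 ^ M + 13 ^ M := by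
  rcases h with ⟨q, hq⟩ | ⟨j, -, hj, q, hq⟩
  · refine ⟨-q, ?_⟩
    have : c + -q * 13 ^ M = og M := by linarith
    rw [this]
    exact Ch2_og hN
  · by_cases hjM : j + 2 ≤ M
    · refine ⟨-q, ?_⟩
      have : c + -q * 13 ^ M = og M + dl j := by linarith
      rw [this]
      exact Ch2_dl hjM hN
    · have hM : M = j + 1 := by omega
      subst hM
      refine ⟨1 - q, ?_⟩
      have : c + (1 - q) * 13 ^ (j + 1) = og (j + 1) + dl j + 13 ^ (j + 1) := by linarith
      rw [this]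
      exact Ch2_last hN

theorem Ch2_uniq {M N : ℕ} {s s' : ℤ} (h1 : s ≤ -(N : ℤ)) (h2 : (N : ℤ) < s + 13 ^ M)
    (h1' : s' ≤ -(N : ℤ)) (h2' : (N : ℤ) < s' + 13 ^ M) (hd : (13 : ℤ) ^ M ∣ s' - s) : s' = s := by
  obtain ⟨q, hq⟩ := hd
  have hpos : (0 : ℤ) < 13 ^ M := by positivity
  have h0 : (0 : ℤ) ≤ N := Nat.cast_nonneg N
  have hq1 : q < 1 := by nlinarith
  have hq2 : -1 < q := by nlinarith
  have : q = 0 := by omega
  rw [this] at hq
  linarith

/-- off the central block nothing changes -/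
theorem Ch2_off {M N : ℕ} {x x' : ℤ → Lt} (hx : ∀ i : ℤ, (N : ℤ) < |i| → x i = x' i) {c i₀ i : ℤ}
    (h1 : c + i₀ * 13 ^ M ≤ -(N : ℤ)) (h2 : (N : ℤ) < c + i₀ * 13 ^ M + 13 ^ M) (hi : i ≠ i₀) :
    ty M x (c + i * 13 ^ M) = ty M x' (c + i * 13 ^ M) := by
  apply ty_congr
  intro k hk hk'
  apply hx
  have hpos : (0 : ℤ) < 13 ^ M := by positivity
  rcases lt_or_gt_of_ne hi with h | h
  · have : c + i * 13 ^ M + k < -(N : ℤ) := by nlinarith
    rw [lt_abs]
    right; linarith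
  · have : (N : ℤ) < c + i * 13 ^ M + k := by nlinarith
    rw [lt_abs]
    left; linarith

/-- comparison in all phases of the background from the comparison of the central blocks -/
theorem Ch2_Le {x x' : ℤ → Lt} {M N : ℕ} (hM : 1 ≤ M) (hN : 12 * ((N : ℤ) + 1) ≤ 13 ^ M)
    (hx : ∀ i : ℤ, (N : ℤ) < |i| → x i = x' i)
    (hph : ∀ c, V M x c → (13 : ℤ) ^ M ∣ c - og M ∨
      ∃ j : ℕ, 1 ≤ j ∧ j < M ∧ (13 : ℤ) ^ M ∣ c - og M - dl j)
    (h : ∀ s, V M x s → s ≤ -(N : ℤ) → (N : ℤ) < s + 13 ^ M → tle (ty M x s) (ty M x' s)) :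
    Le x x' := by
  apply Le_of_ty hM ⟨N, hx⟩
  intro c hc i
  obtain ⟨i₀, h1, h2⟩ := Ch2_place hN (hph c hc)
  by_cases hi : i = i₀
  · subst hi
    apply h _ _ h1 h2
    exact (V_mod ⟨i, by ring⟩).1 hc
  · rw [Ch2_off hx h1 h2 hi]
    exact tle_refl _

theorem Ch2_dvd_og {i n : ℕ} (h : i ≤ n) : (13 : ℤ) ^ i ∣ og n - og i := by
  induction n, h using Nat.le_induction with
  | base => simp
  | succ n hn ih =>
    have h1 : og (n + 1) - og i = (og n - og i) - 2 * 13 ^ n := by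
      rw [og]; ring
    rw [h1]
    exact dvd_sub ih (Dvd.dvd.mul_left (pow_dvd_pow _ hn) _)

theorem Ch2_dvd_dl {i n : ℕ} (h : i ≤ n) : (13 : ℤ) ^ i ∣ dl n := by
  unfold dl
  exact dvd_sub (pow_dvd_pow _ h) (pow_dvd_pow _ (by omega))

/-- the types of level `m + 1` in the phase `0` are at least those of the background -/
theorem Ch2_up {m : ℕ} (hm : 1 ≤ m) {y : ℤ → Lt}
    (hA : ∀ i : ℤ, ¬ (13 : ℤ) ∣ i → ∀ k : ℤ, 0 ≤ k → k < 13 ^ m →
      y (og m + i * 13 ^ m + k) = x0 (og m + i * 13 ^ m + k))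
    (hB : ∀ i : ℤ, ∃ τ, τ ≠ some 2 ∧ ty m y (og m + (13 * i) * 13 ^ m) = some (false, τ))
    (h0 : V (m + 1) y (og (m + 1))) (i : ℤ) :
    tle (ty (m + 1) x0 (og (m + 1) + i * 13 ^ (m + 1)))
      (ty (m + 1) y (og (m + 1) + i * 13 ^ (m + 1))) := by
  have hx := ty_x0 (n := m + 1) (by omega) i
  have hne := V_ty h0 i (by omega)
  set s := og (m + 1) + i * 13 ^ (m + 1) with hs
  have hs' : ∀ o : ℤ, s + o * 13 ^ m = og m + (13 * i - 2 + o) * 13 ^ m := by
    intro o
    rw [hs, og]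
    ring
  have hsame : ∀ o : ℤ, ¬ (13 : ℤ) ∣ (13 * i - 2 + o) →
      ty m y (s + o * 13 ^ m) = some ((b0 (13 * i - 2 + o)).1, some (b0 (13 * i - 2 + o)).2) := by
    intro o ho
    rw [hs', ← ty_x0 hm]
    apply ty_congr
    exact hA _ ho
  have hy0 : ty m y s = some ((b0 i).1, some (b0 i).2) := by
    have := hsame 0 (by omega)
    rw [zero_mul, add_zero, add_zero, b0_zero] at this
    exact this
  have hyj : ∀ j : Fin 12, j ≠ 1 → ty m y (s + (j.1 + 1) * 13 ^ m) = some (cls j, some (ut j)) := by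
    intro j hj
    have hj' : j.1 ≠ 1 := fun h => hj (Fin.ext h)
    have := hsame (j.1 + 1) (by have := j.2; omega)
    rw [b0_succ] at this
    exact this
  obtain ⟨τ, -, hτ⟩ := hB i
  have hy1 : ty m y (s + (((1 : Fin 12).1 : ℕ) + 1 : ℤ) * 13 ^ m) = some (false, τ) := by
    rw [hs', ← hτ]
    congr 1
    norm_num
  have hQ : Q1 m y s (b0 i).1 := by
    refine ⟨⟨_, hy0⟩, fun j => ?_⟩
    by_cases hj : j = 1
    · subst hj
      exact ⟨τ, hy1⟩
    · exact ⟨_, hyj j hj⟩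
  obtain ⟨⟨c, τ'⟩, hτ'⟩ := Option.ne_none_iff_exists'.1 hne
  have hc : c = (b0 i).1 := by
    rcases ty_pat hm hτ' with h | h
    · obtain ⟨τ'', h3⟩ := h.1
      rw [hy0] at h3
      simp only [Option.some.injEq, Prod.mk.injEq] at h3
      exact h3.1.symm
    · exact absurd h (fun h => Q_excl hQ h)
  subst hc
  rw [hτ', hx]
  rcases τ' with - | d
  · exact Or.inr (Or.inr ⟨_, _, rfl, rfl⟩)
  · by_cases hd : d < 2
    · have h3 := ((ty_A hm hd).1 hτ').1
      rw [hy0] at h3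
      simp only [Option.some.injEq, Prod.mk.injEq] at h3
      right; left
      rw [h3.2]
    · exfalso
      have hup : ∀ d : Col, ¬ d < 2 → ∃ a : Col, a < 2 ∧ d = up a := by decide
      obtain ⟨a, ha, rfl⟩ := hup d hd
      rcases (ty_B hm ha).1 hτ' with ⟨-, h3⟩ | ⟨h3, -, -⟩
      · have h4 := h3 0
        rw [hyj 0 (by decide)] at h4
        have h5 : (cls 0, some (ut 0)) ≠ (cls 0, some (up (ut 0))) := by decide
        simp only [Option.some.injEq] at h4
        exact h5 h4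
      · have h4 := h3 6 (by decide)
        have h6 : s + (((6 : Fin 12).1 : ℕ) : ℤ) * 13 ^ m =
            s + (((5 : Fin 12).1 : ℕ) + 1 : ℤ) * 13 ^ m := by norm_num
        rw [h6, hyj 5 (by decide)] at h4
        have h5 : (cls 5, some (ut 5)) ≠ (cls 6, some (ut 6)) := by decide
        simp only [Option.some.injEq] at h4
        exact h5 h4

theorem Ch2_big (K N : ℕ) : ∃ M : ℕ, K ≤ M ∧ 12 * ((N : ℤ) + 1) ≤ 13 ^ M := by
  refine ⟨K + 12 * (N + 1), by omega, ?_⟩
  have h : K + 12 * (N + 1) < 13 ^ (K + 12 * (N + 1)) := Nat.lt_pow_self (by norm_num)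
  have h' : ((K + 12 * (N + 1) : ℕ) : ℤ) < 13 ^ (K + 12 * (N + 1)) := by exact_mod_cast h
  push_cast at h' ⊢
  have h0 : (0 : ℤ) ≤ K := Nat.cast_nonneg K
  linarith

/-- if the phases `0` and `dl m` are valid for `y` at all levels then `y` is equivalent to the
good points of level `m` -/
theorem Ch2_b {m : ℕ} (hm : 1 ≤ m) {e y : ℤ → Lt} (he : Good m e) (hy : y ∈ X) (hfd : FD x0 y)
    (hne : y ≠ x0) (h0 : ∀ M : ℕ, 1 ≤ M → V M y (og M)) (h : Le y e)
    (hV : ∀ M : ℕ, m < M → V M y (og M + dl m)) : Le e y := by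
  obtain ⟨R1, h1⟩ := hfd
  obtain ⟨R2, h2⟩ := he.FD
  obtain ⟨N₀, -, hT⟩ := ty_of_Le hy h
  obtain ⟨M, hM, hN⟩ := Ch2_big (m + 2) (R1 + R2 + N₀)
  set N := R1 + R2 + N₀ with hNdef
  have hNy : ∀ i : ℤ, (N : ℤ) < |i| → y i = x0 i := fun i hi => (h1 i (by
    rw [hNdef] at hi; push_cast at hi; omega)).symm
  have hNe : ∀ i : ℤ, (N : ℤ) < |i| → e i = x0 i := fun i hi => (h2 i (by
    rw [hNdef] at hi; push_cast at hi; omega)).symm
  have hout : ∀ s : ℤ, s ≤ -(N : ℤ) → (N : ℤ) < s + 13 ^ M →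
      ∀ i : ℤ, i < s ∨ s + 13 ^ M ≤ i → y i = x0 i := by
    intro s hs hs' i hi
    apply hNy
    rw [lt_abs]
    rcases hi with hi | hi
    · right; linarith
    · left; linarith
  -- the central type in the phase `dl m`
  obtain ⟨hd1, hd2⟩ := Ch2_dl hM hN
  have hNN : (N₀ : ℤ) ≤ N := by
    rw [hNdef]; push_cast; omega
  have hb00 : b0 0 = (false, 0) := by
    have := b0_mul 0
    rwa [mul_zero] at this
  have hcen : ty M y (og M + dl m) = some (false, some 2) := by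
    have h3 := (hT M (by omega) (og M + dl m) (hV M (by omega)) (by linarith) (by linarith)).1
    have h4 := he.forget hm le_rfl (by omega : m < M) 0
    rw [zero_mul, add_zero, hb00] at h4
    rw [h4] at h3
    have h5 := V_ty (hV M (by omega)) 0 (by omega)
    rw [zero_mul, add_zero] at h5
    rcases h3 with h3 | h3 | ⟨κ, τ, h3, h6⟩
    · exact absurd h3 h5
    · exact h3
    · simp at h6
  obtain ⟨hA, hB⟩ := sens (x := y) hm (by omega : m + 1 ≤ M) (hout _ hd1 hd2)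
    (fun i => V_ty (h0 (m + 1) (by omega)) i (by omega)) hcen
  have hup := Ch2_up hm hA hB (h0 (m + 1) (by omega))
  have hup' : ∀ c : ℤ, (13 : ℤ) ^ (m + 1) ∣ c - og (m + 1) → ∀ i : ℤ,
      tle (ty M x0 (c + i * 13 ^ M)) (ty M y (c + i * 13 ^ M)) :=
    fun c hc i => ty_up_tle (by omega) (by omega) hc hup i
  obtain ⟨ho1, ho2⟩ := Ch2_og hN
  -- the central type in the phase `0`
  have hcF : ty M y (og M) = some (false, none) := by
    have h3 := hup' (og M) (Ch2_dvd_og (by omega)) 0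
    have h4 := ty_x0 (n := M) (by omega) 0
    rw [hb00] at h4
    rw [h4, zero_mul, add_zero] at h3
    rcases h3 with h3 | h3 | ⟨κ, τ, h3, h6⟩
    · simp at h3
    · exfalso
      apply hne
      rw [zero_mul, add_zero] at h4
      have h5 := ty_A_uniq (by omega : 1 ≤ M) (by decide : (0 : Col) < 2) h3.symm h4
      funext i
      by_cases hi : i < og M ∨ og M + 13 ^ M ≤ i
      · exact hout _ ho1 ho2 i hi
      · push Not at hi
        have := h5 (i - og M) (by linarith) (by linarith)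
        rwa [add_sub_cancel] at this
    · simp only [Option.some.injEq, Prod.mk.injEq] at h3
      rw [h6, ← h3.1]
  apply Ch2_Le (M := M) (N := N) (by omega) hN
  · intro i hi
    rw [hNy i hi, hNe i hi]
  · intro c hc
    rcases he.phases hm (by omega) hc with h3 | ⟨j, h3, h4, h5⟩
    · exact Or.inl h3
    · exact Or.inr ⟨j, by omega, h4, h5⟩
  · intro s hs hs1 hs2
    rcases he.phases hm (by omega) hs with h3 | ⟨j, h3, h4, h5⟩
    · have : s = og M := Ch2_uniq ho1 ho2 hs1 hs2 h3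
      rw [this, hcF, he.center hm (by omega)]
      exact tle_refl _
    · rw [sub_sub] at h5
      rcases Nat.lt_or_ge m j with hj | hj
      · obtain ⟨q, hq⟩ := h5
        have hsq : s = og M + dl j + q * 13 ^ M := by linarith
        have h6 := hup' (og M + dl j) (by
          have : og M + dl j - og (m + 1) = (og M - og (m + 1)) + dl j := by ring
          rw [this]
          exact dvd_add (Ch2_dvd_og (by omega)) (Ch2_dvd_dl (by omega))) q
        rw [ty_x0_dl (by omega) h4] at h6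
        rw [hsq, he.forget hm h3 h4]
        exact h6
      · have hj' : j = m := by omega
        subst hj'
        have : s = og M + dl j := Ch2_uniq hd1 hd2 hs1 hs2 h5
        rw [this, hcen]
        have h6 := he.forget hm le_rfl h4 0
        rw [zero_mul, add_zero, hb00] at h6
        rw [h6]
        exact tle_refl _

/-- the good points of level `m + 1` are the greatest elements with finite class below those of
level `m` -/
theorem good_greatest {m : ℕ} (hm : 1 ≤ m) {e e' y : ℤ → Lt} (he : Good m e)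
    (he' : Good (m + 1) e') (hy : y ∈ X) (hfd : FD x0 y) (hne : y ≠ x0)
    (hfin : {x : ℤ → Lt | Le y x ∧ Le x y}.Finite) (h : Le y e) (h' : ¬ Le e y) : Le y e' := by
  have h0 : ∀ M : ℕ, 1 ≤ M → V M y (og M) := by
    intro M hM
    by_contra hcon
    exact infinite_class hy hfd hM hcon hfin
  have hb : ∃ M₀ : ℕ, m < M₀ ∧ ¬ V M₀ y (og M₀ + dl m) := by
    by_contra hcon
    push Not at hcon
    exact h' (Ch2_b hm he hy hfd hne h0 h hcon)
  obtain ⟨M₀, hM₀, hV⟩ := hb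
  obtain ⟨R1, h1⟩ := hfd
  obtain ⟨R2, h2⟩ := he.FD
  obtain ⟨R3, h3⟩ := he'.FD
  obtain ⟨N₀, -, hT⟩ := ty_of_Le hy h
  obtain ⟨M, hM, hN⟩ := Ch2_big (m + 2 + M₀) (R1 + R2 + R3 + N₀)
  set N := R1 + R2 + R3 + N₀ with hNdef
  have hNy : ∀ i : ℤ, (N : ℤ) < |i| → y i = x0 i := fun i hi => (h1 i (by
    rw [hNdef] at hi; push_cast at hi; omega)).symm
  have hNe : ∀ i : ℤ, (N : ℤ) < |i| → e i = x0 i := fun i hi => (h2 i (by
    rw [hNdef] at hi; push_cast at hi; omega)).symm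
  have hNe' : ∀ i : ℤ, (N : ℤ) < |i| → e' i = x0 i := fun i hi => (h3 i (by
    rw [hNdef] at hi; push_cast at hi; omega)).symm
  have hNN : (N₀ : ℤ) ≤ N := by
    rw [hNdef]; push_cast; omega
  obtain ⟨ho1, ho2⟩ := Ch2_og hN
  obtain ⟨hd1, hd2⟩ := Ch2_dl (by omega : m + 2 ≤ M) hN
  have hVM : ¬ V M y (og M + dl m) := by
    intro h4
    apply hV
    have h5 := V_down (by omega : 1 ≤ M₀) (by omega) h4
    refine (V_mod ?_).1 h5
    have : og M₀ + dl m - (og M + dl m) = -(og M - og M₀) := by ring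
    rw [this]
    exact (Ch2_dvd_og (by omega)).neg_right
  apply Ch2_Le (M := M) (N := N) (by omega) hN
  · intro i hi
    rw [hNy i hi, hNe' i hi]
  · intro c hc
    exact phases_FD ⟨R1, h1⟩ (by omega) hc
  · intro s hs hs1 hs2
    obtain ⟨h4, h5⟩ := hT M (by omega) s hs (by linarith) (by linarith)
    suffices h6 : ty M e s = ty M e' s by
      rw [← h6]
      exact h4
    rcases he.phases hm (by omega) h5 with h6 | ⟨j, h6, h7, h8⟩
    · have : s = og M := Ch2_uniq ho1 ho2 hs1 hs2 h6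
      rw [this, he.center hm (by omega), he'.center (by omega) (by omega)]
    · rw [sub_sub] at h8
      rcases Nat.lt_or_ge m j with hj | hj
      · obtain ⟨q, hq⟩ := h8
        have hsq : s = og M + dl j + q * 13 ^ M := by linarith
        rw [hsq, he.forget hm h6 h7, he'.forget (by omega) (by omega) h7]
      · exfalso
        have hj' : j = m := by omega
        subst hj'
        apply hVM
        have : s = og M + dl j := Ch2_uniq hd1 hd2 hs1 hs2 h8
        rwa [this] at hs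

end H35.RS.RF
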