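import Pool.Agent.H35.RF.Defs

/-! # W4: class words -/

namespace H35.RS.RF
open H35.RS H35.RS.Up

/-- the class word `0^6 1^6` at `s` -/
def CW (κ : ℤ → Bool) (s : ℤ) : Prop := ∀ j : Fin 12, κ (s + j.1) = cls j

theorem cls_lo {κ : ℤ → Bool} {s : ℤ} (h : CW κ s) {i : ℤ} (h0 : s ≤ i) (h1 : i < s + 6) :
    κ i = false := by
  have := h ⟨(i - s).toNat, by omega⟩
  have e : s + (((⟨(i - s).toNat, by omega⟩ : Fin 12).1 : ℕ) : ℤ) = i := by
    simp only
    omega
  rw [e] at this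
  rw [this]
  unfold cls
  simp only [decide_eq_false_iff_not, not_le]
  omega

theorem cls_hi {κ : ℤ → Bool} {s : ℤ} (h : CW κ s) {i : ℤ} (h0 : s + 6 ≤ i) (h1 : i < s + 12) :
    κ i = true := by
  have := h ⟨(i - s).toNat, by omega⟩
  have e : s + (((⟨(i - s).toNat, by omega⟩ : Fin 12).1 : ℕ) : ℤ) = i := by
    simp only
    omega
  rw [e] at this
  rw [this]
  unfold cls
  simp only [decide_eq_true_eq]
  omega

theorem cw_far {κ : ℤ → Bool} {s t : ℤ} (h : CW κ s) (h' : CW κ t) (hst : s < t) : s + 12 ≤ t := by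
  by_contra hcon
  push Not at hcon
  by_cases h6 : t ≤ s + 6
  · -- the coordinate `s + 6` (or larger) is high for `s` and low for `t`
    have a := cls_hi h (i := max t (s + 6)) (le_max_right _ _) (by omega)
    have b := cls_lo h' (i := max t (s + 6)) (le_max_left _ _) (by omega)
    rw [a] at b
    exact absurd b (by simp)
  · push Not at h6
    have a := cls_hi h (i := t) (by omega) hcon
    have b := cls_lo h' (i := t) le_rfl (by omega)
    rw [a] at b
    exact absurd b (by simp)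

theorem cls_cmp {κ : ℤ → Bool} {s t : ℤ} (h : CW κ s) (h' : CW κ t) :
    s = t ∨ s + 12 ≤ t ∨ t + 12 ≤ s := by
  rcases lt_trichotomy s t with e | e | e
  · exact Or.inr (Or.inl (cw_far h h' e))
  · exact Or.inl e
  · exact Or.inr (Or.inr (cw_far h' h e))

theorem cw_shift {κ : ℤ → Bool} {s d : ℤ} (h0 : CW κ s ∨ CW κ (s + 1))
    (h1 : CW κ (s + 13) ∨ CW κ (s + 14)) (hd : 1 ≤ d) (hd' : d ≤ 12)
    (h : CW κ (s + d) ∨ CW κ (s + d + 1)) :
    (d = 1 ∧ CW κ (s + 1)) ∨ (d = 12 ∧ CW κ (s + 13)) := by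
  rcases h0 with a | a <;> rcases h1 with b | b <;> rcases h with c | c
  all_goals
    have e1 := cls_cmp a b
    have e2 := cls_cmp a c
    have e3 := cls_cmp b c
  · exact Or.inr ⟨by omega, b⟩
  · exact Or.inr ⟨by omega, b⟩
  · exfalso; omega
  · exfalso; omega
  · rcases (by omega : d = 1 ∨ d = 12) with e | e
    · exact Or.inl ⟨e, a⟩
    · exact Or.inr ⟨e, b⟩
  · rcases (by omega : d = 1 ∨ d = 12) with e | e
    · exact Or.inl ⟨e, a⟩
    · exact Or.inr ⟨e, b⟩
  · exact Or.inl ⟨by omega, a⟩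
  · exact Or.inl ⟨by omega, a⟩

end H35.RS.RF
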