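import Pool.Agent.H35.RS.Unique
import Pool.Agent.H35.RS.PowF

/-!
# A non-recognisable aperiodic random substitution with residually finite automorphism group

Definitions: the substitution `th` (10 letters, constant length 13), types, the exchange order,
the background point `x0`, good points.
-/

namespace H35.RS.RF

open H35.RS H35.RS.Up

/-- colours: `0 = p, 1 = q, 2 = r, 3 = s` -/
abbrev Col := Fin 4

/-- letters: `(κ, none)` is `*` of class `κ`, `(κ, some d)` is (not `d`) of class `κ` -/
abbrev Lt := Bool × Option Col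

/-- types: `(κ, none)` is the free type `F` of class `κ`, `(κ, some d)` is the type `T_d` -/
abbrev Ty := Bool × Option Col

/-- the class of the coordinate `j + 1` -/
def cls (j : Fin 12) : Bool := decide (6 ≤ j.1)

/-- the background colour of the coordinate `j + 1` -/
def ut (j : Fin 12) : Col := if j.1 % 6 < 3 then 0 else 1

/-- `p ↔ r`, `q ↔ s` -/
def up (d : Col) : Col := d + 2

/-- default positions of the letters (not `d`) of class `κ` (offsets `0, …, 5` in the class);
kinds: `0` = mode A, `1` = mode B (both of pattern P1), `2` = pattern P2 -/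
def dpos : Fin 3 → Bool → Col → ℕ
  | 0, _, d => ![3, 1, 0, 5] d
  | 1, _, d => ![0, 5, 3, 1] d
  | 2, false, d => ![3, 0, 1, 5] d
  | 2, true, d => ![3, 1, 0, 5] d

/-- alternative positions -/
def apos : Fin 3 → Bool → Col → ℕ
  | 0, _, d => ![4, 2, 2, 4] d
  | 1, _, d => ![2, 4, 4, 2] d
  | 2, false, d => ![4, 2, 6, 4] d
  | 2, true, d => ![4, 2, 2, 4] d

/-- the letter at the coordinate `j + 1` of the default word of kind `k`, class `c`, in which the
letter (not `xd`) of class `c` has been moved to the coordinate `X` -/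
def bs (k : Fin 3) (c : Bool) (xd : Col) (j : Fin 12) : Option Col :=
  (List.finRange 4).find? (fun d => dpos k (cls j) d == j.1 % 6 && !(cls j == c && d == xd))

/-- the colour whose absence is detected at the coordinate `j + 1` in the kind `k` -/
def tg (k : Fin 3) (j : Fin 12) : Col := if k = 1 then up (ut j) else ut j

/-- the letters at the coordinates `1, …, 12`: the default word (`l = none`) or the word which
detects at the coordinate `l + 1` -/
def md (k : Fin 3) (c : Bool) (xd : Col) (l : Option (Fin 12)) (j : Fin 12) : Option Col :=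
  match l with
  | none => bs k c xd j
  | some l =>
    if j = l then some (tg k l)
    else if cls j = cls l then
      if bs k c xd j = some (tg k l) then none
      else match bs k c xd l with
        | some d => if apos k (cls l) d = j.1 % 6 then some d else bs k c xd j
        | none => bs k c xd j
    else bs k c xd j

/-- the letter at the coordinate `X` -/
def xl (k : Fin 3) (c : Bool) (xd : Col) (l : Option (Fin 12)) : Option Col :=
  match l with
  | none => some xd
  | some l => if cls l = c ∧ tg k l = xd then none else some xd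

/-- pattern P1: `X, 1, …, 12` -/
def pat1 (c : Bool) (x : Option Col) (m : Fin 12 → Option Col) : Fin 13 → Lt :=
  Fin.cons (c, x) (fun j => (cls j, m j))

/-- pattern P2: `1, …, 12, X` -/
def pat2 (c : Bool) (x : Option Col) (m : Fin 12 → Option Col) : Fin 13 → Lt :=
  Fin.snoc (α := fun _ => Lt) (fun j => (cls j, m j)) (c, x)

/-- the words -/
def W (k : Fin 3) (c : Bool) (xd : Col) (l : Option (Fin 12)) : Fin 13 → Lt :=
  if k = 2 then pat2 c (xl k c xd l) (md k c xd l) else pat1 c (xl k c xd l) (md k c xd l)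

/-- the words which belong to all `ϑ(c, S)` -/
def Vs (c : Bool) : List (Fin 13 → Lt) :=
  (List.finRange 12).map (fun l => W 0 c 0 (some l)) ++
  (List.finRange 12).map (fun l => W 0 c 1 (some l)) ++
  (List.finRange 12).map (fun l => W 1 c 2 (some l)) ++
  (List.finRange 12).map (fun l => W 1 c 3 (some l)) ++
  ((List.finRange 12).filter (fun l => l ≠ 1)).map (fun l => W 2 c 0 (some l)) ++
  ((List.finRange 12).filter (fun l => l ≠ 1)).map (fun l => W 2 c 1 (some l))

/-- the words which belong to `ϑ(c, S)` iff `d ∈ S` -/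
def Us (c : Bool) (d : Col) : List (Fin 13 → Lt) :=
  match d with
  | 0 => [W 0 c 1 none]
  | 1 => [W 0 c 0 none]
  | 2 => [W 1 c 3 none, W 2 c 1 none]
  | 3 => [W 1 c 2 none, W 2 c 0 none]

/-- `ϑ(a)` as a list of functions -/
def ths (a : Lt) : List (Fin 13 → Lt) :=
  Vs a.1 ++ (List.finRange 4).flatMap (fun d => if a.2 = some d then [] else Us a.1 d)

/-- the random substitution -/
def th (a : Lt) : Finset (List Lt) := ((ths a).map List.ofFn).toFinset

/-! ### Types -/

/-- the set of letters of a type -/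
def St (t : Ty) : Set Lt := {a | a.1 = t.1 ∧ (t.2 = none ∨ a.2 ≠ t.2)}

/-- the letters whose image contains a word whose letters are in the given types -/
def Th (t : Fin 13 → Ty) : Set Lt := {a | ∃ w ∈ ths a, ∀ o, w o ∈ St (t o)}

open Classical in
/-- the type with a given set of letters -/
noncomputable def tys (S : Set Lt) : Option Ty :=
  if h : ∃ τ : Ty, S = St τ then some h.choose else none

/-- the type of the block `[s, s + 13^n)` of `x` -/
noncomputable def ty (n : ℕ) (x : ℤ → Lt) (s : ℤ) : Option Ty :=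
  tys (Cst.tp (powF th n) (13 ^ n) x s)

/-- `c` is a valid phase at the level `n` -/
def V (n : ℕ) (x : ℤ → Lt) (c : ℤ) : Prop := Cst.Valid (powF th n) (13 ^ n) x c

/-- the subshift -/
abbrev X : Set (ℤ → Lt) := subshift th

/-- `t ≤ t'` (inclusion of the sets of letters) -/
def tle (t t' : Option Ty) : Prop := t = none ∨ t = t' ∨ ∃ (κ : Bool) (τ : Option Col),
  t = some (κ, τ) ∧ t' = some (κ, none)

/-- class pattern P1 at `s`, level `n + 1` -/
def Q1 (n : ℕ) (x : ℤ → Lt) (s : ℤ) (c : Bool) : Prop :=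
  (∃ τ, ty n x s = some (c, τ)) ∧ ∀ j : Fin 12, ∃ τ, ty n x (s + (j.1 + 1) * 13 ^ n) = some (cls j, τ)

/-- class pattern P2 at `s`, level `n + 1` -/
def Q2 (n : ℕ) (x : ℤ → Lt) (s : ℤ) (c : Bool) : Prop :=
  (∀ j : Fin 12, ∃ τ, ty n x (s + j.1 * 13 ^ n) = some (cls j, τ)) ∧
    ∃ τ, ty n x (s + 12 * 13 ^ n) = some (c, τ)

/-! ### The exchange order -/

/-- `x` and `x'` differ in finitely many places -/
def FD (x x' : ℤ → Lt) : Prop := ∃ R : ℕ, ∀ i : ℤ, (R : ℤ) < |i| → x i = x' i

/-- replace `x` by `x'` in `z` -/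
def sp (z x x' : ℤ → Lt) : ℤ → Lt := fun i => if x i = x' i then z i else x' i

/-- `x ≤ x'`: in every point of `X` which looks like `x` near `0` one may replace `x` by `x'` -/
def Le (x x' : ℤ → Lt) : Prop := FD x x' ∧ ∃ N : ℕ, ∀ z ∈ X, (∀ i : ℤ, |i| ≤ N → z i = x i) →
  sp z x x' ∈ X

/-- recurrence -/
def Rec (z : ℤ → Lt) : Prop := ∀ M N B : ℕ, ∃ k : ℤ, (B : ℤ) ≤ k ∧
  ∀ i : ℤ, |i| ≤ N → z (i + k * 13 ^ M) = z i

/-! ### The background -/

/-- the background letters -/
def b0 (m : ℤ) : Bool × Col :=
  if h : (m + 2) % 13 = 0 then b0 ((m + 2) / 13)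
  else (cls ⟨((m + 2) % 13).toNat - 1, by omega⟩, ut ⟨((m + 2) % 13).toNat - 1, by omega⟩)
termination_by m.natAbs
decreasing_by omega

/-- the rigid word of level 1 -/
def rw1 (a : Bool × Col) : Fin 13 → Lt := W 0 a.1 (1 - a.2) none

/-- the background point -/
def x0 (i : ℤ) : Lt := rw1 (b0 ((i + 2) / 13)) ⟨((i + 2) % 13).toNat, by omega⟩

/-- the origin of the central block of level `n` -/
def og : ℕ → ℤ
  | 0 => 0
  | n + 1 => og n - 2 * 13 ^ n

/-- the shifted phases -/
def dl (j : ℕ) : ℤ := 13 ^ j - 13 ^ (j + 1)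

/-- good points of level `m` -/
def Good (m : ℕ) (e : ℤ → Lt) : Prop :=
  (∀ i : ℤ, i < og m ∨ og m + 13 ^ m ≤ i → e i = x0 i) ∧ ty m e (og m) = some (false, none) ∧
    ∀ c, V m e c → (13 : ℤ) ^ m ∣ c - og m

/-- all level `n` blocks in the phase `c` are rigid -/
def Rg (n : ℕ) (z : ℤ → Lt) (c : ℤ) : Prop :=
  ∀ i : ℤ, ∃ (κ : Bool) (a : Col), a < 2 ∧ ty n z (c + i * 13 ^ n) = some (κ, some a)

/-- rigid at all levels -/
def RgAll (z : ℤ → Lt) : Prop := ∀ n : ℕ, 1 ≤ n → ∃ c, Rg n z c

/-- the Toeplitz sequences with a hole at `0` -/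
def ya (a : Bool × Col) (m : ℤ) : Bool × Col :=
  if m = 0 then a
  else if h : m % 13 = 0 then ya a (m / 13)
  else (cls ⟨(m % 13).toNat - 1, by omega⟩, ut ⟨(m % 13).toNat - 1, by omega⟩)
termination_by m.natAbs
decreasing_by omega

/-- the points `Y_a` -/
def Ya (a : Bool × Col) (i : ℤ) : Lt := rw1 (ya a (i / 13)) ⟨(i % 13).toNat, by omega⟩

end H35.RS.RF
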