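import Pool.Agent.H35.RF.Val

/-! # W9: gluing blocks; words of all types -/

namespace H35.RS.RF
open H35.RS H35.RS.Up

/-- glue the blocks `[0, 13^n)` of the sequences `f i` -/
def glue (n : ℕ) (f : ℤ → ℤ → Lt) : ℤ → Lt := fun p => f (p / 13 ^ n) (p % 13 ^ n)

theorem glue_apply (n : ℕ) (f : ℤ → ℤ → Lt) (i k : ℤ) (hk : 0 ≤ k) (hk' : k < 13 ^ n) :
    glue n f (i * 13 ^ n + k) = f i k := by
  have hpos : (0 : ℤ) < 13 ^ n := by positivity
  unfold glue
  have e1 : (i * 13 ^ n + k) / 13 ^ n = i := by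
    rw [add_comm, Int.add_mul_ediv_right _ _ hpos.ne', Int.ediv_eq_zero_of_lt hk hk', zero_add]
  have e2 : (i * 13 ^ n + k) % 13 ^ n = k := by
    rw [add_comm, Int.add_mul_emod_self_right, Int.emod_eq_of_lt hk hk']
  rw [e1, e2]

theorem ty_glue (n : ℕ) (f : ℤ → ℤ → Lt) (i : ℤ) : ty n (glue n f) (i * 13 ^ n) = ty n (f i) 0 := by
  apply ty_congr
  intro k hk hk'
  rw [glue_apply n f i k hk hk', zero_add]

/-- gluing over a point of `X` -/
theorem glue_V {n : ℕ} (hn : 1 ≤ n) {y : ℤ → Lt} (hy : y ∈ X) {f : ℤ → ℤ → Lt}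
    (h : ∀ i, y i ∈ Cst.tp (powF th n) (13 ^ n) (f i) 0) : V n (glue n f) 0 := by
  refine Val_iff.2 ⟨y, by rw [Val_sub hn]; exact hy, fun i => ?_⟩
  have e : Cst.tp (powF th n) (13 ^ n) (glue n f) (0 + i * 13 ^ n) =
      Cst.tp (powF th n) (13 ^ n) (f i) 0 := by
    apply Cst.tp_congr
    intro k hk hk'
    rw [Val_cast] at hk'
    rw [zero_add, zero_add, glue_apply n f i k hk hk']
  rw [e]
  exact h i

/-- the types of the 13 sub-blocks of a block of pattern P1 -/
def Glue_T (t : Ty) (g : Fin 12 → Ty) (i : ℤ) : Ty :=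
  if h : 1 ≤ i ∧ i ≤ 12 then g ⟨(i - 1).toNat, by omega⟩ else t

theorem Glue_T_zero (t : Ty) (g : Fin 12 → Ty) : Glue_T t g 0 = t := by
  unfold Glue_T
  rw [dif_neg (by omega)]

theorem Glue_T_succ (t : Ty) (g : Fin 12 → Ty) (j : Fin 12) : Glue_T t g (j.1 + 1) = g j := by
  unfold Glue_T
  rw [dif_pos (by omega)]
  congr 1
  apply Fin.ext
  simp

/-- a block with prescribed types of the sub-blocks -/
theorem Glue_ex {n : ℕ} (h : ∀ τ : Ty, ∃ z : ℤ → Lt, ty n z 0 = some τ) (t : Ty) (g : Fin 12 → Ty) :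
    ∃ z : ℤ → Lt, ty n z 0 = some t ∧ ∀ j : Fin 12, ty n z (0 + (j.1 + 1) * 13 ^ n) = some (g j) := by
  choose zz hzz using h
  refine ⟨glue n (fun i => zz (Glue_T t g i)), ?_, fun j => ?_⟩
  · have h1 := ty_glue n (fun i => zz (Glue_T t g i)) 0
    rw [zero_mul, Glue_T_zero, hzz] at h1
    exact h1
  · have h1 := ty_glue n (fun i => zz (Glue_T t g i)) (j.1 + 1)
    rw [Glue_T_succ, hzz] at h1
    rw [zero_add]
    exact h1

/-- every type occurs at every level -/
theorem exists_ty {n : ℕ} (hn : 1 ≤ n) (τ : Ty) : ∃ z : ℤ → Lt, ty n z 0 = some τ := by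
  induction n, hn using Nat.le_induction generalizing τ with
  | base =>
    obtain ⟨w, hw⟩ := ty_one_word τ
    refine ⟨fun p => w ⟨(p % 13).toNat, by omega⟩, hw _ _ fun o => ?_⟩
    congr 1
    apply Fin.ext
    have := o.2
    simp only
    omega
  | succ n hn ih =>
    obtain ⟨c, d⟩ := τ
    cases d with
    | none =>
      obtain ⟨z, h0, h1⟩ := Glue_ex ih (c, none) (fun j => (cls j, none))
      refine ⟨z, ty_F hn (Or.inl ⟨⟨none, h0⟩, fun j => ⟨none, h1 j⟩⟩) fun o => ?_⟩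
      refine Fin.cases ?_ (fun j => ?_) o
      · refine ⟨c, ?_⟩
        simp only [Fin.val_zero, Nat.cast_zero, zero_mul, add_zero]
        exact h0
      · refine ⟨cls j, ?_⟩
        rw [Fin.val_succ]
        push_cast
        exact h1 j
    | some d =>
      by_cases hd : d < 2
      · obtain ⟨z, h0, h1⟩ := Glue_ex ih (c, some d) (fun j => (cls j, some (ut j)))
        exact ⟨z, (ty_A hn hd).2 ⟨h0, h1⟩⟩
      · obtain ⟨a, ha, hda⟩ : ∃ a : Col, a < 2 ∧ d = up a := by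
          revert hd
          revert d
          decide
        obtain ⟨z, h0, h1⟩ := Glue_ex ih (c, some d) (fun j => (cls j, some (up (ut j))))
        refine ⟨z, ?_⟩
        rw [hda] at h0 ⊢
        exact (ty_B hn ha).2 (Or.inl ⟨h0, h1⟩)

end H35.RS.RF
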