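import Pool.Agent.H35.RF.Good
import Pool.Agent.H35.RF.Glue

/-! # W24: good points exist and are dense -/

namespace H35.RS.RF
open H35.RS H35.RS.Up

/-- words of type `F` all of whose levels contain blocks of pattern P2 -/
def Dens_H (n : ℕ) (z : ℤ → Lt) (κ : Bool) : Prop := ty n z 0 = some (κ, none) ∧
    ∀ i : ℕ, 1 ≤ i → i < n → ∃ s : ℤ, ∃ c, (13 : ℤ) ^ (i + 1) ∣ s ∧ 0 ≤ s ∧
      s + 13 ^ (i + 1) ≤ 13 ^ n ∧ Q2 i z s c

theorem Dens_sub {n i : ℕ} {f : ℤ → ℤ → Lt} (o a : ℤ) (ha : 0 ≤ a) (ha' : a + 13 ^ i ≤ 13 ^ n) :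
    ty i (glue n f) (o * 13 ^ n + a) = ty i (f o) a := by
  apply ty_congr
  intro k hk hk'
  rw [add_assoc]
  exact glue_apply n f o (a + k) (by linarith) (by linarith)

theorem Dens_subQ {n i : ℕ} {f : ℤ → ℤ → Lt} {o s : ℤ} {c : Bool} (hs : 0 ≤ s)
    (hs' : s + 13 ^ (i + 1) ≤ 13 ^ n) (h : Q2 i (f o) s c) : Q2 i (glue n f) (o * 13 ^ n + s) c := by
  have hB : (0 : ℤ) < 13 ^ i := by positivity
  have e : (13 : ℤ) ^ (i + 1) = 13 * 13 ^ i := by ring
  rw [e] at hs'
  constructor
  · intro j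
    have hj : ((j.1 : ℤ) + 1) * 13 ^ i ≤ 12 * 13 ^ i :=
      mul_le_mul_of_nonneg_right (by exact_mod_cast j.2) hB.le
    have hj0 : (0 : ℤ) ≤ (j.1 : ℤ) * 13 ^ i := by positivity
    rw [add_assoc, Dens_sub o (s + j.1 * 13 ^ i) (by linarith) (by linarith)]
    exact h.1 j
  · rw [add_assoc, Dens_sub o (s + 12 * 13 ^ i) (by linarith) (by linarith)]
    exact h.2

theorem Dens_Q {n : ℕ} {f : ℤ → ℤ → Lt} {c : Bool}
    (h : ∀ j : Fin 12, ∃ τ, ty n (f j.1) 0 = some (cls j, τ))
    (h' : ∃ τ, ty n (f 12) 0 = some (c, τ)) : Q2 n (glue n f) 0 c := by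
  constructor
  · intro j
    rw [zero_add, ty_glue]
    exact h j
  · rw [zero_add, ty_glue]
    exact h'

theorem Dens_step {n : ℕ} {c κ : Bool} {f : ℤ → ℤ → Lt}
    (hF : ty (n + 1) (glue n f) 0 = some (c, none)) (hQ : Q2 n (glue n f) 0 c)
    (hH : Dens_H n (f 12) κ) : Dens_H (n + 1) (glue n f) c := by
  refine ⟨hF, ?_⟩
  intro i hi hin
  rcases Nat.lt_or_ge i n with h | h
  · obtain ⟨s, c', h1, h2, h3, h4⟩ := hH.2 i hi h
    refine ⟨12 * 13 ^ n + s, c', ?_, ?_, ?_, Dens_subQ h2 h3 h4⟩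
    · apply dvd_add _ h1
      apply Dvd.dvd.mul_left
      exact pow_dvd_pow _ h
    · positivity
    · have e : (13 : ℤ) ^ (n + 1) = 13 * 13 ^ n := by ring
      rw [e]
      linarith
  · have h5 : i = n := by omega
    subst h5
    exact ⟨0, c, dvd_zero _, le_rfl, by simp, hQ⟩

theorem Dens_ex (n : ℕ) (hn : 1 ≤ n) (κ : Bool) : ∃ z : ℤ → Lt, Dens_H n z κ := by
  induction n generalizing κ with
  | zero => omega
  | succ n ih =>
    rcases Nat.eq_zero_or_pos n with rfl | hn0
    · obtain ⟨z, hz⟩ := exists_ty (n := 0 + 1) le_rfl (κ, none)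
      refine ⟨z, hz, ?_⟩
      intro i hi hi'
      omega
    · have : ∀ κ, ∃ z, Dens_H n z κ := ih hn0
      choose H hH using this
      obtain ⟨f, hf⟩ : ∃ f : ℤ → ℤ → Lt, ∀ i, f i = if i = 12 then H κ else
          if i < 6 then H false else H true := ⟨_, fun i => rfl⟩
      have h12 : f 12 = H κ := by rw [hf, if_pos rfl]
      have hj : ∀ j : Fin 12, f j.1 = H (cls j) := by
        intro j
        have := j.2
        rw [hf, if_neg (by omega)]
        by_cases h6 : (j.1 : ℤ) < 6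
        · rw [if_pos h6]
          congr 1
          unfold cls
          symm
          rw [decide_eq_false_iff_not]
          omega
        · rw [if_neg h6]
          congr 1
          unfold cls
          symm
          rw [decide_eq_true_eq]
          omega
      have hQ : Q2 n (glue n f) 0 κ := by
        apply Dens_Q
        · intro j
          rw [hj]
          exact ⟨_, (hH (cls j)).1⟩
        · rw [h12]
          exact ⟨_, (hH κ).1⟩
      refine ⟨glue n f, Dens_step (κ := κ) ?_ hQ ?_⟩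
      · apply ty_F hn0 (Or.inr hQ)
        intro o
        rw [zero_add, ty_glue]
        by_cases ho : (o.1 : ℤ) = 12
        · rw [ho, h12]
          exact ⟨_, (hH κ).1⟩
        · have := o.2
          have h1 := hj ⟨o.1, by omega⟩
          simp only at h1
          rw [h1]
          exact ⟨_, (hH _).1⟩
      · rw [h12]
        exact hH κ

/-- a word of level `n` and type `F` all of whose levels contain blocks of pattern P2 -/
theorem exists_H (n : ℕ) (hn : 1 ≤ n) (κ : Bool) : ∃ z : ℤ → Lt, ty n z 0 = some (κ, none) ∧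
    ∀ i : ℕ, 1 ≤ i → i < n → ∃ s : ℤ, ∃ c, (13 : ℤ) ^ (i + 1) ∣ s ∧ 0 ≤ s ∧
      s + 13 ^ (i + 1) ≤ 13 ^ n ∧ Q2 i z s c := Dens_ex n hn κ

theorem Dens_og (n : ℕ) : -(13 : ℤ) ^ n ≤ og n ∧ og n ≤ 0 := by
  have h := og_eq n
  have h1 : (1 : ℤ) ≤ 13 ^ n := one_le_pow₀ (by norm_num)
  constructor <;> omega

theorem Dens_core {m : ℕ} (hm : 1 ≤ m) {z : ℤ → Lt} (hz : Dens_H m z false) :
    ∃ e : ℤ → Lt, Good m e ∧ ∀ k : ℤ, 0 ≤ k → k < 13 ^ m → e (og m + k) = z k := by
  obtain ⟨e, he⟩ : ∃ e : ℤ → Lt, ∀ p, e p = if og m ≤ p ∧ p < og m + 13 ^ m then z (p - og m)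
      else x0 p := ⟨_, fun p => rfl⟩
  have hin : ∀ k : ℤ, 0 ≤ k → k < 13 ^ m → e (og m + k) = z k := by
    intro k hk hk'
    rw [he, if_pos ⟨by linarith, by linarith⟩]
    congr 1
    ring
  have hout : ∀ i : ℤ, i < og m ∨ og m + 13 ^ m ≤ i → e i = x0 i := by
    intro i hi
    rw [he, if_neg]
    rintro ⟨h1, h2⟩
    rcases hi with hi | hi <;> linarith
  have hB : (0 : ℤ) < 13 ^ m := by positivity
  have hsub : ∀ (i : ℕ) (a : ℤ), 0 ≤ a → a + 13 ^ i ≤ 13 ^ m → ty i e (og m + a) = ty i z a := by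
    intro i a ha ha'
    apply ty_congr
    intro k hk hk'
    rw [add_assoc]
    exact hin _ (by linarith) (by linarith)
  have hty : ty m e (og m) = some (false, none) := by
    rw [← hz.1]
    have := hsub m 0 le_rfl (by linarith)
    rwa [add_zero] at this
  obtain ⟨ol, ou⟩ := Dens_og m
  have hfd : FD x0 e := by
    refine ⟨13 ^ m, ?_⟩
    intro i hi
    push_cast at hi
    symm
    apply hout
    rcases abs_cases i with ⟨h6, h7⟩ | ⟨h6, h7⟩
    · right
      linarith
    · left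
      linarith
  have hV : V m e (og m) := by
    apply V_mono hm (V_x0 hm)
    intro i
    by_cases hi : i = 0
    · subst hi
      have h1 := ty_x0 hm 0
      rw [ty_x0 hm]
      have h2 : b0 0 = (false, 0) := b0_mul 0
      rw [h2]
      simp only [zero_mul, add_zero]
      rw [hty]
      right; right
      exact ⟨false, some 0, rfl, rfl⟩
    · have h1 : ty m x0 (og m + i * 13 ^ m) = ty m e (og m + i * 13 ^ m) := by
        apply ty_congr
        intro k hk hk'
        symm
        apply hout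
        rcases lt_or_gt_of_ne hi with h5 | h5
        · left
          have h6 : (i + 1) * 13 ^ m ≤ 0 * 13 ^ m := mul_le_mul_of_nonneg_right h5 hB.le
          linarith
        · right
          have h6 : 1 * 13 ^ m ≤ i * 13 ^ m := mul_le_mul_of_nonneg_right h5 hB.le
          linarith
      rw [h1]
      exact tle_refl _
  refine ⟨e, ⟨hout, hty, ?_⟩, hin⟩
  intro c hc
  rcases phases_FD hfd hm hc with h | ⟨j, hj, hjm, h⟩
  · exact h
  · exfalso
    have hB : (0 : ℤ) < 13 ^ j := by positivity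
    have v1 := V_down (m := j + 1) (by omega) (by omega) hV
    have v2 := V_down (m := j + 1) (by omega) (by omega) hc
    have t1 := fun i => V_ty v1 i (by omega)
    have t2 := fun i => V_ty v2 i (by omega)
    obtain ⟨q, hq⟩ : (13 : ℤ) ^ (j + 1) ∣ c - og m - dl j :=
      dvd_trans (pow_dvd_pow _ (by omega)) h
    have ecc : c - og m = 13 ^ j + 13 ^ (j + 1) * (q - 1) := by
      unfold dl at hq
      linarith
    obtain ⟨s, κ, s1, s2, s3, s4⟩ := hz.2 j hj hjm
    have hne : ∀ r : ℤ, (13 : ℤ) ^ (j + 1) ∣ c - og m - r * 13 ^ j → (13 : ℤ) ∣ 1 - r := by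
      rintro r ⟨t, ht⟩
      refine ⟨t - q + 1, ?_⟩
      have e1 : (13 : ℤ) ^ (j + 1) = 13 * 13 ^ j := by ring
      rw [ecc, e1] at ht
      have h3 : (1 - r - 13 * (t - q + 1)) * 13 ^ j = 0 := by linarith
      rcases mul_eq_zero.1 h3 with h4 | h4
      · linarith
      · exact absurd h4 hB.ne'
    rcases two_phases hj (c := og m) (c' := c) ⟨1 + 13 * (q - 1), by rw [ecc]; ring⟩ t1 t2 (by
      intro h3
      have h4 := hne 0 (by simpa using h3)
      omega) with h3 | h3
    · obtain ⟨u, hu⟩ := s1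
      obtain ⟨κ', h4⟩ := h3.2.1 u
      have e1 : og m + u * 13 ^ (j + 1) = og m + s := by rw [hu]; ring
      rw [e1] at h4
      refine Q_excl h4 (c' := κ) ⟨?_, ?_⟩
      · intro l
        have hl : ((l.1 : ℤ) + 1) * 13 ^ j ≤ 12 * 13 ^ j :=
          mul_le_mul_of_nonneg_right (by exact_mod_cast l.2) hB.le
        have hl0 : (0 : ℤ) ≤ (l.1 : ℤ) * 13 ^ j := by positivity
        have e2 : (13 : ℤ) ^ (j + 1) = 13 * 13 ^ j := by ring
        rw [e2] at s3
        rw [add_assoc, hsub j (s + l.1 * 13 ^ j) (by linarith) (by linarith)]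
        exact s4.1 l
      · have e2 : (13 : ℤ) ^ (j + 1) = 13 * 13 ^ j := by ring
        rw [e2] at s3
        rw [add_assoc, hsub j (s + 12 * 13 ^ j) (by linarith) (by linarith)]
        exact s4.2
    · have h4 := hne (-1) (by
        obtain ⟨u, hu⟩ := h3.1
        exact ⟨-u, by linarith⟩)
      omega

theorem exists_good {m : ℕ} (hm : 1 ≤ m) : ∃ e : ℤ → Lt, Good m e := by
  obtain ⟨z, hz⟩ := Dens_ex m hm false
  obtain ⟨e, he, -⟩ := Dens_core hm hz
  exact ⟨e, he⟩

theorem good_dense {x : ℤ → Lt} (hx : x ∈ X) (N : ℕ) : ∃ (m : ℕ) (e : ℤ → Lt) (k : ℤ), 1 ≤ m ∧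
    Good m e ∧ ∀ i : ℤ, |i| ≤ N → e (i + k) = x i := by
  obtain ⟨N₀, hN₀⟩ := Up.reach th_random th_primitive (hx (-(N : ℤ)) (2 * N + 1))
  obtain ⟨n, hn, hn1⟩ : ∃ n, N₀ ≤ n ∧ 1 ≤ n := ⟨N₀ + 1, by omega, by omega⟩
  obtain ⟨v, hv, s, t, hst⟩ := hN₀ n hn (false, none)
  have hlen : v.length = 13 ^ n := pow_length th_len n _ v hv
  -- a point with the word v
  obtain ⟨z0, hz0⟩ : ∃ z0 : ℤ → Lt, ∀ p, z0 p = v.getD p.toNat (false, none) := ⟨_, fun p => rfl⟩
  have hwd : wd z0 0 (13 ^ n) = v := by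
    apply List.ext_getElem
    · simp [wd, hlen]
    · intro i h1 h2
      simp only [wd, List.getElem_map, List.getElem_range, zero_add, hz0, Int.toNat_natCast]
      rw [List.getD_eq_getElem _ _ h2]
  have hz0x : ∀ i : ℤ, |i| ≤ N → z0 (s.length + N + i) = x i := by
    intro i hi
    obtain ⟨h1, h2⟩ := abs_le.1 hi
    obtain ⟨r, hr⟩ : ∃ r : ℕ, (r : ℤ) = N + i := ⟨(N + i).toNat, Int.toNat_of_nonneg (by linarith)⟩
    have e1 : (s.length : ℤ) + N + i = ((s.length + r : ℕ) : ℤ) := by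
      push_cast
      linarith
    have hr2 : r < 2 * N + 1 := by omega
    rw [hz0, e1, Int.toNat_natCast, ← hst]
    rw [List.getD_eq_getElem?_getD, List.append_assoc, List.getElem?_append_right (by omega)]
    have e2 : s.length + r - s.length = r := by omega
    rw [e2, List.getElem?_append_left (by simp [wd_length]; omega)]
    have h3 : r < (wd x (-(N : ℤ)) (2 * N + 1)).length := by simp [wd_length]; omega
    rw [List.getElem?_eq_getElem h3]
    simp only [Option.getD_some, wd, List.getElem_map, List.getElem_range]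
    congr 1
    linarith
  have hsl : s.length + (2 * N + 1) ≤ 13 ^ n := by
    rw [← hlen, ← hst]
    simp [wd_length]
  have hne : ty n z0 0 ≠ none := by
    intro h0
    have h1 := (ty_none hn1).1 h0
    have h2 : ((false, none) : Lt) ∈ Cst.tp (powF th n) (13 ^ n) z0 0 := by
      rw [Cst.mem_tp, hwd, mem_powF]
      exact hv
    rw [h1] at h2
    exact h2
  obtain ⟨τ, hτ⟩ := Option.ne_none_iff_exists'.1 hne
  obtain ⟨j, hjc, hj⟩ := exists_star false τ.1
  have : ∀ κ, ∃ z, Dens_H n z κ := Dens_ex n hn1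
  choose H hH using this
  obtain ⟨f, hf⟩ : ∃ f : ℤ → ℤ → Lt, ∀ i, f i = if i = j.1 then z0 else
      if i < 6 then H false else if i < 12 then H true else H false := ⟨_, fun i => rfl⟩
  have h12 : f 12 = H false := by
    have := j.2
    rw [hf, if_neg (by omega), if_neg (by norm_num), if_neg (by norm_num)]
  have hfj : f j.1 = z0 := by rw [hf, if_pos rfl]
  have hfl : ∀ l : Fin 12, l ≠ j → f l.1 = H (cls l) := by
    intro l hl
    have h1 := l.2
    have h2 : (l.1 : ℤ) ≠ j.1 := by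
      intro h3
      apply hl
      apply Fin.ext
      exact_mod_cast h3
    rw [hf, if_neg h2]
    by_cases h6 : (l.1 : ℤ) < 6
    · rw [if_pos h6]
      congr 1
      unfold cls
      symm
      rw [decide_eq_false_iff_not]
      omega
    · rw [if_neg h6, if_pos (by omega)]
      congr 1
      unfold cls
      symm
      rw [decide_eq_true_eq]
      omega
  have hQ : Q2 n (glue n f) 0 false := by
    apply Dens_Q
    · intro l
      by_cases hl : l = j
      · rw [hl, hfj]
        exact ⟨τ.2, by rw [hτ, hjc]⟩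
      · rw [hfl l hl]
        exact ⟨_, (hH _).1⟩
    · rw [h12]
      exact ⟨_, (hH _).1⟩
  have hF : ty (n + 1) (glue n f) 0 = some (false, none) := by
    apply hj hn1 hQ
    intro o ho
    rw [zero_add, ty_glue]
    by_cases ho12 : o.1 = 12
    · rw [ho12]
      have e : (((12 : ℕ) : ℕ) : ℤ) = 12 := rfl
      rw [e, h12]
      exact ⟨_, (hH _).1⟩
    · have h1 := o.2
      have h2 := hfl ⟨o.1, by omega⟩ (by
        intro h3
        apply ho
        apply Fin.ext
        have := congrArg Fin.val h3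
        simpa using this)
      simp only at h2
      rw [h2]
      exact ⟨_, (hH _).1⟩
  obtain ⟨e, he, he2⟩ := Dens_core (m := n + 1) (by omega)
    (Dens_step (κ := false) hF hQ (by rw [h12]; exact hH false))
  refine ⟨n + 1, e, og (n + 1) + j.1 * 13 ^ n + s.length + N, by omega, he, ?_⟩
  intro i hi
  obtain ⟨h1, h2⟩ := abs_le.1 hi
  have hB : (0 : ℤ) < 13 ^ n := by positivity
  have hj1 : ((j.1 : ℤ) + 1) * 13 ^ n ≤ 12 * 13 ^ n :=
    mul_le_mul_of_nonneg_right (by exact_mod_cast j.2) hB.le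
  have hj0 : (0 : ℤ) ≤ (j.1 : ℤ) * 13 ^ n := by positivity
  have hsl' : (s.length : ℤ) + (2 * N + 1) ≤ 13 ^ n := by exact_mod_cast hsl
  have e1 : i + (og (n + 1) + j.1 * 13 ^ n + s.length + N) =
      og (n + 1) + (j.1 * 13 ^ n + (s.length + N + i)) := by ring
  have e2 : (13 : ℤ) ^ (n + 1) = 13 * 13 ^ n := by ring
  rw [e1, he2 _ (by linarith) (by rw [e2]; linarith), glue_apply n f j.1 _ (by linarith)
    (by linarith), hfj]
  exact hz0x i hi

end H35.RS.RF
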