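import Pool.Agent.H35.RF.Exch
import Pool.Agent.H35.RF.Glue
import Pool.Agent.H35.RF.Aper

/-! # W11: `≤` implies comparison of the types -/

namespace H35.RS.RF
open H35.RS H35.RS.Up

theorem ExchD_tys_empty : tys ∅ = none := by
  by_contra h
  obtain ⟨τ, hτ⟩ := Option.ne_none_iff_exists'.1 h
  exact St_ne (tys_some.1 hτ).symm

/-- glue 13 blocks -/
theorem ExchD_block {M : ℕ} (g : Fin 13 → ℤ → Lt) (t : Fin 13 → Ty)
    (hg : ∀ o, ty M (g o) 0 = some (t o)) {b : Lt} (hb : b ∈ Th t) :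
    ∃ B : ℤ → Lt, (∀ o : Fin 13, ∀ e : ℤ, 0 ≤ e → e < 13 ^ M → B (o.1 * 13 ^ M + e) = g o e) ∧
      b ∈ Cst.tp (powF th (M + 1)) (13 ^ (M + 1)) B 0 := by
  obtain ⟨f, hf⟩ : ∃ f : ℤ → ℤ → Lt, ∀ o : Fin 13, f (o.1 : ℤ) = g o := by
    refine ⟨fun i => g ⟨i.toNat % 13, Nat.mod_lt _ (by norm_num)⟩, fun o => ?_⟩
    simp only [Int.toNat_natCast]
    congr 1
    apply Fin.ext
    exact Nat.mod_eq_of_lt o.2
  refine ⟨glue M f, fun o e h0 h1 => ?_, ?_⟩
  · rw [glue_apply M f _ e h0 h1, hf]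
  · have h1 : ∀ o : Fin 13, ty M (glue M f) (0 + o.1 * 13 ^ M) = some (t o) := by
      intro o
      rw [zero_add, ty_glue, hf, hg]
    have h2 := ty_succ h1
    rcases Th_cases t with h3 | ⟨τ, h3⟩
    · rw [h3] at hb
      exact absurd hb (Set.notMem_empty b)
    · have h4 : ty (M + 1) (glue M f) 0 = some τ := by
        rw [h2]
        exact tys_some.2 h3
      rw [ty_some.1 h4, ← h3]
      exact hb

/-- a point of `X` which contains a given block in the same phase as the anchor -/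
theorem ExchD_point {n : ℕ} (hn : 1 ≤ n) (hne : X.Nonempty) {x0A : ℤ → Lt} {r : ℕ}
    (hx0 : x0A ∈ X) (hA : ∀ x ∈ X, ∀ p, Cst.Mk x0A r x p →
      (Cst.Valid (powF th n) (13 ^ n) x p ∧
        ∀ c, Cst.Valid (powF th n) (13 ^ n) x c → ((13 ^ n : ℕ) : ℤ) ∣ c - p))
    (B : ℤ → Lt) {b : Lt} (hb : b ∈ Cst.tp (powF th n) (13 ^ n) B 0) :
    ∃ z ∈ X, ∃ i j : ℤ, (∀ e : ℤ, 0 ≤ e → e < 13 ^ n → z (j * 13 ^ n + e) = B e) ∧
      Cst.Mk x0A r z (i * 13 ^ n) ∧ i * 13 ^ n + r ≤ j * 13 ^ n := by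
  have hL0 : (0 : ℤ) < 13 ^ n := by positivity
  have hL1 : (1 : ℤ) ≤ 13 ^ n := hL0
  have hcast : ((13 ^ n : ℕ) : ℤ) = (13 : ℤ) ^ n := by push_cast; rfl
  -- the anchor is a parsed point
  obtain ⟨⟨y₀, hy₀, hyt₀⟩, -⟩ := hA x0A hx0 0 (fun i _ _ => by rw [zero_add])
  rw [subshift_powF th_random th_primitive hn] at hy₀
  have hlb : Legal th [b] := by
    obtain ⟨x, hx⟩ := hne
    obtain ⟨w, hw⟩ := (th_random (x 0)).1
    have h1 : Legal th [x 0] := by
      have := hx 0 1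
      rwa [wd_one] at this
    have h2 : Legal th w := h1.img th_random (mem_imgW_single.2 hw)
    obtain ⟨w', hw', rfl⟩ := mem_th.1 hw
    obtain ⟨o, ho⟩ := letter_mem (a := b) hw'
    have h3 : b ∈ List.ofFn w' := List.mem_ofFn.2 ⟨o, ho⟩
    obtain ⟨s, t, hst⟩ := List.append_of_mem h3
    exact h2.of_infix ⟨s, t, by rw [hst]; simp⟩
  obtain ⟨yh, hyh, i, j, hi, hj, hij⟩ := exists_two th_random th_primitive hne
    (hy₀ (-(r : ℤ)) (2 * r)) hlb
  rw [wd_length] at hi hij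
  simp only [List.length_singleton] at hj
  rw [wd_one] at hj
  have hjb : yh j = b := by simpa using hj
  have hi' := Cst.wd_eq_iff hi
  push_cast at hi' hij
  -- blocks for all letters
  have hex : ∀ k : ℤ, ∃ g : ℤ → Lt, yh k ∈ Cst.tp (powF th n) (13 ^ n) g 0 := by
    intro k
    obtain ⟨g, hg⟩ := exists_ty hn ((yh k).1, none)
    refine ⟨g, ?_⟩
    rw [ty_some.1 hg]
    exact ⟨rfl, Or.inl rfl⟩
  choose g hg using hex
  obtain ⟨f, hf⟩ : ∃ f : ℤ → ℤ → Lt, f = fun k =>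
    if i ≤ k ∧ k < i + 2 * r then fun e => x0A ((k - i - r) * 13 ^ n + e)
    else if k = j then B else g k := ⟨_, rfl⟩
  have hf1 : ∀ k, i ≤ k → k < i + 2 * r → f k = fun e => x0A ((k - i - r) * 13 ^ n + e) := by
    intro k h1 h2
    rw [hf]
    simp only
    rw [if_pos ⟨h1, h2⟩]
  have hf2 : f j = B := by
    rw [hf]
    simp only
    rw [if_neg (by omega)]
    simp
  have hf3 : ∀ k, ¬ (i ≤ k ∧ k < i + 2 * r) → k ≠ j → f k = g k := by
    intro k h1 h2
    rw [hf]
    simp only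
    rw [if_neg h1, if_neg h2]
  have hV : V n (glue n f) 0 := by
    apply glue_V hn hyh
    intro k
    by_cases hk : i ≤ k ∧ k < i + 2 * r
    · rw [hf1 k hk.1 hk.2]
      have h1 := hyt₀ (k - i - r)
      have h2 := hi' (k - i) (by omega) (by omega)
      rw [show i + (k - i) = k by ring, show -(r : ℤ) + (k - i) = k - i - r by ring] at h2
      rw [h2]
      have h3 : Cst.tp (powF th n) (13 ^ n) (fun e => x0A ((k - i - r) * 13 ^ n + e)) 0 =
          Cst.tp (powF th n) (13 ^ n) x0A (0 + (k - i - r) * ((13 ^ n : ℕ) : ℤ)) := by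
        apply Cst.tp_congr
        intro e _ _
        rw [hcast]
        simp only [zero_add]
      rw [h3]
      exact h1
    · by_cases hk2 : k = j
      · rw [hk2, hf2, hjb]
        exact hb
      · rw [hf3 k hk hk2]
        exact hg k
  refine ⟨glue n f, V_mem hn hV, i + r, j, ?_, ?_, ?_⟩
  · intro e h0 h1
    rw [glue_apply n f j e h0 h1, hf2]
  · intro k hk1 hk2
    set P : ℤ := (i + r) * 13 ^ n + k with hP
    have h1 := Int.emod_nonneg P hL0.ne'
    have h2 := Int.emod_lt_of_pos P hL0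
    have h5 : P / 13 ^ n * 13 ^ n + P % 13 ^ n = P := by
      have := Int.emod_add_mul_ediv P ((13 : ℤ) ^ n)
      linarith
    have hr0 : (0 : ℤ) ≤ r := by positivity
    have h3 : i ≤ P / 13 ^ n := by
      rw [Int.le_ediv_iff_mul_le hL0, hP]
      nlinarith
    have h4 : P / 13 ^ n < i + 2 * r := by
      rw [Int.ediv_lt_iff_lt_mul hL0, hP]
      have h6 : (1 : ℤ) ≤ r := by omega
      nlinarith
    rw [← h5, glue_apply n f _ _ h1 h2, hf1 _ h3 h4]
    simp only
    congr 1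
    have h6 : (P / 13 ^ n - i - r) * 13 ^ n + P % 13 ^ n =
      (P / 13 ^ n * 13 ^ n + P % 13 ^ n) - (i + r) * 13 ^ n := by ring
    rw [h6, h5, hP]
    ring
  · have hr0 : (0 : ℤ) ≤ r := by positivity
    have : (i + 2 * r) * 13 ^ n ≤ j * 13 ^ n := mul_le_mul_of_nonneg_right hij hL0.le
    nlinarith

theorem ExchD_letter {x x' : ℤ → Lt} (hx : x ∈ X) {N₀ : ℕ}
    (hR : ∀ i : ℤ, (N₀ : ℤ) < |i| → x i = x' i)
    (hN : ∀ z ∈ X, (∀ i : ℤ, |i| ≤ N₀ → z i = x i) → sp z x x' ∈ X)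
    {M : ℕ} (hM : 1 ≤ M) {s : ℤ} (hs1 : s ≤ -(N₀ : ℤ)) (hs2 : (N₀ : ℤ) < s + 13 ^ M)
    {κ : Bool} {d : Col} (ha : (κ, some d) ∈ Cst.tp (powF th M) (13 ^ M) x s) :
    (κ, some d) ∈ Cst.tp (powF th M) (13 ^ M) x' s := by
  classical
  have hL0 : (0 : ℤ) < 13 ^ M := by positivity
  have hpow : (13 : ℤ) ^ (M + 1) = 13 * 13 ^ M := by ring
  have hcast : ((13 ^ (M + 1) : ℕ) : ℤ) = (13 : ℤ) ^ (M + 1) := by push_cast; rfl
  have hneX : X.Nonempty := ⟨x, hx⟩
  -- the anchor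
  have hsub := subshift_powF th_random th_primitive (n := M + 1) (by omega)
  obtain ⟨x0A, hx0, r, hA⟩ := Cst.exists_anchor (powF_isRandomSub th_random (M + 1))
    (L := 13 ^ (M + 1)) (Nat.one_le_pow _ _ (by norm_num)) (powF_length th_len (M + 1))
    (exists_unique_phase (powF_isRandomSub th_random (M + 1))
      (powF_primitive th_random th_primitive (by omega)) (powF_length th_len (M + 1))
      (by rw [hsub]; exact hneX) (by rw [hsub]; exact X_aperiodic))
  rw [hsub] at hx0 hA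
  -- the type of the block of `x`
  obtain ⟨τx, hτx⟩ : ∃ τx : Ty, Cst.tp (powF th M) (13 ^ M) x s = St τx := by
    rcases tp_cases hM x s with h | h
    · rw [h] at ha
      exact absurd ha (Set.notMem_empty _)
    · exact h
  -- the word
  obtain ⟨v, hv⟩ := (th_random (κ, none)).1
  obtain ⟨w, hw, -⟩ := mem_th.1 hv
  obtain ⟨l, hl⟩ := letter_mem (a := (κ, some d)) hw
  -- the types
  obtain ⟨t, ht⟩ : ∃ t : Fin 13 → Ty, t = fun o => if o = l then τx else
    if (w o).1 = κ then (κ, some d) else ((w o).1, none) := ⟨_, rfl⟩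
  have htl : t l = τx := by rw [ht]; simp
  have hto : ∀ o, o ≠ l → t o = if (w o).1 = κ then (κ, some d) else ((w o).1, none) := by
    intro o ho
    rw [ht]
    simp only
    rw [if_neg ho]
  have hwt : ∀ o, w o ∈ St (t o) := by
    intro o
    by_cases ho : o = l
    · rw [ho, htl, ← hτx, hl]
      exact ha
    · rw [hto o ho]
      split_ifs with h1
      · refine ⟨h1, Or.inr ?_⟩
        intro h2
        apply ho
        refine letter_once hw (κ := κ) (d := d) ?_ hl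
        exact Prod.ext h1 h2
      · exact ⟨rfl, Or.inl rfl⟩
  have hex : ∀ o : Fin 13, ∃ g : ℤ → Lt, ty M g 0 = some (t o) ∧ (o = l → g = sh s x) := by
    intro o
    by_cases ho : o = l
    · refine ⟨sh s x, ?_, fun _ => rfl⟩
      rw [ho, htl, ty_sh, zero_add, ty_some]
      exact hτx
    · obtain ⟨g, hg⟩ := exists_ty hM (t o)
      exact ⟨g, hg, fun h => absurd h ho⟩
  choose g hg hgl using hex
  obtain ⟨B, hB, hbB⟩ := ExchD_block g t hg (b := (κ, none)) ⟨w, hw, hwt⟩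
  obtain ⟨z, hz, i, j, hzB, hzA, hij⟩ := ExchD_point (n := M + 1) (by omega) hneX hx0 hA B hbB
  -- sub-blocks of `z`
  have hzs : ∀ o : Fin 13, ∀ e : ℤ, 0 ≤ e → e < 13 ^ M →
      z (j * 13 ^ (M + 1) + (o.1 * 13 ^ M + e)) = g o e := by
    intro o e h0 h1
    rw [hzB, hB o e h0 h1]
    · positivity
    · have h2 : (o.1 : ℤ) ≤ 12 := by have := o.2; omega
      have h3 : (o.1 : ℤ) * 13 ^ M ≤ 12 * 13 ^ M := mul_le_mul_of_nonneg_right h2 hL0.le
      rw [hpow]
      linarith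
  -- the shift
  obtain ⟨T, hT⟩ : ∃ T : ℤ, T = j * 13 ^ (M + 1) + l.1 * 13 ^ M - s := ⟨_, rfl⟩
  have hz' : sh T z ∈ X := (X_sh T).2 hz
  have hag : ∀ e : ℤ, 0 ≤ e → e < 13 ^ M → sh T z (s + e) = x (s + e) := by
    intro e h0 h1
    rw [sh_apply]
    have h2 := hzs l e h0 h1
    rw [hgl l rfl, sh_apply] at h2
    rw [show s + e + T = j * 13 ^ (M + 1) + (l.1 * 13 ^ M + e) by rw [hT]; ring, h2]
    congr 1
    ring
  have hsp := hN (sh T z) hz' (by
    intro k hk
    rw [abs_le] at hk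
    have := hag (k - s) (by linarith) (by linarith)
    rwa [show s + (k - s) = k by ring] at this)
  obtain ⟨z2, hz2⟩ : ∃ z2, z2 = sp (sh T z) x x' := ⟨_, rfl⟩
  rw [← hz2] at hsp
  have hin : ∀ e : ℤ, 0 ≤ e → e < 13 ^ M → z2 (s + e) = x' (s + e) := by
    intro e h0 h1
    rw [hz2]
    unfold sp
    by_cases h : x (s + e) = x' (s + e)
    · rw [if_pos h, hag e h0 h1, h]
    · rw [if_neg h]
  have hout : ∀ k : ℤ, (k < s ∨ s + 13 ^ M ≤ k) → z2 k = z (k + T) := by
    intro k hk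
    rw [hz2]
    unfold sp
    rw [if_pos, sh_apply]
    apply hR
    rcases hk with h | h
    · rw [lt_abs]; right; linarith
    · rw [lt_abs]; left; linarith
  -- the anchor in `z2`
  have hMk : Cst.Mk x0A r z2 (i * 13 ^ (M + 1) - T) := by
    intro k hk1 hk2
    rw [hout, ← hzA k hk1 hk2]
    · congr 1
      ring
    · left
      rw [hT]
      have h3 : (0 : ℤ) ≤ l.1 * 13 ^ M := by positivity
      linarith
  obtain ⟨hval, -⟩ := hA z2 hsp _ hMk
  have hV2 : V (M + 1) z2 (i * 13 ^ (M + 1) - T) := hval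
  have hne := V_ty hV2 (j - i) (by omega)
  have hpos : i * 13 ^ (M + 1) - T + (j - i) * 13 ^ (M + 1) = s - l.1 * 13 ^ M := by
    rw [hT]; ring
  rw [hpos] at hne
  -- sub-blocks of `z2`
  have hsub2 : ∀ o : Fin 13, o ≠ l → ty M z2 (s - l.1 * 13 ^ M + o.1 * 13 ^ M) = some (t o) := by
    intro o ho
    rw [← hg o]
    apply ty_congr
    intro e h0 h1
    rw [hout]
    · rw [zero_add, ← hzs o e h0 h1]
      congr 1
      rw [hT]
      ring
    · rcases lt_or_gt_of_ne (fun h => ho (Fin.ext h) : o.1 ≠ l.1) with h | h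
      · left
        have h2 : ((o.1 : ℤ) + 1) * 13 ^ M ≤ l.1 * 13 ^ M :=
          mul_le_mul_of_nonneg_right (by omega) hL0.le
        linarith
      · right
        have h2 : ((l.1 : ℤ) + 1) * 13 ^ M ≤ o.1 * 13 ^ M :=
          mul_le_mul_of_nonneg_right (by omega) hL0.le
        linarith
  have hl2 : ty M z2 (s - l.1 * 13 ^ M + l.1 * 13 ^ M) = ty M x' s := by
    apply ty_congr
    intro e h0 h1
    rw [show s - (l.1 : ℤ) * 13 ^ M + l.1 * 13 ^ M + e = s + e by ring]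
    exact hin e h0 h1
  have hne2 := ty_succ_ne hM hne l
  rw [hl2] at hne2
  obtain ⟨τ', hτ'⟩ := Option.ne_none_iff_exists'.1 hne2
  have hall : ∀ o : Fin 13, ty M z2 (s - l.1 * 13 ^ M + o.1 * 13 ^ M) =
      some (Function.update t l τ' o) := by
    intro o
    by_cases ho : o = l
    · rw [ho, hl2, hτ', Function.update_self]
    · rw [hsub2 o ho, Function.update_of_ne ho]
  rw [ty_succ hall] at hne
  rcases Th_cases (Function.update t l τ') with h3 | ⟨τ'', h3⟩
  · rw [h3, ExchD_tys_empty] at hne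
    exact absurd rfl hne
  · obtain ⟨b', hb'⟩ := Set.nonempty_iff_ne_empty.2 (St_ne (τ := τ''))
    rw [← h3] at hb'
    obtain ⟨w', hw', hwt'⟩ := hb'
    obtain ⟨l', hl'⟩ := letter_mem (a := (κ, some d)) hw'
    have h4 := hwt' l'
    rw [hl'] at h4
    by_cases ho : l' = l
    · rw [ho, Function.update_self] at h4
      rw [ty_some.1 hτ']
      exact h4
    · rw [Function.update_of_ne ho, hto l' ho] at h4
      exfalso
      split_ifs at h4 with h5
      · rcases h4.2 with h6 | h6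
        · simp at h6
        · exact h6 rfl
      · exact h5 h4.1.symm

/-- `hne` is only used to know that `X` is not empty -/
theorem ty_of_Le {x x' : ℤ → Lt} (hx : x ∈ X) (h : Le x x') :
    ∃ N₀ : ℕ, (∀ i : ℤ, (N₀ : ℤ) < |i| → x i = x' i) ∧ ∀ M : ℕ, 1 ≤ M → ∀ s : ℤ, V M x s →
      s ≤ -(N₀ : ℤ) → (N₀ : ℤ) < s + 13 ^ M → tle (ty M x s) (ty M x' s) ∧ V M x' s := by
  obtain ⟨⟨R, hR⟩, N, hN⟩ := h
  have hR' : ∀ i : ℤ, ((max R N : ℕ) : ℤ) < |i| → x i = x' i := fun i hi =>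
    hR i (lt_of_le_of_lt (by push_cast; exact le_max_left _ _) hi)
  refine ⟨max R N, hR', fun M hM s hV hs1 hs2 => ?_⟩
  have hletter : ∀ (κ : Bool) (d : Col), (κ, some d) ∈ Cst.tp (powF th M) (13 ^ M) x s →
      (κ, some d) ∈ Cst.tp (powF th M) (13 ^ M) x' s := fun κ d ha =>
    ExchD_letter hx hR' (fun z hz hzx => hN z hz (fun i hi => hzx i
      (hi.trans (by push_cast; exact le_max_right _ _)))) hM hs1 hs2 ha
  have hne := V_ty hV 0 hM
  rw [zero_mul, add_zero] at hne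
  obtain ⟨⟨κ, τ⟩, hτ⟩ := Option.ne_none_iff_exists'.1 hne
  have htp := ty_some.1 hτ
  have key : ∀ d : Col, some d ≠ τ → (κ, some d) ∈ Cst.tp (powF th M) (13 ^ M) x' s := by
    intro d hd
    apply hletter
    rw [htp]
    exact ⟨rfl, Or.inr hd⟩
  have hd0 : ∃ d : Col, some d ≠ τ := by
    by_cases h0 : some 0 ≠ τ
    · exact ⟨0, h0⟩
    · refine ⟨1, fun h1 => ?_⟩
      push Not at h0
      rw [← h0] at h1
      simp at h1
  obtain ⟨d0, hd0⟩ := hd0
  have htle : tle (ty M x s) (ty M x' s) := by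
    rw [hτ]
    rcases tp_cases hM x' s with h1 | ⟨⟨κ', τ'⟩, h1⟩
    · have := key d0 hd0
      rw [h1] at this
      exact absurd this (Set.notMem_empty _)
    · rw [h1] at key
      have hκ : κ = κ' := (key d0 hd0).1
      subst hκ
      rw [ty_some.2 h1]
      cases τ' with
      | none => exact Or.inr (Or.inr ⟨κ, τ, rfl, rfl⟩)
      | some d' =>
        right; left
        by_contra hcon
        have h2 : some d' ≠ τ := fun h => hcon (by rw [h])
        rcases (key d' h2).2 with h3 | h3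
        · simp at h3
        · exact h3 rfl
  refine ⟨htle, V_mono hM hV (fun i => ?_)⟩
  by_cases hi : i = 0
  · rw [hi, zero_mul, add_zero]
    exact htle
  · have hL0 : (0 : ℤ) < 13 ^ M := by positivity
    have : ty M x (s + i * 13 ^ M) = ty M x' (s + i * 13 ^ M) := by
      apply ty_congr
      intro k hk1 hk2
      apply hR'
      rcases lt_or_gt_of_ne hi with h1 | h1
      · have h2 : (i + 1) * 13 ^ M ≤ 0 * 13 ^ M := mul_le_mul_of_nonneg_right (by omega) hL0.le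
        rw [lt_abs]; right; linarith
      · have h2 : 1 * 13 ^ M ≤ i * 13 ^ M := mul_le_mul_of_nonneg_right (by omega) hL0.le
        rw [lt_abs]; left; linarith
    rw [this]
    exact tle_refl _

end H35.RS.RF
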