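import Pool.Agent.H35.RF.Glue
import Pool.Agent.H35.RF.Bg

/-! # W25: `th` is not recognisable -/

namespace H35.RS.RF
open H35.RS H35.RS.Up

/-- two words of all `ϑ(c, S)` with the same classes -/
def nrw (b : Bool) (c : Bool) : Fin 13 → Lt := W 0 c 0 (some (if b then 0 else 1))

theorem nrw_mem (b c : Bool) (S : Option Col) : nrw b c ∈ ths (c, S) := by
  refine mem_ths.2 (Or.inl (mem_Vs.2 (Or.inl ⟨_, rfl⟩)))

theorem nrw_class : ∀ c : Bool, ∀ o : Fin 13, (nrw true c o).1 = (nrw false c o).1 := by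
  decide +kernel

theorem nrw_ne : ∀ c : Bool, ∃ o : Fin 13, nrw true c o ≠ nrw false c o := by
  decide +kernel

/-- the word `nrw (b i) (κ i)` as a sequence -/
def nrf (κ b : ℤ → Bool) (i : ℤ) (p : ℤ) : Lt := nrw (b i) (κ i) ⟨(p % 13).toNat, by omega⟩

/-- the sequence made of the words `nrw (b i) (κ i)` -/
def nrx (κ b : ℤ → Bool) : ℤ → Lt := glue 1 (nrf κ b)

theorem nrx_apply (κ b : ℤ → Bool) (i : ℤ) (o : Fin 13) :
    nrx κ b (i * 13 + o.1) = nrw (b i) (κ i) o := by
  have h := glue_apply 1 (nrf κ b) i (o.1 : ℤ) (by omega) (by have := o.2; norm_num)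
  rw [pow_one] at h
  unfold nrx
  rw [h]
  unfold nrf
  congr 1
  apply Fin.ext
  have := o.2
  simp only
  omega

theorem nrx_wd (κ b : ℤ → Bool) (i : ℤ) :
    wd (nrx κ b) (i * 13) 13 = List.ofFn (nrw (b i) (κ i)) := by
  apply List.ext_getElem
  · simp [wd_length]
  · intro k h1 h2
    rw [B2.wd_getElem, List.getElem_ofFn]
    have hk : k < 13 := by simpa [wd_length] using h1
    exact nrx_apply κ b i ⟨k, hk⟩

theorem nrx_mem {y : ℤ → Lt} (hy : y ∈ X) (b : ℤ → Bool) : nrx (fun i => (y i).1) b ∈ X := by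
  have h : V 1 (nrx (fun i => (y i).1) b) 0 := by
    apply glue_V le_rfl hy
    intro i
    rw [Cst.mem_tp, powF_one]
    have e : wd (nrf (fun i => (y i).1) b i) 0 (13 ^ 1) = List.ofFn (nrw (b i) (y i).1) := by
      rw [pow_one]
      apply List.ext_getElem
      · simp [wd_length]
      · intro k h1 h2
        rw [B2.wd_getElem, List.getElem_ofFn]
        have hk : k < 13 := by simpa [wd_length] using h1
        unfold nrf
        congr 1
        apply Fin.ext
        simp only
        omega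
    rw [e]
    exact ofFn_mem_th.2 (nrw_mem _ _ _)
  exact V_mem le_rfl h

theorem nrx_desub {y y' : ℤ → Lt} (hy : y ∈ X) (h : ∀ i, (y' i).1 = (y i).1) :
    Desub th (nrx (fun i => (y' i).1) (fun _ => true)) y 0 := by
  refine ⟨hy, ⟨List.ofFn (nrw true (y 0).1), ofFn_mem_th.2 (nrw_mem _ _ _), by simp⟩, ?_⟩
  refine ⟨fun i => List.ofFn (nrw true (y i).1), fun i => i * 13,
    fun i => ofFn_mem_th.2 (nrw_mem _ _ _), by simp, fun i => ?_, fun i => ?_⟩
  · simp only [List.length_ofFn]
    push_cast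
    ring
  · have e : sh (-((0 : ℕ) : ℤ)) (nrx (fun i => (y' i).1) (fun _ => true)) =
        nrx (fun i => (y' i).1) (fun _ => true) := by
      rw [Nat.cast_zero, neg_zero, sh_zero]
    rw [e]
    simp only [List.length_ofFn]
    rw [nrx_wd, h i]

theorem th_not_recognisable : ¬ Recognisable th := by
  intro hr
  -- two points with the same classes
  let y1 := nrx (fun i => (x0 i).1) (fun _ => true)
  let y2 := nrx (fun i => (x0 i).1) (fun i => decide (i ≠ 0))
  have h1 : y1 ∈ X := nrx_mem x0_mem _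
  have h2 : y2 ∈ X := nrx_mem x0_mem _
  have hp : ∀ p : ℤ, ∃ (i : ℤ) (o : Fin 13), p = i * 13 + o.1 := by
    intro p
    refine ⟨p / 13, ⟨(p % 13).toNat, by omega⟩, ?_⟩
    simp only
    omega
  have hc : ∀ p : ℤ, (y1 p).1 = (y2 p).1 := by
    intro p
    obtain ⟨i, o, rfl⟩ := hp p
    show (nrx _ _ _).1 = (nrx _ _ _).1
    rw [nrx_apply, nrx_apply]
    by_cases hi : i = 0
    · simp only [hi, ne_eq, not_true_eq_false, decide_false]
      exact nrw_class _ o
    · simp only [ne_eq, hi, not_false_eq_true, decide_true]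
  have hne : y1 ≠ y2 := by
    intro he
    obtain ⟨o, ho⟩ := nrw_ne (x0 0).1
    apply ho
    have h3 := congrFun he (0 * 13 + o.1)
    change nrx _ _ _ = nrx _ _ _ at h3
    rw [nrx_apply, nrx_apply] at h3
    simpa using h3
  have d1 := nrx_desub h1 (y' := y1) (fun _ => rfl)
  have d2 := nrx_desub h2 (y' := y1) hc
  obtain ⟨q, -, hq⟩ := hr _ (nrx_mem h1 (fun _ => true))
  have e1 := hq (y1, 0) d1
  have e2 := hq (y2, 0) d2
  exact hne (congrArg Prod.fst (e1.trans e2.symm))

end H35.RS.RF
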