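import Pool.Agent.H35.RF.Pl
import Pool.Agent.H35.RF.Forget
import Pool.Agent.H35.RF.Exch
import Pool.Agent.H35.RF.Bg

/-! # W22: recurrent points with trivial exchange class are rigid -/

namespace H35.RS.RF
open H35.RS H35.RS.Up

/-- if the change is inside one block of the phase `c` and does not change its type, then all
types are equal -/
theorem T2_same {m : ℕ} {x x' : ℤ → Lt} {s c : ℤ} (hc : (13 : ℤ) ^ m ∣ s - c)
    (hx : ∀ p : ℤ, p < s ∨ s + 13 ^ m ≤ p → x' p = x p) (hs : ty m x' s = ty m x s) (i : ℤ) :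
    ty m x (c + i * 13 ^ m) = ty m x' (c + i * 13 ^ m) := by
  obtain ⟨q, hq⟩ := hc
  by_cases hi : i = q
  · have : c + i * 13 ^ m = s := by rw [hi]; linarith
    rw [this, hs]
  · apply ty_congr
    intro k hk hk'
    symm
    apply hx
    have hpos : (0 : ℤ) < 13 ^ m := by positivity
    rcases lt_or_gt_of_ne hi with h | h
    · left
      nlinarith
    · right
      nlinarith

/-- the phase in which the changed block is at the forgotten coordinate -/
theorem T2_forget {i : ℕ} (hi : 1 ≤ i) {x x' : ℤ → Lt} {t c : ℤ} {κ : Bool} {τ : Option Col}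
    (ht : ty i x t = some (false, τ)) (ht' : ty i x' t = some (false, none))
    (hx : ∀ p : ℤ, p < t ∨ t + 13 ^ i ≤ p → x' p = x p)
    (hc : (13 : ℤ) ^ (i + 1) ∣ (t - 13 ^ i) - c) (hQ : Q2 i x (t - 13 ^ i) κ)
    (hne : ty (i + 1) x (t - 13 ^ i) ≠ none) (k : ℤ) :
    ty (i + 1) x (c + k * 13 ^ (i + 1)) = ty (i + 1) x' (c + k * 13 ^ (i + 1)) := by
  have hpos : (0 : ℤ) < 13 ^ i := by positivity
  apply T2_same hc
  · intro p hp
    apply hx
    rw [pow_succ] at hp
    rcases hp with hp | hp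
    · left; linarith
    · right; linarith
  · apply forget_F hi hQ hne
    · intro o ho
      apply ty_congr
      intro k hk hk'
      apply hx
      have ho' : o.1 ≠ 1 := fun h => ho (Fin.ext h)
      rcases lt_or_gt_of_ne ho' with h | h
      · left
        have h0 : o.1 = 0 := by omega
        rw [h0]
        push_cast
        linarith
      · right
        have h0 : (2 : ℤ) ≤ (o.1 : ℤ) := by exact_mod_cast h
        nlinarith
    · rw [sub_add_cancel]; exact ht
    · rw [sub_add_cancel]; exact ht'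

theorem T2_pow {i : ℕ} (hi : 1 ≤ i) : (13 : ℤ) ≤ 13 ^ i := by
  calc (13 : ℤ) = 13 ^ 1 := by norm_num
    _ ≤ 13 ^ i := pow_le_pow_right₀ (by norm_num) hi

/-- the changed block of level 1 is inside the members of the chain -/
theorem T2_in {i n : ℕ} (hi : 1 ≤ i) {x x' : ℤ → Lt} {s : ℤ}
    (hx : ∀ p : ℤ, p < s - og n + og 1 ∨ s - og n + og 1 + 13 ≤ p → x' p = x p) :
    ∀ p : ℤ, p < s - og n + og i ∨ s - og n + og i + 13 ^ i ≤ p → x' p = x p := by
  intro p hp
  apply hx
  have h1 := og_eq 1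
  have h2 := og_eq i
  have h3 := T2_pow hi
  rw [pow_one] at h1
  rcases hp with hp | hp
  · left; linarith
  · right; linarith

theorem T2_og {i n : ℕ} (h : i ≤ n) : (13 : ℤ) ^ i ∣ og n - og i := by
  induction n, h using Nat.le_induction with
  | base => simp
  | succ n hn ih =>
    have h1 : og (n + 1) - og i = (og n - og i) - 2 * 13 ^ n := by
      rw [og]; ring
    rw [h1]
    exact dvd_sub ih (Dvd.dvd.mul_left (pow_dvd_pow _ hn) _)

/-- the changed point -/
theorem T2_change {n : ℕ} (hn : 1 ≤ n) {z : ℤ → Lt} {t : ℤ} {a : Col} (ha : a < 2)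
    (h : ty n z t = some (false, some a)) : ∃ z' : ℤ → Lt, z' ≠ z ∧
      (∀ p : ℤ, p < t - og n + og 1 ∨ t - og n + og 1 + 13 ≤ p → z' p = z p) ∧
      ∀ i : ℕ, 1 ≤ i → i ≤ n → ty i z' (t - og n + og i) = some (false, none) := by
  obtain ⟨w, hw⟩ := ty_one_word (false, none)
  set K := t - og n + og 1 with hK
  let z' : ℤ → Lt := fun p => if h : K ≤ p ∧ p < K + 13 then w ⟨(p - K).toNat, by omega⟩ else z p
  have hz1 : ∀ p : ℤ, p < K ∨ K + 13 ≤ p → z' p = z p := by
    intro p hp
    have : ¬ (K ≤ p ∧ p < K + 13) := by omega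
    simp only [z', dif_neg this]
  have hz2 : ty 1 z' K = some (false, none) := by
    apply hw
    intro o
    have : K ≤ K + (o.1 : ℤ) ∧ K + (o.1 : ℤ) < K + 13 := by
      have := o.2
      omega
    simp only [z', dif_pos this]
    congr 1
    apply Fin.ext
    simp
  refine ⟨z', ?_, hz1, chain_bump ha h hn hz1 hz2⟩
  intro he
  obtain ⟨b, -, hb⟩ := chain_rigid ha h 1 le_rfl hn
  rw [← hK, ← he, hz2] at hb
  simp at hb

theorem T2_FD {z z' : ℤ → Lt} {K L : ℤ} (h : ∀ p : ℤ, p < K ∨ L ≤ p → z' p = z p) : FD z z' := by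
  refine ⟨(|K| + |L|).toNat, fun i hi => (h i ?_).symm⟩
  rw [Int.toNat_of_nonneg (by positivity)] at hi
  have h1 := abs_nonneg K
  have h2 := abs_nonneg L
  have h3 := neg_abs_le K
  have h4 := le_abs_self L
  rcases le_or_gt 0 i with h0 | h0
  · rw [abs_of_nonneg h0] at hi
    right; linarith
  · rw [abs_of_neg h0] at hi
    left; linarith

/-- the class is trivial: no change with the same types -/
theorem T2_triv {z z' : ℤ → Lt} (hr : Rec z) (ht : ∀ x : ℤ → Lt, Le z x → Le x z → x = z)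
    (hfd : FD z z') {M : ℕ} (hM : 1 ≤ M)
    (h : ∀ c, V M z c → ∀ i : ℤ, ty M z (c + i * 13 ^ M) = ty M z' (c + i * 13 ^ M)) : z' = z := by
  apply ht
  · apply Le_of_ty hM hfd
    intro c hc i
    rw [h c hc i]
    exact tle_refl _
  · apply Le_of_ty hM (FD_symm hfd)
    intro c hc i
    rw [h c (V_rec hr hfd hc) i]
    exact tle_refl _

theorem T2_base {z : ℤ → Lt} (hz : z ∈ X) (hr : Rec z)
    (ht : ∀ x : ℤ → Lt, Le z x → Le x z → x = z) : ∃ c, Rg 1 z c ∧
      ∀ M : ℕ, 1 ≤ M → ∃ c', (13 : ℤ) ^ 1 ∣ c' - c ∧ V M z c' := by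
  obtain ⟨c, hc⟩ := V_exists hz le_rfl
  refine ⟨c, ?_, ?_⟩
  · intro i
    set s := c + i * 13 ^ 1 with hs
    have hne := V_ty hc i le_rfl
    rw [← hs] at hne
    obtain ⟨τ, hτ⟩ := Option.ne_none_iff_exists'.1 hne
    by_contra hcon
    push Not at hcon
    have h1 : ∀ a : Col, a < 2 → τ.2 ≠ some a := by
      intro a ha h
      apply hcon τ.1 a ha
      rw [hτ, ← h]
    obtain ⟨w, ⟨o, ho⟩, hw⟩ := ty_one_twin hτ h1
    let z' : ℤ → Lt := fun p => if h : s ≤ p ∧ p < s + 13 then w ⟨(p - s).toNat, by omega⟩ else z p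
    have hz1 : ∀ p : ℤ, p < s ∨ s + 13 ≤ p → z' p = z p := by
      intro p hp
      have : ¬ (s ≤ p ∧ p < s + 13) := by omega
      simp only [z', dif_neg this]
    have hz3 : ∀ o : Fin 13, z' (s + o.1) = w o := by
      intro o
      have : s ≤ s + (o.1 : ℤ) ∧ s + (o.1 : ℤ) < s + 13 := by
        have := o.2
        omega
      simp only [z', dif_pos this]
      congr 1
      apply Fin.ext
      simp
    have hz2 : ty 1 z' s = some τ := hw z' hz3
    have hez : z' = z := by
      apply T2_triv hr ht (T2_FD hz1) le_rfl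
      intro c' hc' j
      apply T2_same (s := s) _ _ (by rw [hz2, hτ])
      · have := V_one hc' hc
        rw [pow_one, hs, pow_one]
        have h3 : c + i * 13 - c' = (c - c') + i * 13 := by ring
        rw [h3]
        exact dvd_add this (dvd_mul_left _ _)
      · rw [pow_one]
        exact hz1
    apply ho
    rw [← hz3, hez]
  · intro M hM
    obtain ⟨c', hc'⟩ := V_exists hz hM
    refine ⟨c', ?_, hc'⟩
    rw [pow_one]
    exact V_one hc (V_down le_rfl hM hc')

/-- stabilisation of the residues -/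
theorem T2_stab {z : ℤ → Lt} {n : ℕ} (hn : 1 ≤ n) (c : ℤ) : ∃ M₁ : ℕ, n + 1 ≤ M₁ ∧
    ∀ c' : ℤ, V M₁ z c' → (13 : ℤ) ^ n ∣ c' - c →
      ∀ M : ℕ, n + 1 ≤ M → ∃ c'', (13 : ℤ) ^ (n + 1) ∣ c'' - c' ∧ V M z c'' := by
  have h1 : ∀ e : Fin 13, ∃ Me : ℕ, n + 1 ≤ Me ∧
      ((∃ c', (13 : ℤ) ^ (n + 1) ∣ c' - (c + e.1 * 13 ^ n) ∧ V Me z c') →
        ∀ M : ℕ, n + 1 ≤ M → ∃ c'', (13 : ℤ) ^ (n + 1) ∣ c'' - (c + e.1 * 13 ^ n) ∧ V M z c'') := by
    intro e
    by_cases h : ∀ M : ℕ, n + 1 ≤ M →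
        ∃ c'', (13 : ℤ) ^ (n + 1) ∣ c'' - (c + e.1 * 13 ^ n) ∧ V M z c''
    · exact ⟨n + 1, le_rfl, fun _ => h⟩
    · push Not at h
      obtain ⟨M, hM, h⟩ := h
      refine ⟨M, hM, ?_⟩
      rintro ⟨c', h2, h3⟩
      exact absurd h3 (h c' h2)
  choose f hf1 hf2 using h1
  refine ⟨Finset.univ.sup f, ?_, ?_⟩
  · exact (hf1 0).trans (Finset.le_sup (Finset.mem_univ 0))
  · intro c' hc' hd M hM
    obtain ⟨q, hq⟩ := hd
    have hlt : (q % 13).toNat < 13 := by omega
    have he : ((⟨(q % 13).toNat, hlt⟩ : Fin 13).1 : ℤ) = q % 13 := by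
      simp only
      rw [Int.toNat_of_nonneg (by omega)]
    have hd1 : (13 : ℤ) ^ (n + 1) ∣ c' - (c + ((⟨(q % 13).toNat, hlt⟩ : Fin 13).1 : ℤ) * 13 ^ n) := by
      rw [he]
      refine ⟨q / 13, ?_⟩
      have h5 := Int.emod_add_mul_ediv q 13
      have h6 : c' = c + 13 ^ n * q := by linarith
      rw [h6]
      nth_rewrite 1 [← h5]
      ring
    have h3 := hf2 ⟨(q % 13).toNat, hlt⟩ ⟨c', hd1,
      V_down (by have := hf1 ⟨(q % 13).toNat, hlt⟩; omega) (Finset.le_sup (Finset.mem_univ _)) hc'⟩ M hM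
    obtain ⟨c'', h4, h5⟩ := h3
    refine ⟨c'', ?_, h5⟩
    have := dvd_sub h4 hd1
    have h6 : c'' - (c + ((⟨(q % 13).toNat, hlt⟩ : Fin 13).1 : ℤ) * 13 ^ n) -
        (c' - (c + ((⟨(q % 13).toNat, hlt⟩ : Fin 13).1 : ℤ) * 13 ^ n)) = c'' - c' := by ring
    rwa [h6] at this

/-- first level at which two phases differ -/
theorem T2_first {n : ℕ} {d : ℤ} (h1 : (13 : ℤ) ^ 1 ∣ d) (h : ¬ (13 : ℤ) ^ n ∣ d) :
    ∃ i : ℕ, 1 ≤ i ∧ i + 1 ≤ n ∧ (13 : ℤ) ^ i ∣ d ∧ ¬ (13 : ℤ) ^ (i + 1) ∣ d := by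
  induction n with
  | zero => simp at h
  | succ n ih =>
    by_cases h2 : (13 : ℤ) ^ n ∣ d
    · refine ⟨n, ?_, le_rfl, h2, h⟩
      rcases Nat.eq_zero_or_pos n with h0 | h0
      · subst h0
        exact absurd h1 h
      · exact h0
    · obtain ⟨i, h3, h4, h5, h6⟩ := ih h2
      exact ⟨i, h3, by omega, h5, h6⟩

theorem T2_step {z : ℤ → Lt} (hr : Rec z)
    (ht : ∀ x : ℤ → Lt, Le z x → Le x z → x = z) {n : ℕ} (hn : 1 ≤ n) {c : ℤ} (hRg : Rg n z c)
    (hc : ∀ M : ℕ, n ≤ M → ∃ c', (13 : ℤ) ^ n ∣ c' - c ∧ V M z c') :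
    ∃ c, Rg (n + 1) z c ∧ ∀ M : ℕ, n + 1 ≤ M → ∃ c', (13 : ℤ) ^ (n + 1) ∣ c' - c ∧ V M z c' := by
  obtain ⟨M₁, hM₁, hst⟩ := T2_stab (z := z) hn c
  by_contra hcon
  -- the eternal phases
  let E : ℤ → Prop := fun c₁ => (13 : ℤ) ^ n ∣ c₁ - c ∧
    ∀ M : ℕ, n + 1 ≤ M → ∃ c'', (13 : ℤ) ^ (n + 1) ∣ c'' - c₁ ∧ V M z c''
  have hE0 : ∃ c₁, E c₁ := by
    obtain ⟨c', h1, h2⟩ := hc M₁ (by omega)
    exact ⟨c', h1, hst c' h2 h1⟩
  have hE1 : ∃ c₁, E c₁ ∧ ∀ c₂, E c₂ → (∀ i : ℤ, ∃ κ, Q1 n z (c₂ + i * 13 ^ (n + 1)) κ) →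
      ∀ i : ℤ, ∃ κ, Q1 n z (c₁ + i * 13 ^ (n + 1)) κ := by
    by_cases h : ∃ c₁, E c₁ ∧ ∀ i : ℤ, ∃ κ, Q1 n z (c₁ + i * 13 ^ (n + 1)) κ
    · obtain ⟨c₁, h1, h2⟩ := h
      exact ⟨c₁, h1, fun _ _ _ => h2⟩
    · obtain ⟨c₁, h1⟩ := hE0
      exact ⟨c₁, h1, fun c₂ h2 h3 => absurd ⟨c₂, h2, h3⟩ h⟩
  obtain ⟨c₁, ⟨hc₁, hE⟩, hch⟩ := hE1
  have hV1 : V (n + 1) z c₁ := by
    obtain ⟨c'', h1, h2⟩ := hE (n + 1) le_rfl
    exact (V_mod h1).2 h2
  have hVc : V n z c := by
    have := V_down hn (Nat.le_succ n) hV1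
    exact (V_mod hc₁).2 this
  have hrig : ∀ s : ℤ, (13 : ℤ) ^ n ∣ s - c → ∃ (κ : Bool) (a : Col), a < 2 ∧
      ty n z s = some (κ, some a) := by
    rintro s ⟨q, hq⟩
    obtain ⟨κ, a, h1, h2⟩ := hRg q
    refine ⟨κ, a, h1, ?_⟩
    have : c + q * 13 ^ n = s := by linarith
    rwa [this] at h2
  have hnr : ¬ Rg (n + 1) z c₁ := fun h => hcon ⟨c₁, h, hE⟩
  unfold Rg at hnr
  push Not at hnr
  obtain ⟨i₀, hi₀⟩ := hnr
  set s := c₁ + i₀ * 13 ^ (n + 1) with hs
  have hne : ty (n + 1) z s ≠ none := V_ty hV1 i₀ (by omega)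
  obtain ⟨⟨κ, τ⟩, hτ⟩ := Option.ne_none_iff_exists'.1 hne
  have hsc : (13 : ℤ) ^ n ∣ s - c := by
    have : s - c = (c₁ - c) + (i₀ * 13) * 13 ^ n := by rw [hs]; ring
    rw [this]
    exact dvd_add hc₁ (dvd_mul_left _ _)
  have hsc1 : (13 : ℤ) ^ (n + 1) ∣ s - c₁ := ⟨i₀, by rw [hs]; ring⟩
  have hpos : (0 : ℤ) < 13 ^ n := by positivity
  -- the place of the change
  have hplace : ∃ (t : ℤ) (a : Col), a < 2 ∧ ty n z t = some (false, some a) ∧
      (13 : ℤ) ^ n ∣ t - c ∧ ((∃ κ, Q1 n z s κ) ∧ t = s + 2 * 13 ^ n ∨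
        (∃ κ, Q2 n z s κ) ∧ t = s + 13 ^ n) := by
    rcases ty_pat hn hτ with hQ | hQ
    · have hd : (13 : ℤ) ^ n ∣ s + 2 * 13 ^ n - c := by
        have : s + 2 * 13 ^ n - c = (s - c) + 2 * 13 ^ n := by ring
        rw [this]
        exact dvd_add hsc (dvd_mul_left _ _)
      obtain ⟨κ', a, h1, h2⟩ := hrig _ hd
      obtain ⟨τ', h3⟩ := hQ.2 1
      have h4 : s + (((1 : Fin 12).1 : ℕ) + 1 : ℤ) * 13 ^ n = s + 2 * 13 ^ n := by
        norm_num
      rw [h4, h2] at h3
      have h5 : κ' = false := by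
        have := congrArg (fun t => t.map Prod.fst) h3
        simp only [Option.map_some, Option.some.injEq] at this
        rw [this]
        rfl
      subst h5
      exact ⟨_, a, h1, h2, hd, Or.inl ⟨⟨_, hQ⟩, rfl⟩⟩
    · have hd : (13 : ℤ) ^ n ∣ s + 13 ^ n - c := by
        have : s + 13 ^ n - c = (s - c) + 13 ^ n := by ring
        rw [this]
        exact dvd_add hsc (dvd_refl _)
      obtain ⟨κ', a, h1, h2⟩ := hrig _ hd
      obtain ⟨τ', h3⟩ := hQ.1 1
      have h4 : s + ((1 : Fin 12).1 : ℕ) * 13 ^ n = s + 13 ^ n := by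
        norm_num
      rw [h4, h2] at h3
      have h5 : κ' = false := by
        have := congrArg (fun t => t.map Prod.fst) h3
        simp only [Option.map_some, Option.some.injEq] at this
        rw [this]
        rfl
      subst h5
      exact ⟨_, a, h1, h2, hd, Or.inr ⟨⟨_, hQ⟩, rfl⟩⟩
  obtain ⟨t, a, ha, hta, htc, hts⟩ := hplace
  obtain ⟨z', hzne, hzx, hzF⟩ := T2_change hn ha hta
  have hchr := chain_rigid ha hta
  apply hzne
  apply T2_triv hr ht (T2_FD hzx) (M := M₁) (by omega)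
  intro c' hc'
  -- enough: some level
  have key : ∃ m : ℕ, 1 ≤ m ∧ m ≤ M₁ ∧
      ∀ k : ℤ, ty m z (c' + k * 13 ^ m) = ty m z' (c' + k * 13 ^ m) := by
    by_cases hα : (13 : ℤ) ^ (n + 1) ∣ c' - c₁
    · -- phase c₁
      refine ⟨n + 1, by omega, hM₁, ?_⟩
      have hsc' : (13 : ℤ) ^ (n + 1) ∣ s - c' := by
        have : s - c' = (s - c₁) - (c' - c₁) := by ring
        rw [this]
        exact dvd_sub hsc1 hα
      have htx := T2_in (i := n) hn hzx
      rw [sub_add_cancel] at htx
      have hztF := hzF n hn le_rfl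
      rw [sub_add_cancel] at hztF
      apply T2_same hsc'
      · intro p hp
        apply htx
        rw [pow_succ] at hp
        rcases hts with ⟨-, h⟩ | ⟨-, h⟩
        · rw [h]
          rcases hp with hp | hp
          · left; linarith
          · right; linarith
        · rw [h]
          rcases hp with hp | hp
          · left; linarith
          · right; linarith
      · rcases hts with ⟨⟨κ', hQ⟩, h⟩ | ⟨⟨κ', hQ⟩, h⟩
        · -- pattern P1
          have hF := rigid_or_F hn hQ hne (fun o => hrig _ (by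
            have : s + o.1 * 13 ^ n - c = (s - c) + o.1 * 13 ^ n := by ring
            rw [this]
            exact dvd_add hsc (dvd_mul_left _ _)))
          rcases hF with ⟨b, hb, hb'⟩ | hF
          · exact absurd hb' (hi₀ κ' b hb)
          · have hm : tle (ty (n + 1) z s) (ty (n + 1) z' s) := by
              apply ty_mono hn
              intro o
              by_cases ho : o = 2
              · subst ho
                have h4 : s + (((2 : Fin 13).1 : ℕ) : ℤ) * 13 ^ n = t := by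
                  rw [h]
                  norm_num
                rw [h4, hta, hztF]
                exact Or.inr (Or.inr ⟨false, some a, rfl, rfl⟩)
              · have he : ty n z (s + o.1 * 13 ^ n) = ty n z' (s + o.1 * 13 ^ n) := by
                  apply ty_congr
                  intro k hk hk'
                  symm
                  apply htx
                  rw [h]
                  have ho' : o.1 ≠ 2 := fun h => ho (Fin.ext h)
                  rcases lt_or_gt_of_ne ho' with h | h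
                  · left
                    have h0 : (o.1 : ℤ) + 1 ≤ 2 := by exact_mod_cast h
                    nlinarith
                  · right
                    have h0 : (3 : ℤ) ≤ (o.1 : ℤ) := by exact_mod_cast h
                    nlinarith
                rw [he]
                exact tle_refl _
            rw [hF] at hm ⊢
            rcases hm with hm | hm | ⟨κ₁, τ₁, hm1, hm2⟩
            · simp at hm
            · exact hm.symm
            · rw [hm2]
              simp only [Option.some.injEq, Prod.mk.injEq] at hm1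
              rw [hm1.1]
        · -- pattern P2
          apply forget_F hn hQ hne (τ := some a)
          · intro o ho
            apply ty_congr
            intro k hk hk'
            apply htx
            rw [h]
            have ho' : o.1 ≠ 1 := fun h => ho (Fin.ext h)
            rcases lt_or_gt_of_ne ho' with h | h
            · left
              have h0 : o.1 = 0 := by omega
              rw [h0]
              push_cast
              linarith
            · right
              have h0 : (2 : ℤ) ≤ (o.1 : ℤ) := by exact_mod_cast h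
              nlinarith
          · rw [← h]; exact hta
          · rw [← h]; exact hztF
    · by_cases hβ : (13 : ℤ) ^ n ∣ c' - c
      · -- phase c' = c₁ + 13 ^ n
        have hE' : E c' := ⟨hβ, hst c' hc' hβ⟩
        have hVc' : V (n + 1) z c' := V_down (by omega) hM₁ hc'
        have hd : (13 : ℤ) ^ n ∣ c' - c₁ := by
          have : c' - c₁ = (c' - c) - (c₁ - c) := by ring
          rw [this]
          exact dvd_sub hβ hc₁
        rcases two_phases hn hd (fun i => V_ty hV1 i (by omega)) (fun i => V_ty hVc' i (by omega)) hα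
          with ⟨hd1, hQ1, hQ2⟩ | ⟨hd1, hQ1, hQ2⟩
        · refine ⟨n + 1, by omega, hM₁, ?_⟩
          have htx := T2_in (i := n) hn hzx
          rw [sub_add_cancel] at htx
          have hztF := hzF n hn le_rfl
          rw [sub_add_cancel] at hztF
          obtain ⟨κ₀, hQs⟩ := hQ1 i₀
          rw [← hs] at hQs
          have hts' : t = s + 2 * 13 ^ n := by
            rcases hts with ⟨-, h⟩ | ⟨⟨κ', hQ⟩, h⟩
            · exact h
            · exact absurd hQ (fun hQ => Q_excl hQs hQ)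
          have hdt : (13 : ℤ) ^ (n + 1) ∣ (t - 13 ^ n) - c' := by
            have : (t - 13 ^ n) - c' = (s - c₁) - (c' - c₁ - 13 ^ n) := by rw [hts']; ring
            rw [this]
            exact dvd_sub hsc1 hd1
          obtain ⟨q, hq⟩ := hdt
          have hpq : t - 13 ^ n = c' + q * 13 ^ (n + 1) := by linarith
          obtain ⟨κ₁, hQ⟩ := hQ2 q
          rw [← hpq] at hQ
          have hne' := V_ty hVc' q (by omega)
          rw [← hpq] at hne'
          exact T2_forget hn hta hztF htx ⟨q, hq⟩ hQ hne'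
        · exfalso
          obtain ⟨κ₁, h1⟩ := hch c' hE' hQ1 0
          obtain ⟨κ₂, h2⟩ := hQ2 0
          exact Q_excl h1 h2
      · -- first level at which c' differs from c
        have hV1c' : V 1 z c' := V_down le_rfl (by omega) hc'
        have h13 : (13 : ℤ) ^ 1 ∣ c' - c := by
          rw [pow_one]
          exact V_one (V_down le_rfl hn hVc) hV1c'
        obtain ⟨i, hi1, hin, hd1, hd2⟩ := T2_first h13 hβ
        have hVi : V (i + 1) z c := V_down (by omega) hin hVc
        have hVi' : V (i + 1) z c' := V_down (by omega) (by omega) hc'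
        have hcong : (13 : ℤ) ^ (i + 1) ∣ (t - og n + og (i + 1)) - c := by
          have h1 : (t - og n + og (i + 1)) - c = (t - c) - (og n - og (i + 1)) := by ring
          rw [h1]
          exact dvd_sub ((pow_dvd_pow _ hin).trans htc) (T2_og hin)
        rcases two_phases hi1 hd1 (fun i => V_ty hVi i (by omega)) (fun i => V_ty hVi' i (by omega)) hd2
          with ⟨hd3, hQ1, hQ2⟩ | ⟨hd3, hQ1, hQ2⟩
        · refine ⟨i + 1, by omega, by omega, ?_⟩
          obtain ⟨b, hb, hb'⟩ := hchr i hi1 (by omega)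
          have hogi : t - og n + og (i + 1) = t - og n + og i - 2 * 13 ^ i := by
            rw [og]; ring
          have hdt : (13 : ℤ) ^ (i + 1) ∣ (t - og n + og i - 13 ^ i) - c' := by
            have : (t - og n + og i - 13 ^ i) - c' =
                ((t - og n + og (i + 1)) - c) - (c' - c - 13 ^ i) := by rw [hogi]; ring
            rw [this]
            exact dvd_sub hcong hd3
          obtain ⟨q, hq⟩ := hdt
          have hpq : t - og n + og i - 13 ^ i = c' + q * 13 ^ (i + 1) := by linarith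
          obtain ⟨κ₁, hQ⟩ := hQ2 q
          rw [← hpq] at hQ
          have hne' := V_ty hVi' q (by omega)
          rw [← hpq] at hne'
          exact T2_forget hi1 hb' (hzF i hi1 (by omega)) (T2_in hi1 hzx) ⟨q, hq⟩ hQ hne'
        · exfalso
          obtain ⟨b, hb, hb'⟩ := hchr (i + 1) (by omega) hin
          obtain ⟨hA1, hA2⟩ := (ty_A hi1 hb).1 hb'
          have hQ : Q1 i z (t - og n + og (i + 1)) false :=
            ⟨⟨_, hA1⟩, fun j => ⟨_, hA2 j⟩⟩
          obtain ⟨q, hq⟩ := hcong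
          have hpq : t - og n + og (i + 1) = c + q * 13 ^ (i + 1) := by linarith
          obtain ⟨κ₂, h2⟩ := hQ2 q
          rw [← hpq] at h2
          exact Q_excl hQ h2
  obtain ⟨m, hm1, hm2, hm⟩ := key
  exact ty_up_eq hm1 hm2 (by simp) hm

theorem rigid_of_trivial {z : ℤ → Lt} (hz : z ∈ X) (hr : Rec z)
    (ht : ∀ x : ℤ → Lt, Le z x → Le x z → x = z) : RgAll z := by
  have h : ∀ n : ℕ, 1 ≤ n → ∃ c, Rg n z c ∧
      ∀ M : ℕ, n ≤ M → ∃ c', (13 : ℤ) ^ n ∣ c' - c ∧ V M z c' := by
    intro n hn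
    induction n, hn using Nat.le_induction with
    | base => exact T2_base hz hr ht
    | succ n hn ih =>
      obtain ⟨c, h1, h2⟩ := ih
      exact T2_step hr ht hn h1 h2
  intro n hn
  obtain ⟨c, h1, -⟩ := h n hn
  exact ⟨c, h1⟩

end H35.RS.RF
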