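import Pool.Agent.H35.RF.Pl
import Pool.Agent.H35.RF.Bg

/-! # W23: the points `Y_a`; asymptotic pairs of rigid points -/

namespace H35.RS.RF
open H35.RS H35.RS.Up

/-- the finite set of the background letters -/
def BL (a : Bool × Col) : Prop := a.2 < 2

/-! ### arithmetic of the background -/

theorem yl_ya_zero (a : Bool × Col) : ya a 0 = a := by
  unfold ya; simp

theorem yl_ya_mul (a : Bool × Col) (q : ℤ) : ya a (13 * q) = ya a q := by
  by_cases h : q = 0
  · subst h; simp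
  · conv_lhs => unfold ya
    have h1 : ¬ (13 * q = 0) := by omega
    have h2 : 13 * q % 13 = 0 := by omega
    have h3 : 13 * q / 13 = q := by omega
    rw [if_neg h1, dif_pos h2, h3]

theorem yl_ya_succ (a : Bool × Col) (q : ℤ) (j : Fin 12) : ya a (13 * q + (j.1 + 1)) = (cls j, ut j) := by
  have hj := j.2
  conv_lhs => unfold ya
  have h1 : ¬ (13 * q + ((j.1 : ℤ) + 1) = 0) := by omega
  have h2 : ¬ ((13 * q + ((j.1 : ℤ) + 1)) % 13 = 0) := by omega
  rw [if_neg h1, dif_neg h2]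
  have h3 : (⟨((13 * q + ((j.1 : ℤ) + 1)) % 13).toNat - 1, by omega⟩ : Fin 12) = j := by
    apply Fin.ext
    show ((13 * q + ((j.1 : ℤ) + 1)) % 13).toNat - 1 = j.1
    omega
  rw [h3]

theorem yl_split (m : ℤ) : (∃ q : ℤ, m = 13 * q) ∨ ∃ (q : ℤ) (j : Fin 12), m = 13 * q + (j.1 + 1) := by
  by_cases h : m % 13 = 0
  · exact Or.inl ⟨m / 13, by omega⟩
  · refine Or.inr ⟨m / 13, ⟨(m % 13).toNat - 1, by omega⟩, ?_⟩
    show m = 13 * (m / 13) + ((((m % 13).toNat - 1 : ℕ) : ℤ) + 1)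
    omega

theorem yl_ut_lt (j : Fin 12) : ut j < 2 := by
  unfold ut; split <;> decide

theorem yl_ya_lt {a : Bool × Col} (ha : BL a) (m : ℤ) : BL (ya a m) := by
  suffices h : ∀ (n : ℕ) (m : ℤ), m.natAbs ≤ n → BL (ya a m) from h _ m le_rfl
  intro n
  induction n with
  | zero => intro m hm; have : m = 0 := by omega
            subst this; rw [yl_ya_zero]; exact ha
  | succ n ih =>
    intro m hm
    by_cases h0 : m = 0
    · subst h0; rw [yl_ya_zero]; exact ha
    · rcases yl_split m with ⟨q, rfl⟩ | ⟨q, j, rfl⟩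
      · rw [yl_ya_mul]; exact ih q (by omega)
      · rw [yl_ya_succ]; exact yl_ut_lt j

theorem yl_ya_indep (a a' : Bool × Col) (m : ℤ) (hm : m ≠ 0) : ya a m = ya a' m := by
  suffices h : ∀ (n : ℕ) (m : ℤ), m.natAbs ≤ n → m ≠ 0 → ya a m = ya a' m from h _ m le_rfl hm
  intro n
  induction n with
  | zero => intro m hm hm'; omega
  | succ n ih =>
    intro m hm hm'
    rcases yl_split m with ⟨q, rfl⟩ | ⟨q, j, rfl⟩
    · rw [yl_ya_mul, yl_ya_mul]; exact ih q (by omega) (by omega)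
    · rw [yl_ya_succ, yl_ya_succ]

theorem yl_surj {a : Bool × Col} (ha : BL a) : ∃ j : Fin 12, (cls j, ut j) = a := by
  obtain ⟨κ, d⟩ := a
  have h : (d : Col) < 2 := ha
  clear ha
  revert κ d
  decide

/-- shifts of `b0` towards `ya a` -/
theorem yl_b0_ya {a : Bool × Col} (ha : BL a) (n : ℕ) :
    ∃ k : ℤ, ∀ m : ℤ, -(13 : ℤ) ^ n ≤ m → m < 13 ^ n → b0 (m + k) = ya a m := by
  induction n with
  | zero =>
    obtain ⟨j, hj⟩ := yl_surj ha
    refine ⟨13 * (13 * 0 - 2 + ((j.1 : ℤ) + 1)) - 2, ?_⟩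
    intro m h1 h2
    simp only [pow_zero] at h1 h2
    have : m = -1 ∨ m = 0 := by omega
    rcases this with rfl | rfl
    · have e1 : (-1 : ℤ) + (13 * (13 * 0 - 2 + ((j.1 : ℤ) + 1)) - 2)
          = 13 * ((13 * 0 - 2 + ((j.1 : ℤ) + 1)) - 1) - 2 + (((11 : Fin 12).1 : ℤ) + 1) := by
        show _ = 13 * ((13 * 0 - 2 + ((j.1 : ℤ) + 1)) - 1) - 2 + (((11 : ℕ) : ℤ) + 1)
        push_cast; ring
      rw [e1, b0_succ]
      have e2 : (-1 : ℤ) = 13 * (-1) + (((11 : Fin 12).1 : ℤ) + 1) := by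
        show _ = 13 * (-1) + (((11 : ℕ) : ℤ) + 1)
        norm_num
      rw [e2, yl_ya_succ]
    · have e1 : (0 : ℤ) + (13 * (13 * 0 - 2 + ((j.1 : ℤ) + 1)) - 2)
          = 13 * (13 * 0 - 2 + ((j.1 : ℤ) + 1)) - 2 := by ring
      rw [e1, b0_zero, b0_succ, yl_ya_zero, hj]
  | succ n ih =>
    obtain ⟨k, hk⟩ := ih
    refine ⟨13 * k - 2, ?_⟩
    intro m h1 h2
    rw [pow_succ] at h1 h2
    rcases yl_split m with ⟨q, rfl⟩ | ⟨q, j, rfl⟩
    · have e : 13 * q + (13 * k - 2) = 13 * (q + k) - 2 := by ring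
      rw [e, b0_zero, yl_ya_mul]
      exact hk q (by omega) (by omega)
    · have e : 13 * q + ((j.1 : ℤ) + 1) + (13 * k - 2) = 13 * (q + k) - 2 + (j.1 + 1) := by ring
      rw [e, b0_succ, yl_ya_succ]

/-- shifts of `ya a` towards `b0` -/
theorem yl_ya_b0 (a : Bool × Col) (N : ℕ) :
    ∃ k : ℤ, ∀ m : ℤ, |m| ≤ N → ya a (m + k) = b0 m := by
  induction N using Nat.strong_induction_on with
  | _ N ih =>
    by_cases hN : N = 0
    · subst hN
      refine ⟨2, ?_⟩
      intro m hm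
      have hm' : m = 0 := by
        have := abs_nonneg m
        have h2 : |m| = 0 := le_antisymm (by exact_mod_cast hm) this
        exact abs_eq_zero.1 h2
      subst hm'
      have e : (0 : ℤ) + 2 = 13 * 0 + (((1 : Fin 12).1 : ℤ) + 1) := by
        show _ = 13 * 0 + (((1 : ℕ) : ℤ) + 1)
        norm_num
      rw [e, yl_ya_succ]
      have e2 : (0 : ℤ) = 13 * 0 - 2 + (((1 : Fin 12).1 : ℤ) + 1) := by
        show _ = 13 * 0 - 2 + (((1 : ℕ) : ℤ) + 1)
        norm_num
      conv_rhs => rw [e2]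
      rw [b0_succ]
    · obtain ⟨k, hk⟩ := ih ((N + 2) / 13) (by omega)
      refine ⟨13 * k + 2, ?_⟩
      intro m hm
      have hm1 := (abs_le.1 hm).1
      have hm2 := (abs_le.1 hm).2
      rcases yl_split (m + 2) with ⟨q, hq⟩ | ⟨q, j, hq⟩
      · have e : m + (13 * k + 2) = 13 * (q + k) := by linarith
        have e2 : m = 13 * q - 2 := by linarith
        rw [e, yl_ya_mul]
        conv_rhs => rw [e2]
        rw [b0_zero]
        apply hk
        rw [abs_le]
        constructor <;> omega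
      · have e : m + (13 * k + 2) = 13 * (q + k) + (j.1 + 1) := by linarith
        have e2 : m = 13 * q - 2 + (j.1 + 1) := by linarith
        rw [e, yl_ya_succ]
        conv_rhs => rw [e2]
        rw [b0_succ]

theorem yl_x0_apply (m k : ℤ) (hk : 0 ≤ k) (hk' : k < 13) :
    x0 (13 * m - 2 + k) = rw1 (b0 m) ⟨k.toNat, by omega⟩ := by
  unfold x0
  have h1 : (13 * m - 2 + k + 2) / 13 = m := by omega
  have h2 : (13 * m - 2 + k + 2) % 13 = k := by omega
  simp only [h1, h2]

theorem yl_Ya_apply (a : Bool × Col) (m k : ℤ) (hk : 0 ≤ k) (hk' : k < 13) :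
    Ya a (13 * m + k) = rw1 (ya a m) ⟨k.toNat, by omega⟩ := by
  unfold Ya
  have h1 : (13 * m + k) / 13 = m := by omega
  have h2 : (13 * m + k) % 13 = k := by omega
  simp only [h1, h2]

/-- `Y_a` is a limit of shifts of `x0` -/
theorem Ya_OC {a : Bool × Col} (ha : BL a) (N : ℕ) : ∃ k : ℤ, ∀ i : ℤ, |i| ≤ N → x0 (i + k) = Ya a i := by
  obtain ⟨k, hk⟩ := yl_b0_ya ha N
  refine ⟨13 * k - 2, ?_⟩
  intro i hi
  have hi1 := (abs_le.1 hi).1
  have hi2 := (abs_le.1 hi).2
  have hN : (N : ℤ) < 13 ^ N := by exact_mod_cast Nat.lt_pow_self (by norm_num)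
  have e1 : i + (13 * k - 2) = 13 * (i / 13 + k) - 2 + i % 13 := by omega
  have e2 : i = 13 * (i / 13) + i % 13 := by omega
  rw [e1, yl_x0_apply _ _ (by omega) (by omega)]
  conv_rhs => rw [e2]
  rw [yl_Ya_apply _ _ _ (by omega) (by omega), hk (i / 13) (by omega) (by omega)]

/-- `x0` is a limit of shifts of `Y_a` -/
theorem x0_OC {a : Bool × Col} (ha : BL a) (N : ℕ) : ∃ k : ℤ, ∀ i : ℤ, |i| ≤ N → Ya a (i + k) = x0 i := by
  have _ := ha
  obtain ⟨k, hk⟩ := yl_ya_b0 a (N + 2)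
  refine ⟨13 * k + 2, ?_⟩
  intro i hi
  have hi1 := (abs_le.1 hi).1
  have hi2 := (abs_le.1 hi).2
  have e1 : i + (13 * k + 2) = 13 * ((i + 2) / 13 + k) + (i + 2) % 13 := by omega
  have e2 : i = 13 * ((i + 2) / 13) - 2 + (i + 2) % 13 := by omega
  rw [e1, yl_Ya_apply _ _ _ (by omega) (by omega)]
  conv_rhs => rw [e2]
  rw [yl_x0_apply _ _ (by omega) (by omega), hk ((i + 2) / 13) (by rw [abs_le]; push_cast; constructor <;> omega)]

theorem Ya_mem {a : Bool × Col} (ha : BL a) : Ya a ∈ X := by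
  apply X_closed
  intro N
  obtain ⟨k, hk⟩ := Ya_OC ha N
  exact ⟨sh k x0, (X_sh k).2 x0_mem, hk⟩

theorem Ya_FD (a a' : Bool × Col) : FD (Ya a) (Ya a') := by
  refine ⟨13, ?_⟩
  intro i hi
  have h0 : i / 13 ≠ 0 := by
    intro h
    have h1 : 0 ≤ i := by omega
    rw [abs_of_nonneg h1] at hi
    push_cast at hi
    omega
  have e : i = 13 * (i / 13) + i % 13 := by omega
  rw [e, yl_Ya_apply _ _ _ (by omega) (by omega), yl_Ya_apply _ _ _ (by omega) (by omega),
    yl_ya_indep a a' _ h0]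

theorem Ya_ne : Ya (false, 0) ≠ Ya (false, 1) := by
  intro h
  have h1 := congrFun h (13 * 0 + 0)
  rw [yl_Ya_apply _ _ _ (by omega) (by omega), yl_Ya_apply _ _ _ (by omega) (by omega),
    yl_ya_zero, yl_ya_zero] at h1
  revert h1
  decide

/-! ### rigid points -/

theorem yl_Rg_mod {n : ℕ} {z : ℤ → Lt} {c c' : ℤ} (h : (13 : ℤ) ^ n ∣ c' - c) (hc : Rg n z c) :
    Rg n z c' := by
  obtain ⟨q, hq⟩ := h
  intro i
  have e : c' + i * 13 ^ n = c + (i + q) * 13 ^ n := by linear_combination hq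
  rw [e]
  exact hc _

theorem yl_Rg_down {n : ℕ} (hn : 1 ≤ n) {z : ℤ → Lt} {c : ℤ} (h : Rg (n + 1) z c) : Rg n z c := by
  intro i
  obtain ⟨κ, a, ha, h1⟩ := h (i / 13)
  rw [ty_A hn ha] at h1
  rcases yl_split i with ⟨q, hq⟩ | ⟨q, j, hq⟩
  · have e : i / 13 = q := by omega
    refine ⟨κ, a, ha, ?_⟩
    have := h1.1
    rw [e] at this
    rw [hq, ← this]
    congr 1
    ring
  · have hj := j.2
    have e : i / 13 = q := by omega
    refine ⟨cls j, ut j, yl_ut_lt j, ?_⟩
    have := h1.2 j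
    rw [e] at this
    rw [hq, ← this]
    congr 1
    ring

/-- limits of shifts of a rigid point are rigid -/
theorem RgAll_OC {x z : ℤ → Lt} (hz : RgAll z)
    (h : ∀ N : ℕ, ∃ k : ℤ, ∀ i : ℤ, |i| ≤ N → z (i + k) = x i) : RgAll x := by
  intro n hn
  by_contra hcon
  push Not at hcon
  obtain ⟨cz, hcz⟩ := hz n hn
  -- for every residue a bad block
  have hbad : ∀ c : ℤ, ∃ i : ℤ, ¬ ∃ (κ : Bool) (a : Col), a < 2 ∧ ty n x (c + i * 13 ^ n) = some (κ, some a) := by
    intro c
    have := hcon c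
    unfold Rg at this
    push Not at this
    obtain ⟨i, hi⟩ := this
    exact ⟨i, by push Not; exact hi⟩
  choose f hf using hbad
  have hp : (0 : ℤ) < 13 ^ n := by positivity
  obtain ⟨N, hN⟩ : ∃ N : ℕ, ∀ c ∈ Finset.Ico (0 : ℤ) (13 ^ n), |c + f c * 13 ^ n| + 13 ^ n ≤ N := by
    have hne : (Finset.Ico (0 : ℤ) (13 ^ n)).Nonempty := ⟨0, by simp [hp]⟩
    refine ⟨((Finset.Ico (0 : ℤ) (13 ^ n)).sup' hne (fun c => |c + f c * 13 ^ n| + 13 ^ n)).toNat, ?_⟩
    intro c hc
    have h1 := Finset.le_sup' (fun c => |c + f c * 13 ^ n| + 13 ^ n) hc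
    exact le_trans h1 (Int.self_le_toNat _)
  obtain ⟨k, hk⟩ := h N
  set c := (cz - k) % 13 ^ n with hc
  have hc0 : 0 ≤ c := Int.emod_nonneg _ hp.ne'
  have hc1 : c < 13 ^ n := Int.emod_lt_of_pos _ hp
  apply hf c
  have hNc := hN c (Finset.mem_Ico.2 ⟨hc0, hc1⟩)
  have e : ty n x (c + f c * 13 ^ n) = ty n z (c + f c * 13 ^ n + k) := by
    apply ty_congr
    intro t ht0 ht1
    rw [← hk (c + f c * 13 ^ n + t) ?_]
    · congr 1; ring
    · have h1 := neg_abs_le (c + f c * 13 ^ n)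
      have h2 := le_abs_self (c + f c * 13 ^ n)
      rw [abs_le]
      constructor <;> linarith
  rw [e]
  have e2 : c + f c * 13 ^ n + k = cz + (f c - (cz - k) / 13 ^ n) * 13 ^ n := by
    have := Int.emod_add_mul_ediv (cz - k) (13 ^ n)
    rw [← hc] at this
    linear_combination this
  rw [e2]
  exact hcz _

theorem yl_Rg_Q1 {n : ℕ} (hn : 1 ≤ n) {z : ℤ → Lt} {c : ℤ} (h : Rg (n + 1) z c) (i : ℤ) :
    ∃ κ, Q1 n z (c + i * 13 ^ (n + 1)) κ := by
  obtain ⟨κ, a, ha, h1⟩ := h i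
  rw [ty_A hn ha] at h1
  exact ⟨κ, ⟨_, h1.1⟩, fun j => ⟨_, h1.2 j⟩⟩

/-- the rigid phases of asymptotic points agree -/
theorem yl_phase {n : ℕ} (hn : 1 ≤ n) : ∀ {z z' : ℤ → Lt} {c c' : ℤ}, FD z z' → Rg n z c → Rg n z' c' →
    (13 : ℤ) ^ n ∣ c' - c := by
  induction n, hn using Nat.le_induction with
  | base =>
    intro z z' c c' hfd hc hc'
    obtain ⟨R, hR⟩ := hfd
    by_contra hne
    simp only [pow_one] at hne
    set d := (c' - c) % 13 with hd
    have hd1 : 1 ≤ d := by omega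
    have hd2 : d ≤ 12 := by omega
    -- far block
    obtain ⟨t, ht⟩ : ∃ t : ℤ, (R : ℤ) < c + t * 13 := ⟨|c| + R + 1, by
      have := neg_abs_le c
      nlinarith [abs_nonneg c]⟩
    have h0 : ty 1 z (c + t * 13) ≠ none := by
      obtain ⟨κ, a, -, h1⟩ := hc t
      rw [pow_one] at h1
      rw [h1]; simp
    have h1 : ty 1 z (c + t * 13 + 13) ≠ none := by
      obtain ⟨κ, a, -, h1⟩ := hc (t + 1)
      rw [pow_one] at h1
      have e : c + t * 13 + 13 = c + (t + 1) * 13 := by ring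
      rw [e, h1]; simp
    apply one_local h0 h1 hd1 hd2
    obtain ⟨κ, a, -, h2⟩ := hc' (t - (c' - c) / 13)
    rw [pow_one] at h2
    have e : c + t * 13 + d = c' + (t - (c' - c) / 13) * 13 := by omega
    rw [e]
    have e2 : ty 1 z (c' + (t - (c' - c) / 13) * 13) = ty 1 z' (c' + (t - (c' - c) / 13) * 13) := by
      apply ty_congr
      intro u hu0 hu1
      rw [← e]
      apply hR
      rw [abs_of_nonneg] <;> omega
    rw [e2, h2]; simp
  | succ n hn ih =>
    intro z z' c c' hfd hc hc'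
    have h0 := ih hfd (yl_Rg_down hn hc) (yl_Rg_down hn hc')
    obtain ⟨R, hR⟩ := hfd
    obtain ⟨q, hq⟩ := h0
    have hp : (0 : ℤ) < 13 ^ n := by positivity
    by_cases hdiv : q % 13 = 0
    · refine ⟨q / 13, ?_⟩
      have : q = 13 * (q / 13) := by omega
      rw [hq, pow_succ]
      calc (13 : ℤ) ^ n * q = 13 ^ n * (13 * (q / 13)) := by rw [← this]
        _ = _ := by ring
    · exfalso
      obtain ⟨t, ht⟩ : ∃ t : ℤ, (R : ℤ) < c + t * 13 ^ (n + 1) := ⟨|c| + R + 1, by
        have h1 := neg_abs_le c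
        have h2 : (1 : ℤ) ≤ 13 ^ (n + 1) := one_le_pow₀ (by norm_num)
        nlinarith [abs_nonneg c]⟩
      obtain ⟨κ0, h0⟩ := yl_Rg_Q1 hn hc t
      obtain ⟨κ1, h1⟩ := yl_Rg_Q1 hn hc (t + 1)
      obtain ⟨κ2, h2⟩ := yl_Rg_Q1 hn hc' (t - q / 13)
      have e1 : c + (t + 1) * 13 ^ (n + 1) = c + t * 13 ^ (n + 1) + 13 ^ (n + 1) := by ring
      rw [e1] at h1
      have hq' : q = 13 * (q / 13) + q % 13 := by omega
      have e2 : c' + (t - q / 13) * 13 ^ (n + 1) = c + t * 13 ^ (n + 1) + (q % 13) * 13 ^ n := by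
        have : c' = c + 13 ^ n * q := by linarith
        rw [this, pow_succ]
        have h3 : (13 : ℤ) ^ n * q = 13 ^ n * (13 * (q / 13)) + 13 ^ n * (q % 13) := by
          rw [← mul_add, ← hq']
        linear_combination h3
      rw [e2] at h2
      have h2' : Q1 n z (c + t * 13 ^ (n + 1) + (q % 13) * 13 ^ n) κ2 := by
        have hpos : 0 ≤ (q % 13) * 13 ^ n := by
          apply mul_nonneg (by omega) hp.le
        have key : ∀ s : ℤ, c + t * 13 ^ (n + 1) ≤ s → ty n z s = ty n z' s := by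
          intro s hs
          apply ty_congr
          intro u hu0 hu1
          apply hR
          have h4 := Int.natCast_nonneg R
          rw [abs_of_nonneg (by linarith)]
          linarith
        constructor
        · obtain ⟨τ, hτ⟩ := h2.1
          exact ⟨τ, by rw [key _ (by linarith)]; exact hτ⟩
        · intro j
          obtain ⟨τ, hτ⟩ := h2.2 j
          refine ⟨τ, ?_⟩
          rw [key _ ?_]
          · exact hτ
          · have : 0 ≤ ((j.1 : ℤ) + 1) * 13 ^ n := by positivity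
            linarith
      exact Q1_local h0 h1 (by omega) (by omega) h2'

/-- two different rigid points which differ in finitely many places are shifts of the `Y_a` -/
theorem asymptotic {z z' : ℤ → Lt} (hz : RgAll z) (hz' : RgAll z') (hfd : FD z z') (hne : z ≠ z') :
    ∃ (a : Bool × Col) (k : ℤ), BL a ∧ z = sh k (Ya a) := by
  classical
  obtain ⟨p, hp⟩ : ∃ p, z p ≠ z' p := by
    by_contra h
    push Not at h
    exact hne (funext h)
  -- common phases
  have hph : ∀ n : ℕ, 1 ≤ n → ∃ c, Rg n z c ∧ Rg n z' c := by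
    intro n hn
    obtain ⟨c, hc⟩ := hz n hn
    obtain ⟨c', hc'⟩ := hz' n hn
    refine ⟨c, hc, yl_Rg_mod ?_ hc'⟩
    have := yl_phase hn hfd hc hc'
    rw [← dvd_neg]
    simpa using this
  choose! C hC hC' using hph
  have hCs : ∀ n : ℕ, 1 ≤ n → (13 : ℤ) ^ n ∣ C (n + 1) - C n := by
    intro n hn
    exact yl_phase hn ⟨0, fun _ _ => rfl⟩ (hC n hn) (yl_Rg_down hn (hC (n + 1) (by omega)))
  -- the first position of the level n block which contains p
  set s : ℕ → ℤ := fun n => p - (p - C n) % 13 ^ n with hs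
  have hsp : ∀ n : ℕ, s n ≤ p ∧ p < s n + 13 ^ n := by
    intro n
    have hpn : (0 : ℤ) < 13 ^ n := by positivity
    have h1 := Int.emod_nonneg (p - C n) hpn.ne'
    have h2 := Int.emod_lt_of_pos (p - C n) hpn
    constructor
    · simp only [hs]; linarith
    · simp only [hs]; linarith
  have hsC : ∀ n : ℕ, ∃ i : ℤ, s n = C n + i * 13 ^ n := by
    intro n
    refine ⟨(p - C n) / 13 ^ n, ?_⟩
    have := Int.emod_add_mul_ediv (p - C n) (13 ^ n)
    simp only [hs]
    linear_combination -this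
  have hstep : ∀ n : ℕ, 1 ≤ n → s (n + 1) = s n := by
    intro n hn
    have hpn : (0 : ℤ) < 13 ^ n := by positivity
    obtain ⟨i, hi⟩ := hsC (n + 1)
    obtain ⟨i', hi'⟩ := hsC n
    obtain ⟨q, hq⟩ := hCs n hn
    -- p lies in the sub-block with index o
    set o : ℤ := (p - s (n + 1)) / 13 ^ n with ho
    have ho1 := Int.emod_add_mul_ediv (p - s (n + 1)) (13 ^ n)
    rw [← ho] at ho1
    have h1 := Int.emod_nonneg (p - s (n + 1)) hpn.ne'
    have h2 := Int.emod_lt_of_pos (p - s (n + 1)) hpn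
    have h3 := hsp (n + 1)
    have h3' := h3.2
    rw [pow_succ] at h3'
    have ho0 : 0 ≤ o := Int.ediv_nonneg (by linarith [h3.1]) hpn.le
    have ho13 : o < 13 := by
      by_contra hcon
      push Not at hcon
      have : (13 : ℤ) ^ n * 13 ≤ 13 ^ n * o := by
        apply mul_le_mul_of_nonneg_left hcon hpn.le
      linarith
    -- s n = s (n+1) + o * 13^n
    have hsn : s n = s (n + 1) + o * 13 ^ n := by
      have h4 := hsp n
      have e : s n - (s (n + 1) + o * 13 ^ n) = (i' - q - i * 13 - o) * 13 ^ n := by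
        rw [hi, hi']
        have : C (n + 1) = C n + 13 ^ n * q := by linarith
        rw [this, pow_succ]
        ring
      have h5 : s n - (s (n + 1) + o * 13 ^ n) < 13 ^ n := by linarith [h4.1]
      have h6 : -(13 : ℤ) ^ n < s n - (s (n + 1) + o * 13 ^ n) := by linarith [h4.2]
      rw [e] at h5 h6
      have h7 : i' - q - i * 13 - o < 1 := by
        by_contra hcon
        push Not at hcon
        nlinarith
      have h8 : -1 < i' - q - i * 13 - o := by
        by_contra hcon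
        push Not at hcon
        nlinarith
      have h9 : i' - q - i * 13 - o = 0 := by omega
      rw [h9, zero_mul] at e
      linarith
    by_cases ho' : o = 0
    · rw [hsn, ho']; ring
    · exfalso
      apply hp
      obtain ⟨κ, a, ha, h5⟩ := hC (n + 1) (by omega) i
      obtain ⟨κ', a', ha', h5'⟩ := hC' (n + 1) (by omega) i
      rw [ty_A hn ha] at h5
      rw [ty_A hn ha'] at h5'
      have hoj : ∃ j : Fin 12, o = (j.1 : ℤ) + 1 := ⟨⟨o.toNat - 1, by omega⟩, by
        show o = ((o.toNat - 1 : ℕ) : ℤ) + 1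
        omega⟩
      obtain ⟨j, hj⟩ := hoj
      have h6 := ty_A_uniq hn (yl_ut_lt j) (h5.2 j) (h5'.2 j) (p - s n)
        (by linarith [(hsp n).1]) (by linarith [(hsp n).2])
      have e : C (n + 1) + i * 13 ^ (n + 1) + ((j.1 : ℤ) + 1) * 13 ^ n + (p - s n) = p := by
        rw [← hi, ← hj, hsn]; ring
      rw [e] at h6
      exact h6
  have hs1 : ∀ n : ℕ, 1 ≤ n → s n = s 1 := by
    intro n hn
    induction n, hn using Nat.le_induction with
    | base => rfl
    | succ n hn ih => rw [hstep n hn, ih]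
  have hRg : ∀ n : ℕ, 1 ≤ n → Rg n z (s 1) := by
    intro n hn
    obtain ⟨i, hi⟩ := hsC n
    rw [hs1 n hn] at hi
    apply yl_Rg_mod _ (hC n hn)
    rw [hi]
    exact ⟨i, by ring⟩
  obtain ⟨κ, d, hd, hτ⟩ := hRg 1 le_rfl 0
  rw [zero_mul, add_zero] at hτ
  refine ⟨(κ, d), -s 1, hd, ?_⟩
  have hBL : BL (κ, d) := hd
  -- the type of the central block at all levels
  have h0 : ∀ n : ℕ, 1 ≤ n → ty n z (s 1) = some (κ, some d) := by
    intro n hn
    induction n, hn using Nat.le_induction with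
    | base => exact hτ
    | succ n hn ih =>
      obtain ⟨κ', d', hd', h⟩ := hRg (n + 1) (by omega) 0
      rw [zero_mul, add_zero] at h
      have h' := h
      rw [ty_A hn hd'] at h'
      rw [h'.1] at ih
      rw [h, ih]
  -- all types
  have hall : ∀ (m : ℤ) (n : ℕ), 1 ≤ n →
      ty n z (s 1 + m * 13 ^ n) = some ((ya (κ, d) m).1, some (ya (κ, d) m).2) := by
    suffices h : ∀ (N : ℕ) (m : ℤ), m.natAbs ≤ N → ∀ (n : ℕ), 1 ≤ n →
        ty n z (s 1 + m * 13 ^ n) = some ((ya (κ, d) m).1, some (ya (κ, d) m).2) from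
      fun m => h _ m le_rfl
    intro N
    induction N with
    | zero =>
      intro m hm n hn
      have : m = 0 := by omega
      subst this
      rw [yl_ya_zero, zero_mul, add_zero]
      exact h0 n hn
    | succ N ih =>
      intro m hm n hn
      by_cases hm0 : m = 0
      · subst hm0
        rw [yl_ya_zero, zero_mul, add_zero]
        exact h0 n hn
      · rcases yl_split m with ⟨q, hq⟩ | ⟨q, j, hq⟩
        · have h1 := ih q (by omega) (n + 1) (by omega)
          rw [ty_A hn (yl_ya_lt hBL q)] at h1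
          rw [hq, yl_ya_mul, ← h1.1]
          congr 1
          rw [pow_succ]; ring
        · obtain ⟨κ', d', hd', h⟩ := hRg (n + 1) (by omega) q
          rw [ty_A hn hd'] at h
          rw [hq, yl_ya_succ, ← h.2 j]
          congr 1
          rw [pow_succ]; ring
  funext i
  show z i = Ya (κ, d) (i + -s 1)
  set m := (i - s 1) / 13 with hm
  set r := (i - s 1) % 13 with hr
  have e : i + -s 1 = 13 * m + r := by omega
  rw [e]
  have hY : ty 1 (Ya (κ, d)) (13 * m) = some ((ya (κ, d) m).1, some (ya (κ, d) m).2) := by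
    apply ty_one_rw1 (yl_ya_lt hBL m)
    intro o
    have ho := o.2
    rw [yl_Ya_apply _ _ _ (by omega) (by omega)]
    congr 1
  have hZ := hall m 1 le_rfl
  have h1 := ty_A_uniq le_rfl (yl_ya_lt hBL m) hZ hY r (by omega) (by rw [pow_one]; omega)
  rw [← h1]
  congr 1
  rw [pow_one]
  omega

end H35.RS.RF
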