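import Pool.Agent.H35.RF.Aut
import Pool.Agent.H35.RF.Crit
import Pool.Agent.H35.RF.Chain2
import Pool.Agent.H35.RF.T2
import Pool.Agent.H35.RF.Yl
import Pool.Agent.H35.RF.Dens
import Pool.Agent.H35.RF.NonRec

/-! # W26: assembly -/

namespace H35.RS.RF
open H35.RS H35.RS.Up

variable [TopologicalSpace Lt] [DiscreteTopology Lt]

theorem im_congr (g : autRS th) {x x' : ℤ → Lt} (hx : x ∈ X) (hx' : x' ∈ X) (h : x = x') :
    im g x hx = im g x' hx' := by
  subst h
  rfl

theorem im_inv' (g : autRS th) {x : ℤ → Lt} (hx : x ∈ X) :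
    im g (im g⁻¹ x hx) (im_mem g⁻¹ hx) = x := by
  have h := im_inv g⁻¹ hx
  simp only [inv_inv] at h
  exact h

theorem im_inj (g : autRS th) {x x' : ℤ → Lt} (hx : x ∈ X) (hx' : x' ∈ X)
    (h : im g x hx = im g x' hx') : x = x' := by
  rw [← im_inv g hx, ← im_inv g hx']
  exact im_congr _ _ _ h

/-- the inverse also fixes `x0` -/
theorem fix_inv {g : autRS th} (h : im g x0 x0_mem = x0) : im g⁻¹ x0 x0_mem = x0 := by
  have h1 := im_inv g x0_mem
  rw [im_congr g⁻¹ _ x0_mem h] at h1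
  exact h1

/-- transport of `≤` through `g⁻¹` -/
theorem Le_back (g : autRS th) {x y : ℤ → Lt} (hx : x ∈ X) (hy : y ∈ X)
    (h : Le (im g⁻¹ x hx) y) : Le x (im g y hy) := by
  have h1 := im_Le g (im_mem g⁻¹ hx) hy h
  rwa [im_inv' g hx] at h1

theorem Le_back' (g : autRS th) {x y : ℤ → Lt} (hx : x ∈ X) (hy : y ∈ X)
    (h : Le y (im g⁻¹ x hx)) : Le (im g y hy) x := by
  have h1 := im_Le g hy (im_mem g⁻¹ hx) h
  rwa [im_inv' g hx] at h1

theorem Le_fwd (g : autRS th) {x y : ℤ → Lt} (hx : x ∈ X) (hy : y ∈ X)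
    (h : Le x (im g y hy)) : Le (im g⁻¹ x hx) y := by
  have h1 := im_Le g⁻¹ hx (im_mem g hy) h
  rwa [im_inv g hy] at h1

theorem Le_fwd' (g : autRS th) {x y : ℤ → Lt} (hx : x ∈ X) (hy : y ∈ X)
    (h : Le (im g y hy) x) : Le y (im g⁻¹ x hx) := by
  have h1 := im_Le g⁻¹ (im_mem g hy) hx h
  rwa [im_inv g hy] at h1

/-- automorphisms fixing `x0` preserve the classes of the good points -/
theorem chain {m : ℕ} (hm : 1 ≤ m) : ∀ {e : ℤ → Lt} (he : Good m e) (g : autRS th),
    im g x0 x0_mem = x0 → Le (im g e (he.mem hm)) e ∧ Le e (im g e (he.mem hm)) := by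
  induction m, hm using Nat.le_induction with
  | base =>
    intro e he g hg
    have key : ∀ g : autRS th, im g x0 x0_mem = x0 → Le e (im g e (he.mem le_rfl)) := by
      intro g hg
      refine good_least he ?_ ?_
      · intro h
        apply he.ne le_rfl
        exact im_inj g (he.mem le_rfl) x0_mem (by rw [h, hg])
      · have h1 := im_Le g x0_mem (he.mem le_rfl) (x0_le_good he)
        rwa [hg] at h1
    exact ⟨Le_back' g (he.mem le_rfl) (he.mem le_rfl) (key g⁻¹ (fix_inv hg)), key g hg⟩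
  | succ m hm ih =>
    intro e' he' g hg
    obtain ⟨e, he⟩ := exists_good hm
    have key : ∀ g : autRS th, im g x0 x0_mem = x0 →
        Le (im g e' (he'.mem (by omega))) e' := by
      intro g hg
      have he'X := he'.mem (by omega : 1 ≤ m + 1)
      have heX := he.mem hm
      refine good_greatest hm he he' (im_mem g he'X) ?_ ?_ ?_ ?_ ?_
      · have h1 := im_FD g x0_mem he'X he'.FD
        rwa [hg] at h1
      · intro h
        apply he'.ne (by omega)
        exact im_inj g he'X x0_mem (by rw [h, hg])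
      · have hfin := good_finite (by omega : 1 ≤ m + 1) he'
        classical
        refine (hfin.image (fun x => if h : x ∈ X then im g x h else x)).subset ?_
        rintro y ⟨h1, h2⟩
        have hy : y ∈ X := Le_mem (im_mem g he'X) h1
        refine ⟨im g⁻¹ y hy, ⟨Le_fwd' g hy he'X h1, Le_fwd g hy he'X h2⟩, ?_⟩
        simp only [dif_pos (im_mem g⁻¹ hy)]
        exact im_inv' g hy
      · exact Le_trans (im_Le g he'X heX (good_succ_le hm he he')) (ih he g hg).1
      · intro h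
        have h1 := Le_fwd g heX he'X h
        exact good_not_le hm he he' (Le_trans (ih he g⁻¹ (fix_inv hg)).2 h1)
    exact ⟨key g hg, Le_back g (he'.mem (by omega)) (he'.mem (by omega)) (key g⁻¹ (fix_inv hg))⟩

theorem rigid_im (g : autRS th) : RgAll (im g x0 x0_mem) := by
  refine rigid_of_trivial (im_mem g x0_mem) (im_Rec g x0_mem Rec_x0) ?_
  intro x h1 h2
  have hx : x ∈ X := Le_mem (im_mem g x0_mem) h1
  have h3 := x0_trivial (Le_fwd' g hx x0_mem h1) (Le_fwd g hx x0_mem h2)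
  rw [← im_inv' g hx]
  exact im_congr g _ _ h3

theorem im_Ya (g : autRS th) : ∃ (a : Bool × Col) (k : ℤ),
    im g (Ya (false, 0)) (Ya_mem (by decide : (0 : Col) < 2)) = sh k (Ya a) := by
  have hp : BL (false, 0) := (by decide : (0 : Col) < 2)
  have hq : BL (false, 1) := (by decide : (1 : Col) < 2)
  have h0 := rigid_im g
  have h1 : RgAll (im g (Ya (false, 0)) (Ya_mem hp)) :=
    RgAll_OC h0 (im_OC g (Ya_mem hp) x0_mem (Ya_OC hp))
  have h2 : RgAll (im g (Ya (false, 1)) (Ya_mem hq)) :=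
    RgAll_OC h0 (im_OC g (Ya_mem hq) x0_mem (Ya_OC hq))
  obtain ⟨a, k, -, h⟩ := asymptotic h1 h2 (im_FD g _ _ (Ya_FD _ _))
    (fun h => Ya_ne (im_inj g _ _ h))
  exact ⟨a, k, h⟩

/-- the orbit of `x0` is finite modulo the shift -/
theorem x0_orbit : ∃ H : Set (autRS th), H.Finite ∧ ∀ g : autRS th, ∃ h ∈ H, ∃ k : ℤ,
    im g x0 x0_mem = sh k (im h x0 x0_mem) := by
  classical
  have hp : BL (false, 0) := (by decide : (0 : Col) < 2)
  let P : (Bool × Col) → autRS th → Prop := fun a g => ∃ k : ℤ,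
    im g (Ya (false, 0)) (Ya_mem hp) = sh k (Ya a)
  let R : (Bool × Col) → autRS th := fun a => if h : ∃ g, P a g then h.choose else 1
  refine ⟨Set.range R, Set.finite_range R, fun g => ?_⟩
  obtain ⟨a, k, hk⟩ := im_Ya g
  have hex : ∃ g, P a g := ⟨g, k, hk⟩
  have hR : P a (R a) := by
    simp only [R, dif_pos hex]
    exact hex.choose_spec
  obtain ⟨k', hk'⟩ := hR
  refine ⟨R a, ⟨a, rfl⟩, k - k', ?_⟩
  refine im_eq_of_OC g (R a) (k - k') x0_mem (Ya_mem hp) (x0_OC hp) ?_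
  rw [hk, hk', sh_sh]
  congr 1
  ring

omit [DiscreteTopology Lt] in
theorem cont_sh (k : ℤ) : Continuous (fun x : X => (⟨sh k x.1, (X_sh k).2 x.2⟩ : X)) := by
  refine Continuous.subtype_mk ?_ _
  refine continuous_pi fun i => ?_
  show Continuous (fun x : X => x.1 (i + k))
  exact (continuous_apply (i + k)).comp continuous_subtype_val

/-- the shift as an automorphism -/
def shA (k : ℤ) : autRS th := by
  refine ⟨⟨⟨fun x => ⟨sh k x.1, (X_sh k).2 x.2⟩, fun x => ⟨sh (-k) x.1, (X_sh (-k)).2 x.2⟩,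
    ?_, ?_⟩, ?_, ?_⟩, ?_⟩
  · intro x
    apply Subtype.ext
    simp only [sh_sh, neg_add_cancel, sh_zero]
  · intro x
    apply Subtype.ext
    simp only [sh_sh, add_neg_cancel, sh_zero]
  · exact cont_sh k
  · exact cont_sh (-k)
  · intro x
    simp only [Homeomorph.homeomorph_mk_coe, Equiv.coe_fn_mk, sh_sh]
    congr 1
    ring

theorem im_shA (k : ℤ) {x : ℤ → Lt} (hx : x ∈ X) : im (shA k) x hx = sh k x := rfl

theorem good_orbit {m : ℕ} (hm : 1 ≤ m) {e : ℤ → Lt} (he : Good m e) :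
    ∃ F : Set (ℤ → Lt), F.Finite ∧ F ⊆ X ∧ ∀ g : autRS th, ∃ f ∈ F, ∃ k : ℤ,
      im g e (he.mem hm) = sh k f := by
  classical
  obtain ⟨H, hH, hHg⟩ := x0_orbit
  have hfin := good_finite hm he
  let I : autRS th → (ℤ → Lt) → (ℤ → Lt) := fun h x => if hx : x ∈ X then im h x hx else x
  refine ⟨(Set.image2 I H {x : ℤ → Lt | Le e x ∧ Le x e}), hH.image2 I hfin, ?_, ?_⟩
  · rintro f ⟨h, hh, x, hx, rfl⟩
    have hxX : x ∈ X := Le_mem (he.mem hm) hx.1
    simp only [I, dif_pos hxX]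
    exact im_mem h hxX
  · intro g
    obtain ⟨h, hh, k, hk⟩ := hHg g
    have hfix : im (shA (-k) * h⁻¹ * g) x0 x0_mem = x0 := by
      rw [im_mul, im_mul, im_shA]
      have h1 : im h⁻¹ (im g x0 x0_mem) (im_mem g x0_mem) =
          sh k (im h⁻¹ (im h x0 x0_mem) (im_mem h x0_mem)) := by
        rw [← im_sh h⁻¹ k (im_mem h x0_mem)]
        exact im_congr _ _ _ hk
      rw [h1, im_inv, sh_sh, neg_add_cancel, sh_zero]
    have hc := chain hm he _ hfix
    set c := im (shA (-k) * h⁻¹ * g) e (he.mem hm) with hcdef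
    have hcX : c ∈ X := im_mem _ _
    refine ⟨I h c, ⟨h, hh, c, ⟨hc.2, hc.1⟩, rfl⟩, k, ?_⟩
    simp only [I, dif_pos hcX]
    have h2 : c = sh (-k) (im h⁻¹ (im g e (he.mem hm)) (im_mem g (he.mem hm))) := by
      rw [hcdef, im_mul, im_mul, im_shA]
    have h3 : im h c hcX = sh (-k) (im g e (he.mem hm)) := by
      have h4 := im_sh h (-k) (im_mem h⁻¹ (im_mem g (he.mem hm)))
      rw [im_inv'] at h4
      rw [← h4]
      exact im_congr _ _ _ h2
    rw [h3, sh_sh, add_neg_cancel, sh_zero]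

theorem th_rf : Group.ResiduallyFinite (autRS th) := by
  refine rf_of_finite_orbits X (shiftInv_subshift th) X_aperiodic ?_
  intro x hx N
  obtain ⟨m, e, k, hm, he, hek⟩ := good_dense hx N
  have heX := he.mem hm
  refine ⟨⟨sh k e, (X_sh k).2 heX⟩, fun i hi => ?_, ?_⟩
  · exact hek i hi
  · obtain ⟨F, hF, hFX, hFg⟩ := good_orbit hm he
    refine ⟨Subtype.val ⁻¹' F, hF.preimage Subtype.val_injective.injOn, fun g => ?_⟩
    obtain ⟨f, hf, k', hk'⟩ := hFg g
    refine ⟨⟨f, hFX hf⟩, hf, k + k', ?_⟩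
    have h1 := im_sh g k heX
    rw [hk', sh_sh] at h1
    exact h1

end H35.RS.RF
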