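import Pool.Agent.H35.RF.Sens
import Pool.Agent.H35.RF.ExchD

/-! # W18: good points -/

namespace H35.RS.RF
open H35.RS H35.RS.Up

theorem b0_z : b0 0 = (false, 0) := by
  have := b0_mul 0
  rwa [mul_zero] at this

theorem Good.FD {m : ℕ} {e : ℤ → Lt} (h : Good m e) : FD x0 e := by
  refine ⟨13 ^ m, fun i hi => (h.1 i ?_).symm⟩
  have h1 := og_eq m
  have h2 : (0 : ℤ) < 13 ^ m := by positivity
  push_cast at hi
  rcases abs_cases i with ⟨h3, h4⟩ | ⟨h3, h4⟩
  · right
    linarith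
  · left
    linarith

/-- the blocks of level `M ≥ m` other than the central one -/
theorem Good.other {m M : ℕ} (hM : m ≤ M) {e : ℤ → Lt} (h : Good m e) {i : ℤ} (hi : i ≠ 0) :
    ty M e (og M + i * 13 ^ M) = ty M x0 (og M + i * 13 ^ M) := by
  apply ty_congr
  intro k hk hk'
  apply h.1
  have h1 := og_eq m
  have h1' := og_eq M
  have h2 : (0 : ℤ) < 13 ^ m := by positivity
  have h3 : (13 : ℤ) ^ m ≤ 13 ^ M := pow_le_pow_right₀ (by norm_num) hM
  rcases lt_or_gt_of_ne hi with h | h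
  · left
    nlinarith
  · right
    nlinarith

theorem Good.ne {m : ℕ} (hm : 1 ≤ m) {e : ℤ → Lt} (h : Good m e) : e ≠ x0 := by
  rintro rfl
  have h1 := ty_x0 hm 0
  rw [zero_mul, add_zero, h.2.1] at h1
  simp at h1

/-- the types of level `m` are at least those of the background -/
theorem Good.tle {m : ℕ} (hm : 1 ≤ m) {e : ℤ → Lt} (h : Good m e) (i : ℤ) :
    tle (ty m x0 (og m + i * 13 ^ m)) (ty m e (og m + i * 13 ^ m)) := by
  by_cases hi : i = 0
  · subst hi
    rw [ty_x0 hm 0, zero_mul, add_zero, h.2.1, b0_z]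
    exact Or.inr (Or.inr ⟨false, _, rfl, rfl⟩)
  · rw [h.other le_rfl hi]
    exact tle_refl _

theorem Good.V {m M : ℕ} (hm : 1 ≤ m) (hM : m ≤ M) {e : ℤ → Lt} (h : Good m e) : V M e (og M) :=
  V_mono (by omega) (V_x0 (by omega)) (ty_up_tle hm hM (og_dvd hM) (h.tle hm))

theorem Good.V_dl {m j M : ℕ} (hm : 1 ≤ m) (hj : m ≤ j) (hM : j < M) {e : ℤ → Lt}
    (h : Good m e) : RF.V M e (og M + dl j) := by
  refine V_mono (by omega) (V_x0_dl (by omega) hM) (ty_up_tle hm (by omega) ?_ (h.tle hm))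
  have e1 : og M + dl j - og m = (og M - og m) + dl j := by ring
  rw [e1]
  exact dvd_add (og_dvd (by omega)) (dl_dvd hj)

theorem Good.mem {m : ℕ} (hm : 1 ≤ m) {e : ℤ → Lt} (h : Good m e) : e ∈ X :=
  V_mem hm (h.V hm le_rfl)

/-- in the phase `0` the central blocks are of type `F` -/
theorem Good.center {m M : ℕ} (hm : 1 ≤ m) (hM : m ≤ M) {e : ℤ → Lt} (h : Good m e) :
    ty M e (og M) = some (false, none) := by
  induction M, hM using Nat.le_induction with
  | base => exact h.2.1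
  | succ M hM ih =>
    have h1 := ty_x0 (n := M + 1) (by omega) 0
    rw [zero_mul, add_zero, b0_z] at h1
    refine bump (by omega) (by decide) h1 (fun o ho => ?_) ?_
    · have e1 : og (M + 1) + (o.1 : ℤ) * 13 ^ M = og M + ((o.1 : ℤ) - 2) * 13 ^ M := by
        simp only [og]
        ring
      rw [e1]
      refine h.other hM ?_
      intro h2
      apply ho
      apply Fin.ext
      have : ((2 : Fin 13).1 : ℤ) = 2 := rfl
      omega
    · have e1 : og (M + 1) + 2 * (13 : ℤ) ^ M = og M := by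
        simp only [og]
        ring
      rw [e1]
      exact ih

/-- in the phases `dl j`, `j ≥ m`, the change is forgotten -/
theorem Good.forget {m j M : ℕ} (hm : 1 ≤ m) (hj : m ≤ j) (hM : j < M) {e : ℤ → Lt}
    (h : Good m e) (i : ℤ) :
    ty M e (og M + dl j + i * 13 ^ M) = some ((b0 i).1, some (up (b0 i).2)) := by
  have hj1 : 1 ≤ j := by omega
  have hlow : ∀ i : ℤ, ty (j + 1) e (og (j + 1) + dl j + i * 13 ^ (j + 1)) =
      some ((b0 i).1, some (up (b0 i).2)) := by
    intro i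
    have e1 : og (j + 1) + dl j + i * 13 ^ (j + 1) = og j + (13 * (i - 1) - 1) * 13 ^ j := by
      simp only [og, dl]
      ring
    rw [e1]
    have hoth : ∀ m' : ℤ, ¬ (13 : ℤ) ∣ m' → ty j e (og j + m' * 13 ^ j) =
        some ((b0 m').1, some (b0 m').2) := by
      intro m' hm'
      rw [h.other hj (fun h0 => hm' (by rw [h0]; simp)), ty_x0 hj1]
    have hK : ∃ τ, τ ≠ some 2 ∧
        ty j e (og j + (13 * (i - 1) - 1) * 13 ^ j + 13 ^ j) = some (false, τ) := by
      have e2 : og j + (13 * (i - 1) - 1) * 13 ^ j + 13 ^ j = og j + (13 * (i - 1)) * 13 ^ j := by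
        ring
      rw [e2]
      by_cases hi : i = 1
      · subst hi
        refine ⟨none, by simp, ?_⟩
        rw [sub_self, mul_zero, zero_mul, add_zero]
        exact h.center hm hj
      · refine ⟨some 0, by simp, ?_⟩
        rw [h.other hj (by omega), ty_x0 hj1, b0_mul]
    obtain ⟨τ, hτ, hK⟩ := hK
    refine forget_B hj1 (b0_lt i) (fun j' hj' => ?_) hK hτ ?_
    · have e2 : og j + (13 * (i - 1) - 1) * 13 ^ j + (j'.1 : ℤ) * 13 ^ j =
          og j + (13 * (i - 1) - 2 + ((j'.1 : ℤ) + 1)) * 13 ^ j := by ring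
      rw [e2, hoth, b0_succ]
      intro h0
      apply hj'
      apply Fin.ext
      have : ((1 : Fin 12).1 : ℤ) = 1 := rfl
      have := j'.2
      omega
    · have e2 : og j + (13 * (i - 1) - 1) * 13 ^ j + 12 * 13 ^ j = og j + (13 * i - 2) * 13 ^ j := by
        ring
      rw [e2, hoth _ (by omega), b0_zero]
  rw [← ty_x0_dl hj1 hM i]
  refine ty_up_eq (n := j + 1) (by omega) hM (c := og (j + 1) + dl j) ?_ (fun i => ?_) i
  · have e1 : og M + dl j - (og (j + 1) + dl j) = og M - og (j + 1) := by ring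
    rw [e1]
    exact og_dvd hM
  · rw [hlow i, ty_x0_dl hj1 (Nat.lt_succ_self j)]

/-- the phases of a good point -/
theorem Good.phases {m M : ℕ} (hm : 1 ≤ m) (hM : m ≤ M) {e : ℤ → Lt} (h : Good m e) {c : ℤ}
    (hc : RF.V M e c) :
    (13 : ℤ) ^ M ∣ c - og M ∨ ∃ j : ℕ, m ≤ j ∧ j < M ∧ (13 : ℤ) ^ M ∣ c - og M - dl j := by
  rcases phases_FD h.FD (by omega) hc with h1 | ⟨j, hj, hjM, h1⟩
  · exact Or.inl h1
  · refine Or.inr ⟨j, ?_, hjM, h1⟩
    by_contra hlt
    have h2 := h.2.2 c (V_down hm hM hc)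
    have h3 : (13 : ℤ) ^ m ∣ c - og M - dl j := (pow_dvd_pow 13 hM).trans h1
    have h4 : dl j = (c - og m) - (c - og M - dl j) - (og M - og m) := by ring
    have h5 : (13 : ℤ) ^ m ∣ dl j := by
      rw [h4]
      exact dvd_sub (dvd_sub h2 h3) (og_dvd hM)
    exact dl_not_dvd (by omega) h5

/-- good points of the same level are equivalent -/
theorem Good.le {m : ℕ} (hm : 1 ≤ m) {e e' : ℤ → Lt} (h : Good m e) (h' : Good m e') :
    Le e e' := by
  refine Le_of_ty hm (FD_trans (FD_symm h.FD) h'.FD) (fun c hc i => ?_)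
  obtain ⟨d, hd⟩ := h.2.2 c hc
  have e1 : c + i * 13 ^ m = og m + (d + i) * 13 ^ m := by
    rw [add_mul]
    linarith
  rw [e1]
  by_cases h0 : d + i = 0
  · rw [h0, zero_mul, add_zero, h.2.1, h'.2.1]
    exact tle_refl _
  · rw [h.other le_rfl h0, h'.other le_rfl h0]
    exact tle_refl _

end H35.RS.RF
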