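import Pool.Agent.H35.RF.Words

/-! # W3: the words of level 1 -/

namespace H35.RS.RF
open H35.RS H35.RS.Up

/-- the letters whose image contains the word `w` -/
def S1 (w : Fin 13 → Lt) : Set Lt := {a | w ∈ ths a}

/-- admissible parameters of the words with a detection at `l` -/
def One_okV (k : Fin 3) (xd : Col) (l : Fin 12) : Prop :=
  (k = 0 ∧ xd < 2) ∨ (k = 1 ∧ 2 ≤ xd) ∨ (k = 2 ∧ xd < 2 ∧ l ≠ 1)

instance One_decV (k : Fin 3) (xd : Col) (l : Fin 12) : Decidable (One_okV k xd l) := by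
  unfold One_okV
  infer_instance

/-- the colour detected by the default word of the kind `k` in which `xd` is at `X` (`none` if there is
no such word) -/
def One_dU (k : Fin 3) (xd : Col) : Option Col :=
  match k, xd with
  | 0, 1 => some 0
  | 0, 0 => some 1
  | 1, 3 => some 2
  | 2, 1 => some 2
  | 1, 2 => some 3
  | 2, 0 => some 3
  | _, _ => none

theorem One_mem_Vs {c : Bool} {w : Fin 13 → Lt} :
    w ∈ Vs c ↔ ∃ k xd l, One_okV k xd l ∧ w = W k c xd (some l) := by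
  rw [mem_Vs]
  constructor
  · rintro (⟨l, rfl⟩ | ⟨l, rfl⟩ | ⟨l, rfl⟩ | ⟨l, rfl⟩ | ⟨l, hl, rfl⟩ | ⟨l, hl, rfl⟩)
    · exact ⟨0, 0, l, Or.inl ⟨rfl, by decide⟩, rfl⟩
    · exact ⟨0, 1, l, Or.inl ⟨rfl, by decide⟩, rfl⟩
    · exact ⟨1, 2, l, Or.inr (Or.inl ⟨rfl, by decide⟩), rfl⟩
    · exact ⟨1, 3, l, Or.inr (Or.inl ⟨rfl, by decide⟩), rfl⟩
    · exact ⟨2, 0, l, Or.inr (Or.inr ⟨rfl, by decide, hl⟩), rfl⟩
    · exact ⟨2, 1, l, Or.inr (Or.inr ⟨rfl, by decide, hl⟩), rfl⟩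
  · rintro ⟨k, xd, l, h, rfl⟩
    rcases h with ⟨rfl, h⟩ | ⟨rfl, h⟩ | ⟨rfl, h, hl⟩
    · have h' : xd = 0 ∨ xd = 1 := by
        revert h
        revert xd
        decide
      rcases h' with rfl | rfl
      · exact Or.inl ⟨l, rfl⟩
      · exact Or.inr (Or.inl ⟨l, rfl⟩)
    · have h' : xd = 2 ∨ xd = 3 := by
        revert h
        revert xd
        decide
      rcases h' with rfl | rfl
      · exact Or.inr (Or.inr (Or.inl ⟨l, rfl⟩))
      · exact Or.inr (Or.inr (Or.inr (Or.inl ⟨l, rfl⟩)))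
    · have h' : xd = 0 ∨ xd = 1 := by
        revert h
        revert xd
        decide
      rcases h' with rfl | rfl
      · exact Or.inr (Or.inr (Or.inr (Or.inr (Or.inl ⟨l, hl, rfl⟩))))
      · exact Or.inr (Or.inr (Or.inr (Or.inr (Or.inr ⟨l, hl, rfl⟩))))

theorem One_dU_iff : ∀ (k : Fin 3) (xd d : Col), One_dU k xd = some d ↔
    ((k = 0 ∧ xd = 1 ∧ d = 0) ∨ (k = 0 ∧ xd = 0 ∧ d = 1) ∨ (k = 1 ∧ xd = 3 ∧ d = 2) ∨
      (k = 2 ∧ xd = 1 ∧ d = 2) ∨ (k = 1 ∧ xd = 2 ∧ d = 3) ∨ (k = 2 ∧ xd = 0 ∧ d = 3)) := by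
  decide +kernel

theorem One_mem_Us {c : Bool} {d : Col} {w : Fin 13 → Lt} :
    w ∈ Us c d ↔ ∃ k xd, One_dU k xd = some d ∧ w = W k c xd none := by
  rw [mem_Us]
  constructor
  · rintro (⟨rfl, rfl⟩ | ⟨rfl, rfl⟩ | ⟨rfl, rfl | rfl⟩ | ⟨rfl, rfl | rfl⟩)
    · exact ⟨0, 1, rfl, rfl⟩
    · exact ⟨0, 0, rfl, rfl⟩
    · exact ⟨1, 3, rfl, rfl⟩
    · exact ⟨2, 1, rfl, rfl⟩
    · exact ⟨1, 2, rfl, rfl⟩
    · exact ⟨2, 0, rfl, rfl⟩
  · rintro ⟨k, xd, h, rfl⟩
    rcases (One_dU_iff k xd d).1 h with ⟨rfl, rfl, rfl⟩ | ⟨rfl, rfl, rfl⟩ | ⟨rfl, rfl, rfl⟩ |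
      ⟨rfl, rfl, rfl⟩ | ⟨rfl, rfl, rfl⟩ | ⟨rfl, rfl, rfl⟩
    · exact Or.inl ⟨rfl, rfl⟩
    · exact Or.inr (Or.inl ⟨rfl, rfl⟩)
    · exact Or.inr (Or.inr (Or.inl ⟨rfl, Or.inl rfl⟩))
    · exact Or.inr (Or.inr (Or.inl ⟨rfl, Or.inr rfl⟩))
    · exact Or.inr (Or.inr (Or.inr ⟨rfl, Or.inl rfl⟩))
    · exact Or.inr (Or.inr (Or.inr ⟨rfl, Or.inr rfl⟩))

/-- the class of a word -/
def One_cl (w : Fin 13 → Lt) : Bool := if (w 6).1 then (w 12).1 else (w 0).1

theorem One_six1 (c : Bool) (x : Option Col) (m : Fin 12 → Option Col) :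
    (pat1 c x m 6).1 = false := rfl

theorem One_six2 (c : Bool) (x : Option Col) (m : Fin 12 → Option Col) :
    (pat2 c x m 6).1 = true := rfl

theorem One_cl1 (c : Bool) (x : Option Col) (m : Fin 12 → Option Col) :
    One_cl (pat1 c x m) = c := rfl

theorem One_cl2 (c : Bool) (x : Option Col) (m : Fin 12 → Option Col) :
    One_cl (pat2 c x m) = c := rfl

theorem One_W2 (c : Bool) (xd : Col) (l : Option (Fin 12)) :
    W 2 c xd l = pat2 c (xl 2 c xd l) (md 2 c xd l) := if_pos rfl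

theorem One_W1 {k : Fin 3} (hk : k ≠ 2) (c : Bool) (xd : Col) (l : Option (Fin 12)) :
    W k c xd l = pat1 c (xl k c xd l) (md k c xd l) := if_neg hk

theorem One_clW (k : Fin 3) (c : Bool) (xd : Col) (l : Option (Fin 12)) :
    One_cl (W k c xd l) = c := by
  by_cases hk : k = 2
  · subst hk
    rw [One_W2, One_cl2]
  · rw [One_W1 hk, One_cl1]

theorem One_clV {c : Bool} {w : Fin 13 → Lt} (h : w ∈ Vs c) : One_cl w = c := by
  obtain ⟨k, xd, l, -, rfl⟩ := One_mem_Vs.1 h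
  exact One_clW _ _ _ _

theorem One_clU {c : Bool} {d : Col} {w : Fin 13 → Lt} (h : w ∈ Us c d) : One_cl w = c := by
  obtain ⟨k, xd, -, rfl⟩ := One_mem_Us.1 h
  exact One_clW _ _ _ _

theorem One_VU_fin : ∀ (c : Bool) (k : Fin 3) (xd : Col) (l : Fin 12) (k' : Fin 3) (xd' : Col),
    One_okV k xd l → (One_dU k' xd').isSome = true → W k c xd (some l) ≠ W k' c xd' none := by
  decide +kernel

theorem One_UU_fin : ∀ (c : Bool) (k : Fin 3) (xd : Col) (k' : Fin 3) (xd' : Col),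
    (One_dU k xd).isSome = true → (One_dU k' xd').isSome = true →
    W k c xd none = W k' c xd' none → One_dU k xd = One_dU k' xd' := by
  decide +kernel

theorem One_VU {c c' : Bool} {d : Col} {w : Fin 13 → Lt} (h : w ∈ Vs c) (h' : w ∈ Us c' d) :
    False := by
  have hc : c = c' := by rw [← One_clV h, One_clU h']
  subst hc
  obtain ⟨k, xd, l, hv, rfl⟩ := One_mem_Vs.1 h
  obtain ⟨k', xd', hu, he⟩ := One_mem_Us.1 h'
  exact One_VU_fin c k xd l k' xd' hv (by rw [hu]; rfl) he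

theorem One_UU {c c' : Bool} {d d' : Col} {w : Fin 13 → Lt} (h : w ∈ Us c d) (h' : w ∈ Us c' d') :
    d = d' := by
  have hc : c = c' := by rw [← One_clU h, One_clU h']
  subst hc
  obtain ⟨k, xd, hv, rfl⟩ := One_mem_Us.1 h
  obtain ⟨k', xd', hu, he⟩ := One_mem_Us.1 h'
  have := One_UU_fin c k xd k' xd' (by rw [hv]; rfl) (by rw [hu]; rfl) he
  rw [hv, hu] at this
  exact Option.some.inj this

theorem One_S1V {c : Bool} {w : Fin 13 → Lt} (h : w ∈ Vs c) : S1 w = St (c, none) := by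
  ext a
  constructor
  · intro ha
    refine ⟨?_, Or.inl rfl⟩
    rcases mem_ths.1 ha with h' | ⟨d, -, h'⟩
    · exact (One_clV h').symm.trans (One_clV h)
    · exact (One_VU h h').elim
  · rintro ⟨ha, -⟩
    refine mem_ths.2 (Or.inl ?_)
    rw [ha]
    exact h

theorem One_S1U {c : Bool} {d : Col} {w : Fin 13 → Lt} (h : w ∈ Us c d) :
    S1 w = St (c, some d) := by
  ext a
  constructor
  · intro ha
    rcases mem_ths.1 ha with h' | ⟨d', hd, h'⟩
    · exact (One_VU h' h).elim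
    · have hdd := One_UU h' h
      subst hdd
      exact ⟨(One_clU h').symm.trans (One_clU h), Or.inr hd⟩
  · rintro ⟨ha, hb⟩
    refine mem_ths.2 (Or.inr ⟨d, ?_, ?_⟩)
    · rcases hb with hb | hb
      · exact absurd hb (by simp)
      · exact hb
    · rw [ha]
      exact h

theorem one_cases (w : Fin 13 → Lt) : S1 w = ∅ ∨ ∃ τ : Ty, S1 w = St τ := by
  by_cases h : ∃ a, w ∈ ths a
  · right
    obtain ⟨a, ha⟩ := h
    rcases mem_ths.1 ha with h' | ⟨d, -, h'⟩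
    · exact ⟨_, One_S1V h'⟩
    · exact ⟨_, One_S1U h'⟩
  · left
    rw [Set.eq_empty_iff_forall_notMem]
    intro a ha
    exact h ⟨a, ha⟩

theorem One_par {w : Fin 13 → Lt} {a : Lt} (h : w ∈ ths a) :
    ∃ k xd l, w = W k a.1 xd l ∧
      (match l with
       | none => (One_dU k xd).isSome = true
       | some l => One_okV k xd l) := by
  rcases mem_ths.1 h with h' | ⟨d, -, h'⟩
  · obtain ⟨k, xd, l, hv, rfl⟩ := One_mem_Vs.1 h'
    exact ⟨k, xd, some l, rfl, hv⟩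
  · obtain ⟨k, xd, hu, rfl⟩ := One_mem_Us.1 h'
    exact ⟨k, xd, none, rfl, by simp [hu]⟩

theorem one_pat {w : Fin 13 → Lt} {a : Lt} (h : w ∈ ths a) :
    (∃ x m, w = pat1 a.1 x m) ∨ ∃ x m, w = pat2 a.1 x m := by
  obtain ⟨k, xd, l, rfl, -⟩ := One_par h
  by_cases hk : k = 2
  · subst hk
    exact Or.inr ⟨_, _, One_W2 _ _ _⟩
  · exact Or.inl ⟨_, _, One_W1 hk _ _ _⟩

theorem One_inv {w : Fin 13 → Lt} {τ : Ty} (h : S1 w = St τ) :
    (τ.2 = none ∧ w ∈ Vs τ.1) ∨ ∃ d, τ.2 = some d ∧ w ∈ Us τ.1 d := by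
  have h0 : ((τ.1, none) : Lt) ∈ S1 w := by
    rw [h]
    refine ⟨rfl, ?_⟩
    rcases hτ : τ.2 with _ | d
    · exact Or.inl rfl
    · exact Or.inr (by simp)
  rcases mem_ths.1 h0 with h' | ⟨d, -, h'⟩
  · left
    refine ⟨?_, h'⟩
    rcases hτ : τ.2 with _ | d
    · rfl
    · exfalso
      have h1 : ((τ.1, some d) : Lt) ∈ S1 w := by
        rw [One_S1V h']
        exact ⟨rfl, Or.inl rfl⟩
      rw [h] at h1
      rcases h1.2 with h2 | h2
      · rw [hτ] at h2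
        exact absurd h2 (by simp)
      · exact h2 hτ.symm
  · right
    refine ⟨d, ?_, h'⟩
    by_contra hne
    have h1 : ((τ.1, some d) : Lt) ∈ S1 w := by
      rw [h]
      exact ⟨rfl, Or.inr (fun hh => hne hh.symm)⟩
    rw [One_S1U h'] at h1
    rcases h1.2 with h2 | h2
    · exact absurd h2 (by simp)
    · exact h2 rfl

theorem one_A {w : Fin 13 → Lt} {c : Bool} {a : Col} (ha : a < 2) :
    S1 w = St (c, some a) ↔ w = rw1 (c, a) := by
  have ha' : a = 0 ∨ a = 1 := by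
    revert ha
    revert a
    decide
  constructor
  · intro h
    rcases One_inv h with ⟨h1, -⟩ | ⟨d, h1, h2⟩
    · exact absurd h1 (by simp)
    · have hd : a = d := Option.some.inj h1
      subst hd
      rcases ha' with rfl | rfl
      · exact List.mem_singleton.1 h2
      · exact List.mem_singleton.1 h2
  · rintro rfl
    refine One_S1U ?_
    rcases ha' with rfl | rfl
    · exact List.mem_singleton.2 rfl
    · exact List.mem_singleton.2 rfl

theorem One_ne : ∀ c : Bool, W 0 c 0 (some 0) ≠ W 0 c 1 (some 0) ∧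
    W 1 c 3 none ≠ W 2 c 1 none ∧ W 1 c 2 none ≠ W 2 c 0 none := by
  decide +kernel

theorem one_twin {w : Fin 13 → Lt} {τ : Ty} (h : S1 w = St τ) (h1 : ∀ a : Col, a < 2 → τ.2 ≠ some a) :
    ∃ w' : Fin 13 → Lt, w' ≠ w ∧ S1 w' = St τ := by
  obtain ⟨κ, o⟩ := τ
  obtain ⟨n1, n2, n3⟩ := One_ne κ
  rcases One_inv h with ⟨h2, h3⟩ | ⟨d, h2, h3⟩
  · have h2' : o = none := h2
    subst h2'
    have m1 : W 0 κ 0 (some 0) ∈ Vs κ := mem_Vs.2 (Or.inl ⟨0, rfl⟩)
    have m2 : W 0 κ 1 (some 0) ∈ Vs κ := mem_Vs.2 (Or.inr (Or.inl ⟨0, rfl⟩))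
    by_cases hw : W 0 κ 0 (some 0) = w
    · exact ⟨W 0 κ 1 (some 0), fun h => n1 (hw.trans h.symm), One_S1V m2⟩
    · exact ⟨W 0 κ 0 (some 0), hw, One_S1V m1⟩
  · have h2' : o = some d := h2
    subst h2'
    have hd : d = 2 ∨ d = 3 := by
      have h4 : ¬ d < 2 := fun hh => h1 d hh rfl
      revert h4
      clear h h1 h2 h3
      revert d
      decide
    rcases hd with rfl | rfl
    · have m1 : W 1 κ 3 none ∈ Us κ 2 := List.mem_cons_self
      have m2 : W 2 κ 1 none ∈ Us κ 2 := List.mem_cons_of_mem _ (List.mem_singleton.2 rfl)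
      by_cases hw : W 1 κ 3 none = w
      · exact ⟨W 2 κ 1 none, fun h => n2 (hw.trans h.symm), One_S1U m2⟩
      · exact ⟨W 1 κ 3 none, hw, One_S1U m1⟩
    · have m1 : W 1 κ 2 none ∈ Us κ 3 := List.mem_cons_self
      have m2 : W 2 κ 0 none ∈ Us κ 3 := List.mem_cons_of_mem _ (List.mem_singleton.2 rfl)
      by_cases hw : W 1 κ 2 none = w
      · exact ⟨W 2 κ 0 none, fun h => n3 (hw.trans h.symm), One_S1U m2⟩
      · exact ⟨W 1 κ 2 none, hw, One_S1U m1⟩

theorem one_ex (τ : Ty) : ∃ w : Fin 13 → Lt, S1 w = St τ := by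
  obtain ⟨κ, o⟩ := τ
  rcases o with _ | d
  · exact ⟨_, One_S1V (mem_Vs.2 (Or.inl ⟨0, rfl⟩))⟩
  · have hd : ∃ k xd, One_dU k xd = some d := by
      revert d
      decide
    obtain ⟨k, xd, h⟩ := hd
    exact ⟨_, One_S1U (One_mem_Us.2 ⟨k, xd, h, rfl⟩)⟩

theorem One_pat1_inj {c c' : Bool} {x x' : Option Col} {m m' : Fin 12 → Option Col}
    (h : pat1 c x m = pat1 c' x' m') : m = m' := by
  ext1 j
  have := congrFun h j.succ
  simp only [pat1, Fin.cons_succ, Prod.mk.injEq, true_and] at this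
  exact this

theorem One_pat2_inj {c c' : Bool} {x x' : Option Col} {m m' : Fin 12 → Option Col}
    (h : pat2 c x m = pat2 c' x' m') : m = m' := by
  ext1 j
  have := congrFun h j.castSucc
  simp only [pat2, Fin.snoc_castSucc, Prod.mk.injEq, true_and] at this
  exact this

/-- admissible parameters -/
def One_ok (k : Fin 3) (xd : Col) (l : Option (Fin 12)) : Bool :=
  match l with
  | none => (One_dU k xd).isSome
  | some l => decide (One_okV k xd l)

theorem One_par' {w : Fin 13 → Lt} {a : Lt} (h : w ∈ ths a) :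
    ∃ k xd l, w = W k a.1 xd l ∧ One_ok k xd l = true := by
  obtain ⟨k, xd, l, hw, hl⟩ := One_par h
  refine ⟨k, xd, l, hw, ?_⟩
  rcases l with _ | l
  · exact hl
  · exact decide_eq_true hl

theorem One_mid_fin : ∀ (c : Bool) (k : Fin 3) (xd : Col) (l : Option (Fin 12)) (c' : Bool)
    (xd' : Col) (l' : Option (Fin 12)), k ≠ 2 → One_ok k xd l = true → One_ok 2 xd' l' = true →
    md k c xd l ≠ md 2 c' xd' l' := by
  decide +kernel

/-- a word of pattern P1 and a word of pattern P2 never have the same middle -/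
theorem one_mid {a a' : Lt} {c c' : Bool} {x x' : Option Col} {m : Fin 12 → Option Col}
    (h : pat1 c x m ∈ ths a) (h' : pat2 c' x' m ∈ ths a') : False := by
  obtain ⟨k, xd, l, hw, hl⟩ := One_par' h
  obtain ⟨k', xd', l', hw', hl'⟩ := One_par' h'
  by_cases hk : k = 2
  · subst hk
    have h6 := congrArg (fun w : Fin 13 → Lt => (w 6).1) hw
    simp only [One_W2, One_six1, One_six2] at h6
    exact absurd h6 (by simp)
  by_cases hk' : k' = 2
  · subst hk'
    rw [One_W1 hk] at hw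
    rw [One_W2] at hw'
    exact One_mid_fin a.1 k xd l a'.1 xd' l' hk hl hl'
      ((One_pat1_inj hw).symm.trans (One_pat2_inj hw'))
  · have h6 := congrArg (fun w : Fin 13 → Lt => (w 6).1) hw'
    simp only [One_W1 hk', One_six1, One_six2] at h6
    exact absurd h6 (by simp)

theorem One_star_fin : ∀ (c κ : Bool), ∃ (l j : Fin 12), l ≠ 1 ∧ cls j = κ ∧
    md 2 c 0 (some l) j = none := by
  decide +kernel

/-- there is a word of pattern P2 in all `ϑ(c, S)` with a star at a coordinate of class `κ` -/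
theorem one_star (c κ : Bool) : ∃ (m : Fin 12 → Option Col) (j : Fin 12) (x : Option Col),
    pat2 c x m ∈ Vs c ∧ cls j = κ ∧ m j = none := by
  obtain ⟨l, j, h1, h2, h3⟩ := One_star_fin c κ
  refine ⟨md 2 c 0 (some l), j, xl 2 c 0 (some l), ?_, h2, h3⟩
  refine One_mem_Vs.2 ⟨2, 0, l, Or.inr (Or.inr ⟨rfl, by decide, h1⟩), ?_⟩
  exact (One_W2 _ _ _).symm

end H35.RS.RF
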