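import Pool.Agent.H35.RF.Val
import Pool.Agent.H35.RF.Cls

/-! # W7: two phases -/

namespace H35.RS.RF
open H35.RS H35.RS.Up

theorem Q_excl {n : ℕ} {x : ℤ → Lt} {s : ℤ} {c c' : Bool} (h : Q1 n x s c) (h' : Q2 n x s c') :
    False := by
  obtain ⟨τ, h1⟩ := h.2 5
  obtain ⟨τ', h2⟩ := h'.1 6
  have e : s + (((5 : Fin 12).1 : ℤ) + 1) * 13 ^ n = s + (((6 : Fin 12).1 : ℕ) : ℤ) * 13 ^ n := by
    norm_num
  rw [e, h2] at h1
  have h3 : cls 6 = cls 5 := congrArg Prod.fst (Option.some.inj h1)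
  revert h3
  decide

/-- the class of a type (`false` if there is no type) -/
def Pl_k (t : Option Ty) : Bool := match t with
  | none => false
  | some t => t.1

theorem Pl_k_some {t : Option Ty} {c : Bool} (h : ∃ τ, t = some (c, τ)) : Pl_k t = c := by
  obtain ⟨τ, rfl⟩ := h
  rfl

/-- the sequence of classes -/
noncomputable def Pl_seq (n : ℕ) (x : ℤ → Lt) (c : ℤ) (m : ℤ) : Bool :=
  Pl_k (ty n x (c + m * 13 ^ n))

theorem Pl_Q1 {n : ℕ} {x : ℤ → Lt} {c m s : ℤ} {κ : Bool} (hs : s = c + m * 13 ^ n)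
    (h : Q1 n x s κ) : CW (Pl_seq n x c) (m + 1) := by
  intro j
  unfold Pl_seq
  apply Pl_k_some
  have h1 := h.2 j
  have e : c + (m + 1 + j.1) * 13 ^ n = s + ((j.1 : ℤ) + 1) * 13 ^ n := by
    rw [hs]
    ring
  rw [e]
  exact h1

theorem Pl_Q2 {n : ℕ} {x : ℤ → Lt} {c m s : ℤ} {κ : Bool} (hs : s = c + m * 13 ^ n)
    (h : Q2 n x s κ) : CW (Pl_seq n x c) m := by
  intro j
  unfold Pl_seq
  apply Pl_k_some
  have h1 := h.1 j
  have e : c + (m + j.1) * 13 ^ n = s + (j.1 : ℤ) * 13 ^ n := by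
    rw [hs]
    ring
  rw [e]
  exact h1

/-- blocks of pattern P1 in two different phases are impossible (local version) -/
theorem Q1_local {n : ℕ} {x : ℤ → Lt} {s d : ℤ} {c c' c'' : Bool} (h0 : Q1 n x s c)
    (h1 : Q1 n x (s + 13 ^ (n + 1)) c') (hd : 1 ≤ d) (hd' : d ≤ 12)
    (h : Q1 n x (s + d * 13 ^ n) c'') : False := by
  have a0 := Pl_Q1 (c := s) (m := 0) (by ring) h0
  have a1 := Pl_Q1 (c := s) (m := 13) (by ring) h1
  have a2 := Pl_Q1 (c := s) (m := d) rfl h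
  have b1 := cw_far a0 a2 (by linarith)
  have b2 := cw_far a2 a1 (by linarith)
  linarith

theorem Pl_pat {n : ℕ} (hn : 1 ≤ n) {x : ℤ → Lt} {s : ℤ} (h : ty (n + 1) x s ≠ none) :
    ∃ κ, Q1 n x s κ ∨ Q2 n x s κ := by
  obtain ⟨t, ht⟩ := Option.ne_none_iff_exists'.1 h
  exact ⟨t.1, ty_pat hn ht⟩

theorem Pl_cw {n : ℕ} {x : ℤ → Lt} {c m s : ℤ} (hs : s = c + m * 13 ^ n)
    (h : ∃ κ, Q1 n x s κ ∨ Q2 n x s κ) :
    CW (Pl_seq n x c) m ∨ CW (Pl_seq n x c) (m + 1) := by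
  obtain ⟨κ, h | h⟩ := h
  · exact Or.inr (Pl_Q1 hs h)
  · exact Or.inl (Pl_Q2 hs h)

theorem Pl_is1 {n : ℕ} {x : ℤ → Lt} {c m s : ℤ} (hs : s = c + m * 13 ^ n)
    (h : ∃ κ, Q1 n x s κ ∨ Q2 n x s κ) (h' : CW (Pl_seq n x c) (m + 1)) : ∃ κ, Q1 n x s κ := by
  obtain ⟨κ, h | h⟩ := h
  · exact ⟨κ, h⟩
  · have := cw_far (Pl_Q2 hs h) h' (by linarith)
    linarith

theorem Pl_is2 {n : ℕ} {x : ℤ → Lt} {c m s : ℤ} (hs : s = c + m * 13 ^ n)
    (h : ∃ κ, Q1 n x s κ ∨ Q2 n x s κ) (h' : CW (Pl_seq n x c) m) : ∃ κ, Q2 n x s κ := by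
  obtain ⟨κ, h | h⟩ := h
  · have := cw_far h' (Pl_Q1 hs h) (by linarith)
    linarith
  · exact ⟨κ, h⟩

/-- two phases of level `n + 1` -/
theorem two_phases {n : ℕ} (hn : 1 ≤ n) {x : ℤ → Lt} {c c' : ℤ} (hc : (13 : ℤ) ^ n ∣ c' - c)
    (h : ∀ i : ℤ, ty (n + 1) x (c + i * 13 ^ (n + 1)) ≠ none)
    (h' : ∀ i : ℤ, ty (n + 1) x (c' + i * 13 ^ (n + 1)) ≠ none)
    (hne : ¬ (13 : ℤ) ^ (n + 1) ∣ c' - c) :
    ((13 : ℤ) ^ (n + 1) ∣ c' - c - 13 ^ n ∧ (∀ i : ℤ, ∃ κ, Q1 n x (c + i * 13 ^ (n + 1)) κ) ∧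
      ∀ i : ℤ, ∃ κ, Q2 n x (c' + i * 13 ^ (n + 1)) κ) ∨
    ((13 : ℤ) ^ (n + 1) ∣ c - c' - 13 ^ n ∧ (∀ i : ℤ, ∃ κ, Q1 n x (c' + i * 13 ^ (n + 1)) κ) ∧
      ∀ i : ℤ, ∃ κ, Q2 n x (c + i * 13 ^ (n + 1)) κ) := by
  obtain ⟨k, hk⟩ := hc
  obtain ⟨q, hq⟩ : ∃ q, q = k / 13 := ⟨_, rfl⟩
  obtain ⟨d, hd⟩ : ∃ d, d = k % 13 := ⟨_, rfl⟩
  have hk2 : k = 13 * q + d := by rw [hq, hd]; omega
  have hd0 : 0 ≤ d := by rw [hd]; omega
  have hd12 : d ≤ 12 := by rw [hd]; omega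
  have hd1 : 1 ≤ d := by
    rcases Int.lt_or_le 0 d with h1 | h1
    · exact h1
    · exfalso
      apply hne
      have h2 : d = 0 := le_antisymm h1 hd0
      refine ⟨q, ?_⟩
      rw [hk, hk2, h2]
      ring
  have hc' : c' = c + (13 * q + d) * 13 ^ n := by
    rw [← hk2]
    linarith
  -- positions
  have pos : ∀ i : ℤ, c + i * 13 ^ (n + 1) = c + (13 * i) * 13 ^ n := by
    intro i
    ring
  have pos' : ∀ i : ℤ, c' + (i - q) * 13 ^ (n + 1) = c + (13 * i + d) * 13 ^ n := by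
    intro i
    rw [hc']
    ring
  have P := fun i : ℤ => Pl_pat hn (h i)
  have P' := fun i : ℤ => Pl_pat hn (h' (i - q))
  have C := fun i : ℤ => Pl_cw (pos i) (P i)
  have C' := fun i : ℤ => Pl_cw (pos' i) (P' i)
  have key : ∀ i : ℤ, (d = 1 ∧ CW (Pl_seq n x c) (13 * i + 1)) ∨
      (d = 12 ∧ CW (Pl_seq n x c) (13 * i + 13)) := by
    intro i
    apply cw_shift (C i) ?_ hd1 hd12 (C' i)
    have h2 := C (i + 1)
    have e1 : 13 * (i + 1) = 13 * i + 13 := by ring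
    have e2 : 13 * (i + 1) + 1 = 13 * i + 14 := by ring
    rwa [e2, e1] at h2
  rcases key 0 with ⟨hd', -⟩ | ⟨hd', -⟩
  · left
    have key' : ∀ i : ℤ, CW (Pl_seq n x c) (13 * i + 1) := by
      intro i
      rcases key i with ⟨-, h2⟩ | ⟨h2, -⟩
      · exact h2
      · omega
    refine ⟨⟨q, ?_⟩, ?_, ?_⟩
    · rw [hc', hd']
      ring
    · intro i
      exact Pl_is1 (pos i) (P i) (key' i)
    · intro i
      have h2 := Pl_is2 (pos' (i + q)) (P' (i + q)) (by rw [hd']; exact key' (i + q))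
      rwa [add_sub_cancel_right] at h2
  · right
    have key' : ∀ i : ℤ, CW (Pl_seq n x c) (13 * i) := by
      intro i
      rcases key (i - 1) with ⟨h2, -⟩ | ⟨-, h2⟩
      · omega
      · have e1 : 13 * (i - 1) + 13 = 13 * i := by ring
        rwa [e1] at h2
    refine ⟨⟨-(q + 1), ?_⟩, ?_, ?_⟩
    · rw [hc', hd']
      ring
    · intro i
      have h2 := Pl_is1 (pos' (i + q)) (P' (i + q)) (by
        rw [hd']
        have h3 := key' (i + q + 1)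
        have e1 : 13 * (i + q + 1) = 13 * (i + q) + 12 + 1 := by ring
        rwa [e1] at h3)
      rwa [add_sub_cancel_right] at h2
    · intro i
      exact Pl_is2 (pos i) (P i) (key' i)

theorem Pl_one {x : ℤ → Lt} {s : ℤ} (h : ty 1 x s ≠ none) :
    ∃ (a : Lt) (y : Option Col) (m : Fin 12 → Option Col),
      (pat1 a.1 y m ∈ ths a ∧ ∀ j : Fin 12, x (s + 1 + j.1) = (cls j, m j)) ∨
      (pat2 a.1 y m ∈ ths a ∧ ∀ j : Fin 12, x (s + j.1) = (cls j, m j)) := by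
  have h1 := ty_one (x := x) (s := s) (w := fun o => x (s + o.1)) (fun o => rfl)
  rw [h1] at h
  have h2 : (S1 (fun o => x (s + o.1))).Nonempty := by
    rcases one_cases (fun o => x (s + o.1)) with h3 | ⟨τ, h3⟩
    · exfalso
      obtain ⟨t, ht⟩ := Option.ne_none_iff_exists'.1 h
      have h4 := tys_some.1 ht
      rw [h3] at h4
      have h5 : ((t.1, none) : Lt) ∈ St t := by
        refine ⟨rfl, ?_⟩
        rcases ht2 : t.2 with _ | d
        · exact Or.inl rfl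
        · right
          simp
      rw [← h4] at h5
      exact h5
    · rw [h3]
      refine ⟨(τ.1, none), rfl, ?_⟩
      rcases ht2 : τ.2 with _ | d
      · exact Or.inl rfl
      · right
        simp
  obtain ⟨a, ha⟩ := h2
  have ha' : (fun o : Fin 13 => x (s + o.1)) ∈ ths a := ha
  rcases one_pat ha' with ⟨y, m, h3⟩ | ⟨y, m, h3⟩
  · refine ⟨a, y, m, Or.inl ⟨?_, ?_⟩⟩
    · rw [← h3]
      exact ha'
    · intro j
      have h4 := congrFun h3 j.succ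
      simp only [pat1, Fin.cons_succ, Fin.val_succ] at h4
      rw [← h4]
      congr 1
      push_cast
      ring
  · refine ⟨a, y, m, Or.inr ⟨?_, ?_⟩⟩
    · rw [← h3]
      exact ha'
    · intro j
      have h4 := congrFun h3 j.castSucc
      simp only [pat2, Fin.snoc_castSucc, Fin.val_castSucc] at h4
      exact h4

theorem Pl_one_cw {x : ℤ → Lt} {s : ℤ} (h : ty 1 x s ≠ none) :
    CW (fun i => (x i).1) s ∨ CW (fun i => (x i).1) (s + 1) := by
  obtain ⟨a, y, m, ⟨-, h1⟩ | ⟨-, h1⟩⟩ := Pl_one h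
  · right
    intro j
    simp only [h1 j]
  · left
    intro j
    simp only [h1 j]

theorem Pl_adj {x : ℤ → Lt} {s : ℤ} (h : ty 1 x s ≠ none) (h' : ty 1 x (s + 1) ≠ none)
    (hc : CW (fun i => (x i).1) (s + 1)) : False := by
  obtain ⟨a, y, m, ⟨h0, h1⟩ | ⟨-, h1⟩⟩ := Pl_one h
  · obtain ⟨a', y', m', ⟨-, h1'⟩ | ⟨h0', h1'⟩⟩ := Pl_one h'
    · have h2 : CW (fun i => (x i).1) (s + 1 + 1) := by
        intro j
        simp only [h1' j]
      have := cw_far hc h2 (by linarith)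
      linarith
    · have h2 : m = m' := by
        funext j
        have h3 := h1 j
        rw [h1' j] at h3
        exact (congrArg Prod.snd h3).symm
      subst h2
      exact one_mid h0 h0'
  · have h2 : CW (fun i => (x i).1) s := by
      intro j
      simp only [h1 j]
    have := cw_far h2 hc (by linarith)
    linarith

/-- the phase of level 1 is unique (local version) -/
theorem one_local {x : ℤ → Lt} {s d : ℤ} (h0 : ty 1 x s ≠ none) (h1 : ty 1 x (s + 13) ≠ none)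
    (hd : 1 ≤ d) (hd' : d ≤ 12) (h : ty 1 x (s + d) ≠ none) : False := by
  have c0 := Pl_one_cw h0
  have c1 := Pl_one_cw h1
  have c2 := Pl_one_cw h
  have e : s + 13 + 1 = s + 14 := by ring
  rw [e] at c1
  rcases cw_shift c0 c1 hd hd' c2 with ⟨h2, h3⟩ | ⟨h2, h3⟩
  · rw [h2] at h
    exact Pl_adj h0 h h3
  · rw [h2] at h
    have e2 : s + 12 + 1 = s + 13 := by ring
    exact Pl_adj h (by rw [e2]; exact h1) (by rw [e2]; exact h3)

theorem V_one {x : ℤ → Lt} {c c' : ℤ} (h : V 1 x c) (h' : V 1 x c') : (13 : ℤ) ∣ c' - c := by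
  by_contra hne
  obtain ⟨q, hq⟩ : ∃ q, q = (c' - c) / 13 := ⟨_, rfl⟩
  obtain ⟨d, hd⟩ : ∃ d, d = (c' - c) % 13 := ⟨_, rfl⟩
  have h1 := V_ty h q le_rfl
  have h2 := V_ty h (q + 1) le_rfl
  have h3 := V_ty h' 0 le_rfl
  refine one_local (d := d) h1 ?_ ?_ ?_ ?_
  · have e : c + q * 13 ^ 1 + 13 = c + (q + 1) * 13 ^ 1 := by ring
    rw [e]
    exact h2
  · omega
  · omega
  · have e : c + q * 13 ^ 1 + d = c' + 0 * 13 ^ 1 := by
      have : c' - c = 13 * q + d := by omega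
      linarith
    rw [e]
    exact h3

end H35.RS.RF
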