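import Pool.Agent.H35.RF.Bg
import Pool.Agent.H35.RF.Pl

/-! # W15: the phases of the background -/

namespace H35.RS.RF
open H35.RS H35.RS.Up

theorem Ph_og_succ (n : ℕ) : og (n + 1) = og n - 2 * 13 ^ n := rfl

theorem Ph_og_dvd {n M : ℕ} (h : n ≤ M) : (13 : ℤ) ^ n ∣ og M - og n := by
  induction M, h using Nat.le_induction with
  | base => simp
  | succ M hM ih =>
    have h1 : (13 : ℤ) ^ n ∣ 2 * 13 ^ M := Dvd.dvd.mul_left (pow_dvd_pow _ hM) _
    have h2 : og (M + 1) - og n = (og M - og n) - 2 * 13 ^ M := by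
      rw [Ph_og_succ]
      ring
    rw [h2]
    exact dvd_sub ih h1

theorem ty_x0_dl {j M : ℕ} (hj : 1 ≤ j) (hM : j < M) (i : ℤ) :
    ty M x0 (og M + dl j + i * 13 ^ M) = some ((b0 i).1, some (up (b0 i).2)) := by
  revert i
  induction M, hM using Nat.le_induction with
  | base =>
    intro i
    have hs : og (j + 1) + dl j + i * 13 ^ (j + 1) = og j + (13 * (i - 1) - 1) * 13 ^ j := by
      rw [Ph_og_succ, dl, pow_succ]
      ring
    have key : ∀ k : Fin 12, ty j x0 (og (j + 1) + dl j + i * 13 ^ (j + 1) + k.1 * 13 ^ j)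
        = some (cls k, some (ut k)) := by
      intro k
      have h1 : og (j + 1) + dl j + i * 13 ^ (j + 1) + k.1 * 13 ^ j
          = og j + (13 * (i - 1) - 2 + (k.1 + 1)) * 13 ^ j := by
        rw [hs]
        ring
      rw [h1, ty_x0 hj, b0_succ]
    refine (ty_B hj (b0_lt i)).2 (Or.inr ⟨fun k _ => key k, ⟨some 0, by simp, ?_⟩, ?_⟩)
    · have := key 1
      have h1 : og (j + 1) + dl j + i * 13 ^ (j + 1) + ((1 : Fin 12) : ℕ) * 13 ^ j
          = og (j + 1) + dl j + i * 13 ^ (j + 1) + 13 ^ j := by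
        simp
      rw [h1] at this
      exact this
    · have h1 : og (j + 1) + dl j + i * 13 ^ (j + 1) + 12 * 13 ^ j
          = og j + (13 * i - 2) * 13 ^ j := by
        rw [hs]
        ring
      rw [h1, ty_x0 hj, b0_zero]
  | succ M hM ih =>
    intro i
    have hM1 : 1 ≤ M := by omega
    refine (ty_B hM1 (b0_lt i)).2 (Or.inl ⟨?_, fun k => ?_⟩)
    · have h1 : og (M + 1) + dl j + i * 13 ^ (M + 1) = og M + dl j + (13 * i - 2) * 13 ^ M := by
        rw [Ph_og_succ, pow_succ]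
        ring
      rw [h1, ih, b0_zero]
    · have h1 : og (M + 1) + dl j + i * 13 ^ (M + 1) + (k.1 + 1) * 13 ^ M
          = og M + dl j + (13 * i - 2 + (k.1 + 1)) * 13 ^ M := by
        rw [Ph_og_succ, pow_succ]
        ring
      rw [h1, ih, b0_succ]

theorem V_x0_dl {j M : ℕ} (hj : 1 ≤ j) (hM : j < M) : V M x0 (og M + dl j) := by
  refine V_exhaust (by omega) fun k => ?_
  refine ⟨M + (6 * k + 1), og (M + (6 * k + 1)) + dl j, by omega, ?_, ?_, ?_, ?_⟩
  · have h1 : og (M + (6 * k + 1)) + dl j - (og M + dl j) = og (M + (6 * k + 1)) - og M := by ring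
    rw [h1]
    exact Ph_og_dvd (by omega)
  · have h1 := og_eq (M + (6 * k + 1))
    have h2 := og_eq M
    have h3 : (6 * k + 2 : ℤ) ≤ 13 ^ (6 * k + 1) := by
      have : 6 * k + 1 < 13 ^ (6 * k + 1) := Nat.lt_pow_self (by norm_num)
      have h4 : 6 * k + 2 ≤ 13 ^ (6 * k + 1) := by omega
      exact_mod_cast h4
    have h4 : (0 : ℤ) < 13 ^ M := by positivity
    have h5 : (13 : ℤ) ^ (M + (6 * k + 1)) = 13 ^ M * 13 ^ (6 * k + 1) := pow_add _ _ _
    have h6 : (13 : ℤ) ^ M * (6 * k + 2) ≤ 13 ^ M * 13 ^ (6 * k + 1) :=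
      mul_le_mul_of_nonneg_left h3 h4.le
    rw [h5] at h1
    linarith
  · have h1 := og_eq (M + (6 * k + 1))
    have h2 := og_eq M
    have h3 : (6 * k + 2 : ℤ) ≤ 13 ^ (6 * k + 1) := by
      have : 6 * k + 1 < 13 ^ (6 * k + 1) := Nat.lt_pow_self (by norm_num)
      have h4 : 6 * k + 2 ≤ 13 ^ (6 * k + 1) := by omega
      exact_mod_cast h4
    have h4 : (0 : ℤ) < 13 ^ M := by positivity
    have h5 : (13 : ℤ) ^ (M + (6 * k + 1)) = 13 ^ M * 13 ^ (6 * k + 1) := pow_add _ _ _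
    have h6 : (13 : ℤ) ^ M * (6 * k + 2) ≤ 13 ^ M * 13 ^ (6 * k + 1) :=
      mul_le_mul_of_nonneg_left h3 h4.le
    rw [h5] at h1 ⊢
    have h7 : (0 : ℤ) ≤ 13 ^ M * k := by positivity
    linarith
  · have := ty_x0_dl hj (show j < M + (6 * k + 1) by omega) 0
    rw [zero_mul, add_zero] at this
    rw [this]
    simp

theorem Ph_Q1_bg {M : ℕ} (hM : 1 ≤ M) (i : ℤ) :
    Q1 M x0 (og (M + 1) + i * 13 ^ (M + 1)) (b0 i).1 := by
  refine ⟨⟨some (b0 i).2, ?_⟩, fun k => ⟨some (ut k), ?_⟩⟩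
  · have h1 : og (M + 1) + i * 13 ^ (M + 1) = og M + (13 * i - 2) * 13 ^ M := by
      rw [Ph_og_succ, pow_succ]
      ring
    rw [h1, ty_x0 hM, b0_zero]
  · have h1 : og (M + 1) + i * 13 ^ (M + 1) + (k.1 + 1) * 13 ^ M
        = og M + (13 * i - 2 + (k.1 + 1)) * 13 ^ M := by
      rw [Ph_og_succ, pow_succ]
      ring
    rw [h1, ty_x0 hM, b0_succ]

theorem Ph_Q1_dl {j M : ℕ} (hj : 1 ≤ j) (hM : j < M) (i : ℤ) :
    Q1 M x0 (og (M + 1) + dl j + i * 13 ^ (M + 1)) (b0 i).1 := by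
  refine ⟨⟨some (up (b0 i).2), ?_⟩, fun k => ⟨some (up (ut k)), ?_⟩⟩
  · have h1 : og (M + 1) + dl j + i * 13 ^ (M + 1) = og M + dl j + (13 * i - 2) * 13 ^ M := by
      rw [Ph_og_succ, pow_succ]
      ring
    rw [h1, ty_x0_dl hj hM, b0_zero]
  · have h1 : og (M + 1) + dl j + i * 13 ^ (M + 1) + (k.1 + 1) * 13 ^ M
        = og M + dl j + (13 * i - 2 + (k.1 + 1)) * 13 ^ M := by
      rw [Ph_og_succ, pow_succ]
      ring
    rw [h1, ty_x0_dl hj hM, b0_succ]

theorem phases_x0 {M : ℕ} (hM : 1 ≤ M) {c : ℤ} (h : V M x0 c) :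
    (13 : ℤ) ^ M ∣ c - og M ∨ ∃ j : ℕ, 1 ≤ j ∧ j < M ∧ (13 : ℤ) ^ M ∣ c - og M - dl j := by
  induction M, hM using Nat.le_induction with
  | base =>
    left
    have := V_one (V_x0 le_rfl) h
    rwa [pow_one]
  | succ M hM ih =>
    have hc : ∀ i : ℤ, ty (M + 1) x0 (c + i * 13 ^ (M + 1)) ≠ none := fun i => V_ty h i (by omega)
    rcases ih (V_down hM (by omega) h) with h1 | ⟨j, hj, hjM, h1⟩
    · -- the phase is `og M` modulo `13 ^ M`
      have h2 : (13 : ℤ) ^ M ∣ c - og (M + 1) := by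
        have : c - og (M + 1) = (c - og M) + 2 * 13 ^ M := by
          rw [Ph_og_succ]
          ring
        rw [this]
        exact dvd_add h1 (Dvd.intro_left _ rfl)
      by_cases h3 : (13 : ℤ) ^ (M + 1) ∣ c - og (M + 1)
      · exact Or.inl h3
      · have h0 : ∀ i : ℤ, ty (M + 1) x0 (og (M + 1) + i * 13 ^ (M + 1)) ≠ none := fun i => by
          rw [ty_x0 (by omega)]
          simp
        rcases two_phases hM h2 h0 hc h3 with ⟨h4, -, -⟩ | ⟨-, -, h4⟩
        · right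
          refine ⟨M, hM, by omega, ?_⟩
          have h5 : c - og (M + 1) - dl M = (c - og (M + 1) - 13 ^ M) + 13 ^ (M + 1) := by
            rw [dl]
            ring
          rw [h5]
          exact dvd_add h4 (dvd_refl _)
        · exfalso
          obtain ⟨κ, h5⟩ := h4 0
          exact Q_excl (Ph_Q1_bg hM 0) h5
    · -- the phase is `og M + dl j` modulo `13 ^ M`
      have h2 : (13 : ℤ) ^ M ∣ c - (og (M + 1) + dl j) := by
        have : c - (og (M + 1) + dl j) = (c - og M - dl j) + 2 * 13 ^ M := by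
          rw [Ph_og_succ]
          ring
        rw [this]
        exact dvd_add h1 (Dvd.intro_left _ rfl)
      by_cases h3 : (13 : ℤ) ^ (M + 1) ∣ c - (og (M + 1) + dl j)
      · right
        refine ⟨j, hj, by omega, ?_⟩
        rwa [sub_sub]
      · exfalso
        have h0 : ∀ i : ℤ, ty (M + 1) x0 (og (M + 1) + dl j + i * 13 ^ (M + 1)) ≠ none :=
          fun i => by
            rw [ty_x0_dl hj (by omega)]
            simp
        rcases two_phases hM h2 h0 hc h3 with ⟨h4, -, h5⟩ | ⟨-, -, h4⟩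
        · obtain ⟨q, hq⟩ := h4
          obtain ⟨κ, h6⟩ := h5 0
          refine hc 0 (ty_R hM h6 ?_)
          have h7 : c + 0 * 13 ^ (M + 1) + 13 ^ M
              = og M + dl j + (13 * q - 2 + (((1 : Fin 12) : ℕ) + 1)) * 13 ^ M := by
            have : c = og (M + 1) + dl j + 13 ^ M + 13 ^ (M + 1) * q := by linarith
            rw [this, Ph_og_succ, pow_succ]
            simp only [Fin.val_one, Nat.cast_one]
            ring
          rw [h7, ty_x0_dl hj hjM, b0_succ]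
          rfl
        · obtain ⟨κ, h5⟩ := h4 0
          exact Q_excl (Ph_Q1_dl hj hjM 0) h5

theorem phases_FD {x : ℤ → Lt} (hx : FD x0 x) {M : ℕ} (hM : 1 ≤ M) {c : ℤ} (h : V M x c) :
    (13 : ℤ) ^ M ∣ c - og M ∨ ∃ j : ℕ, 1 ≤ j ∧ j < M ∧ (13 : ℤ) ^ M ∣ c - og M - dl j :=
  phases_x0 hM (V_rec Rec_x0 hx h)

end H35.RS.RF
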