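import Pool.Agent.H35.RF.Alg
import Pool.Agent.H35.RF.One

/-! # W5: calculus of the types of blocks -/

namespace H35.RS.RF
open H35.RS H35.RS.Up

theorem Ty_img_iff {ϑ : Lt → Finset (List Lt)} {L : ℕ} (hlen : ∀ a, ∀ v ∈ ϑ a, v.length = L)
    (x : ℤ → Lt) : ∀ (k : ℕ) (s : ℤ) (u : Fin k → Lt),
    wd x s (k * L) ∈ imgW ϑ (List.ofFn u) ↔ ∀ o : Fin k, wd x (s + o.1 * L) L ∈ ϑ (u o) := by
  intro k
  induction k with
  | zero =>
    intro s u
    rw [List.ofFn_zero, mem_imgW_nil, Nat.zero_mul, wd_zero]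
    exact ⟨fun _ o => o.elim0, fun _ => rfl⟩
  | succ k ih =>
    intro s u
    have e1 : wd x s ((k + 1) * L) = wd x s L ++ wd x (s + L) (k * L) := by
      rw [← wd_add]
      congr 1
      ring
    rw [List.ofFn_succ, mem_imgW_cons, e1]
    constructor
    · rintro ⟨a, ha, t, ht, he⟩
      have hl : (wd x s L).length = a.length := by rw [wd_length, hlen _ _ ha]
      obtain ⟨h1, h2⟩ := List.append_inj he hl
      rw [← h2, ih] at ht
      intro o
      refine Fin.cases ?_ (fun o => ?_) o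
      · simp only [Fin.val_zero, Nat.cast_zero, zero_mul, add_zero]
        rw [h1]
        exact ha
      · have := ht o
        rw [Fin.val_succ]
        convert this using 2
        push_cast
        ring
    · intro h
      refine ⟨wd x s L, ?_, wd x (s + L) (k * L), ?_, rfl⟩
      · have := h 0
        simpa using this
      · rw [ih]
        intro o
        have := h o.succ
        rw [Fin.val_succ] at this
        convert this using 2
        push_cast
        ring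

theorem Ty_tp_succ (n : ℕ) (x : ℤ → Lt) (s : ℤ) (a : Lt) :
    a ∈ Cst.tp (powF th (n + 1)) (13 ^ (n + 1)) x s ↔
      ∃ w ∈ ths a, ∀ o : Fin 13, w o ∈ Cst.tp (powF th n) (13 ^ n) x (s + o.1 * 13 ^ n) := by
  have e : (13 : ℕ) ^ (n + 1) = 13 * 13 ^ n := by ring
  rw [Cst.mem_tp, mem_powF, e, add_comm n 1, comp]
  have hlen : ∀ a, ∀ v ∈ powF th n a, v.length = 13 ^ n := powF_length th_len n
  constructor
  · rintro ⟨u, hu, hv⟩
    obtain ⟨w, hw, rfl⟩ := mem_th.1 (mem_powF_one.1 (mem_powF.2 hu))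
    refine ⟨w, hw, fun o => ?_⟩
    have := (Ty_img_iff hlen x 13 s w).1 hv o
    rw [Cst.mem_tp]
    push_cast at this
    exact this
  · rintro ⟨w, hw, h⟩
    refine ⟨List.ofFn w, mem_powF.1 (mem_powF_one.2 (mem_th.2 ⟨w, hw, rfl⟩)), ?_⟩
    refine (Ty_img_iff hlen x 13 s w).2 fun o => ?_
    have := h o
    rw [Cst.mem_tp] at this
    push_cast
    exact this

theorem Ty_tp_one (x : ℤ → Lt) (s : ℤ) {w : Fin 13 → Lt} (h : ∀ o : Fin 13, x (s + o.1) = w o) :
    Cst.tp (powF th 1) (13 ^ 1) x s = S1 w := by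
  ext a
  show wd x s (13 ^ 1) ∈ powF th 1 a ↔ w ∈ ths a
  rw [mem_powF_one, ← ofFn_mem_th]
  have e : wd x s (13 ^ 1) = List.ofFn w := by
    apply List.ext_getElem
    · rw [wd_length, List.length_ofFn]
      norm_num
    · intro k h1 h2
      rw [List.length_ofFn] at h2
      simp only [wd, List.getElem_map, List.getElem_range, List.getElem_ofFn]
      exact h ⟨k, h2⟩
  rw [e]

theorem tys_some {S : Set Lt} {τ : Ty} : tys S = some τ ↔ S = St τ := by
  unfold tys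
  constructor
  · intro h
    split at h
    · rename_i hex
      have h1 := Option.some.inj h
      rw [← h1]
      exact hex.choose_spec
    · exact absurd h (by simp)
  · intro h
    have hex : ∃ τ : Ty, S = St τ := ⟨τ, h⟩
    rw [dif_pos hex]
    congr 1
    exact St_inj (hex.choose_spec.symm.trans h)

theorem Ty_tys_none {S : Set Lt} (h : S = ∅ ∨ ∃ τ : Ty, S = St τ) : tys S = none ↔ S = ∅ := by
  constructor
  · intro hn
    rcases h with h | ⟨τ, h⟩
    · exact h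
    · rw [tys_some.2 h] at hn
      exact absurd hn (by simp)
  · intro he
    cases ht : tys S with
    | none => rfl
    | some τ =>
      have := tys_some.1 ht
      rw [he] at this
      exact absurd this.symm St_ne

theorem ty_some {n : ℕ} {x : ℤ → Lt} {s : ℤ} {τ : Ty} :
    ty n x s = some τ ↔ Cst.tp (powF th n) (13 ^ n) x s = St τ := tys_some

/-- the tuple of the types of the sub-blocks when all of them are types -/
theorem Ty_tp_eq {n : ℕ} {x : ℤ → Lt} {s : ℤ} {t : Fin 13 → Ty}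
    (h : ∀ o : Fin 13, ty n x (s + o.1 * 13 ^ n) = some (t o)) :
    Cst.tp (powF th (n + 1)) (13 ^ (n + 1)) x s = Th t := by
  ext a
  rw [Ty_tp_succ]
  show _ ↔ ∃ w ∈ ths a, ∀ o, w o ∈ St (t o)
  constructor
  · rintro ⟨w, hw, ho⟩
    refine ⟨w, hw, fun o => ?_⟩
    rw [← ty_some.1 (h o)]
    exact ho o
  · rintro ⟨w, hw, ho⟩
    refine ⟨w, hw, fun o => ?_⟩
    rw [ty_some.1 (h o)]
    exact ho o

theorem tp_cases {n : ℕ} (hn : 1 ≤ n) (x : ℤ → Lt) (s : ℤ) :
    Cst.tp (powF th n) (13 ^ n) x s = ∅ ∨ ∃ τ : Ty, Cst.tp (powF th n) (13 ^ n) x s = St τ := by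
  induction n, hn using Nat.le_induction generalizing s with
  | base =>
    rw [Ty_tp_one x s (w := fun o => x (s + o.1)) (fun o => rfl)]
    exact one_cases _
  | succ n hn ih =>
    by_cases hall : ∀ o : Fin 13, ∃ τ : Ty,
        Cst.tp (powF th n) (13 ^ n) x (s + o.1 * 13 ^ n) = St τ
    · choose t ht using hall
      rw [Ty_tp_eq (t := t) (fun o => ty_some.2 (ht o))]
      exact Th_cases t
    · left
      push Not at hall
      obtain ⟨o, ho⟩ := hall
      have h1 : Cst.tp (powF th n) (13 ^ n) x (s + o.1 * 13 ^ n) = ∅ := by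
        rcases ih (s + o.1 * 13 ^ n) with h | ⟨τ, h⟩
        · exact h
        · exact absurd h (ho τ)
      rw [Set.eq_empty_iff_forall_notMem]
      intro a ha
      obtain ⟨w, -, hw⟩ := (Ty_tp_succ n x s a).1 ha
      have := hw o
      rw [h1] at this
      exact this

theorem ty_none {n : ℕ} (hn : 1 ≤ n) {x : ℤ → Lt} {s : ℤ} :
    ty n x s = none ↔ Cst.tp (powF th n) (13 ^ n) x s = ∅ := Ty_tys_none (tp_cases hn x s)

theorem Ty_St_sub {κ κ' : Bool} {τ τ' : Option Col} : St (κ, τ) ⊆ St (κ', τ') ↔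
    κ = κ' ∧ (τ' = none ∨ τ = τ') := by
  constructor
  · intro h
    have h0 : ((κ, none) : Lt) ∈ St (κ, τ) := by
      refine ⟨rfl, ?_⟩
      cases τ with
      | none => exact Or.inl rfl
      | some d => exact Or.inr (by simp)
    refine ⟨(h h0).1, ?_⟩
    cases τ' with
    | none => exact Or.inl rfl
    | some d' =>
      right
      by_contra hne
      have h1 : ((κ, some d') : Lt) ∈ St (κ, τ) := ⟨rfl, Or.inr fun h => hne h.symm⟩
      rcases (h h1).2 with h2 | h2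
      · exact absurd h2 (by simp)
      · exact h2 rfl
  · rintro ⟨rfl, h | h⟩
    · subst h
      rintro a ⟨h1, -⟩
      exact ⟨h1, Or.inl rfl⟩
    · subst h
      exact fun a ha => ha

theorem tle_iff {n : ℕ} (hn : 1 ≤ n) {x x' : ℤ → Lt} {s s' : ℤ} :
    tle (ty n x s) (ty n x' s') ↔
      Cst.tp (powF th n) (13 ^ n) x s ⊆ Cst.tp (powF th n) (13 ^ n) x' s' := by
  constructor
  · rintro (h | h | ⟨κ, τ, h, h'⟩)
    · rw [(ty_none hn).1 h]
      exact Set.empty_subset _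
    · cases ht : ty n x s with
      | none =>
        rw [(ty_none hn).1 ht]
        exact Set.empty_subset _
      | some τ =>
        rw [ty_some.1 ht, ty_some.1 (h ▸ ht)]
    · rw [ty_some.1 h, ty_some.1 h']
      exact Ty_St_sub.2 ⟨rfl, Or.inl rfl⟩
  · intro h
    cases ht : ty n x s with
    | none => exact Or.inl rfl
    | some a =>
      obtain ⟨κ, τ⟩ := a
      right
      rw [ty_some.1 ht] at h
      cases ht' : ty n x' s' with
      | none =>
        rw [(ty_none hn).1 ht'] at h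
        exact absurd (Set.subset_empty_iff.1 h) St_ne
      | some b =>
        obtain ⟨κ', τ'⟩ := b
        rw [ty_some.1 ht'] at h
        obtain ⟨rfl, h2 | h2⟩ := Ty_St_sub.1 h
        · subst h2
          exact Or.inr ⟨κ, τ, rfl, rfl⟩
        · subst h2
          exact Or.inl rfl

theorem tle_refl (t : Option Ty) : tle t t := Or.inr (Or.inl rfl)

theorem tle_trans {t t' t'' : Option Ty} (h : tle t t') (h' : tle t' t'') : tle t t'' := by
  rcases h with h | h | ⟨κ, τ, h1, h2⟩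
  · exact Or.inl h
  · rw [h]
    exact h'
  · rcases h' with h' | h' | ⟨κ', τ', h1', h2'⟩
    · rw [h2] at h'
      exact absurd h' (by simp)
    · rw [← h', h1, h2]
      exact Or.inr (Or.inr ⟨κ, τ, rfl, rfl⟩)
    · rw [h2] at h1'
      have h3 := Option.some.inj h1'
      have h4 : κ = κ' := congrArg Prod.fst h3
      rw [h1, h2', ← h4]
      exact Or.inr (Or.inr ⟨κ, τ, rfl, rfl⟩)

theorem tle_antisymm {t t' : Option Ty} (h : tle t t') (h' : tle t' t) : t = t' := by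
  rcases h with h | h | ⟨κ, τ, h1, h2⟩
  · subst h
    rcases h' with h' | h' | ⟨κ', τ', h1', h2'⟩
    · exact h'.symm
    · exact h'.symm
    · exact absurd h2' (by simp)
  · exact h
  · rcases h' with h' | h' | ⟨κ', τ', h1', h2'⟩
    · rw [h2] at h'
      exact absurd h' (by simp)
    · exact h'.symm
    · rw [h2] at h1'
      rw [h1] at h2'
      have h3 := Option.some.inj h1'
      have h4 := Option.some.inj h2'
      have h5 : κ = κ' := congrArg Prod.fst h3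
      have h6 : τ = none := congrArg Prod.snd h4
      rw [h1, h2, h6]

theorem ty_congr {n : ℕ} {x x' : ℤ → Lt} {s s' : ℤ}
    (h : ∀ k : ℤ, 0 ≤ k → k < 13 ^ n → x (s + k) = x' (s' + k)) : ty n x s = ty n x' s' := by
  unfold ty
  rw [Cst.tp_congr (ϑ := powF th n) (L := 13 ^ n) (x := x) (x' := x') (i := s) (j := s')]
  intro k h1 h2
  push_cast at h2
  exact h k h1 h2

theorem ty_sh (n : ℕ) (k : ℤ) (x : ℤ → Lt) (s : ℤ) : ty n (sh k x) s = ty n x (s + k) := by
  unfold ty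
  rw [Cst.tp_sh]

theorem ty_succ {n : ℕ} {x : ℤ → Lt} {s : ℤ} {t : Fin 13 → Ty}
    (h : ∀ o : Fin 13, ty n x (s + o.1 * 13 ^ n) = some (t o)) : ty (n + 1) x s = tys (Th t) := by
  unfold ty
  rw [Ty_tp_eq h]

theorem ty_succ_ne {n : ℕ} (hn : 1 ≤ n) {x : ℤ → Lt} {s : ℤ} (h : ty (n + 1) x s ≠ none) :
    ∀ o : Fin 13, ty n x (s + o.1 * 13 ^ n) ≠ none := by
  intro o ho
  apply h
  rw [ty_none (by omega), Set.eq_empty_iff_forall_notMem]
  intro a ha
  obtain ⟨w, -, hw⟩ := (Ty_tp_succ n x s a).1 ha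
  have := hw o
  rw [(ty_none hn).1 ho] at this
  exact this

/-- choice of the tuple of the types of the sub-blocks -/
theorem Ty_tuple {n : ℕ} (hn : 1 ≤ n) {x : ℤ → Lt} {s : ℤ} {τ : Ty} (h : ty (n + 1) x s = some τ) :
    ∃ t : Fin 13 → Ty, (∀ o : Fin 13, ty n x (s + o.1 * 13 ^ n) = some (t o)) ∧ Th t = St τ := by
  have h1 := ty_succ_ne hn (x := x) (s := s) (by rw [h]; simp)
  have h2 : ∀ o : Fin 13, ∃ τ, ty n x (s + o.1 * 13 ^ n) = some τ := fun o =>
    Option.ne_none_iff_exists'.1 (h1 o)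
  choose t ht using h2
  refine ⟨t, ht, ?_⟩
  rw [ty_succ ht] at h
  exact tys_some.1 h

theorem Ty_p1_0 {n : ℕ} {x : ℤ → Lt} {s : ℤ} {t : Fin 13 → Ty}
    (h : ∀ o : Fin 13, ty n x (s + o.1 * 13 ^ n) = some (t o)) : ty n x s = some (t 0) := by
  have := h 0
  simpa using this

theorem Ty_p1_s {n : ℕ} {x : ℤ → Lt} {s : ℤ} {t : Fin 13 → Ty}
    (h : ∀ o : Fin 13, ty n x (s + o.1 * 13 ^ n) = some (t o)) (j : Fin 12) :
    ty n x (s + (j.1 + 1) * 13 ^ n) = some (t j.succ) := by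
  have := h j.succ
  rw [Fin.val_succ] at this
  push_cast at this
  exact this

theorem Ty_p2_c {n : ℕ} {x : ℤ → Lt} {s : ℤ} {t : Fin 13 → Ty}
    (h : ∀ o : Fin 13, ty n x (s + o.1 * 13 ^ n) = some (t o)) (j : Fin 12) :
    ty n x (s + j.1 * 13 ^ n) = some (t j.castSucc) := by
  have := h j.castSucc
  exact this

theorem Ty_p2_l {n : ℕ} {x : ℤ → Lt} {s : ℤ} {t : Fin 13 → Ty}
    (h : ∀ o : Fin 13, ty n x (s + o.1 * 13 ^ n) = some (t o)) :
    ty n x (s + 12 * 13 ^ n) = some (t 12) := by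
  have := h 12
  exact this

theorem Ty_p2_1 {n : ℕ} {x : ℤ → Lt} {s : ℤ} {t : Fin 13 → Ty}
    (h : ∀ o : Fin 13, ty n x (s + o.1 * 13 ^ n) = some (t o)) :
    ty n x (s + 13 ^ n) = some (t 1) := by
  have := h 1
  simpa using this

theorem ty_pat {n : ℕ} (hn : 1 ≤ n) {x : ℤ → Lt} {s : ℤ} {τ : Ty} (h : ty (n + 1) x s = some τ) :
    Q1 n x s τ.1 ∨ Q2 n x s τ.1 := by
  obtain ⟨t, ht, hT⟩ := Ty_tuple hn h
  rcases Th_pat hT with ⟨h1, h2⟩ | ⟨h1, h2⟩
  · left
    refine ⟨⟨(t 0).2, ?_⟩, fun j => ⟨(t j.succ).2, ?_⟩⟩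
    · rw [Ty_p1_0 ht, ← h1]
    · rw [Ty_p1_s ht, ← h2 j]
  · right
    refine ⟨fun j => ⟨(t j.castSucc).2, ?_⟩, ⟨(t 12).2, ?_⟩⟩
    · rw [Ty_p2_c ht, ← h1 j]
    · rw [Ty_p2_l ht, ← h2]

/-- the tuple of a block of pattern P1 -/
theorem Ty_mk1 {n : ℕ} {x : ℤ → Lt} {s : ℤ} {t0 : Ty} {t : Fin 12 → Ty} (h0 : ty n x s = some t0)
    (h : ∀ j : Fin 12, ty n x (s + (j.1 + 1) * 13 ^ n) = some (t j)) :
    ∀ o : Fin 13, ty n x (s + o.1 * 13 ^ n) = some ((Fin.cons t0 t : Fin 13 → Ty) o) := by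
  intro o
  refine Fin.cases ?_ (fun j => ?_) o
  · rw [Fin.cons_zero]
    simpa using h0
  · rw [Fin.cons_succ, Fin.val_succ]
    push_cast
    exact h j

/-- the tuple of a block of pattern P2 -/
theorem Ty_mk2 {n : ℕ} {x : ℤ → Lt} {s : ℤ} {t0 : Ty} {t : Fin 12 → Ty}
    (h : ∀ j : Fin 12, ty n x (s + j.1 * 13 ^ n) = some (t j))
    (h0 : ty n x (s + 12 * 13 ^ n) = some t0) :
    ∀ o : Fin 13, ty n x (s + o.1 * 13 ^ n) =
      some ((Fin.snoc (α := fun _ => Ty) t t0 : Fin 13 → Ty) o) := by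
  intro o
  refine Fin.lastCases ?_ (fun j => ?_) o
  · rw [Fin.snoc_last]
    exact h0
  · rw [Fin.snoc_castSucc]
    exact h j

theorem ty_A {n : ℕ} (hn : 1 ≤ n) {x : ℤ → Lt} {s : ℤ} {c : Bool} {a : Col} (ha : a < 2) :
    ty (n + 1) x s = some (c, some a) ↔ ty n x s = some (c, some a) ∧
      ∀ j : Fin 12, ty n x (s + (j.1 + 1) * 13 ^ n) = some (cls j, some (ut j)) := by
  constructor
  · intro h
    obtain ⟨t, ht, hT⟩ := Ty_tuple hn h
    obtain ⟨h1, h2⟩ := (Th_A ha).1 hT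
    refine ⟨?_, fun j => ?_⟩
    · rw [Ty_p1_0 ht, h1]
    · rw [Ty_p1_s ht, h2 j]
  · rintro ⟨h1, h2⟩
    rw [ty_succ (Ty_mk1 h1 h2), tys_some]
    refine (Th_A ha).2 ⟨?_, fun j => ?_⟩
    · rw [Fin.cons_zero]
    · rw [Fin.cons_succ]

theorem ty_B {n : ℕ} (hn : 1 ≤ n) {x : ℤ → Lt} {s : ℤ} {c : Bool} {a : Col} (ha : a < 2) :
    ty (n + 1) x s = some (c, some (up a)) ↔
      (ty n x s = some (c, some (up a)) ∧
        ∀ j : Fin 12, ty n x (s + (j.1 + 1) * 13 ^ n) = some (cls j, some (up (ut j)))) ∨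
      ((∀ j : Fin 12, j ≠ 1 → ty n x (s + j.1 * 13 ^ n) = some (cls j, some (ut j))) ∧
        (∃ τ, τ ≠ some 2 ∧ ty n x (s + 13 ^ n) = some (false, τ)) ∧
        ty n x (s + 12 * 13 ^ n) = some (c, some a)) := by
  constructor
  · intro h
    obtain ⟨t, ht, hT⟩ := Ty_tuple hn h
    rcases (Th_B ha).1 hT with ⟨h1, h2⟩ | ⟨h1, h2, h3, h4⟩
    · left
      refine ⟨?_, fun j => ?_⟩
      · rw [Ty_p1_0 ht, h1]
      · rw [Ty_p1_s ht, h2 j]
    · right
      refine ⟨fun j hj => ?_, ⟨(t 1).2, h3, ?_⟩, ?_⟩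
      · rw [Ty_p2_c ht, h1 j hj]
      · rw [Ty_p2_1 ht, ← h2]
      · rw [Ty_p2_l ht, h4]
  · rintro (⟨h1, h2⟩ | ⟨h1, ⟨τ, h2, h3⟩, h4⟩)
    · rw [ty_succ (Ty_mk1 h1 h2), tys_some]
      refine (Th_B ha).2 (Or.inl ⟨?_, fun j => ?_⟩)
      · rw [Fin.cons_zero]
      · rw [Fin.cons_succ]
    · have h5 : ∀ j : Fin 12, ty n x (s + j.1 * 13 ^ n) =
          some ((fun j : Fin 12 => if j = 1 then ((false, τ) : Ty) else (cls j, some (ut j))) j) := by
        intro j
        by_cases hj : j = 1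
        · subst hj
          simpa using h3
        · simp only [hj, if_false]
          exact h1 j hj
      rw [ty_succ (Ty_mk2 h5 h4), tys_some]
      have e1 : (1 : Fin 13) = (1 : Fin 12).castSucc := rfl
      have e2 : (12 : Fin 13) = Fin.last 12 := rfl
      refine (Th_B ha).2 (Or.inr ⟨fun j hj => ?_, ?_, ?_, ?_⟩)
      · rw [Fin.snoc_castSucc]
        simp only [hj, if_false]
      · rw [e1, Fin.snoc_castSucc]
        simp
      · rw [e1, Fin.snoc_castSucc]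
        simpa using h2
      · rw [e2, Fin.snoc_last]

theorem Ty_P1t {n : ℕ} {x : ℤ → Lt} {s : ℤ} {c : Bool} (h : Q1 n x s c) :
    ∃ t : Fin 13 → Ty, P1t t c ∧ ∀ o : Fin 13, ty n x (s + o.1 * 13 ^ n) = some (t o) := by
  obtain ⟨⟨τ, h0⟩, h⟩ := h
  choose f hf using h
  refine ⟨_, ?_, Ty_mk1 h0 hf⟩
  exact ⟨by rw [Fin.cons_zero], fun j => by rw [Fin.cons_succ]⟩

theorem Ty_P2t {n : ℕ} {x : ℤ → Lt} {s : ℤ} {c : Bool} (h : Q2 n x s c) :
    ∃ t : Fin 13 → Ty, P2t t c ∧ ∀ o : Fin 13, ty n x (s + o.1 * 13 ^ n) = some (t o) := by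
  obtain ⟨h, ⟨τ, h0⟩⟩ := h
  choose f hf using h
  refine ⟨_, ?_, Ty_mk2 hf h0⟩
  have e2 : (12 : Fin 13) = Fin.last 12 := rfl
  exact ⟨fun j => by rw [Fin.snoc_castSucc], by rw [e2, Fin.snoc_last]⟩

theorem ty_R {n : ℕ} (hn : 1 ≤ n) {x : ℤ → Lt} {s : ℤ} {c : Bool} (h : Q2 n x s c)
    (h1 : ty n x (s + 13 ^ n) = some (false, some 2)) : ty (n + 1) x s = none := by
  obtain ⟨t, hP, ht⟩ := Ty_P2t h
  have h2 : t 1 = (false, some 2) := by
    have := (Ty_p2_1 ht).symm.trans h1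
    exact Option.some.inj this
  rw [ty_succ ht]
  exact (Ty_tys_none (Or.inl (Th_R hP h2))).2 (Th_R hP h2)

theorem ty_F {n : ℕ} (hn : 1 ≤ n) {x : ℤ → Lt} {s : ℤ} {c : Bool} (h : Q1 n x s c ∨ Q2 n x s c)
    (h1 : ∀ o : Fin 13, ∃ κ, ty n x (s + o.1 * 13 ^ n) = some (κ, none)) :
    ty (n + 1) x s = some (c, none) := by
  have key : ∀ t : Fin 13 → Ty, (P1t t c ∨ P2t t c) →
      (∀ o : Fin 13, ty n x (s + o.1 * 13 ^ n) = some (t o)) → ty (n + 1) x s = some (c, none) := by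
    intro t hP ht
    rw [ty_succ ht, tys_some]
    apply Th_F hP
    intro o
    obtain ⟨κ, hκ⟩ := h1 o
    rw [ht o] at hκ
    rw [Option.some.inj hκ]
  rcases h with h | h
  · obtain ⟨t, hP, ht⟩ := Ty_P1t h
    exact key t (Or.inl hP) ht
  · obtain ⟨t, hP, ht⟩ := Ty_P2t h
    exact key t (Or.inr hP) ht

/-- in a block of pattern P2 with sub-blocks of type `F` one sub-block may be arbitrary -/
theorem exists_star (c κ : Bool) : ∃ j : Fin 12, cls j = κ ∧ ∀ {n : ℕ}, 1 ≤ n →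
    ∀ {x : ℤ → Lt} {s : ℤ}, Q2 n x s c →
      (∀ o : Fin 13, o ≠ j.castSucc → ∃ κ', ty n x (s + o.1 * 13 ^ n) = some (κ', none)) →
      ty (n + 1) x s = some (c, none) := by
  obtain ⟨m, j, x1, hV, hj, hm⟩ := one_star c κ
  refine ⟨j, hj, ?_⟩
  intro n hn x s hQ hF
  obtain ⟨t, ⟨hP1, hP2⟩, ht⟩ := Ty_P2t hQ
  have hnone : ∀ o : Fin 13, o ≠ j.castSucc → (t o).2 = none := by
    intro o ho
    obtain ⟨κ', hκ⟩ := hF o ho
    rw [ht o] at hκ
    rw [Option.some.inj hκ]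
  have hlast : (Fin.last 12 : Fin 13) ≠ j.castSucc := (Fin.castSucc_lt_last j).ne'
  have e2 : (12 : Fin 13) = Fin.last 12 := rfl
  have hsub : St (c, none) ⊆ Th t := by
    rintro a ⟨ha, -⟩
    refine ⟨pat2 c x1 m, mem_ths.2 (Or.inl ?_), fun o => ?_⟩
    · have : a.1 = c := ha
      rw [this]
      exact hV
    · refine Fin.lastCases ?_ (fun j' => ?_) o
      · refine ⟨?_, Or.inl (hnone _ hlast)⟩
        unfold pat2
        rw [Fin.snoc_last, ← e2, hP2]
      · unfold pat2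
        rw [Fin.snoc_castSucc]
        refine ⟨(hP1 j').symm, ?_⟩
        by_cases hjj : j' = j
        · subst hjj
          show (t j'.castSucc).2 = none ∨ m j' ≠ (t j'.castSucc).2
          rw [hm]
          cases (t j'.castSucc).2 with
          | none => exact Or.inl rfl
          | some d => exact Or.inr (by simp)
        · left
          apply hnone
          intro h
          exact hjj (Fin.castSucc_injective 12 h)
  rw [ty_succ ht, tys_some]
  rcases Th_cases t with h | ⟨τ, h⟩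
  · rw [h] at hsub
    exact absurd (Set.subset_empty_iff.1 hsub) St_ne
  · rw [h] at hsub ⊢
    obtain ⟨κ', τ'⟩ := τ
    obtain ⟨rfl, h2 | h2⟩ := Ty_St_sub.1 hsub
    · rw [h2]
    · rw [← h2]

theorem ty_mono {n : ℕ} (hn : 1 ≤ n) {x x' : ℤ → Lt} {s s' : ℤ}
    (h : ∀ o : Fin 13, tle (ty n x (s + o.1 * 13 ^ n)) (ty n x' (s' + o.1 * 13 ^ n))) :
    tle (ty (n + 1) x s) (ty (n + 1) x' s') := by
  rw [tle_iff (by omega)]
  intro a ha
  obtain ⟨w, hw, ho⟩ := (Ty_tp_succ n x s a).1 ha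
  exact (Ty_tp_succ n x' s' a).2 ⟨w, hw, fun o => (tle_iff hn).1 (h o) (ho o)⟩

/-- level 1 -/
theorem ty_one {x : ℤ → Lt} {s : ℤ} {w : Fin 13 → Lt} (h : ∀ o : Fin 13, x (s + o.1) = w o) :
    ty 1 x s = tys (S1 w) := by
  unfold ty
  rw [Ty_tp_one x s h]

/-- blocks with the same rigid type are equal -/
theorem ty_A_uniq {n : ℕ} (hn : 1 ≤ n) {x x' : ℤ → Lt} {s s' : ℤ} {c : Bool} {a : Col}
    (ha : a < 2) (h : ty n x s = some (c, some a)) (h' : ty n x' s' = some (c, some a)) :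
    ∀ k : ℤ, 0 ≤ k → k < 13 ^ n → x (s + k) = x' (s' + k) := by
  have hut : ∀ j : Fin 12, ut j < 2 := by decide
  induction n, hn using Nat.le_induction generalizing s s' c a with
  | base =>
    rw [ty_one (w := fun o => x (s + o.1)) (fun o => rfl), tys_some, one_A ha] at h
    rw [ty_one (w := fun o => x' (s' + o.1)) (fun o => rfl), tys_some, one_A ha] at h'
    intro k h1 h2
    have h3 : k < 13 := by simpa using h2
    have e := congrFun (h.trans h'.symm) ⟨k.toNat, by omega⟩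
    have e2 : ((k.toNat : ℕ) : ℤ) = k := Int.toNat_of_nonneg h1
    simp only [e2] at e
    exact e
  | succ n hn ih =>
    obtain ⟨h1, h2⟩ := (ty_A hn ha).1 h
    obtain ⟨h1', h2'⟩ := (ty_A hn ha).1 h'
    intro k hk1 hk2
    have hL : (0 : ℤ) < 13 ^ n := by positivity
    obtain ⟨q, hq⟩ : ∃ q : ℤ, q = k / 13 ^ n := ⟨_, rfl⟩
    obtain ⟨r, hr⟩ : ∃ r : ℤ, r = k % 13 ^ n := ⟨_, rfl⟩
    have hkq : q * 13 ^ n + r = k := by
      rw [hq, hr]
      exact Int.ediv_mul_add_emod k _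
    have hr0 : 0 ≤ r := by rw [hr]; exact Int.emod_nonneg _ hL.ne'
    have hr1 : r < 13 ^ n := by rw [hr]; exact Int.emod_lt_of_pos _ hL
    have hq0 : 0 ≤ q := by rw [hq]; exact Int.ediv_nonneg hk1 hL.le
    have hq1 : q < 13 := by
      rw [hq]
      apply Int.ediv_lt_of_lt_mul hL
      rw [pow_succ] at hk2
      linarith
    have hs : s + k = s + q * 13 ^ n + r := by rw [← hkq]; ring
    have hs' : s' + k = s' + q * 13 ^ n + r := by rw [← hkq]; ring
    rw [hs, hs']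
    by_cases h0 : q = 0
    · rw [h0, zero_mul, add_zero, add_zero]
      exact ih ha h1 h1' r hr0 hr1
    · obtain ⟨j, hj⟩ : ∃ j : Fin 12, (j.1 : ℤ) + 1 = q := ⟨⟨q.toNat - 1, by omega⟩, by
        show ((q.toNat - 1 : ℕ) : ℤ) + 1 = q
        omega⟩
      rw [← hj]
      exact ih (hut j) (h2 j) (h2' j) r hr0 hr1

theorem ty_one_word (τ : Ty) : ∃ w : Fin 13 → Lt, ∀ (x : ℤ → Lt) (s : ℤ),
    (∀ o : Fin 13, x (s + o.1) = w o) → ty 1 x s = some τ := by
  obtain ⟨w, hw⟩ := one_ex τ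
  refine ⟨w, fun x s h => ?_⟩
  rw [ty_one h, tys_some]
  exact hw

theorem ty_one_twin {x : ℤ → Lt} {s : ℤ} {τ : Ty} (h : ty 1 x s = some τ)
    (h1 : ∀ a : Col, a < 2 → τ.2 ≠ some a) : ∃ w : Fin 13 → Lt, (∃ o : Fin 13, w o ≠ x (s + o.1)) ∧
      ∀ x' : ℤ → Lt, (∀ o : Fin 13, x' (s + o.1) = w o) → ty 1 x' s = some τ := by
  rw [ty_one (w := fun o => x (s + o.1)) (fun o => rfl), tys_some] at h
  obtain ⟨w', hne, hw'⟩ := one_twin h h1
  refine ⟨w', ?_, fun x' hx' => ?_⟩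
  · by_contra hcon
    push Not at hcon
    exact hne (funext hcon)
  · rw [ty_one hx', tys_some]
    exact hw'

theorem ty_one_rw1 {x : ℤ → Lt} {s : ℤ} {c : Bool} {a : Col} (ha : a < 2)
    (h : ∀ o : Fin 13, x (s + o.1) = rw1 (c, a) o) : ty 1 x s = some (c, some a) := by
  rw [ty_one h, tys_some, one_A ha]

end H35.RS.RF
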