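import Pool.Agent.H35.RF.Ty

/-! # W6: valid phases -/

namespace H35.RS.RF
open H35.RS H35.RS.Up

theorem Val_cast (n : ℕ) : (((13 ^ n : ℕ) : ℕ) : ℤ) = (13 : ℤ) ^ n := by
  push_cast
  rfl

theorem Val_sub {n : ℕ} (hn : 1 ≤ n) : subshift (powF th n) = X :=
  subshift_powF th_random th_primitive hn

theorem Val_iff {n : ℕ} {x : ℤ → Lt} {c : ℤ} : V n x c ↔ ∃ y ∈ subshift (powF th n),
    ∀ i : ℤ, y i ∈ Cst.tp (powF th n) (13 ^ n) x (c + i * 13 ^ n) := by
  unfold V Cst.Valid
  simp only [Val_cast]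
  exact Iff.rfl

theorem Val_chunk {A : Type*} {ϑ : A → Finset (List A)} {L : ℕ}
    (hlen : ∀ a, ∀ v ∈ ϑ a, v.length = L) (x : ℤ → A) : ∀ (u : List A) (s : ℤ),
    wd x s (u.length * L) ∈ imgW ϑ u → ∀ (k : ℕ) (h : k < u.length),
      wd x (s + k * L) L ∈ ϑ u[k] := by
  intro u
  induction u with
  | nil =>
    intro s _ k h
    simp at h
  | cons a u ih =>
    rintro s ⟨s', hs', t, ht, he⟩ k h
    have h1 : (a :: u).length * L = L + u.length * L := by
      rw [List.length_cons]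
      ring
    rw [h1, wd_add] at he
    obtain ⟨e1, e2⟩ := List.append_inj he (by rw [wd_length, hlen a s' hs'])
    cases k with
    | zero =>
      simp only [Nat.cast_zero, zero_mul, add_zero, List.getElem_cons_zero]
      rw [e1]
      exact hs'
    | succ k =>
      rw [← e2] at ht
      have h2 := ih _ ht k (by simpa using h)
      rw [List.getElem_cons_succ]
      convert h2 using 2
      push_cast
      ring

theorem V_ty {n : ℕ} {x : ℤ → Lt} {c : ℤ} (h : V n x c) (i : ℤ) :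
    1 ≤ n → ty n x (c + i * 13 ^ n) ≠ none := by
  intro hn he
  obtain ⟨y, -, hy⟩ := Val_iff.1 h
  rw [ty_none hn] at he
  have := hy i
  rw [he] at this
  exact this

theorem Val_mod {n : ℕ} {x : ℤ → Lt} {c c' : ℤ} (h : (13 : ℤ) ^ n ∣ c' - c) (hv : V n x c) :
    V n x c' := by
  obtain ⟨d, hd⟩ := h
  have h1 := Cst.valid_add hv d
  rw [Val_cast] at h1
  have h2 : c' = c + d * 13 ^ n := by linarith
  rw [h2]
  exact h1

theorem V_mod {n : ℕ} {x : ℤ → Lt} {c c' : ℤ} (h : (13 : ℤ) ^ n ∣ c' - c) : V n x c ↔ V n x c' := by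
  refine ⟨Val_mod h, Val_mod ?_⟩
  rw [← dvd_neg, neg_sub]
  exact h

theorem V_sh {n : ℕ} {x : ℤ → Lt} (k c : ℤ) : V n (sh k x) c ↔ V n x (c + k) :=
  Cst.valid_sh k c

theorem Val_down {n : ℕ} (hn : 1 ≤ n) {x : ℤ → Lt} {c : ℤ} (h : V (n + 1) x c) : V n x c := by
  obtain ⟨y, hy, hi⟩ := Val_iff.1 h
  rw [Val_sub (by omega)] at hy
  have h1 : ∀ i : ℤ, ∃ u ∈ th (y i), wd x (c + i * 13 ^ (n + 1)) (13 ^ (n + 1)) ∈
      imgW (powF th n) u := by
    intro i
    have h2 := mem_powF.1 (hi i)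
    rw [add_comm n 1, comp] at h2
    obtain ⟨u, hu, h3⟩ := h2
    refine ⟨u, ?_, ?_⟩
    · exact mem_powF_one.1 (mem_powF.2 hu)
    · rw [add_comm n 1]
      exact h3
  choose u hu hw using h1
  have hlen : ∀ i, (u i).length = 13 := fun i => th_len _ _ (hu i)
  obtain ⟨z, hz⟩ : ∃ z : ℤ → Lt, ∀ m : ℤ,
      z m = (u (m / 13))[(m % 13).toNat]'(by rw [hlen]; omega) := ⟨_, fun m => rfl⟩
  have hz' : ∀ (q : ℤ) (r : ℕ) (hr : r < 13), z (q * 13 + r) = (u q)[r]'(by rw [hlen]; exact hr) := by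
    intro q r hr
    rw [hz]
    have e1 : (q * 13 + r) / 13 = q := by omega
    have e2 : ((q * 13 + r) % 13).toNat = r := by omega
    simp only [e1, e2]
  have hzX : z ∈ X := by
    refine mem_subshift_of_tiles th_random hy u (fun i => i * 13) hu ?_ ?_
    · intro i
      rw [hlen]
      push_cast
      ring
    · intro i
      apply List.ext_getElem
      · rw [wd_length]
      · intro k h1 h2
        rw [hlen] at h2
        rw [B2.wd_getElem]
        exact hz' i k h2
  rw [Val_iff]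
  refine ⟨z, by rw [Val_sub hn]; exact hzX, fun m => ?_⟩
  obtain ⟨q, r, hr, rfl⟩ : ∃ (q : ℤ) (r : ℕ), r < 13 ∧ m = q * 13 + r :=
    ⟨m / 13, (m % 13).toNat, by omega, by omega⟩
  rw [hz' q r hr]
  have h3 := hw q
  have h4 : (13 : ℕ) ^ (n + 1) = (u q).length * 13 ^ n := by
    rw [hlen, pow_succ]
    ring
  have h5 : wd x (c + q * 13 ^ (n + 1)) ((u q).length * 13 ^ n) ∈ imgW (powF th n) (u q) := by
    rw [← h4]
    exact h3
  have h6 := Val_chunk (powF_length th_len n) x (u q) _ h5 r (by rw [hlen]; exact hr)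
  rw [Cst.mem_tp]
  convert h6 using 2
  rw [Val_cast, pow_succ]
  ring

theorem V_down {m n : ℕ} (hm : 1 ≤ m) (hmn : m ≤ n) {x : ℤ → Lt} {c : ℤ} (h : V n x c) : V m x c := by
  induction n, hmn using Nat.le_induction with
  | base => exact h
  | succ n hn ih => exact ih (Val_down (by omega) h)

theorem V_mono {n : ℕ} (hn : 1 ≤ n) {x x' : ℤ → Lt} {c : ℤ} (h : V n x c)
    (h1 : ∀ i : ℤ, tle (ty n x (c + i * 13 ^ n)) (ty n x' (c + i * 13 ^ n))) : V n x' c := by
  obtain ⟨y, hy, hi⟩ := Val_iff.1 h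
  exact Val_iff.2 ⟨y, hy, fun i => (tle_iff hn).1 (h1 i) (hi i)⟩

theorem V_mem {n : ℕ} (hn : 1 ≤ n) {x : ℤ → Lt} {c : ℤ} (h : V n x c) : x ∈ X := by
  rw [← Val_sub hn]
  exact Cst.mem_of_tp (powF_isRandomSub th_random n) h (fun i => rfl)

theorem V_exists {x : ℤ → Lt} (hx : x ∈ X) {n : ℕ} (hn : 1 ≤ n) : ∃ c, V n x c := by
  rw [← Val_sub hn] at hx
  exact Cst.exists_valid (powF_isRandomSub th_random n) (powF_length th_len n) hx

/-- phases all of whose blocks are contained in larger and larger legal blocks are valid -/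
theorem V_exhaust {n : ℕ} (hn : 1 ≤ n) {x : ℤ → Lt} {c : ℤ}
    (h : ∀ k : ℕ, ∃ (N : ℕ) (s : ℤ), n ≤ N ∧ (13 : ℤ) ^ n ∣ s - c ∧ s ≤ c - k * 13 ^ n ∧
      c + k * 13 ^ n ≤ s + 13 ^ N ∧ ty N x s ≠ none) : V n x c := by
  have hpos : (0 : ℤ) < 13 ^ n := by positivity
  obtain ⟨y, hy⟩ := Cst.compact_seq
    (fun k y => Legal (powF th n) (wd y (-(k : ℤ)) (2 * k)) ∧
      ∀ i : ℤ, -(k : ℤ) ≤ i → i < k → y i ∈ Cst.tp (powF th n) (13 ^ n) x (c + i * 13 ^ n))
    (by
      rintro k y ⟨h1, h2⟩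
      exact ⟨Cst.legal_mono h1, fun i hi1 hi2 => h2 i (by push_cast; omega) (by push_cast; omega)⟩)
    (by
      intro k
      obtain ⟨N, s, hN, ⟨t, ht⟩, h1, h2, h3⟩ := h k
      have hN1 : 1 ≤ N := by omega
      have h4 : ∃ a, a ∈ Cst.tp (powF th N) (13 ^ N) x s := by
        by_contra hcon
        push Not at hcon
        exact h3 ((ty_none hN1).2 (Set.eq_empty_iff_forall_notMem.2 hcon))
      obtain ⟨a, ha⟩ := h4
      have h5 := mem_powF.1 ha
      have h6 : N = (N - n) + n := by omega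
      rw [h6, comp] at h5
      obtain ⟨u, hu, h7⟩ := h5
      have hul : u.length = 13 ^ (N - n) := pow_length th_len _ _ _ hu
      have h8 : (13 : ℕ) ^ (N - n + n) = u.length * 13 ^ n := by
        rw [hul, pow_add]
      rw [h8] at h7
      have h9 := Val_chunk (powF_length th_len n) x u s h7
      have hs : s = c + t * 13 ^ n := by linarith
      have ht1 : t ≤ -(k : ℤ) := by
        have : t * 13 ^ n ≤ (-(k : ℤ)) * 13 ^ n := by linarith
        exact le_of_mul_le_mul_right this hpos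
      have ht2 : (k : ℤ) ≤ t + u.length := by
        have e : (13 : ℤ) ^ N = (u.length : ℤ) * 13 ^ n := by
          rw [hul]
          push_cast
          rw [← pow_add]
          congr 1
        have : (k : ℤ) * 13 ^ n ≤ (t + u.length) * 13 ^ n := by
          rw [add_mul]
          linarith
        exact le_of_mul_le_mul_right this hpos
      refine ⟨fun i => if hi : t ≤ i ∧ i < t + u.length then u[(i - t).toNat]'(by omega) else a,
        ?_, ?_⟩
      · have h10 : Legal (powF th n) u := by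
          rw [legal_powF th_random th_primitive hn]
          exact ⟨N - n, a, u, hu, List.infix_rfl⟩
        have h11 : wd (fun i => if hi : t ≤ i ∧ i < t + u.length then
            u[(i - t).toNat]'(by omega) else a) t u.length = u := by
          apply List.ext_getElem
          · rw [wd_length]
          · intro j hj1 hj2
            rw [B2.wd_getElem]
            have e1 : t ≤ t + (j : ℤ) ∧ t + (j : ℤ) < t + u.length := by omega
            have e2 : (t + (j : ℤ) - t).toNat = j := by omega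
            simp only [e1, and_self, dite_true, e2]
        rw [← h11] at h10
        refine h10.of_infix (wd_infix _ ht1 ?_)
        push_cast
        omega
      · intro i hi1 hi2
        have e1 : t ≤ i ∧ i < t + u.length := by omega
        simp only [e1, and_self, dite_true]
        have h12 := h9 (i - t).toNat (by omega)
        rw [Cst.mem_tp]
        convert h12 using 2
        rw [Val_cast, hs]
        have e3 : (((i - t).toNat : ℕ) : ℤ) = i - t := by omega
        rw [e3]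
        ring)
    (by
      intro k
      refine ⟨k, ?_⟩
      rintro y y' hyy ⟨h1, h2⟩
      constructor
      · have : wd y' (-(k : ℤ)) (2 * k) = wd y (-(k : ℤ)) (2 * k) := by
          apply Cst.wd_congr'
          intro j hj1 hj2
          refine (hyy _ ?_).symm
          rw [abs_le]
          push_cast at hj2
          constructor <;> linarith
        rw [this]
        exact h1
      · intro i hi1 hi2
        rw [← hyy i (by rw [abs_le]; constructor <;> omega)]
        exact h2 i hi1 hi2)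
  refine Val_iff.2 ⟨y, Cst.mem_of_legal fun k => (hy k).1, fun i => ?_⟩
  exact (hy (i.natAbs + 1)).2 i (by omega) (by omega)

theorem V_closed {n : ℕ} {x : ℤ → Lt} {c : ℤ}
    (h : ∀ N : ℕ, ∃ x' : ℤ → Lt, (∀ i : ℤ, |i| ≤ N → x' i = x i) ∧ V n x' c) : V n x c := by
  apply Cst.valid_closed
  intro N
  obtain ⟨x', h1, h2⟩ := h N
  exact ⟨x', fun i hi1 hi2 => h1 i (by rw [abs_le]; constructor <;> linarith), h2⟩

theorem V_invalid {n : ℕ} {x : ℤ → Lt} {c : ℤ} (h : ¬ V n x c) :
    ∃ N : ℕ, ∀ x' : ℤ → Lt, (∀ i : ℤ, |i| ≤ N → x' i = x i) → ¬ V n x' c := by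
  by_contra hcon
  push Not at hcon
  exact h (V_closed hcon)

/-- inclusion of types goes up -/
theorem ty_up_tle {n M : ℕ} (hn : 1 ≤ n) (hM : n ≤ M) {x x' : ℤ → Lt} {c c' : ℤ}
    (hc : (13 : ℤ) ^ n ∣ c' - c)
    (h : ∀ i : ℤ, tle (ty n x (c + i * 13 ^ n)) (ty n x' (c + i * 13 ^ n))) (i : ℤ) :
    tle (ty M x (c' + i * 13 ^ M)) (ty M x' (c' + i * 13 ^ M)) := by
  induction M, hM using Nat.le_induction generalizing i with
  | base =>
    obtain ⟨d, hd⟩ := hc
    have e : c' + i * 13 ^ n = c + (d + i) * 13 ^ n := by linarith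
    rw [e]
    exact h _
  | succ M hM ih =>
    apply ty_mono (by omega)
    intro o
    have e : c' + i * 13 ^ (M + 1) + (o.1 : ℤ) * 13 ^ M = c' + (i * 13 + o.1) * 13 ^ M := by
      rw [pow_succ]
      ring
    rw [e]
    exact ih _

/-- equality of types goes up -/
theorem ty_up_eq {n M : ℕ} (hn : 1 ≤ n) (hM : n ≤ M) {x x' : ℤ → Lt} {c c' : ℤ}
    (hc : (13 : ℤ) ^ n ∣ c' - c)
    (h : ∀ i : ℤ, ty n x (c + i * 13 ^ n) = ty n x' (c + i * 13 ^ n)) (i : ℤ) :
    ty M x (c' + i * 13 ^ M) = ty M x' (c' + i * 13 ^ M) := by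
  apply tle_antisymm
  · exact ty_up_tle hn hM hc (fun i => by rw [h i]; exact tle_refl _) i
  · exact ty_up_tle hn hM hc (fun i => by rw [h i]; exact tle_refl _) i

/-- nonempty types go down -/
theorem ty_down_ne {n M : ℕ} (hn : 1 ≤ n) (hM : n ≤ M) {x : ℤ → Lt} {c c' : ℤ}
    (hc : (13 : ℤ) ^ n ∣ c' - c) (h : ∀ i : ℤ, ty M x (c' + i * 13 ^ M) ≠ none) (i : ℤ) :
    ty n x (c + i * 13 ^ n) ≠ none := by
  induction M, hM using Nat.le_induction generalizing i with
  | base =>
    obtain ⟨d, hd⟩ := hc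
    have e : c + i * 13 ^ n = c' + (i - d) * 13 ^ n := by linarith
    rw [e]
    exact h _
  | succ M hM ih =>
    apply ih
    intro m
    have h1 := ty_succ_ne (by omega : 1 ≤ M) (h (m / 13)) ⟨(m % 13).toNat, by omega⟩
    have e : c' + m / 13 * 13 ^ (M + 1) + (((m % 13).toNat : ℕ) : ℤ) * 13 ^ M = c' + m * 13 ^ M := by
      have e1 : (((m % 13).toNat : ℕ) : ℤ) = m % 13 := by omega
      rw [e1, pow_succ]
      have e2 : m / 13 * (13 ^ M * 13) + m % 13 * 13 ^ M = (13 * (m / 13) + m % 13) * (13 : ℤ) ^ M := by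
        ring
      rw [add_assoc, e2, Int.mul_ediv_add_emod]
    rw [← e]
    exact h1

/-- closedness of `X` -/
theorem X_closed {x : ℤ → Lt} (h : ∀ N : ℕ, ∃ y ∈ X, ∀ i : ℤ, |i| ≤ N → y i = x i) : x ∈ X :=
  mem_subshift_of_local h

theorem X_sh {x : ℤ → Lt} (k : ℤ) : sh k x ∈ X ↔ x ∈ X := by
  constructor
  · intro h
    have h1 := Cst.sh_mem h (-k)
    rwa [sh_sh, neg_add_cancel, sh_zero] at h1
  · intro h
    exact Cst.sh_mem h k

end H35.RS.RF
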