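import Pool.Agent.H35.RF.Defs

/-! # W1: basic facts on the words -/

namespace H35.RS.RF
open H35.RS H35.RS.Up

theorem mem_th {a : Lt} {v : List Lt} : v ∈ th a ↔ ∃ w ∈ ths a, List.ofFn w = v := by
  unfold th
  simp

theorem ofFn_mem_th {a : Lt} {w : Fin 13 → Lt} : List.ofFn w ∈ th a ↔ w ∈ ths a := by
  rw [mem_th]
  constructor
  · rintro ⟨w', h, he⟩
    rwa [← List.ofFn_injective he]
  · intro h
    exact ⟨w, h, rfl⟩

theorem mem_ths {a : Lt} {w : Fin 13 → Lt} :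
    w ∈ ths a ↔ w ∈ Vs a.1 ∨ ∃ d : Col, a.2 ≠ some d ∧ w ∈ Us a.1 d := by
  unfold ths
  simp only [List.mem_append, List.mem_flatMap, List.mem_finRange, true_and]
  constructor
  · rintro (h | ⟨d, h⟩)
    · exact Or.inl h
    · right
      by_cases hd : a.2 = some d
      · rw [if_pos hd] at h
        exact absurd h (by simp)
      · rw [if_neg hd] at h
        exact ⟨d, hd, h⟩
  · rintro (h | ⟨d, hd, h⟩)
    · exact Or.inl h
    · right
      refine ⟨d, ?_⟩
      rw [if_neg hd]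
      exact h

theorem th_len : ∀ a, ∀ v ∈ th a, v.length = 13 := by
  intro a v hv
  obtain ⟨w, -, rfl⟩ := mem_th.1 hv
  simp

theorem perm0 : ∀ c : Bool, ∀ l : Fin 12,
    (List.ofFn (W 0 c 0 (some l))).Perm (List.ofFn (W 0 c 1 none)) := by
  decide +kernel

theorem perm1 : ∀ c : Bool, ∀ l : Fin 12,
    (List.ofFn (W 0 c 1 (some l))).Perm (List.ofFn (W 0 c 1 none)) := by
  decide +kernel

theorem perm2 : ∀ c : Bool, ∀ l : Fin 12,
    (List.ofFn (W 1 c 2 (some l))).Perm (List.ofFn (W 0 c 1 none)) := by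
  decide +kernel

theorem perm3 : ∀ c : Bool, ∀ l : Fin 12,
    (List.ofFn (W 1 c 3 (some l))).Perm (List.ofFn (W 0 c 1 none)) := by
  decide +kernel

theorem perm4 : ∀ c : Bool, ∀ l : Fin 12, l ≠ 1 →
    (List.ofFn (W 2 c 0 (some l))).Perm (List.ofFn (W 0 c 1 none)) := by
  decide +kernel

theorem perm5 : ∀ c : Bool, ∀ l : Fin 12, l ≠ 1 →
    (List.ofFn (W 2 c 1 (some l))).Perm (List.ofFn (W 0 c 1 none)) := by
  decide +kernel

theorem perm6 : ∀ c : Bool,
    (List.ofFn (W 0 c 0 none)).Perm (List.ofFn (W 0 c 1 none)) ∧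
    (List.ofFn (W 1 c 3 none)).Perm (List.ofFn (W 0 c 1 none)) ∧
    (List.ofFn (W 1 c 2 none)).Perm (List.ofFn (W 0 c 1 none)) ∧
    (List.ofFn (W 2 c 1 none)).Perm (List.ofFn (W 0 c 1 none)) ∧
    (List.ofFn (W 2 c 0 none)).Perm (List.ofFn (W 0 c 1 none)) := by
  decide +kernel

theorem mem_Us {c : Bool} {d : Col} {w : Fin 13 → Lt} : w ∈ Us c d ↔
    (d = 0 ∧ w = W 0 c 1 none) ∨ (d = 1 ∧ w = W 0 c 0 none) ∨
    (d = 2 ∧ (w = W 1 c 3 none ∨ w = W 2 c 1 none)) ∨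
    (d = 3 ∧ (w = W 1 c 2 none ∨ w = W 2 c 0 none)) := by
  fin_cases d <;> simp [Us]

theorem mem_Vs {c : Bool} {w : Fin 13 → Lt} : w ∈ Vs c ↔
    (∃ l, w = W 0 c 0 (some l)) ∨ (∃ l, w = W 0 c 1 (some l)) ∨ (∃ l, w = W 1 c 2 (some l)) ∨
    (∃ l, w = W 1 c 3 (some l)) ∨ (∃ l, l ≠ 1 ∧ w = W 2 c 0 (some l)) ∨
    (∃ l, l ≠ 1 ∧ w = W 2 c 1 (some l)) := by
  unfold Vs
  simp only [List.mem_append, List.mem_map, List.mem_finRange, true_and, List.mem_filter,
    decide_not, Bool.not_eq_eq_eq_not, Bool.not_true, decide_eq_false_iff_not, or_assoc,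
    eq_comm (a := w)]

theorem ths_perm : ∀ a : Lt, ∀ w ∈ ths a, (List.ofFn w).Perm (List.ofFn (W 0 a.1 1 none)) := by
  intro a w hw
  rcases mem_ths.1 hw with h | ⟨d, -, h⟩
  · rcases mem_Vs.1 h with ⟨l, rfl⟩ | ⟨l, rfl⟩ | ⟨l, rfl⟩ | ⟨l, rfl⟩ | ⟨l, hl, rfl⟩ | ⟨l, hl, rfl⟩
    · exact perm0 _ _
    · exact perm1 _ _
    · exact perm2 _ _
    · exact perm3 _ _
    · exact perm4 _ _ hl
    · exact perm5 _ _ hl
  · obtain ⟨h0, h1, h2, h3, h4⟩ := perm6 a.1
    rcases mem_Us.1 h with ⟨-, rfl⟩ | ⟨-, rfl⟩ | ⟨-, rfl | rfl⟩ | ⟨-, rfl | rfl⟩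
    · exact List.Perm.refl _
    · exact h0
    · exact h1
    · exact h3
    · exact h2
    · exact h4

theorem th_random : IsRandomSub th := by
  intro a
  constructor
  · refine ⟨List.ofFn (W 0 a.1 0 (some 0)), ofFn_mem_th.2 (mem_ths.2 (Or.inl ?_))⟩
    unfold Vs
    simp
  · intro v hv h
    have := th_len a v hv
    rw [h] at this
    simp at this

theorem th_compatible : Compatible th := by
  intro a v hv v' hv'
  obtain ⟨w, hw, rfl⟩ := mem_th.1 hv
  obtain ⟨w', hw', rfl⟩ := mem_th.1 hv'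
  exact (ths_perm a w hw).trans (ths_perm a w' hw').symm

theorem all_letters : ∀ a b : Lt, a ∈ List.ofFn (W 0 b.1 1 none) := by
  decide +kernel

/-- every letter occurs in every word -/
theorem letter_mem {a b : Lt} {w : Fin 13 → Lt} (h : w ∈ ths b) : ∃ o, w o = a := by
  have h1 := (ths_perm b w h).symm.subset (all_letters a b)
  exact (List.mem_ofFn).1 h1

theorem once_aux {α : Type} [DecidableEq α] {n : ℕ} {w r : Fin n → α}
    (hp : (List.ofFn w).Perm (List.ofFn r)) {a : α} (h : List.count a (List.ofFn r) = 1)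
    {o o' : Fin n} (ho : w o = a) (ho' : w o' = a) : o = o' := by
  have h1 : List.count a (List.ofFn w) = 1 := by
    rw [hp.count_eq]
    exact h
  by_contra hne
  have h2 : 2 ≤ List.count a (List.ofFn w) := by
    rw [← List.duplicate_iff_two_le_count, List.duplicate_iff_exists_distinct_get]
    rcases lt_or_gt_of_ne (fun h => hne (Fin.ext h) : o.1 ≠ o'.1) with hlt | hlt
    · refine ⟨⟨o.1, by simp⟩, ⟨o'.1, by simp⟩, hlt, ?_, ?_⟩
      · rw [List.get_eq_getElem, List.getElem_ofFn]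
        exact ho.symm
      · rw [List.get_eq_getElem, List.getElem_ofFn]
        exact ho'.symm
    · refine ⟨⟨o'.1, by simp⟩, ⟨o.1, by simp⟩, hlt, ?_, ?_⟩
      · rw [List.get_eq_getElem, List.getElem_ofFn]
        exact ho'.symm
      · rw [List.get_eq_getElem, List.getElem_ofFn]
        exact ho.symm
  omega

theorem count_one : ∀ (κ : Bool) (d : Col) (c : Bool),
    @List.count Lt instBEqOfDecidableEq (κ, some d) (List.ofFn (W 0 c 1 none)) = 1 := by
  decide +kernel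

/-- every letter (not `d`) occurs only once in every word -/
theorem letter_once {b : Lt} {w : Fin 13 → Lt} (h : w ∈ ths b) {κ : Bool} {d : Col} {o o' : Fin 13}
    (ho : w o = (κ, some d)) (ho' : w o' = (κ, some d)) : o = o' :=
  once_aux (ths_perm b w h) (count_one κ d b.1) ho ho'

theorem th_primitive : Primitive th := by
  refine ⟨1, le_rfl, fun a b => ?_⟩
  obtain ⟨v, hv⟩ := (th_random b).1
  refine ⟨v, ?_, ?_⟩
  · exact mem_pow_succ.2 ⟨[b], rfl, mem_imgW_single.2 hv⟩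
  · obtain ⟨w, hw, rfl⟩ := mem_th.1 hv
    obtain ⟨o, ho⟩ := letter_mem (a := a) hw
    exact (List.mem_ofFn).2 ⟨o, ho⟩

end H35.RS.RF
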